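import Pool.Agent.H64.CX.StmN

set_option autoImplicit false

/-! # CX-UBN (helper63) -/

namespace Pool.Agent.H64.CX

open Metric Set Filter Topology MeasureTheory
open scoped ENNReal

theorem ubn_div {a c G D : ℝ} (hG : 0 ≤ G) (hD : 0 ≤ D) (hc : 0 ≤ c) (h : a ≤ c * D) :
    a / (G * D) ≤ c / G := by
  rcases hD.eq_or_lt with rfl | hD0
  · rw [mul_zero, div_zero]; positivity
  · rcases hG.eq_or_lt with rfl | hG0
    · simp
    · rw [div_le_div_iff₀ (by positivity) hG0]
      nlinarith [mul_le_mul_of_nonneg_left h hG0.le]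

theorem ubn_sin (α : ℂ) : 1 / (‖Complex.Gamma α‖ ^ 2 * ‖Complex.Gamma (1 - α)‖ ^ 2) =
    ‖Complex.sin (Real.pi * α)‖ ^ 2 / Real.pi ^ 2 := by
  have h := congrArg norm (Complex.Gamma_mul_Gamma_one_sub α)
  rw [norm_mul, norm_div, Complex.norm_real, Real.norm_of_nonneg Real.pi_pos.le] at h
  rw [← mul_pow, h, one_div, ← inv_pow, inv_div, div_pow]

/-- the pointwise bound -/
theorem ubn_pt (hF : S_FCH) {α : ℂ} (hr : α.re ≤ 0) (hn : ‖α‖ ≤ 3 / 8) (σ : ℝ) {x s : ℝ}
    (hx : 0 < x) (hs0 : 0 < s) (hs1 : s < 1) :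
    DD α σ x s ≤ ‖Complex.sin (Real.pi * α)‖ ^ 2 / Real.pi ^ 2 *
      (s ^ (1 + -(2 * α.re)) * (1 - s) ^ (σ - -(2 * α.re)) *
        (1 / ‖1 - α‖ ^ 2 * (x * (1 + x) ^ (-σ) * (1 / (s + x) + 1 / (1 + x - s)) ^ 2) +
        (101 / 100 - 1 / ‖1 - α‖ ^ 2) *
          (x * (1 + x) ^ (-(1 + σ)) * (1 / (s + x) + 1 / (1 + x - s)) ^ 2))) := by
  have hx1 : 0 < 1 + x := by linarith
  have h1 := hF α x hr hn hx
  set F : ℝ := 1 / ‖1 - α‖ ^ 2 with hFd
  have hne : 1 ≤ ‖1 - α‖ := by
    have : (1 - α).re ≤ ‖1 - α‖ := Complex.re_le_norm _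
    simp at this
    linarith
  have hF0 : 0 ≤ F := by positivity
  have hF1 : F ≤ 1 := by
    rw [hFd, div_le_one (by positivity)]
    nlinarith
  have hfac : 0 ≤ F + (101 / 100 - F) / (1 + x) := by
    have : 0 ≤ (101 / 100 - F) / (1 + x) := div_nonneg (by linarith) hx1.le
    linarith
  have hX : 0 ≤ x * (1 + x) ^ (-σ) := by positivity
  have h2 : x * (1 + x) ^ (-(σ + 2 * α.re)) / (‖Complex.Gamma α‖ ^ 2 *
      ‖((1 + x : ℝ) : ℂ) ^ (1 - α) - (x : ℂ) ^ (1 - α)‖ ^ 2) ≤
      (x * (1 + x) ^ (-σ) * (F + (101 / 100 - F) / (1 + x))) / ‖Complex.Gamma α‖ ^ 2 := by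
    refine ubn_div (by positivity) (by positivity) (by positivity) ?_
    have h3 : (1 + x) ^ (-(σ + 2 * α.re)) = (1 + x) ^ (-σ) * (1 + x) ^ (-(2 * α.re)) := by
      rw [← Real.rpow_add hx1]; congr 1; ring
    rw [h3]
    calc x * ((1 + x) ^ (-σ) * (1 + x) ^ (-(2 * α.re)))
        = x * (1 + x) ^ (-σ) * (1 + x) ^ (-(2 * α.re)) := by ring
      _ ≤ x * (1 + x) ^ (-σ) * ((F + (101 / 100 - F) / (1 + x)) *
          ‖((1 + x : ℝ) : ℂ) ^ (1 - α) - (x : ℂ) ^ (1 - α)‖ ^ 2) :=
          mul_le_mul_of_nonneg_left h1 hX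
      _ = _ := by ring
  have hs2 : 0 < 1 - s := by linarith
  unfold DD
  have hW : 0 ≤ s ^ (1 - 2 * α.re) * (1 - s) ^ (σ + 2 * α.re) / ‖Complex.Gamma (1 - α)‖ ^ 2 := by
    positivity
  have hk : 0 ≤ (1 / (s + x) + 1 / (1 + x - s)) ^ 2 := sq_nonneg _
  refine (mul_le_mul_of_nonneg_right (mul_le_mul_of_nonneg_right h2 hW) hk).trans (le_of_eq ?_)
  rw [← ubn_sin, show 1 + -(2 * α.re) = 1 - 2 * α.re by ring,
    show σ - -(2 * α.re) = σ + 2 * α.re by ring]
  have h4 : (1 + x) ^ (-(1 + σ)) = (1 + x) ^ (-σ) / (1 + x) := by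
    rw [show -(1 + σ) = -σ - 1 by ring, Real.rpow_sub hx1, Real.rpow_one]
  rw [h4]
  simp only [mul_inv, div_eq_mul_inv]
  ring

theorem ubn_lin {μ : Measure ℝ} (c a b : ℝ≥0∞) {f g : ℝ → ℝ≥0∞} (hf : Measurable f)
    (hg : Measurable g) : ∫⁻ x, c * (a * f x + b * g x) ∂μ =
      c * (a * ∫⁻ x, f x ∂μ + b * ∫⁻ x, g x ∂μ) := by
  have h1 : Measurable (fun x => a * f x) := measurable_const.mul hf
  have h2 : Measurable (fun x => b * g x) := measurable_const.mul hg
  have h3 : Measurable (fun x => a * f x + b * g x) := h1.add h2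
  rw [lintegral_const_mul c h3, lintegral_add_left h1, lintegral_const_mul a hf,
    lintegral_const_mul b hg]

theorem ubn : S_UBN := by
  intro hSIN hFCH hLA hLB hLC hLD hNUM α hα hr hn
  set e : ℝ := -α.re with he
  have he0 : 0 ≤ e := by rw [he]; linarith
  set N : ℝ := ‖α‖ ^ 2 with hN
  have hNe : N = e ^ 2 + α.im ^ 2 := by
    rw [hN, Complex.sq_norm, Complex.normSq_apply, he]; ring
  have hN0 : 0 < N := by
    have := norm_pos_iff.2 hα
    positivity
  have hN1 : N ≤ 9 / 64 := by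
    rw [hN]; nlinarith [norm_nonneg α]
  have heN : e ^ 2 ≤ N := by rw [hNe]; nlinarith [sq_nonneg α.im]
  have he1 : e ≤ 3 / 8 := by nlinarith
  set σ : ℝ := 20 / 9 * N with hσ
  have hσ0 : 0 < σ := by positivity
  have hσ1 : σ ≤ 1 := by rw [hσ]; linarith
  have hP : -(2 * α.re) = 2 * e := by rw [he]; ring
  have hQ : 9 / 16 ≤ 1 + σ - 2 * e := by
    rw [hσ]; nlinarith
  set M : ℝ := ‖1 - α‖ ^ 2 with hM
  have hM' : M = 1 + 2 * e + N := by
    rw [hM, hNe, Complex.sq_norm, Complex.normSq_apply, he]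
    simp
    ring
  have hM1 : 1 ≤ M := by rw [hM']; linarith
  have hM0 : 0 < M := by linarith
  set F1 : ℝ := 1 / M with hF1
  have hF10 : 0 ≤ F1 := by positivity
  have hF11 : F1 ≤ 1 := by rw [hF1, div_le_one hM0]; exact hM1
  set F2 : ℝ := 101 / 100 - F1 with hF2
  have hF20 : 0 ≤ F2 := by rw [hF2]; linarith
  set A : ℝ := 4 / σ * Bh (2 * e) (1 + σ - 2 * e) + L0 (1 + σ - 2 * e) with hA
  set B : ℝ := L1 (1 + σ - 2 * e) with hB
  set Sα : ℝ := ‖Complex.sin (Real.pi * α)‖ ^ 2 / Real.pi ^ 2 with hS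
  have hS0 : 0 ≤ Sα := by positivity
  set Q : ℝ := 1 + σ - 2 * e with hQd
  have hQ0 : 0 < Q := by linarith
  have hBh : 0 ≤ Bh (2 * e) Q := by
    unfold Bh
    have h1 : 2 * e * Q / (Q + 2) ≤ 1 := by
      rw [div_le_one (by positivity)]
      nlinarith
    have h2 : 0 ≤ 1 - 2 * e * Q / (Q + 2) := by linarith
    positivity
  have hA0 : 0 ≤ A := by
    rw [hA]
    have : 0 ≤ L0 Q := by unfold L0; positivity
    positivity
  have hB0 : 0 ≤ B := by
    rw [hB]
    unfold L1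
    have : 1 / (Q + 1) ^ 2 ≤ 1 / Q ^ 2 := by
      apply one_div_le_one_div_of_le (by positivity)
      nlinarith
    have h2 : 0 ≤ 1 / Q ^ 2 - 1 / (Q + 1) ^ 2 := by linarith
    positivity
  -- the kernels
  set k1 : ℝ → ℝ → ℝ := fun x s => x * (1 + x) ^ (-σ) * (1 / (s + x) + 1 / (1 + x - s)) ^ 2 with hk1
  set k2 : ℝ → ℝ → ℝ := fun x s =>
    x * (1 + x) ^ (-(1 + σ)) * (1 / (s + x) + 1 / (1 + x - s)) ^ 2 with hk2
  set w : ℝ → ℝ := fun s => s ^ (1 + 2 * e) * (1 - s) ^ (σ - 2 * e) with hw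
  have hm1 : Measurable (Function.uncurry k1) := by
    simp only [hk1, Function.uncurry_def]
    fun_prop
  have hm2 : Measurable (Function.uncurry k2) := by
    simp only [hk2, Function.uncurry_def]
    fun_prop
  have hmw : Measurable w := by
    simp only [hw]
    fun_prop
  have hpt : ∀ x ∈ Ioi (0 : ℝ), ∀ s ∈ Ioo (0 : ℝ) 1, ENNReal.ofReal (DD α σ x s) ≤
      ENNReal.ofReal Sα * (ENNReal.ofReal (w s) * (ENNReal.ofReal F1 * ENNReal.ofReal (k1 x s) +
        ENNReal.ofReal F2 * ENNReal.ofReal (k2 x s))) := by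
    intro x hx s hs
    have hx0 : (0 : ℝ) < x := hx
    have h1 := ubn_pt hFCH hr hn σ hx0 hs.1 hs.2
    rw [hP] at h1
    have hs2 : 0 < 1 - s := by linarith [hs.2]
    have hw0 : 0 ≤ w s := by
      simp only [hw]
      have := hs.1
      positivity
    have hk10 : 0 ≤ k1 x s := by simp only [hk1]; positivity
    have hk20 : 0 ≤ k2 x s := by simp only [hk2]; positivity
    rw [← ENNReal.ofReal_mul hF10, ← ENNReal.ofReal_mul hF20,
      ← ENNReal.ofReal_add (mul_nonneg hF10 hk10) (mul_nonneg hF20 hk20),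
      ← ENNReal.ofReal_mul hw0, ← ENNReal.ofReal_mul hS0]
    exact ENNReal.ofReal_le_ofReal h1
  calc ∫⁻ x in Ioi (0 : ℝ), ∫⁻ s in Ioo (0 : ℝ) 1, ENNReal.ofReal (DD α σ x s)
      ≤ ∫⁻ x in Ioi (0 : ℝ), ∫⁻ s in Ioo (0 : ℝ) 1, ENNReal.ofReal Sα *
        (ENNReal.ofReal (w s) * (ENNReal.ofReal F1 * ENNReal.ofReal (k1 x s) +
        ENNReal.ofReal F2 * ENNReal.ofReal (k2 x s))) :=
        setLIntegral_mono' measurableSet_Ioi fun x hx =>
          setLIntegral_mono' measurableSet_Ioo fun s hs => hpt x hx s hs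
    _ = ∫⁻ s in Ioo (0 : ℝ) 1, ∫⁻ x in Ioi (0 : ℝ), ENNReal.ofReal Sα *
        (ENNReal.ofReal (w s) * (ENNReal.ofReal F1 * ENNReal.ofReal (k1 x s) +
        ENNReal.ofReal F2 * ENNReal.ofReal (k2 x s))) := by
        apply lintegral_lintegral_swap
        apply Measurable.aemeasurable
        refine measurable_const.mul ((hmw.comp measurable_snd).ennreal_ofReal.mul ?_)
        exact (measurable_const.mul hm1.ennreal_ofReal).add
          (measurable_const.mul hm2.ennreal_ofReal)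
    _ ≤ ∫⁻ s in Ioo (0 : ℝ) 1, ENNReal.ofReal Sα *
        (ENNReal.ofReal F1 * ENNReal.ofReal (w s * (4 / σ + max 0 (Real.log (1 / s) - 2) +
          max 0 (Real.log (1 / (1 - s)) - 2))) +
        ENNReal.ofReal F2 * ENNReal.ofReal (w s * (Real.log (1 / s) + Real.log (1 / (1 - s)) +
          3 / 2 + 4 / 3 * (s * (1 - s))))) := by
        refine setLIntegral_mono' measurableSet_Ioo fun s hs => ?_
        have hs2 : 0 < 1 - s := by linarith [hs.2]
        have hw0 : 0 ≤ w s := by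
          simp only [hw]
          have := hs.1
          positivity
        have hms1 : Measurable (fun x => ENNReal.ofReal (k1 x s)) :=
          (hm1.comp (measurable_id.prodMk measurable_const)).ennreal_ofReal
        have hms2 : Measurable (fun x => ENNReal.ofReal (k2 x s)) :=
          (hm2.comp (measurable_id.prodMk measurable_const)).ennreal_ofReal
        have e1 : ∫⁻ x in Ioi (0 : ℝ), ENNReal.ofReal Sα *
            (ENNReal.ofReal (w s) * (ENNReal.ofReal F1 * ENNReal.ofReal (k1 x s) +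
            ENNReal.ofReal F2 * ENNReal.ofReal (k2 x s))) = ENNReal.ofReal Sα *
            (ENNReal.ofReal (w s) * (ENNReal.ofReal F1 * (∫⁻ x in Ioi (0 : ℝ),
              ENNReal.ofReal (k1 x s)) + ENNReal.ofReal F2 * (∫⁻ x in Ioi (0 : ℝ),
              ENNReal.ofReal (k2 x s)))) := by
          simp only [← mul_assoc (ENNReal.ofReal Sα)]
          exact ubn_lin _ _ _ hms1 hms2
        rw [e1, ENNReal.ofReal_mul hw0, ENNReal.ofReal_mul hw0]
        have a1 := hLA σ s hσ0 hs.1 hs.2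
        have a2 := hLB σ s hσ0.le hs.1 hs.2
        calc ENNReal.ofReal Sα * (ENNReal.ofReal (w s) *
              (ENNReal.ofReal F1 * (∫⁻ x in Ioi (0 : ℝ), ENNReal.ofReal (k1 x s)) +
              ENNReal.ofReal F2 * (∫⁻ x in Ioi (0 : ℝ), ENNReal.ofReal (k2 x s))))
            ≤ ENNReal.ofReal Sα * (ENNReal.ofReal (w s) *
              (ENNReal.ofReal F1 * ENNReal.ofReal (4 / σ + max 0 (Real.log (1 / s) - 2) +
                max 0 (Real.log (1 / (1 - s)) - 2)) +
              ENNReal.ofReal F2 * ENNReal.ofReal (Real.log (1 / s) + Real.log (1 / (1 - s)) +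
                3 / 2 + 4 / 3 * (s * (1 - s))))) := by
              gcongr
          _ = _ := by ring
    _ = ENNReal.ofReal Sα *
        (ENNReal.ofReal F1 * (∫⁻ s in Ioo (0 : ℝ) 1, ENNReal.ofReal (w s * (4 / σ +
          max 0 (Real.log (1 / s) - 2) + max 0 (Real.log (1 / (1 - s)) - 2)))) +
        ENNReal.ofReal F2 * ∫⁻ s in Ioo (0 : ℝ) 1, ENNReal.ofReal (w s * (Real.log (1 / s) +
          Real.log (1 / (1 - s)) + 3 / 2 + 4 / 3 * (s * (1 - s))))) := by
        have hmA : Measurable (fun s => ENNReal.ofReal (w s * (4 / σ +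
            max 0 (Real.log (1 / s) - 2) + max 0 (Real.log (1 / (1 - s)) - 2)))) := by
          refine Measurable.ennreal_ofReal (hmw.mul ?_)
          fun_prop
        have hmB : Measurable (fun s => ENNReal.ofReal (w s * (Real.log (1 / s) +
            Real.log (1 / (1 - s)) + 3 / 2 + 4 / 3 * (s * (1 - s))))) := by
          refine Measurable.ennreal_ofReal (hmw.mul ?_)
          fun_prop
        exact ubn_lin _ _ _ hmA hmB
    _ ≤ ENNReal.ofReal Sα * (ENNReal.ofReal F1 * ENNReal.ofReal A +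
        ENNReal.ofReal F2 * ENNReal.ofReal B) := by
        have a1 := hLC (2 * e) σ (by linarith) (by linarith) hσ0 hσ1 hQ
        have a2 := hLD (2 * e) σ (by linarith) (by linarith) hσ0 hσ1 hQ
        gcongr
    _ = ENNReal.ofReal (Sα * (F1 * A + F2 * B)) := by
        rw [← ENNReal.ofReal_mul hF10, ← ENNReal.ofReal_mul hF20,
          ← ENNReal.ofReal_add (mul_nonneg hF10 hA0) (mul_nonneg hF20 hB0),
          ← ENNReal.ofReal_mul hS0]
    _ < 1 := by
        rw [ENNReal.ofReal_lt_one]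
        have h1 := hSIN (-α) (by simp; linarith) (by rw [norm_neg]; exact hn)
        have h2 : Complex.sin (Real.pi * -α) = -Complex.sin (Real.pi * α) := by
          rw [mul_neg, Complex.sin_neg]
        rw [h2, norm_neg, norm_neg, ← hN] at h1
        have h3 : (-α).im ^ 2 = N - e ^ 2 := by rw [hNe]; simp
        have h4 : (-α).re ^ 2 = e ^ 2 := by rw [he]; simp
        rw [h3, h4] at h1
        have h5 : Sα ≤ N * QQ (N - e ^ 2) (e ^ 2) := by
          rw [hS, div_le_iff₀ (by positivity)]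
          linarith
        have h6 := hNUM e N he0 he1 hN0.le hN1 heN
        rw [← hM', ← hσ, ← hQd] at h6
        have h7 : 0 ≤ F1 * A + F2 * B := by positivity
        refine lt_of_le_of_lt (mul_le_mul_of_nonneg_right h5 h7) ?_
        have h8 : N * QQ (N - e ^ 2) (e ^ 2) * (F1 * A + F2 * B) =
            QQ (N - e ^ 2) (e ^ 2) * (9 / 5 * Bh (2 * e) Q + N * L0 Q +
              (101 / 100 * M - 1) * N * L1 Q) / M := by
          rw [hF2, hF1, hA, hB, hσ]
          field_simp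
          ring
        rw [h8, div_lt_one hM0]
        exact h6

end Pool.Agent.H64.CX
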