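import Pool.Agent.H64.CX.StmN

set_option autoImplicit false

namespace Pool.Agent.H64.CX

open Metric Set Filter Topology MeasureTheory
open scoped ENNReal

namespace LCD

theorem lint {f G G' : ℝ → ℝ} {a b : ℝ} (hab : a ≤ b) (hG : Continuous G)
    (hd : ∀ x ∈ Ioo a b, HasDerivAt G (G' x) x) (hpos : ∀ x ∈ Ioo a b, 0 ≤ G' x)
    (hf1 : ∀ s ∈ Ioo (0 : ℝ) 1, s ∈ Ioo a b → f s ≤ G' s)
    (hf2 : ∀ s ∈ Ioo (0 : ℝ) 1, s ∉ Ioo a b → f s ≤ 0) :
    ∫⁻ s in Ioo (0 : ℝ) 1, ENNReal.ofReal (f s) ≤ ENNReal.ofReal (G b - G a) := by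
  have hint : IntegrableOn G' (Ioc a b) :=
    intervalIntegral.integrableOn_deriv_of_nonneg hG.continuousOn hd hpos
  have hval : ∫ x in a..b, G' x = G b - G a :=
    intervalIntegral.integral_eq_sub_of_hasDerivAt_of_le hab hG.continuousOn hd
      ((intervalIntegrable_iff_integrableOn_Ioc_of_le hab).2 hint)
  have hint' : IntegrableOn G' (Ioo a b) := hint.mono_set Ioo_subset_Ioc_self
  have h1 : ∫⁻ s in Ioo a b, ENNReal.ofReal (G' s) = ENNReal.ofReal (G b - G a) := by
    rw [← hval, intervalIntegral.integral_of_le hab, integral_Ioc_eq_integral_Ioo,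
      ofReal_integral_eq_lintegral_ofReal hint'
        ((ae_restrict_iff' measurableSet_Ioo).2 (Filter.Eventually.of_forall hpos))]
  rw [← h1]
  calc ∫⁻ s in Ioo (0 : ℝ) 1, ENNReal.ofReal (f s)
      ≤ ∫⁻ s in Ioo (0 : ℝ) 1, (Ioo a b).indicator (fun s => ENNReal.ofReal (G' s)) s := by
        refine setLIntegral_mono' measurableSet_Ioo fun s hs => ?_
        by_cases h : s ∈ Ioo a b
        · rw [indicator_of_mem h]
          exact ENNReal.ofReal_le_ofReal (hf1 s hs h)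
        · rw [indicator_of_notMem h, ENNReal.ofReal_of_nonpos (hf2 s hs h)]
    _ ≤ ∫⁻ s, (Ioo a b).indicator (fun s => ENNReal.ofReal (G' s)) s := setLIntegral_le_lintegral _ _
    _ = ∫⁻ s in Ioo a b, ENNReal.ofReal (G' s) := lintegral_indicator measurableSet_Ioo _

/-- reflected form -/
theorem lintR {f K K' : ℝ → ℝ} {c : ℝ} (hc0 : 0 ≤ c) (hK : Continuous K)
    (hd : ∀ t ∈ Ioo 0 c, HasDerivAt K (K' t) t) (hpos : ∀ t ∈ Ioo 0 c, 0 ≤ K' t)
    (hf1 : ∀ s ∈ Ioo (0 : ℝ) 1, 1 - s < c → f s ≤ K' (1 - s))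
    (hf2 : ∀ s ∈ Ioo (0 : ℝ) 1, c ≤ 1 - s → f s ≤ 0) :
    ∫⁻ s in Ioo (0 : ℝ) 1, ENNReal.ofReal (f s) ≤ ENNReal.ofReal (K c - K 0) := by
  have h := lint (f := f) (G := fun s => -K (1 - s)) (G' := fun s => K' (1 - s)) (a := 1 - c) (b := 1)
    (by linarith) (by fun_prop) ?_ ?_ ?_ ?_
  · simpa [sub_eq_add_neg, add_comm] using h
  · intro x hx
    have h1 : HasDerivAt (fun s => K (1 - s)) (K' (1 - x) * (-1)) x :=
      (hd (1 - x) ⟨by linarith [hx.2], by linarith [hx.1]⟩).comp x ((hasDerivAt_id x).const_sub 1)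
    exact h1.neg.congr_deriv (by ring)
  · intro x hx
    exact hpos (1 - x) ⟨by linarith [hx.2], by linarith [hx.1]⟩
  · intro s hs hs2
    exact hf1 s hs (by linarith [hs2.1])
  · intro s hs hs2
    refine hf2 s hs ?_
    by_contra h3
    exact hs2 ⟨by linarith [not_le.1 h3], hs.2⟩

/-- antiderivative of `t ^ (q - 1)` -/
noncomputable def JP (q t : ℝ) : ℝ := t ^ q / q

/-- antiderivative of `- t ^ (q - 1) log t` -/
noncomputable def LP (q t : ℝ) : ℝ := t ^ q / q ^ 2 - (t ^ q * Real.log (t ^ q)) / q ^ 2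

theorem pw_cont {q : ℝ} (hq : 0 < q) : Continuous fun t : ℝ => t ^ q :=
  continuous_id.rpow_const fun _ => Or.inr hq.le

theorem JP_cont {q : ℝ} (hq : 0 < q) : Continuous (JP q) := (pw_cont hq).div_const q

theorem LP_cont {q : ℝ} (hq : 0 < q) : Continuous (LP q) :=
  ((pw_cont hq).div_const _).sub ((Real.continuous_mul_log.comp (pw_cont hq)).div_const _)

theorem JP_deriv {q t : ℝ} (hq : 0 < q) (ht : 0 < t) : HasDerivAt (JP q) (t ^ (q - 1)) t := by
  have h1 := (Real.hasDerivAt_rpow_const (x := t) (p := q) (Or.inl ht.ne')).div_const q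
  refine h1.congr_deriv ?_
  field_simp

theorem LP_deriv {q t : ℝ} (hq : 0 < q) (ht : 0 < t) :
    HasDerivAt (LP q) (t ^ (q - 1) * (-Real.log t)) t := by
  have h1 := Real.hasDerivAt_rpow_const (x := t) (p := q) (Or.inl ht.ne')
  have h2 := Real.hasDerivAt_mul_log (Real.rpow_pos_of_pos ht q).ne'
  have h3 := h2.comp t h1
  have h4 := (h1.div_const (q ^ 2)).sub (h3.div_const (q ^ 2))
  refine h4.congr_deriv ?_
  rw [Real.log_rpow ht]
  field_simp
  ring

theorem JP_zero {q : ℝ} (hq : 0 < q) : JP q 0 = 0 := by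
  unfold JP
  rw [Real.zero_rpow hq.ne', zero_div]

theorem LP_zero {q : ℝ} (hq : 0 < q) : LP q 0 = 0 := by
  unfold LP
  rw [Real.zero_rpow hq.ne']
  simp

theorem JP_one {q : ℝ} : JP q 1 = 1 / q := by
  unfold JP
  rw [Real.one_rpow]

theorem LP_one {q : ℝ} : LP q 1 = 1 / q ^ 2 := by
  unfold LP
  rw [Real.one_rpow, Real.log_one]
  simp

theorem pw1 {Q t : ℝ} (ht : 0 < t) : t ^ (Q + 1 - 1) = t ^ (Q - 1) * t := by
  rw [show Q + 1 - 1 = (Q - 1) + 1 by ring, Real.rpow_add_one ht.ne']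

theorem pw2 {Q t : ℝ} (ht : 0 < t) : t ^ (Q + 2 - 1) = t ^ (Q - 1) * t * t := by
  rw [show Q + 2 - 1 = (Q - 1) + 1 + 1 by ring, Real.rpow_add_one ht.ne', Real.rpow_add_one ht.ne']

/-- Bernoulli -/
theorem bern {P s : ℝ} (hP0 : 0 ≤ P) (hP1 : P ≤ 1) (hs : 0 < s) :
    s ^ (1 + P) ≤ s * (1 - P * (1 - s)) := by
  rw [Real.rpow_add hs, Real.rpow_one]
  refine mul_le_mul_of_nonneg_left ?_ hs.le
  have h := rpow_one_add_le_one_add_mul_self (s := s - 1) (p := P) (by linarith) hP0 hP1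
  have e : 1 + (s - 1) = s := by ring
  rw [e] at h
  linarith

theorem pow_le_self {P s : ℝ} (hP0 : 0 ≤ P) (hs : 0 < s) (hs1 : s ≤ 1) : s ^ (1 + P) ≤ s := by
  have := Real.rpow_le_rpow_of_exponent_ge hs hs1 (by linarith : (1 : ℝ) ≤ 1 + P)
  rwa [Real.rpow_one] at this

theorem log_inv_eq (s : ℝ) : Real.log (1 / s) = -Real.log s := by
  rw [one_div, Real.log_inv]

end LCD

open LCD

theorem ld : S_LD := by
  intro P σ hP0 hP1 hσ0 hσ1 hQ'
  set Q := 1 + σ - P with hQdef
  have hQ : 0 < Q := by linarith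
  have hσP : σ - P = Q - 1 := by rw [hQdef]; ring
  set K : ℝ → ℝ := fun t => JP (Q + 1) t + (LP Q t - LP (Q + 1) t) +
    3 / 2 * (JP Q t - JP (Q + 1) t) + 4 / 3 * (JP (Q + 1) t - JP (Q + 2) t) with hK
  set K' : ℝ → ℝ := fun t => t ^ (Q + 1 - 1) + (t ^ (Q - 1) * (-Real.log t) -
    t ^ (Q + 1 - 1) * (-Real.log t)) + 3 / 2 * (t ^ (Q - 1) - t ^ (Q + 1 - 1)) +
    4 / 3 * (t ^ (Q + 1 - 1) - t ^ (Q + 2 - 1)) with hK'
  have hQ1 : 0 < Q + 1 := by linarith
  have hQ2 : 0 < Q + 2 := by linarith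
  have hKc : Continuous K := by
    have c1 := JP_cont hQ
    have c2 := JP_cont hQ1
    have c3 := JP_cont hQ2
    have c4 := LP_cont hQ
    have c5 := LP_cont hQ1
    simp only [hK]
    fun_prop
  have hKd : ∀ t ∈ Ioo (0 : ℝ) 1, HasDerivAt K (K' t) t := by
    intro t ht
    have c1 := JP_deriv hQ ht.1
    have c2 := JP_deriv hQ1 ht.1
    have c3 := JP_deriv hQ2 ht.1
    have c4 := LP_deriv hQ ht.1
    have c5 := LP_deriv hQ1 ht.1
    exact ((c2.add (c4.sub c5)).add ((c1.sub c2).const_mul (3 / 2))).add ((c2.sub c3).const_mul (4 / 3))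
  have hform : ∀ t : ℝ, 0 < t → K' t = t ^ (Q - 1) * (t + (1 - t) * (-Real.log t) + 3 / 2 * (1 - t) +
      4 / 3 * (t * (1 - t))) := by
    intro t ht
    simp only [hK']
    rw [pw1 ht, pw2 ht]
    ring
  have hnn : ∀ t ∈ Ioo (0 : ℝ) 1, 0 ≤ K' t := by
    intro t ht
    rw [hform t ht.1]
    have h1 := Real.log_nonpos ht.1.le ht.2.le
    have h2 : 0 ≤ (1 - t) * (-Real.log t) := mul_nonneg (by linarith [ht.2]) (by linarith)
    have h3 : 0 ≤ t * (1 - t) := mul_nonneg ht.1.le (by linarith [ht.2])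
    exact mul_nonneg (Real.rpow_nonneg ht.1.le _) (by linarith [ht.1, ht.2])
  have h := lintR (f := fun s => s ^ (1 + P) * (1 - s) ^ (σ - P) *
    (Real.log (1 / s) + Real.log (1 / (1 - s)) + 3 / 2 + 4 / 3 * (s * (1 - s)))) zero_le_one hKc hKd hnn
    ?_ ?_
  · refine h.trans (le_of_eq ?_)
    congr 1
    simp only [hK, JP_one, LP_one, JP_zero hQ, JP_zero hQ1, JP_zero hQ2, LP_zero hQ, LP_zero hQ1]
    unfold L1
    field_simp
    ring
  · intro s hs _
    have ht0 : 0 < 1 - s := by linarith [hs.2]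
    rw [hform _ ht0, hσP, log_inv_eq, log_inv_eq]
    have h1 := pow_le_self hP0 hs.1 hs.2.le
    have h2 : s * (-Real.log s) ≤ 1 - s := by
      have h3 := Real.log_le_sub_one_of_pos (inv_pos.2 hs.1)
      rw [Real.log_inv] at h3
      have h4 := mul_le_mul_of_nonneg_left h3 hs.1.le
      have h5 : s * (s⁻¹ - 1) = 1 - s := by
        field_simp [hs.1.ne']
      rw [h5] at h4
      exact h4
    have hl1 := Real.log_nonpos hs.1.le hs.2.le
    have hl2 := Real.log_nonpos ht0.le (by linarith [hs.1])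
    have hu : 0 ≤ (1 - s) ^ (Q - 1) := Real.rpow_nonneg ht0.le _
    have h6 : 0 ≤ s * (1 - s) := mul_nonneg hs.1.le ht0.le
    have h7 : 0 ≤ -Real.log s + -Real.log (1 - s) + 3 / 2 + 4 / 3 * (s * (1 - s)) := by linarith
    calc s ^ (1 + P) * (1 - s) ^ (Q - 1) * (-Real.log s + -Real.log (1 - s) + 3 / 2 +
          4 / 3 * (s * (1 - s)))
        = (1 - s) ^ (Q - 1) * (s ^ (1 + P) * (-Real.log s + -Real.log (1 - s) + 3 / 2 +
          4 / 3 * (s * (1 - s)))) := by ring
      _ ≤ (1 - s) ^ (Q - 1) * (s * (-Real.log s + -Real.log (1 - s) + 3 / 2 +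
          4 / 3 * (s * (1 - s)))) :=
          mul_le_mul_of_nonneg_left (mul_le_mul_of_nonneg_right h1 h7) hu
      _ ≤ _ := by
          refine mul_le_mul_of_nonneg_left ?_ hu
          have h8 : s * (s * (1 - s)) ≤ 1 * (s * (1 - s)) := mul_le_mul_of_nonneg_right hs.2.le h6
          nlinarith
  · intro s hs h3
    linarith [hs.1]

theorem lc : S_LC := by
  intro P σ hP0 hP1 hσ0 hσ1 hQ'
  set Q := 1 + σ - P with hQdef
  have hQ : 0 < Q := by linarith
  have hσP : σ - P = Q - 1 := by rw [hQdef]; ring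
  have hQ1 : 0 < Q + 1 := by linarith
  have hQ2 : 0 < Q + 2 := by linarith
  -- the constant
  set c : ℝ := Real.exp (-2) with hc
  have hc0 : 0 < c := Real.exp_pos _
  have hc7 : c ≤ 1 / 7 := by
    rw [hc, Real.exp_neg, inv_eq_one_div]
    refine one_div_le_one_div_of_le (by norm_num) ?_
    have h1 : Real.exp 2 = Real.exp 1 * Real.exp 1 := by rw [← Real.exp_add]; norm_num
    have h2 := Real.exp_one_gt_d9
    rw [h1]
    nlinarith
  have hlogc : Real.log c = -2 := by rw [hc, Real.log_exp]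
  -- the three parts
  set f1 : ℝ → ℝ := fun s => s ^ (1 + P) * (1 - s) ^ (σ - P) * (4 / σ) with hf1
  set f2 : ℝ → ℝ := fun s => s ^ (1 + P) * (1 - s) ^ (σ - P) * max 0 (Real.log (1 / s) - 2) with hf2
  set f3 : ℝ → ℝ := fun s => s ^ (1 + P) * (1 - s) ^ (σ - P) * max 0 (Real.log (1 / (1 - s)) - 2) with hf3
  have hm1 : Measurable f1 := by
    simp only [hf1]
    fun_prop
  have hm2 : Measurable f2 := by
    simp only [hf2]
    fun_prop
  have hsplit : ∫⁻ s in Ioo (0 : ℝ) 1, ENNReal.ofReal (s ^ (1 + P) * (1 - s) ^ (σ - P) *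
      (4 / σ + max 0 (Real.log (1 / s) - 2) + max 0 (Real.log (1 / (1 - s)) - 2))) ≤
      (∫⁻ s in Ioo (0 : ℝ) 1, ENNReal.ofReal (f1 s)) + ((∫⁻ s in Ioo (0 : ℝ) 1, ENNReal.ofReal (f2 s)) +
        ∫⁻ s in Ioo (0 : ℝ) 1, ENNReal.ofReal (f3 s)) := by
    rw [← lintegral_add_left hm2.ennreal_ofReal, ← lintegral_add_left hm1.ennreal_ofReal]
    refine lintegral_mono fun s => ?_
    have e : s ^ (1 + P) * (1 - s) ^ (σ - P) *
      (4 / σ + max 0 (Real.log (1 / s) - 2) + max 0 (Real.log (1 / (1 - s)) - 2)) =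
      f1 s + (f2 s + f3 s) := by
      simp only [hf1, hf2, hf3]
      ring
    rw [e]
    exact ENNReal.ofReal_add_le.trans (add_le_add le_rfl ENNReal.ofReal_add_le)
  -- first part
  have b1 : ∫⁻ s in Ioo (0 : ℝ) 1, ENNReal.ofReal (f1 s) ≤ ENNReal.ofReal (4 / σ * Bh P Q) := by
    set K : ℝ → ℝ := fun t => 4 / σ * (JP Q t - (1 + P) * JP (Q + 1) t + P * JP (Q + 2) t) with hK
    set K' : ℝ → ℝ := fun t => 4 / σ * (t ^ (Q - 1) - (1 + P) * t ^ (Q + 1 - 1) + P * t ^ (Q + 2 - 1))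
      with hK'
    have hKc : Continuous K := by
      have c1 := JP_cont hQ
      have c2 := JP_cont hQ1
      have c3 := JP_cont hQ2
      simp only [hK]
      fun_prop
    have hKd : ∀ t ∈ Ioo (0 : ℝ) 1, HasDerivAt K (K' t) t := by
      intro t ht
      have c1 := JP_deriv hQ ht.1
      have c2 := JP_deriv hQ1 ht.1
      have c3 := JP_deriv hQ2 ht.1
      exact ((c1.sub (c2.const_mul (1 + P))).add (c3.const_mul P)).const_mul (4 / σ)
    have hform : ∀ t : ℝ, 0 < t → K' t = 4 / σ * (t ^ (Q - 1) * ((1 - t) * (1 - P * t))) := by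
      intro t ht
      simp only [hK']
      rw [pw1 ht, pw2 ht]
      ring
    have hnn : ∀ t ∈ Ioo (0 : ℝ) 1, 0 ≤ K' t := by
      intro t ht
      rw [hform t ht.1]
      have h1 : P * t ≤ 1 := by nlinarith [ht.1, ht.2]
      exact mul_nonneg (by positivity) (mul_nonneg (Real.rpow_nonneg ht.1.le _)
        (mul_nonneg (by linarith [ht.2]) (by linarith)))
    have h := lintR (f := f1) zero_le_one hKc hKd hnn ?_ ?_
    · refine h.trans (le_of_eq ?_)
      congr 1
      simp only [hK, JP_one, JP_zero hQ, JP_zero hQ1, JP_zero hQ2]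
      unfold Bh
      field_simp
      ring
    · intro s hs _
      have ht0 : 0 < 1 - s := by linarith [hs.2]
      simp only [hf1]
      rw [hform _ ht0, hσP]
      have h1 := bern hP0 (by linarith) hs.1
      have hu : 0 ≤ (1 - s) ^ (Q - 1) := Real.rpow_nonneg ht0.le _
      have h4 : 0 ≤ 4 / σ := by positivity
      calc s ^ (1 + P) * (1 - s) ^ (Q - 1) * (4 / σ)
          ≤ (s * (1 - P * (1 - s))) * (1 - s) ^ (Q - 1) * (4 / σ) :=
            mul_le_mul_of_nonneg_right (mul_le_mul_of_nonneg_right h1 hu) h4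
        _ = _ := by ring
    · intro s hs h3
      linarith [hs.1]
  -- third part (small `1 - s`)
  have b3 : ∫⁻ s in Ioo (0 : ℝ) 1, ENNReal.ofReal (f3 s) ≤
      ENNReal.ofReal (1 / (Q ^ 2 * (1 + 2 * Q + 2 * Q ^ 2))) := by
    set K : ℝ → ℝ := fun t => LP Q t - 2 * JP Q t with hK
    set K' : ℝ → ℝ := fun t => t ^ (Q - 1) * (-Real.log t) - 2 * t ^ (Q - 1) with hK'
    have hKc : Continuous K := by
      have c1 := JP_cont hQ
      have c4 := LP_cont hQ
      simp only [hK]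
      fun_prop
    have hKd : ∀ t ∈ Ioo (0 : ℝ) c, HasDerivAt K (K' t) t := by
      intro t ht
      exact (LP_deriv hQ ht.1).sub ((JP_deriv hQ ht.1).const_mul 2)
    have hform : ∀ t : ℝ, K' t = t ^ (Q - 1) * (-Real.log t - 2) := by
      intro t
      simp only [hK']
      ring
    have hnn : ∀ t ∈ Ioo (0 : ℝ) c, 0 ≤ K' t := by
      intro t ht
      rw [hform t]
      have h1 := Real.log_le_log ht.1 ht.2.le
      rw [hlogc] at h1
      exact mul_nonneg (Real.rpow_nonneg ht.1.le _) (by linarith)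
    have h := lintR (f := f3) hc0.le hKc hKd hnn ?_ ?_
    · refine h.trans (ENNReal.ofReal_le_ofReal ?_)
      simp only [hK, JP_zero hQ, LP_zero hQ]
      unfold LP JP
      rw [Real.log_rpow hc0, hlogc]
      have e : c ^ Q / Q ^ 2 - c ^ Q * (Q * -2) / Q ^ 2 - 2 * (c ^ Q / Q) - (0 - 2 * 0) = c ^ Q / Q ^ 2 := by
        field_simp
        ring
      rw [e, hc, ← Real.exp_mul, show (-2 : ℝ) * Q = -(2 * Q) by ring, Real.exp_neg]
      have h1 := Real.quadratic_le_exp_of_nonneg (by linarith : (0 : ℝ) ≤ 2 * Q)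
      have h2 : 1 + 2 * Q + 2 * Q ^ 2 ≤ Real.exp (2 * Q) := by nlinarith
      have h3 : (Real.exp (2 * Q))⁻¹ ≤ 1 / (1 + 2 * Q + 2 * Q ^ 2) := by
        rw [inv_eq_one_div]
        exact one_div_le_one_div_of_le (by positivity) h2
      calc (Real.exp (2 * Q))⁻¹ / Q ^ 2 ≤ 1 / (1 + 2 * Q + 2 * Q ^ 2) / Q ^ 2 :=
            div_le_div_of_nonneg_right h3 (by positivity)
        _ = _ := by rw [div_div, mul_comm]
    · intro s hs hsc
      have ht0 : 0 < 1 - s := by linarith [hs.2]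
      simp only [hf3]
      rw [hform, hσP, log_inv_eq]
      have h1 := Real.log_le_log ht0 hsc.le
      rw [hlogc] at h1
      rw [max_eq_right (by linarith)]
      have h2 := (pow_le_self hP0 hs.1 hs.2.le).trans hs.2.le
      have hu : 0 ≤ (1 - s) ^ (Q - 1) * (-Real.log (1 - s) - 2) :=
        mul_nonneg (Real.rpow_nonneg ht0.le _) (by linarith)
      calc s ^ (1 + P) * (1 - s) ^ (Q - 1) * (-Real.log (1 - s) - 2)
          = s ^ (1 + P) * ((1 - s) ^ (Q - 1) * (-Real.log (1 - s) - 2)) := by ring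
        _ ≤ 1 * ((1 - s) ^ (Q - 1) * (-Real.log (1 - s) - 2)) := mul_le_mul_of_nonneg_right h2 hu
        _ = _ := one_mul _
    · intro s hs hsc
      simp only [hf3]
      have h1 := Real.log_le_log hc0 hsc
      rw [hlogc] at h1
      rw [log_inv_eq, max_eq_left (by linarith), mul_zero]
  -- second part (small `s`)
  have b2 : ∫⁻ s in Ioo (0 : ℝ) 1, ENNReal.ofReal (f2 s) ≤ ENNReal.ofReal (1 / 100) := by
    set K : ℝ → ℝ := fun s => 7 / 6 * (s ^ 2 / 4 - s / 2 * (s * Real.log s) - s ^ 2) with hK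
    set K' : ℝ → ℝ := fun s => 7 / 6 * (s * (-Real.log s - 2)) with hK'
    have hKc : Continuous K := by
      have := Real.continuous_mul_log
      simp only [hK]
      fun_prop
    have hKd : ∀ s ∈ Ioo (0 : ℝ) c, HasDerivAt K (K' s) s := by
      intro s hs
      have h1 := Real.hasDerivAt_mul_log hs.1.ne'
      have h2 : HasDerivAt (fun s : ℝ => s / 2) (1 / 2) s := (hasDerivAt_id s).div_const 2
      have h3 := h2.mul h1
      have h4 := (hasDerivAt_pow 2 s)
      have h5 := (((h4.div_const 4).sub h3).sub h4).const_mul (7 / 6)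
      refine h5.congr_deriv ?_
      simp only [hK']
      norm_num
      ring
    have hnn : ∀ s ∈ Ioo (0 : ℝ) c, 0 ≤ K' s := by
      intro s hs
      simp only [hK']
      have h1 := Real.log_le_log hs.1 hs.2.le
      rw [hlogc] at h1
      exact mul_nonneg (by norm_num) (mul_nonneg hs.1.le (by linarith))
    have h := lint (f := f2) hc0.le hKc hKd hnn ?_ ?_
    · refine h.trans (ENNReal.ofReal_le_ofReal ?_)
      simp only [hK]
      rw [hlogc]
      have : c ^ 2 ≤ (1 / 7) ^ 2 := pow_le_pow_left₀ hc0.le hc7 2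
      norm_num at this ⊢
      nlinarith
    · intro s hs hsc
      simp only [hf2, hK']
      rw [hσP, log_inv_eq]
      have h1 := Real.log_le_log hsc.1 hsc.2.le
      rw [hlogc] at h1
      rw [max_eq_right (by linarith)]
      have ht0 : 0 < 1 - s := by linarith [hs.2]
      have hs7 : s ≤ 1 / 7 := hsc.2.le.trans hc7
      have h2 := pow_le_self hP0 hs.1 hs.2.le
      have h3 : (1 - s) ^ (Q - 1) ≤ 7 / 6 := by
        have h4 := Real.rpow_le_rpow_of_exponent_ge ht0 (by linarith [hs.1]) (by linarith : (-1 : ℝ) ≤ Q - 1)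
        rw [Real.rpow_neg_one, inv_eq_one_div] at h4
        refine h4.trans ?_
        rw [div_le_iff₀ ht0]
        linarith
      have hu : 0 ≤ -Real.log s - 2 := by linarith
      have hs0 : 0 ≤ s ^ (1 + P) := Real.rpow_nonneg hs.1.le _
      calc s ^ (1 + P) * (1 - s) ^ (Q - 1) * (-Real.log s - 2)
          ≤ s * (7 / 6) * (-Real.log s - 2) :=
            mul_le_mul_of_nonneg_right (mul_le_mul h2 h3 (Real.rpow_nonneg ht0.le _) hs.1.le) hu
        _ = _ := by ring
    · intro s hs hsc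
      simp only [hf2]
      have hcs : c ≤ s := by
        by_contra h3
        exact hsc ⟨hs.1, not_le.1 h3⟩
      have h1 := Real.log_le_log hc0 hcs
      rw [hlogc] at h1
      rw [log_inv_eq, max_eq_left (by linarith), mul_zero]
  refine hsplit.trans ((add_le_add b1 (add_le_add b2 b3)).trans (le_of_eq ?_))
  have hB : 0 ≤ 4 / σ * Bh P Q := by
    unfold Bh
    have h1 : P * Q / (Q + 2) ≤ 1 := by
      rw [div_le_one hQ2]
      nlinarith
    exact mul_nonneg (by positivity) (mul_nonneg (by positivity) (by linarith))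
  rw [← ENNReal.ofReal_add (by norm_num) (by positivity), ← ENNReal.ofReal_add hB (by positivity)]
  congr 1
  unfold L0
  ring

end Pool.Agent.H64.CX
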