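import Pool.Agent.H64.CX.StmA

set_option autoImplicit false

/-! # CX-AREA: the area inequality for `(ψ(1/z) - ψ(1/ζ)) ^ (-α)` -/

namespace Pool.Agent.H64.CX

open Metric Set Filter Topology MeasureTheory
open scoped ENNReal
open Pool.Agent.W677.Mar Pool.Agent.W5h41.MA
open Pool.Agent.H33R3.Bom (J)

namespace AREA

theorem bt_succ (α : ℂ) (n : ℕ) : bt α (n + 1) * ((n : ℂ) + 1) = bt α n * (α + n) := by
  unfold bt
  rw [Finset.prod_range_succ]
  have : ((n : ℂ) + 1) ≠ 0 := by exact_mod_cast Nat.succ_ne_zero n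
  field_simp

theorem one_sub_mem {x : ℂ} (hx : ‖x‖ < 1) : 1 - x ∈ Complex.slitPlane := by
  have := Complex.mem_slitPlane_of_norm_lt_one (z := -x) (by rwa [norm_neg])
  rwa [← sub_eq_add_neg] at this

/-- derivative of the power -/
theorem pw_deriv (β : ℂ) {x : ℂ} (hx : ‖x‖ < 1) :
    HasDerivAt (fun x : ℂ => Complex.exp (-β * Complex.log (1 - x)))
      (β * Complex.exp (-(β + 1) * Complex.log (1 - x))) x := by
  have h0 : (1 : ℂ) - x ≠ 0 := Complex.slitPlane_ne_zero (one_sub_mem hx)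
  have h1 : HasDerivAt (fun x : ℂ => 1 - x) (-1) x := by
    simpa using (hasDerivAt_id x).const_sub 1
  have h2 := (((h1.clog (one_sub_mem hx)).const_mul (-β))).cexp
  refine h2.congr_deriv ?_
  have h3 : Complex.exp (-(β + 1) * Complex.log (1 - x))
      = Complex.exp (-β * Complex.log (1 - x)) * (1 - x)⁻¹ := by
    rw [show -(β + 1) * Complex.log (1 - x) = -β * Complex.log (1 - x) + -Complex.log (1 - x) by
      ring, Complex.exp_add, Complex.exp_neg (Complex.log _), Complex.exp_log h0]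
  rw [h3]
  field_simp

theorem pw_iter (α : ℂ) (n : ℕ) : ∀ x ∈ ball (0 : ℂ) 1,
    iteratedDeriv n (fun x : ℂ => Complex.exp (-α * Complex.log (1 - x))) x
      = (n.factorial : ℂ) * bt α n * Complex.exp (-(α + n) * Complex.log (1 - x)) := by
  induction n with
  | zero =>
    intro x _
    simp [bt]
  | succ n ih =>
    intro x hx
    rw [iteratedDeriv_succ]
    have hev : iteratedDeriv n (fun x : ℂ => Complex.exp (-α * Complex.log (1 - x))) =ᶠ[𝓝 x]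
        fun x => (n.factorial : ℂ) * bt α n * Complex.exp (-(α + n) * Complex.log (1 - x)) := by
      filter_upwards [isOpen_ball.mem_nhds hx] with y hy using ih y hy
    rw [hev.deriv_eq]
    have h1 := (pw_deriv (α + n) (mem_ball_zero_iff.1 hx)).const_mul ((n.factorial : ℂ) * bt α n)
    rw [h1.deriv, Nat.factorial_succ]
    have h2 := bt_succ α n
    push_cast
    have h3 : -(α + (n : ℂ) + 1) = -(α + ((n : ℂ) + 1)) := by ring
    rw [h3]
    linear_combination (-(n.factorial : ℂ) *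
      Complex.exp (-(α + ((n : ℂ) + 1)) * Complex.log (1 - x))) * h2

/-- the binomial series -/
theorem pw_hasSum (α : ℂ) {x : ℂ} (hx : ‖x‖ < 1) :
    HasSum (fun j : ℕ => bt α j * x ^ j) (Complex.exp (-α * Complex.log (1 - x))) := by
  have hd : DifferentiableOn ℂ (fun x : ℂ => Complex.exp (-α * Complex.log (1 - x)))
      (ball 0 1) := fun y hy =>
    (pw_deriv α (mem_ball_zero_iff.1 hy)).differentiableAt.differentiableWithinAt
  have h1 := Complex.hasSum_taylorSeries_on_ball hd (mem_ball_zero_iff.2 hx)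
  refine h1.congr_fun ?_ |> fun h => h
  intro n
  rw [pw_iter α n 0 (mem_ball_self one_pos)]
  have : (n.factorial : ℂ) ≠ 0 := by exact_mod_cast n.factorial_ne_zero
  simp only [smul_eq_mul, sub_zero, Complex.log_one, mul_zero, Complex.exp_zero, mul_one]
  field_simp

/-- geometric bound of the coefficients -/
theorem coef_bound {κ : ℕ → ℂ} {F : ℂ → ℂ}
    (hκ : ∀ z ∈ ball (0 : ℂ) 1, HasSum (fun b : ℕ => κ b * z ^ b) (F z)) {r : ℝ} (hr0 : 0 < r)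
    (hr1 : r < 1) : ∃ M : ℝ, 0 ≤ M ∧ ∀ b, ‖κ b‖ * r ^ b ≤ M := by
  have hz : ((r : ℝ) : ℂ) ∈ ball (0 : ℂ) 1 := by
    rw [mem_ball_zero_iff, Complex.norm_real, Real.norm_of_nonneg hr0.le]
    exact hr1
  have h1 := (hκ _ hz).summable.tendsto_atTop_zero.norm
  rw [norm_zero] at h1
  obtain ⟨M, hM⟩ := h1.bddAbove_range
  refine ⟨max M 0, le_max_right _ _, fun b => ?_⟩
  have h2 : ‖κ b * ((r : ℝ) : ℂ) ^ b‖ ≤ M := hM ⟨b, rfl⟩
  rw [norm_mul, norm_pow, Complex.norm_real, Real.norm_of_nonneg hr0.le] at h2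
  exact h2.trans (le_max_left _ _)

section

variable {α ζ : ℂ} {κ Cp Cn : ℕ → ℂ} {F : ℂ → ℂ} {B : ℝ}

/-- the double family is summable -/
theorem dbl
    (hκ : ∀ z ∈ ball (0 : ℂ) 1, HasSum (fun b : ℕ => κ b * z ^ b) (F z)) {z : ℂ}
    (hz1 : ‖ζ‖ < ‖z‖) (hz : ‖z‖ < 1) :
    HasSum (fun p : ℕ × ℕ => (κ p.1 * z ^ p.1) * (bt α p.2 * (ζ * z⁻¹) ^ p.2))
      (F z * Complex.exp (-α * Complex.log (1 - ζ * z⁻¹))) := by
  have hz0 : 0 < ‖z‖ := (norm_nonneg _).trans_lt hz1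
  have hx : ‖ζ * z⁻¹‖ < 1 := by
    rw [norm_mul, norm_inv, ← div_eq_mul_inv, div_lt_one hz0]
    exact hz1
  have h1 := hκ z (mem_ball_zero_iff.2 hz)
  have h2 := pw_hasSum α hx
  have s1 : Summable fun b : ℕ => ‖κ b * z ^ b‖ := h1.summable.norm
  have s2 : Summable fun j : ℕ => ‖bt α j * (ζ * z⁻¹) ^ j‖ := h2.summable.norm
  have s3 := summable_mul_of_summable_norm s1 s2
  have h3 := s3.hasSum
  rw [← tsum_mul_tsum_of_summable_norm s1 s2, h1.tsum_eq, h2.tsum_eq] at h3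
  exact h3

/-- the coefficients of nonnegative index -/
theorem cp_summable (hB : ∀ j, ‖bt α j‖ ≤ B)
    (hκ : ∀ z ∈ ball (0 : ℂ) 1, HasSum (fun b : ℕ => κ b * z ^ b) (F z))
    (hp : ∀ n, HasSum (fun j : ℕ => κ (n + j) * bt α j * ζ ^ j) (Cp n)) (hζ : ‖ζ‖ < 1) {z : ℂ}
    (hz : ‖z‖ < 1) : Summable fun n : ℕ => Cp n * z ^ n := by
  obtain ⟨r, hr1, hr2⟩ := exists_between (max_lt hζ hz)
  have hζr : ‖ζ‖ < r := (le_max_left _ _).trans_lt hr1
  have hzr : ‖z‖ < r := (le_max_right _ _).trans_lt hr1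
  have hr0 : 0 < r := (norm_nonneg _).trans_lt hζr
  obtain ⟨M, hM0, hM⟩ := coef_bound hκ hr0 hr2
  have hq : ‖‖ζ‖ / r‖ < 1 := by
    rw [Real.norm_of_nonneg (by positivity), div_lt_one hr0]
    exact hζr
  have hκb : ∀ b, ‖κ b‖ ≤ M / r ^ b := fun b => by
    rw [le_div_iff₀ (by positivity)]
    exact hM b
  have hcp : ∀ n, ‖Cp n‖ ≤ M * B / r ^ n * (1 - ‖ζ‖ / r)⁻¹ := by
    intro n
    refine (hp n).norm_le_of_bounded ((hasSum_geometric_of_norm_lt_one hq).mul_left _) fun j => ?_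
    rw [norm_mul, norm_mul, norm_pow]
    calc ‖κ (n + j)‖ * ‖bt α j‖ * ‖ζ‖ ^ j ≤ M / r ^ (n + j) * B * ‖ζ‖ ^ j := by
          apply mul_le_mul_of_nonneg_right _ (by positivity)
          exact mul_le_mul (hκb _) (hB j) (norm_nonneg _) (by positivity)
      _ = M * B / r ^ n * (‖ζ‖ / r) ^ j := by
          rw [pow_add, div_pow]
          field_simp
  have hq2 : ‖‖z‖ / r‖ < 1 := by
    rw [Real.norm_of_nonneg (by positivity), div_lt_one hr0]
    exact hzr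
  refine Summable.of_norm_bounded
    ((summable_geometric_of_norm_lt_one hq2).mul_left (M * B * (1 - ‖ζ‖ / r)⁻¹)) fun n => ?_
  rw [norm_mul, norm_pow]
  calc ‖Cp n‖ * ‖z‖ ^ n ≤ M * B / r ^ n * (1 - ‖ζ‖ / r)⁻¹ * ‖z‖ ^ n :=
        mul_le_mul_of_nonneg_right (hcp n) (by positivity)
    _ = M * B * (1 - ‖ζ‖ / r)⁻¹ * (‖z‖ / r) ^ n := by
        rw [div_pow]
        field_simp

/-- the coefficients of negative index -/
theorem cn_bound (hB0 : 0 ≤ B) (hB : ∀ j, ‖bt α j‖ ≤ B)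
    (hκ : ∀ z ∈ ball (0 : ℂ) 1, HasSum (fun b : ℕ => κ b * z ^ b) (F z))
    (hn : ∀ k, HasSum (fun b : ℕ => κ b * bt α (b + k) * ζ ^ (b + k)) (Cn k)) (hζ : ‖ζ‖ < 1) :
    ∃ C : ℝ, 0 ≤ C ∧ ∀ k, ‖Cn k‖ ≤ C * ‖ζ‖ ^ k := by
  have hs : Summable fun b : ℕ => ‖κ b * ζ ^ b‖ :=
    (hκ ζ (mem_ball_zero_iff.2 hζ)).summable.norm
  refine ⟨B * ∑' b, ‖κ b * ζ ^ b‖, mul_nonneg hB0 (tsum_nonneg fun _ => norm_nonneg _),
    fun k => ?_⟩
  have h1 := (hs.hasSum.mul_left (B * ‖ζ‖ ^ k))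
  have h2 : ‖Cn k‖ ≤ B * ‖ζ‖ ^ k * ∑' b, ‖κ b * ζ ^ b‖ := by
    refine (hn k).norm_le_of_bounded h1 fun b => ?_
    rw [norm_mul, norm_mul, norm_pow, norm_mul, norm_pow, pow_add]
    calc ‖κ b‖ * ‖bt α (b + k)‖ * (‖ζ‖ ^ b * ‖ζ‖ ^ k)
        ≤ ‖κ b‖ * B * (‖ζ‖ ^ b * ‖ζ‖ ^ k) := by
          apply mul_le_mul_of_nonneg_right _ (by positivity)
          exact mul_le_mul_of_nonneg_left (hB _) (norm_nonneg _)
      _ = B * ‖ζ‖ ^ k * (‖κ b‖ * ‖ζ‖ ^ b) := by ring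
  refine h2.trans (le_of_eq ?_)
  ring

/-- negative Laurent coefficients -/
noncomputable def dn (Cn : ℕ → ℂ) (k : ℕ) : ℂ := if k = 0 then 0 else Cn k

/-- the first part of the index set -/
def i1 (p : ℕ × ℕ) : ℕ × ℕ := (p.1 + p.2, p.2)

/-- the second part of the index set -/
def i2 (p : ℕ × ℕ) : ℕ × ℕ := (p.2, p.2 + (p.1 + 1))

theorem inj1 : Function.Injective i1 := by
  rintro ⟨a, b⟩ ⟨c, d⟩ h
  simp only [i1, Prod.mk.injEq] at h
  ext <;> simp <;> omega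

theorem inj2 : Function.Injective i2 := by
  rintro ⟨a, b⟩ ⟨c, d⟩ h
  simp only [i2, Prod.mk.injEq] at h
  ext <;> simp <;> omega

theorem compl12 : IsCompl (Set.range i1) (Set.range i2) := by
  constructor
  · rw [Set.disjoint_left]
    rintro _ ⟨⟨a, b⟩, rfl⟩ ⟨⟨c, d⟩, h⟩
    simp only [i1, i2, Prod.mk.injEq] at h
    omega
  · rw [codisjoint_iff_le_sup]
    rintro ⟨a, b⟩ _
    rcases Nat.lt_or_ge a b with h | h
    · right
      refine ⟨(b - a - 1, a), ?_⟩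
      simp only [i2, Prod.mk.injEq, true_and]
      omega
    · left
      refine ⟨(a - b, b), ?_⟩
      simp only [i1, Prod.mk.injEq, and_true]
      omega

/-- the Laurent series on the annulus -/
theorem laurent (hκ : ∀ z ∈ ball (0 : ℂ) 1, HasSum (fun b : ℕ => κ b * z ^ b) (F z))
    (hp : ∀ n, HasSum (fun j : ℕ => κ (n + j) * bt α j * ζ ^ j) (Cp n))
    (hn : ∀ k, HasSum (fun b : ℕ => κ b * bt α (b + k) * ζ ^ (b + k)) (Cn k)) {z : ℂ}
    (hz1 : ‖ζ‖ < ‖z‖) (hz : ‖z‖ < 1) :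
    ∑' n : ℕ, Cp n * z ^ n + ∑' k : ℕ, dn Cn k * (z⁻¹) ^ k =
      F z * Complex.exp (-α * Complex.log (1 - ζ * z⁻¹)) := by
  have hz0 : z ≠ 0 := norm_pos_iff.1 ((norm_nonneg _).trans_lt hz1)
  have h0 := dbl (α := α) hκ hz1 hz
  set f : ℕ × ℕ → ℂ := fun p => (κ p.1 * z ^ p.1) * (bt α p.2 * (ζ * z⁻¹) ^ p.2) with hf
  have s1 : Summable (f ∘ i1) := h0.summable.comp_injective inj1
  have s2 : Summable (f ∘ i2) := h0.summable.comp_injective inj2
  have t1 : HasSum (fun n : ℕ => Cp n * z ^ n) (∑' p, (f ∘ i1) p) := by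
    refine s1.hasSum.prod_fiberwise fun n => ?_
    refine ((hp n).mul_right (z ^ n)).congr_fun ?_ |> fun h => h
    intro j
    simp only [hf, Function.comp, i1]
    rw [mul_pow, pow_add, inv_pow]
    have : z ^ j ≠ 0 := pow_ne_zero _ hz0
    field_simp
  have t2 : HasSum (fun k : ℕ => Cn (k + 1) * (z⁻¹) ^ (k + 1)) (∑' p, (f ∘ i2) p) := by
    refine s2.hasSum.prod_fiberwise fun k => ?_
    refine ((hn (k + 1)).mul_right ((z⁻¹) ^ (k + 1))).congr_fun ?_ |> fun h => h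
    intro b
    simp only [hf, Function.comp, i2]
    rw [mul_pow, pow_add (z⁻¹) b]
    have : z ^ b * (z⁻¹) ^ b = 1 := by rw [← mul_pow, mul_inv_cancel₀ hz0, one_pow]
    linear_combination (κ b * bt α (b + (k + 1)) * ζ ^ (b + (k + 1)) * (z⁻¹) ^ (k + 1)) * this
  have t3 : HasSum (fun k : ℕ => dn Cn k * (z⁻¹) ^ k) (∑' p, (f ∘ i2) p) := by
    have := (hasSum_nat_add_iff (f := fun k : ℕ => dn Cn k * (z⁻¹) ^ k)
      (g := ∑' p, (f ∘ i2) p) 1).1 (by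
        refine t2.congr_fun ?_ |> fun h => h
        intro k
        simp [dn])
    simpa [dn] using this
  rw [t1.tsum_eq, t3.tsum_eq]
  have t4 := HasSum.add_isCompl (f := f) compl12 (inj1.hasSum_range_iff.2 s1.hasSum)
    (inj2.hasSum_range_iff.2 s2.hasSum)
  exact t4.unique h0

end

theorem enn (a : ℂ) (n : ℕ) : (n : ℝ≥0∞) * ‖a‖ₑ ^ 2 = ENNReal.ofReal ((n : ℝ) * ‖a‖ ^ 2) := by
  rw [ENNReal.ofReal_mul (by positivity), ENNReal.ofReal_pow (norm_nonneg _),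
    ofReal_norm, ENNReal.ofReal_natCast]

end AREA

open AREA

theorem area : S_AREA := by
  intro hbtu Y H f α S L hα0 hα1 ζ hζ hζ0 κ Cp Cn hκ hp hn
  have hnζ : ‖ζ‖ < 1 := mem_ball_zero_iff.1 hζ
  have hpos : 0 < ‖ζ‖ := norm_pos_iff.2 hζ0
  obtain ⟨B, hB0, hB'⟩ := hbtu α
  have hB : ∀ j, ‖bt α j‖ ≤ B := by
    intro j
    refine (hB' j).trans ?_
    have h1 : ((j : ℝ) + 1) ^ (α.re - 1) ≤ 1 :=
      Real.rpow_le_one_of_one_le_of_nonpos (by linarith [Nat.cast_nonneg (α := ℝ) j]) (by linarith)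
    calc B * ((j : ℝ) + 1) ^ (α.re - 1) ≤ B * 1 := mul_le_mul_of_nonneg_left h1 hB0
      _ = B := mul_one B
  obtain ⟨C, hC0, hC⟩ := cn_bound hB0 hB hκ hn hnζ
  have hdn : ∀ k, ‖dn Cn k‖ ≤ C * ‖ζ‖ ^ k := by
    intro k
    unfold dn
    split_ifs with h
    · rw [norm_zero]; positivity
    · exact hC k
  have hkd : ∀ k : ℕ, (k : ℝ) * ‖dn Cn k‖ ^ 2 = (k : ℝ) * ‖Cn k‖ ^ 2 := by
    intro k
    rcases Nat.eq_zero_or_pos k with h | h
    · subst h; simp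
    · unfold dn
      rw [if_neg h.ne']
  set A : ℂ → ℂ := fun z => ∑' n : ℕ, Cp n * z ^ n with hA
  have hAs : ∀ z ∈ ball (0 : ℂ) 1, HasSum (fun k : ℕ => Cp k * z ^ k) (A z) := fun z hz =>
    (cp_summable hB hκ hp hnζ (mem_ball_zero_iff.1 hz)).hasSum
  have hcl : ∀ z : ℂ, ‖ζ‖ < ‖z‖ → ‖z‖ < 1 →
      A z + ∑' k : ℕ, dn Cn k * (z⁻¹) ^ k = Complex.exp (-α * ell f ζ z) := by
    intro z hz1 hz2
    rw [hA]
    simp only
    rw [laurent hκ hp hn hz1 hz2, ← Complex.exp_add]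
    unfold ell
    congr 1
    ring
  have key : ∀ R : ℝ, ‖ζ‖ < R → R < 1 → ∀ N : ℕ,
      ∑ k ∈ Finset.range N, (k : ℝ) * ‖Cp k‖ ^ 2 * R ^ (2 * k) ≤
      ∑' k : ℕ, (k : ℝ) * ‖dn Cn k‖ ^ 2 * (R⁻¹) ^ (2 * k) := by
    intro R hR hR1 N
    have hR0 : 0 < R := hpos.trans hR
    obtain ⟨g1, g2, g3⟩ := Pool.Agent.H643R3.BomC4.taskC4 R ‖ζ‖ C Cp (dn Cn) A hpos hR hR1
      (by simp [dn]) hAs hdn
    have g4 := area_pow S L hR1 hζ0 hR (-α)
    have hnc : ∀ t : ℝ, ‖circleMap 0 R t‖ = R := fun t => by simp [abs_of_pos hR0]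
    have hAo : IsOpen {z : ℂ | ‖ζ‖ < ‖z‖ ∧ ‖z‖ < 1} :=
      (isOpen_lt continuous_const continuous_norm).inter (isOpen_lt continuous_norm continuous_const)
    have hJ : J R (fun z => A z + ∑' k : ℕ, dn Cn k * (z⁻¹) ^ k)
        (deriv fun z => A z + ∑' k : ℕ, dn Cn k * (z⁻¹) ^ k) =
        J R (fun z => Complex.exp (-α * ell f ζ z))
          (deriv fun z => Complex.exp (-α * ell f ζ z)) := by
      unfold J
      congr 1
      apply intervalIntegral.integral_congr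
      intro t _
      have hm : ‖ζ‖ < ‖circleMap 0 R t‖ ∧ ‖circleMap 0 R t‖ < 1 := by
        rw [hnc]; exact ⟨hR, hR1⟩
      have hev : (fun z => A z + ∑' k : ℕ, dn Cn k * (z⁻¹) ^ k) =ᶠ[𝓝 (circleMap 0 R t)]
          fun z => Complex.exp (-α * ell f ζ z) := by
        filter_upwards [hAo.mem_nhds hm] with z hz using hcl z hz.1 hz.2
      show (starRingEnd ℂ) (A (circleMap 0 R t) + ∑' k : ℕ, dn Cn k * ((circleMap 0 R t)⁻¹) ^ k) *
          (circleMap 0 R t * deriv (fun z => A z + ∑' k : ℕ, dn Cn k * (z⁻¹) ^ k)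
            (circleMap 0 R t)) = _
      rw [hev.deriv_eq, hcl _ hm.1 hm.2]
    rw [← hJ, g3] at g4
    have hpi : 0 < 2 * Real.pi := by positivity
    have g5 : ∑' k : ℕ, (k : ℝ) * ‖Cp k‖ ^ 2 * R ^ (2 * k) ≤
        ∑' k : ℕ, (k : ℝ) * ‖dn Cn k‖ ^ 2 * (R⁻¹) ^ (2 * k) := by
      by_contra hcon
      push Not at hcon
      have := mul_pos hpi (sub_pos.2 hcon)
      linarith
    exact (g1.sum_le_tsum _ (fun k _ => by positivity)).trans g5
  -- the bound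
  obtain ⟨R0, hR01, hR02⟩ := exists_between hnζ
  have hR00 : 0 < R0 := hpos.trans hR01
  have hx1 : ‖(‖ζ‖ / R0) ^ 2‖ < 1 := by
    rw [Real.norm_of_nonneg (by positivity)]
    apply pow_lt_one₀ (by positivity) _ two_ne_zero
    rw [div_lt_one hR00]
    exact hR01
  have hbs : Summable fun k : ℕ => C ^ 2 * ((k : ℝ) * ((‖ζ‖ / R0) ^ 2) ^ k) :=
    (hasSum_coe_mul_geometric_of_norm_lt_one hx1).summable.mul_left _
  have hbd : ∀ R : ℝ, R0 ≤ R → ∀ k : ℕ, ‖(k : ℝ) * ‖dn Cn k‖ ^ 2 * (R⁻¹) ^ (2 * k)‖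
      ≤ C ^ 2 * ((k : ℝ) * ((‖ζ‖ / R0) ^ 2) ^ k) := by
    intro R hR k
    have hRp : 0 < R := hR00.trans_le hR
    rw [Real.norm_of_nonneg (by positivity)]
    calc (k : ℝ) * ‖dn Cn k‖ ^ 2 * (R⁻¹) ^ (2 * k)
        ≤ (k : ℝ) * (C * ‖ζ‖ ^ k) ^ 2 * (R0⁻¹) ^ (2 * k) := by
          apply mul_le_mul
          · apply mul_le_mul_of_nonneg_left _ (Nat.cast_nonneg k)
            exact pow_le_pow_left₀ (norm_nonneg _) (hdn k) 2
          · apply pow_le_pow_left₀ (by positivity)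
            exact inv_anti₀ hR00 hR
          · positivity
          · positivity
      _ = C ^ 2 * ((k : ℝ) * ((‖ζ‖ / R0) ^ 2) ^ k) := by
          rw [mul_pow, div_pow, ← pow_mul, div_pow, ← pow_mul, ← pow_mul, inv_pow, mul_comm k 2]
          field_simp
  have hsum1 : Summable fun k : ℕ => (k : ℝ) * ‖dn Cn k‖ ^ 2 := by
    refine Summable.of_norm_bounded hbs fun k => ?_
    have h2 := hbd 1 hR02.le k
    simpa using h2
  have hRt : Tendsto (fun R : ℝ => ∑' k : ℕ, (k : ℝ) * ‖dn Cn k‖ ^ 2 * (R⁻¹) ^ (2 * k)) (𝓝[<] 1)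
      (𝓝 (∑' k : ℕ, (k : ℝ) * ‖dn Cn k‖ ^ 2)) := by
    refine tendsto_tsum_of_dominated_convergence hbs (fun k => ?_) ?_
    · have hc1 : ContinuousAt (fun R : ℝ => (k : ℝ) * ‖dn Cn k‖ ^ 2 * (R⁻¹) ^ (2 * k)) 1 := by
        exact continuousAt_const.mul ((continuousAt_inv₀ one_ne_zero).pow _)
      have := hc1.tendsto.mono_left (nhdsWithin_le_nhds (s := Iio 1))
      simpa using this
    · have hIoo : Ioo R0 1 ∈ 𝓝[<] (1 : ℝ) := Ioo_mem_nhdsLT hR02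
      filter_upwards [hIoo] with R hR k
      exact hbd R hR.1.le k
  have hfin : ∀ N : ℕ, ∑ k ∈ Finset.range N, (k : ℝ) * ‖Cp k‖ ^ 2 ≤
      ∑' k : ℕ, (k : ℝ) * ‖dn Cn k‖ ^ 2 := by
    intro N
    have hL : Tendsto (fun R : ℝ => ∑ k ∈ Finset.range N, (k : ℝ) * ‖Cp k‖ ^ 2 * R ^ (2 * k))
        (𝓝[<] 1) (𝓝 (∑ k ∈ Finset.range N, (k : ℝ) * ‖Cp k‖ ^ 2)) := by
      have hcont : Continuous (fun R : ℝ => ∑ k ∈ Finset.range N, (k : ℝ) * ‖Cp k‖ ^ 2 *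
          R ^ (2 * k)) := by fun_prop
      have := (hcont.tendsto 1).mono_left (nhdsWithin_le_nhds (s := Iio 1))
      simpa using this
    refine le_of_tendsto_of_tendsto hL hRt ?_
    have hIoo : Ioo ‖ζ‖ 1 ∈ 𝓝[<] (1 : ℝ) := Ioo_mem_nhdsLT hnζ
    filter_upwards [hIoo] with R hR
    exact key R hR.1 hR.2 N
  -- conclusion
  have hRHS : ∑' k : ℕ, (k : ℝ≥0∞) * ‖Cn k‖ₑ ^ 2
      = ENNReal.ofReal (∑' k : ℕ, (k : ℝ) * ‖dn Cn k‖ ^ 2) := by
    rw [ENNReal.ofReal_tsum_of_nonneg (fun k => by positivity) hsum1]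
    refine tsum_congr fun k => ?_
    rw [enn, hkd]
  rw [hRHS]
  apply ENNReal.tsum_le_of_sum_range_le
  intro N
  simp only [enn]
  rw [← ENNReal.ofReal_sum_of_nonneg (fun k _ => by positivity)]
  exact ENNReal.ofReal_le_ofReal (hfin N)

end Pool.Agent.H64.CX
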