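import Pool.Agent.H64.CX.Stm
import Pool.Agent.H64.BR.Pars33

set_option autoImplicit false

namespace Pool.Agent.H64.CX

open Metric Set Filter Topology MeasureTheory
open scoped ENNReal

/-- Parseval in `[0, ∞]` -/
theorem parsE {h : ℂ → ℂ} {b : ℕ → ℂ} {r : ℝ} (hr : 0 ≤ r)
    (hs : ∀ z : ℂ, ‖z‖ = r → HasSum (fun j => b j * z ^ j) (h z)) :
    ∫⁻ t in Ioc 0 (2 * Real.pi), ‖h (circleMap 0 r t)‖ₑ ^ 2 =
      ENNReal.ofReal (2 * Real.pi) * ∑' j, ENNReal.ofReal (r ^ 2) ^ j * ‖b j‖ₑ ^ 2 := by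
  have h1 := Pool.Agent.H64.BR.parsN hr hs
  have hcont := Pool.Agent.H64.BR.circ_cont hr hs
  have h2 : ∑' j, ENNReal.ofReal (r ^ 2) ^ j * ‖b j‖ₑ ^ 2 =
      ENNReal.ofReal ((2 * Real.pi)⁻¹ * ∫ t in (0:ℝ)..(2 * Real.pi), ‖h (circleMap 0 r t)‖ ^ 2) := by
    rw [← h1.tsum_eq, ENNReal.ofReal_tsum_of_nonneg (fun j => by positivity) h1.summable]
    refine tsum_congr fun j => ?_
    rw [ENNReal.ofReal_mul (by positivity), ENNReal.ofReal_pow (sq_nonneg r) j,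
      ENNReal.ofReal_pow (norm_nonneg _), ofReal_norm]
  rw [h2, ← ENNReal.ofReal_mul (by positivity), ← mul_assoc,
    mul_inv_cancel₀ (by positivity), one_mul, intervalIntegral.integral_of_le (by positivity),
    ofReal_integral_eq_lintegral_ofReal]
  · refine lintegral_congr fun t => ?_
    rw [ENNReal.ofReal_pow (norm_nonneg _), ofReal_norm]
  · exact ((hcont.norm.pow 2).intervalIntegrable 0 (2 * Real.pi)).1
  · exact Filter.Eventually.of_forall fun t => by simp only [Pi.zero_apply]; positivity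

theorem avg : S_AVG := by
  intro Tp Tn Cp Cn hp hn hineq x hx
  set r : ℝ := Real.sqrt x with hr
  have hr0 : 0 < r := Real.sqrt_pos.2 hx.1
  have hr2 : r ^ 2 = x := Real.sq_sqrt hx.1.le
  have hr1 : r < 1 := by
    have := hx.2
    nlinarith
  have hcirc : ∀ t : ℝ, ‖circleMap 0 r t‖ = r := fun t => by simp [abs_of_pos hr0]
  have hb : ∀ z : ℂ, ‖z‖ = r → z ∈ ball (0 : ℂ) 1 := fun z hz => by
    rw [mem_ball_zero_iff, hz]; exact hr1
  have hne : ∀ z : ℂ, ‖z‖ = r → z ≠ 0 := fun z hz => by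
    rw [← norm_ne_zero_iff, hz]; exact hr0.ne'
  have hsp : ∀ n : ℕ, ∀ z : ℂ, ‖z‖ = r → HasSum (fun j : ℕ => Tp n (n + j) * z ^ j) (Cp n z) :=
    fun n z hz => hp n z (hb z hz)
  have hsn : ∀ k : ℕ, ∀ z : ℂ, ‖z‖ = r → HasSum (fun m : ℕ => Tn k m * z ^ m) (Cn k z / z ^ k) := by
    intro k z hz
    have h1 := (hn k z (hb z hz)).div_const (z ^ k)
    have h2 : (fun m : ℕ => Tn k m * z ^ (m + k) / z ^ k) = fun m => Tn k m * z ^ m := by
      ext m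
      rw [pow_add, ← mul_assoc, mul_div_cancel_right₀ _ (pow_ne_zero _ (hne z hz))]
    rwa [h2] at h1
  have Pp : ∀ n : ℕ, ∫⁻ t in Ioc 0 (2 * Real.pi), ‖Cp n (circleMap 0 r t)‖ₑ ^ 2 =
      ENNReal.ofReal (2 * Real.pi) * ∑' j, ENNReal.ofReal x ^ j * ‖Tp n (n + j)‖ₑ ^ 2 := by
    intro n
    have := parsE hr0.le (hsp n)
    rwa [hr2] at this
  have Pn : ∀ k : ℕ, ∫⁻ t in Ioc 0 (2 * Real.pi),
      ‖Cn k (circleMap 0 r t) / circleMap 0 r t ^ k‖ₑ ^ 2 =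
      ENNReal.ofReal (2 * Real.pi) * ∑' m, ENNReal.ofReal x ^ m * ‖Tn k m‖ₑ ^ 2 := by
    intro k
    have := parsE hr0.le (hsn k)
    rwa [hr2] at this
  have hcp : ∀ n : ℕ, Continuous fun t : ℝ => Cp n (circleMap 0 r t) := fun n =>
    Pool.Agent.H64.BR.circ_cont hr0.le (hsp n)
  have hcn : ∀ n : ℕ, Continuous fun t : ℝ => Cn n (circleMap 0 r t) / circleMap 0 r t ^ n :=
    fun n => Pool.Agent.H64.BR.circ_cont hr0.le (hsn n)
  have hI : ∀ k : ℕ, ∀ t : ℝ, ‖Cn k (circleMap 0 r t)‖ₑ ^ 2 =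
      ENNReal.ofReal x ^ k * ‖Cn k (circleMap 0 r t) / circleMap 0 r t ^ k‖ₑ ^ 2 := by
    intro k t
    have hz0 := pow_ne_zero k (hne _ (hcirc t))
    have h1 : ‖circleMap 0 r t‖ₑ = ENNReal.ofReal r := by rw [← ofReal_norm, hcirc t]
    have h2 : Cn k (circleMap 0 r t) =
        circleMap 0 r t ^ k * (Cn k (circleMap 0 r t) / circleMap 0 r t ^ k) := by
      rw [mul_div_cancel₀ _ hz0]
    conv_lhs => rw [h2]
    rw [enorm_mul, mul_pow, enorm_pow, h1, ← hr2, ENNReal.ofReal_pow hr0.le, ← pow_mul, ← pow_mul,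
      mul_comm k 2]
  have h1 : ∫⁻ t in Ioc 0 (2 * Real.pi), ∑' n : ℕ, (n : ℝ≥0∞) * ‖Cp n (circleMap 0 r t)‖ₑ ^ 2 ≤
      ∫⁻ t in Ioc 0 (2 * Real.pi), ∑' k : ℕ, (k : ℝ≥0∞) * (ENNReal.ofReal x ^ k *
        ‖Cn k (circleMap 0 r t) / circleMap 0 r t ^ k‖ₑ ^ 2) := by
    refine lintegral_mono fun t => ?_
    refine (hineq _ (hb _ (hcirc t)) (hne _ (hcirc t))).trans (le_of_eq ?_)
    exact tsum_congr fun k => by rw [hI]
  rw [lintegral_tsum fun n => ((hcp n).enorm.measurable.pow_const 2).const_mul _ |>.aemeasurable,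
    lintegral_tsum fun n => ((((hcn n).enorm.measurable.pow_const 2).const_mul _).const_mul _).aemeasurable]
    at h1
  have h2 : ∀ n : ℕ, ∫⁻ t in Ioc 0 (2 * Real.pi), (n : ℝ≥0∞) * ‖Cp n (circleMap 0 r t)‖ₑ ^ 2 =
      ENNReal.ofReal (2 * Real.pi) *
        ∑' j : ℕ, ENNReal.ofReal x ^ j * ((n : ℝ≥0∞) * ‖Tp n (n + j)‖ₑ ^ 2) := by
    intro n
    rw [lintegral_const_mul _ ((hcp n).enorm.measurable.pow_const 2), Pp n, mul_left_comm,
      ← ENNReal.tsum_mul_left]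
    congr 1
    exact tsum_congr fun j => by rw [mul_left_comm]
  have h3 : ∀ k : ℕ, ∫⁻ t in Ioc 0 (2 * Real.pi), (k : ℝ≥0∞) * (ENNReal.ofReal x ^ k *
        ‖Cn k (circleMap 0 r t) / circleMap 0 r t ^ k‖ₑ ^ 2) =
      ENNReal.ofReal (2 * Real.pi) *
        ∑' m : ℕ, ENNReal.ofReal x ^ (m + k) * ((k : ℝ≥0∞) * ‖Tn k m‖ₑ ^ 2) := by
    intro k
    rw [lintegral_const_mul _ (((hcn k).enorm.measurable.pow_const 2).const_mul _),
      lintegral_const_mul _ ((hcn k).enorm.measurable.pow_const 2), Pn k,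
      mul_left_comm (ENNReal.ofReal x ^ k), mul_left_comm (k : ℝ≥0∞), ← ENNReal.tsum_mul_left,
      ← ENNReal.tsum_mul_left]
    congr 1
    exact tsum_congr fun m => by rw [pow_add]; ring
  simp only [h2, h3] at h1
  rw [ENNReal.tsum_mul_left, ENNReal.tsum_mul_left] at h1
  exact (ENNReal.mul_le_mul_iff_right (by simp [Real.pi_pos]) ENNReal.ofReal_ne_top).1 h1

end Pool.Agent.H64.CX
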