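import Pool.Agent.H64.CX.StmB

set_option autoImplicit false

/-! # CX-CRI: the criterion on the imaginary axis -/

namespace Pool.Agent.H64.CX

open Metric Set Filter Topology MeasureTheory

lemma cri_int (s : ℝ) (hs : 0 < s) :
    ∫ x in (0 : ℝ)..1, x * (1 - x) ^ s = 1 / ((s + 1) * (s + 2)) := by
  have h1 := intervalIntegral.integral_comp_sub_left (a := 0) (b := 1)
    (fun x : ℝ => (1 - x) * x ^ s) 1
  simp only [sub_self, sub_zero, sub_sub_cancel] at h1
  rw [h1]
  have h2 : ∀ x ∈ uIcc (0 : ℝ) 1, (1 - x) * x ^ s = x ^ s - x ^ (s + 1) := by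
    intro x hx
    rw [uIcc_of_le zero_le_one] at hx
    rw [Real.rpow_add_one' hx.1 (by positivity)]
    ring
  rw [intervalIntegral.integral_congr h2, intervalIntegral.integral_sub, integral_rpow, integral_rpow]
  · rw [Real.one_rpow, Real.one_rpow, Real.zero_rpow (by positivity), Real.zero_rpow (by positivity)]
    have h3 : s + 1 ≠ 0 := by positivity
    have h4 : s + 1 + 1 ≠ 0 := by positivity
    have h5 : s + 2 ≠ 0 := by positivity
    field_simp
    ring
  · left; linarith
  · left; linarith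
  · exact intervalIntegral.intervalIntegrable_rpow (Or.inl hs.le)
  · exact intervalIntegral.intervalIntegrable_rpow (Or.inl (by linarith))

theorem cri : S_CRI := by
  intro hN y hy hy2
  unfold Crit
  have hre : ((y : ℂ) * Complex.I).re = 0 := by simp
  have hsin : ‖Complex.sin (Real.pi * ((y : ℂ) * Complex.I))‖ ^ 2 = Real.sinh (Real.pi * y) ^ 2 := by
    rw [show (Real.pi : ℂ) * ((y : ℂ) * Complex.I) = ((Real.pi * y : ℝ) : ℂ) * Complex.I by
      push_cast; ring, Complex.sin_mul_I, ← Complex.ofReal_sinh, norm_mul, Complex.norm_I, mul_one,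
      Complex.norm_real, Real.norm_eq_abs, sq_abs]
  have hn : ‖1 - (y : ℂ) * Complex.I‖ ^ 2 = 1 + y ^ 2 := by
    rw [Complex.sq_norm, Complex.normSq_apply]
    simp
    ring
  have hy0 : 0 < y ^ 2 := by positivity
  rw [hsin, hn, hre]
  simp only [mul_zero, sub_zero, add_zero, Real.rpow_one]
  rw [cri_int _ (by positivity)]
  have key : Real.sinh (Real.pi * y) ^ 2 <
      Real.pi ^ 2 * y ^ 2 * ((1 + y ^ 2) ^ 2 * (1 + 2 * y ^ 2)) := by
    have h := hN |y| (abs_pos.2 hy) hy2
    rw [sq_abs] at h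
    have h1 : Real.sinh (Real.pi * |y|) ^ 2 = Real.sinh (Real.pi * y) ^ 2 := by
      rcases abs_choice y with h2 | h2
      · rw [h2]
      · rw [h2, mul_neg, Real.sinh_neg, neg_sq]
    rwa [h1] at h
  have h3 : 0 < (2 * y ^ 2 + 1) * (2 * y ^ 2 + 2) := by positivity
  rw [mul_one_div, div_lt_iff₀ h3]
  nlinarith [key]

end Pool.Agent.H64.CX
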