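import Pool.Agent.H64.CX.Stm

set_option autoImplicit false

namespace Pool.Agent.H64.CX

open Metric Set Filter Topology MeasureTheory
open scoped ENNReal

namespace NUMI

theorem fact_low (n : ℕ) : 5040 * 72 ^ n ≤ (2 * (n + 3) + 1).factorial := by
  induction n with
  | zero => decide
  | succ n ih =>
    have h1 : 2 * (n + 1 + 3) + 1 = (2 * (n + 3) + 1) + 1 + 1 := by ring
    rw [h1, Nat.factorial_succ, Nat.factorial_succ, pow_succ]
    have h2 : 72 ≤ (2 * (n + 3) + 1 + 1 + 1) * (2 * (n + 3) + 1 + 1) := by nlinarith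
    calc 5040 * (72 ^ n * 72) = 72 * (5040 * 72 ^ n) := by ring
      _ ≤ ((2 * (n + 3) + 1 + 1 + 1) * (2 * (n + 3) + 1 + 1)) * (2 * (n + 3) + 1).factorial :=
          Nat.mul_le_mul h2 ih
      _ = _ := by ring

theorem sinh_up {w : ℝ} (hw : 0 ≤ w) (hw2 : w ^ 2 ≤ 5 / 2) :
    Real.sinh w ≤ w * (1 + w ^ 2 / 6 + w ^ 4 / 120 + w ^ 6 / 4800) := by
  have h := (hasSum_nat_add_iff' 3).2 (Real.hasSum_sinh w)
  have hg : HasSum (fun n : ℕ => w ^ 7 / 5040 * (5 / 144 : ℝ) ^ n)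
      (w ^ 7 / 5040 * (1 - 5 / 144)⁻¹) :=
    (hasSum_geometric_of_lt_one (by norm_num) (by norm_num)).mul_left _
  have hle := hasSum_le (fun n => ?_) h hg
  · simp only [Finset.sum_range_succ, Finset.sum_range_zero] at hle
    norm_num [Nat.factorial] at hle
    have h7 : 0 ≤ w ^ 7 := by positivity
    nlinarith
  · have h1 : ((5040 : ℝ) * 72 ^ n) ≤ ((2 * (n + 3) + 1).factorial : ℝ) := by
      exact_mod_cast fact_low n
    calc w ^ (2 * (n + 3) + 1) / ((2 * (n + 3) + 1).factorial : ℝ)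
        ≤ w ^ (2 * (n + 3) + 1) / (5040 * 72 ^ n) := by
          gcongr
      _ = w ^ 7 / 5040 * (w ^ 2 / 72) ^ n := by
          rw [show 2 * (n + 3) + 1 = 7 + 2 * n by ring, pow_add, pow_mul, div_pow]
          field_simp
      _ ≤ w ^ 7 / 5040 * (5 / 144 : ℝ) ^ n := by
          have h2 : w ^ 2 / 72 ≤ 5 / 144 := by linarith
          gcongr

end NUMI

open NUMI in
theorem numi : S_NUMI := by
  intro y hy0 hy1
  have hpi0 := Real.pi_pos
  have hpi := Real.pi_lt_d4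
  have hpi2 : Real.pi ^ 2 ≤ 9.87 := by nlinarith
  have hv : y ^ 2 ≤ 1 / 4 := by nlinarith
  have hv0 : 0 < y ^ 2 := by positivity
  have hw : 0 ≤ Real.pi * y := by positivity
  have hW : (Real.pi * y) ^ 2 ≤ 9.87 * y ^ 2 := by
    rw [mul_pow]
    gcongr
  have hW2 : (Real.pi * y) ^ 2 ≤ 5 / 2 := by linarith
  have h1 := sinh_up hw hW2
  have h0 : 0 ≤ Real.sinh (Real.pi * y) := Real.sinh_nonneg_iff.2 hw
  set W := (Real.pi * y) ^ 2 with hWd
  have hW0 : 0 ≤ W := by positivity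
  have h2 : 1 + (Real.pi * y) ^ 2 / 6 + (Real.pi * y) ^ 4 / 120 + (Real.pi * y) ^ 6 / 4800 ≤
      1 + 1.87 * y ^ 2 := by
    have e4 : (Real.pi * y) ^ 4 = W * W := by rw [hWd]; ring
    have e6 : (Real.pi * y) ^ 6 = W * W * W := by rw [hWd]; ring
    rw [e4, e6, ← hWd]
    have f1 : W * W ≤ W * 2.4675 := by
      apply mul_le_mul_of_nonneg_left _ hW0
      linarith
    have f2 : W * W * W ≤ W * 2.4675 * 2.4675 := by
      apply mul_le_mul f1 (by linarith) hW0 (by positivity)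
    linarith
  have h3 : Real.sinh (Real.pi * y) ≤ Real.pi * y * (1 + 1.87 * y ^ 2) :=
    h1.trans (mul_le_mul_of_nonneg_left h2 hw)
  calc Real.sinh (Real.pi * y) ^ 2 ≤ (Real.pi * y * (1 + 1.87 * y ^ 2)) ^ 2 :=
        pow_le_pow_left₀ h0 h3 2
    _ = Real.pi ^ 2 * y ^ 2 * (1 + 1.87 * y ^ 2) ^ 2 := by ring
    _ < Real.pi ^ 2 * y ^ 2 * ((1 + y ^ 2) ^ 2 * (1 + 2 * y ^ 2)) := by
        apply mul_lt_mul_of_pos_left _ (by positivity)
        have : 0 < (y ^ 2) ^ 2 := by positivity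
        have : 0 < (y ^ 2) ^ 3 := by positivity
        nlinarith

end Pool.Agent.H64.CX
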