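import Pool.Agent.H64.CX.StmA

set_option autoImplicit false

/-! # CX-SML: the bound for small exponents, with a uniform constant -/

namespace Pool.Agent.H64.CX

open Metric Set Filter Topology MeasureTheory
open scoped ENNReal
open Pool.Agent.W677.Mar Pool.Agent.W5h41.MA

theorem sml : S_SML := by
  intro κ hκ
  have hκ0 : 0 < κ := by linarith
  obtain ⟨θ, hθ⟩ : ∃ θ, θ = (κ - 1 / 2) / (2 * (κ + 1)) := ⟨_, rfl⟩
  have hθ0 : 0 < θ := by
    rw [hθ]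
    apply div_pos <;> linarith
  have hθe : θ * (2 * (κ + 1)) = κ - 1 / 2 := by
    rw [hθ]
    field_simp
  have hθ1 : θ < 1 := by nlinarith
  obtain ⟨g, hg⟩ : ∃ g, g = θ * (1 - θ) * κ - θ * (1 + θ) / 2 := ⟨_, rfl⟩
  have hg0 : 0 < g := by
    have h1 : g = θ * ((κ - 1 / 2) - θ * (κ + 1 / 2)) := by rw [hg]; ring
    rw [h1]
    apply mul_pos hθ0
    nlinarith
  obtain ⟨C, hC0, hC⟩ := mean_bound hθ0 hθ1 (δ := g / 2) (by positivity)
  obtain ⟨t₀, ht⟩ : ∃ t₀, t₀ = min (min 1 (1 / (4 * κ))) (g / (16 * κ)) := ⟨_, rfl⟩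
  have ht0 : 0 < t₀ := by
    rw [ht]
    refine lt_min (lt_min one_pos ?_) ?_ <;> positivity
  have ht1 : t₀ ≤ 1 := by rw [ht]; exact (min_le_left _ _).trans (min_le_left _ _)
  have ht2 : 4 * κ * t₀ ≤ 1 := by
    have : t₀ ≤ 1 / (4 * κ) := by rw [ht]; exact (min_le_left _ _).trans (min_le_right _ _)
    rw [le_div_iff₀ (by positivity)] at this
    linarith
  have ht3 : 4 * κ * t₀ ≤ g / 4 := by
    have : t₀ ≤ g / (16 * κ) := by rw [ht]; exact min_le_right _ _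
    rw [le_div_iff₀ (by positivity)] at this
    linarith
  refine ⟨t₀, max C (2 * Real.pi), ht0, le_max_of_le_left hC0, ?_⟩
  intro s hs hre Y H S r hr
  by_cases hs0 : s = 0
  · subst hs0
    have h1 : (∫ x in (0 : ℝ)..(2 * Real.pi), ‖Complex.exp (0 * H (circleMap 0 r x))‖ ^ 2)
        = 2 * Real.pi := by
      simp
    rw [h1, norm_zero]
    simp
  · refine le_trans ?_ (le_max_left _ _)
    have hsn : 0 < ‖s‖ := norm_pos_iff.2 hs0
    have hsq : ‖s‖ ^ 2 ≤ t₀ := by nlinarith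
    have e : κ * (4 * ‖s‖ ^ 2) = 4 * κ * ‖s‖ ^ 2 := by ring
    obtain ⟨σ, hσ⟩ : ∃ σ, σ = κ * (4 * ‖s‖ ^ 2) := ⟨_, rfl⟩
    rw [← hσ]
    have hσ0 : 0 < σ := by rw [hσ]; positivity
    have hσt : σ ≤ 4 * κ * t₀ := by
      rw [hσ, e]
      exact mul_le_mul_of_nonneg_left hsq (by positivity)
    have hσ1 : σ ≤ 1 := hσt.trans ht2
    have hσg : σ ≤ g / 4 := hσt.trans ht3
    apply hC Y H S s σ hs0 (hs.trans ht1) hσ0 hσ1 _ r hr
    -- the right side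
    have h2s : (2 * s : ℂ) ≠ 0 := mul_ne_zero two_ne_zero hs0
    have h1σ : ((1 + σ : ℝ) : ℂ) ≠ 0 := by
      exact_mod_cast (by linarith : (1 + σ : ℝ) ≠ 0)
    have hR : κ * (1 + σ) ≤ (1 + σ) * σ * ‖((1 / (1 + σ) : ℝ) : ℂ) - 1 / (2 * s)‖ ^ 2 := by
      have h3 : ((1 / (1 + σ) : ℝ) : ℂ) - 1 / (2 * s)
          = (2 * s - ((1 + σ : ℝ) : ℂ)) / (((1 + σ : ℝ) : ℂ) * (2 * s)) := by
        rw [Complex.ofReal_div, Complex.ofReal_one, div_sub_div _ _ h1σ h2s]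
        ring
      have h4 : ‖((1 / (1 + σ) : ℝ) : ℂ) - 1 / (2 * s)‖ ^ 2
          = ‖2 * s - ((1 + σ : ℝ) : ℂ)‖ ^ 2 / ((1 + σ) ^ 2 * (4 * ‖s‖ ^ 2)) := by
        rw [h3, norm_div, norm_mul, norm_mul, Complex.norm_real, Real.norm_of_nonneg (by linarith),
          div_pow, Complex.norm_two]
        ring
      have h5 : (1 + σ) ≤ ‖2 * s - ((1 + σ : ℝ) : ℂ)‖ := by
        have h6 : (2 * s - ((1 + σ : ℝ) : ℂ)).re = 2 * s.re - (1 + σ) := by simp
        have h7 := Complex.abs_re_le_norm (2 * s - ((1 + σ : ℝ) : ℂ))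
        rw [h6, abs_of_nonpos (by linarith)] at h7
        linarith
      have h6 : (1 + σ) ^ 2 ≤ ‖2 * s - ((1 + σ : ℝ) : ℂ)‖ ^ 2 := by
        apply pow_le_pow_left₀ (by linarith) h5
      have h7 : (1 + σ) * σ * ‖((1 / (1 + σ) : ℝ) : ℂ) - 1 / (2 * s)‖ ^ 2
          = κ * ‖2 * s - ((1 + σ : ℝ) : ℂ)‖ ^ 2 / (1 + σ) := by
        rw [h4, hσ]
        field_simp
      rw [h7, le_div_iff₀ (by linarith)]
      nlinarith
    have hk : kap σ θ ≤ θ * (1 + θ) / 2 + 2 * σ := by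
      unfold kap
      rw [div_le_iff₀ (by positivity)]
      have h8 : (σ + θ) * (σ + 1 + θ) ≤ (θ * (1 + θ) / 2 + 2 * σ) * 2 := by nlinarith
      have h9 : (2 : ℝ) ≤ (σ + 1) * (σ + 2) := by nlinarith
      have h10 : 0 ≤ θ * (1 + θ) / 2 + 2 * σ := by positivity
      exact h8.trans (mul_le_mul_of_nonneg_left h9 h10)
    have h11 : θ * (1 - θ) * κ ≤ θ * (1 - θ) * (κ * (1 + σ)) := by
      apply mul_le_mul_of_nonneg_left
      · nlinarith
      · apply mul_nonneg hθ0.le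
        linarith
    have h12 : θ * (1 - θ) * (κ * (1 + σ))
        ≤ θ * (1 - θ) * ((1 + σ) * σ * ‖((1 / (1 + σ) : ℝ) : ℂ) - 1 / (2 * s)‖ ^ 2) := by
      apply mul_le_mul_of_nonneg_left hR
      apply mul_nonneg hθ0.le
      linarith
    calc kap σ θ + g / 2 ≤ θ * (1 - θ) * κ := by rw [hg] at hσg ⊢; linarith
      _ ≤ _ := h11.trans h12
      _ = _ := by ring

end Pool.Agent.H64.CX
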