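import Pool.Agent.H64.CX.Asm3
import Pool.Agent.H64.CX.CRI
import Pool.Agent.H64.CX.NUMI
import Pool.Agent.H64.CX.SML
import Pool.Agent.H64.G.T9f66d723.W5h41.MA15

set_option autoImplicit false

/-! # The bound for the argument -/

namespace Pool.Agent.H64.CX

open Metric Set Filter Topology MeasureTheory
open Pool.Agent.W677.Mar Pool.Agent.W5h41.MA

/-- the exponents on the imaginary axis -/
theorem bd_imag {y : ℝ} (hy0 : y ≠ 0) (hy : |y| ≤ 1 / 2) :
    Bd ((y : ℂ) * Complex.I) (2 * y ^ 2) := by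
  have hre : ((y : ℂ) * Complex.I).re = 0 := by simp
  have him : ((y : ℂ) * Complex.I).im = y := by simp
  have hy2 : 0 < y ^ 2 := by positivity
  have hy3 : y ^ 2 ≤ (1 / 2) ^ 2 := by
    rw [← sq_abs]
    exact pow_le_pow_left₀ (abs_nonneg _) hy 2
  apply bd_pos _ (by rw [hre]) (by rw [hre]; norm_num) (by rw [him]; exact hy) (by positivity)
    (by rw [hre]; linarith) (cri numi y hy0 hy)
  intro h
  have := congrArg Complex.im h
  rw [him] at this
  exact hy0 (by simpa using this)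

/-- the form used in the criterion -/
theorem mb_of_bd {α : ℂ} {σ : ℝ} (h0 : 0 ≤ σ) (h1 : σ ≤ 1) (h : Bd α σ) :
    ∃ C : ℝ, MB C (-(2 * (starRingEnd ℂ) α)) σ := by
  obtain ⟨C, hC0, hC⟩ := h
  refine ⟨2 * C, fun Y H S r hr => ?_⟩
  have h2 := conv_exp hr h0 h1 hC0 (hC Y H S r hr)
  refine le_trans (le_of_eq ?_) h2
  apply intervalIntegral.integral_congr
  intro x _
  show Real.exp ((starRingEnd ℂ) (-(2 * (starRingEnd ℂ) α)) * H (circleMap 0 r x)).re =
    ‖Complex.exp (-(α * H (circleMap 0 r x)))‖ ^ 2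
  rw [Complex.norm_exp, ← Real.exp_nat_mul]
  congr 1
  have e : (starRingEnd ℂ) (-(2 * (starRingEnd ℂ) α)) * H (circleMap 0 r x) =
      ((2 : ℝ) : ℂ) * -(α * H (circleMap 0 r x)) := by
    simp only [map_neg, map_mul, Complex.conj_conj]
    rw [show (starRingEnd ℂ) (2 : ℂ) = 2 from Complex.conj_ofReal 2]
    push_cast
    ring
  rw [e, Complex.re_ofReal_mul]
  push_cast
  ring

/-- the argument -/
noncomputable def GA (v : ℂ) : ℂ := ((v.im : ℝ) : ℂ) * Complex.I

theorem GA_norm (v : ℂ) : ‖GA v‖ = |v.im| := by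
  unfold GA
  rw [norm_mul, Complex.norm_I, mul_one, Complex.norm_real, Real.norm_eq_abs]

/-- **The bound for the argument, all `a < 1/2`.** -/
theorem arg_half {a : ℝ} (ha0 : 0 < a) (ha : a < 1 / 2) :
    ∃ C : ℝ, ∀ Y H : ℂ → ℂ, Sg Y H → ∀ r ∈ Ioo (0 : ℝ) 1,
      ∫ x in (0 : ℝ)..(2 * Real.pi),
        Real.exp (a * ‖GA (H (circleMap 0 r x))‖ ^ 2 / lam (r ^ 2)) ≤ C := by
  obtain ⟨κ, hκ1, hκ2⟩ : ∃ κ : ℝ, 1 / 2 < κ ∧ κ < 1 / (4 * a) := by
    apply exists_between
    rw [lt_div_iff₀ (by positivity)]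
    linarith
  have hκ0 : 0 < κ := by linarith
  have haκ : 4 * a * κ < 1 := by
    rw [lt_div_iff₀ (by positivity)] at hκ2
    linarith
  obtain ⟨t₀, C, ht₀, hC0, hC⟩ := sml κ hκ1
  obtain ⟨t₂, ht₂0, ht₂1, ht₂2⟩ : ∃ t₂ : ℝ, 0 < t₂ ∧ t₂ ≤ 2 * t₀ ∧ κ * t₂ ^ 2 ≤ 1 := by
    refine ⟨min (2 * t₀) (min 1 (1 / κ)), by positivity, min_le_left _ _, ?_⟩
    have h1 : min (2 * t₀) (min 1 (1 / κ)) ≤ 1 := (min_le_right _ _).trans (min_le_left _ _)
    have h2 : min (2 * t₀) (min 1 (1 / κ)) ≤ 1 / κ := (min_le_right _ _).trans (min_le_right _ _)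
    have h3 : 0 < min (2 * t₀) (min 1 (1 / κ)) := by positivity
    calc κ * min (2 * t₀) (min 1 (1 / κ)) ^ 2 =
          κ * min (2 * t₀) (min 1 (1 / κ)) * min (2 * t₀) (min 1 (1 / κ)) := by ring
      _ ≤ κ * min (2 * t₀) (min 1 (1 / κ)) * 1 :=
          mul_le_mul_of_nonneg_left h1 (by positivity)
      _ ≤ κ * (1 / κ) * 1 := by
          apply mul_le_mul_of_nonneg_right _ zero_le_one
          exact mul_le_mul_of_nonneg_left h2 hκ0.le
      _ = 1 := by field_simp
  apply criterionG (G := GA) (κ := κ) (u0 := κ * t₂) (C0 := 2 * C) _ _ ha0 hκ0 (by positivity) haκ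
  · -- small exponents
    intro t ht Y H S r hr
    have ht' : ‖t‖ ≤ t₂ := by
      rw [mul_div_cancel_left₀ _ hκ0.ne'] at ht
      exact ht
    have him : |t.im| ≤ t₂ := (Complex.abs_im_le_norm t).trans ht'
    obtain ⟨s, hs⟩ : ∃ s : ℂ, s = ((-(t.im / 2) : ℝ) : ℂ) * Complex.I := ⟨_, rfl⟩
    have hsn : ‖s‖ = |t.im| / 2 := by
      rw [hs, norm_mul, Complex.norm_I, mul_one, Complex.norm_real, Real.norm_eq_abs, abs_neg,
        abs_div, abs_two]
    have hsre : s.re ≤ 0 := by rw [hs]; simp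
    have h1 := hC s (by rw [hsn]; linarith) hsre Y H S r hr
    have h4 : 4 * ‖s‖ ^ 2 = t.im ^ 2 := by rw [hsn, div_pow, sq_abs]; ring
    rw [h4] at h1
    have him2 : t.im ^ 2 ≤ t₂ ^ 2 := by
      rw [← sq_abs]
      exact pow_le_pow_left₀ (abs_nonneg _) him 2
    have h5 := conv_exp hr (by positivity) ((mul_le_mul_of_nonneg_left him2 hκ0.le).trans ht₂2)
      hC0 h1
    have e : ∫ x in (0 : ℝ)..(2 * Real.pi),
        Real.exp ((starRingEnd ℂ) t * GA (H (circleMap 0 r x))).re =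
        ∫ x in (0 : ℝ)..(2 * Real.pi), ‖Complex.exp (s * H (circleMap 0 r x))‖ ^ 2 := by
      apply intervalIntegral.integral_congr
      intro x _
      show Real.exp ((starRingEnd ℂ) t * GA (H (circleMap 0 r x))).re =
        ‖Complex.exp (s * H (circleMap 0 r x))‖ ^ 2
      rw [Complex.norm_exp, ← Real.exp_nat_mul]
      congr 1
      rw [hs]
      unfold GA
      simp
      ring
    rw [e]
    refine h5.trans ?_
    apply mul_le_mul_of_nonneg_left _ (by positivity)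
    apply Real.exp_le_exp.2
    apply mul_le_mul_of_nonneg_right _ (lam_pos hr).le
    apply mul_le_mul_of_nonneg_left _ hκ0.le
    have := Complex.abs_im_le_norm t
    rw [← sq_abs t.im]
    exact pow_le_pow_left₀ (abs_nonneg _) this 2
  · -- the other exponents
    intro u hu hu1
    rw [GA_norm] at hu
    have hv1 : |u.im| ≤ 1 := (Complex.abs_im_le_norm u).trans hu1
    have hv0 : u.im ≠ 0 := by
      intro h
      rw [h, abs_zero] at hu
      have : 0 < κ * t₂ := by positivity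
      linarith
    have hv2 : 0 < u.im ^ 2 := by positivity
    have hy : |u.im / 2| ≤ 1 / 2 := by rw [abs_div, abs_two]; linarith
    have hb := bd_imag (y := u.im / 2) (by
      intro h
      apply hv0
      linarith) hy
    have hsq : 2 * (u.im / 2) ^ 2 = u.im ^ 2 / 2 := by ring
    have hle : u.im ^ 2 ≤ 1 := by
      rw [← sq_abs]
      exact pow_le_one₀ (abs_nonneg _) hv1
    obtain ⟨C', hC'⟩ := mb_of_bd (by positivity) (by rw [hsq]; linarith) hb
    refine ⟨C', 2 * (u.im / 2) ^ 2, _, hC', ?_⟩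
    rw [GA_norm, sq_abs, hsq]
    have e : ((starRingEnd ℂ) (-(2 * (starRingEnd ℂ) (((u.im / 2 : ℝ) : ℂ) * Complex.I))) * u).re =
        u.im ^ 2 := by
      simp
      ring
    rw [e]
    nlinarith
  · unfold GA
    fun_prop
  · intro c hc v
    unfold GA
    rw [Complex.im_ofReal_mul]
    push_cast
    ring

end Pool.Agent.H64.CX
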