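import Pool.Agent.H64.CX.StmF

set_option autoImplicit false

/-! # Assembly: the Hilbert-Schmidt sums for `Re α ≥ 0` -/

namespace Pool.Agent.H64.CX

open Metric Set Filter Topology MeasureTheory
open scoped ENNReal

/-- the sum over `n` -/
theorem SK_le (ub : S_U) (cheb : S_CHEB) (sumk : S_SUMK) {α : ℂ} {σ : ℝ} (h0 : 0 ≤ α.re)
    (h1 : α.re ≤ 1 / 2) (hσ : 0 < σ) (h2 : σ + 4 * α.re ≤ 2) {m k : ℕ} (hm : 1 ≤ m) (hk : 1 ≤ k) :
    SK α (σ + 2 * α.re) m k ≤ 1 / ‖Complex.Gamma (1 - α)‖ ^ 2 *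
      (EE (1 - 2 * α.re) (σ + 2 * α.re) m / ((m : ℝ) + 1)) * BB α (σ + 2 * α.re) m k := by
  have hm' : (1 : ℝ) ≤ m := by exact_mod_cast hm
  have hk' : (1 : ℝ) ≤ k := by exact_mod_cast hk
  set μ := σ + 2 * α.re with hμ
  set A := 1 / ‖Complex.Gamma (1 - α)‖ ^ 2 with hA
  have hA0 : 0 ≤ A := by positivity
  have hW : 0 ≤ ((m : ℝ) + k + 1) ^ (-μ) / ‖rr α (m + k) - rr α k‖ ^ 2 := by positivity
  have s1 : ∑ n ∈ Finset.Icc 1 m, (n : ℝ) * ‖bt (1 - α) n‖ ^ 2 * ((m : ℝ) - n + 1) ^ μ *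
      (1 / ((n : ℝ) + k) + 1 / ((m : ℝ) + k - n)) ^ 2 ≤
      A * ∑ n ∈ Finset.range (m + 1), ((n : ℝ) + 1) ^ (1 - 2 * α.re) * ((m : ℝ) - n + 1) ^ μ *
        kn m k n := by
    rw [Finset.mul_sum]
    have hsub : Finset.Icc 1 m ⊆ Finset.range (m + 1) := by
      intro n hn
      rw [Finset.mem_Icc] at hn
      rw [Finset.mem_range]
      omega
    refine (Finset.sum_le_sum ?_).trans (Finset.sum_le_sum_of_subset_of_nonneg hsub ?_)
    · intro n hn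
      rw [Finset.mem_Icc] at hn
      have hn1 : (1 : ℝ) ≤ n := by exact_mod_cast hn.1
      have hnm : (n : ℝ) ≤ m := by exact_mod_cast hn.2
      have hb := ub α h0 (by linarith) n hn.1
      have e1 : (n : ℝ) * ‖bt (1 - α) n‖ ^ 2 ≤ A * ((n : ℝ) + 1) ^ (1 - 2 * α.re) := by
        have e2 : (n : ℝ) * ((n : ℝ) ^ (-(2 * α.re)) / ‖Complex.Gamma (1 - α)‖ ^ 2) =
            A * (n : ℝ) ^ (1 - 2 * α.re) := by
          rw [hA, show (1 : ℝ) - 2 * α.re = 1 + (-(2 * α.re)) by ring,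
            Real.rpow_add (by linarith), Real.rpow_one]
          ring
        have e3 : (n : ℝ) ^ (1 - 2 * α.re) ≤ ((n : ℝ) + 1) ^ (1 - 2 * α.re) :=
          Real.rpow_le_rpow (by linarith) (by linarith) (by linarith)
        calc (n : ℝ) * ‖bt (1 - α) n‖ ^ 2 ≤
              (n : ℝ) * ((n : ℝ) ^ (-(2 * α.re)) / ‖Complex.Gamma (1 - α)‖ ^ 2) :=
              mul_le_mul_of_nonneg_left hb (by linarith)
          _ = A * (n : ℝ) ^ (1 - 2 * α.re) := e2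
          _ ≤ _ := mul_le_mul_of_nonneg_left e3 hA0
      have hx : 0 ≤ ((m : ℝ) - n + 1) ^ μ := Real.rpow_nonneg (by linarith) _
      calc (n : ℝ) * ‖bt (1 - α) n‖ ^ 2 * ((m : ℝ) - n + 1) ^ μ *
            (1 / ((n : ℝ) + k) + 1 / ((m : ℝ) + k - n)) ^ 2 ≤
            A * ((n : ℝ) + 1) ^ (1 - 2 * α.re) * ((m : ℝ) - n + 1) ^ μ *
            (1 / ((n : ℝ) + k) + 1 / ((m : ℝ) + k - n)) ^ 2 := by
              apply mul_le_mul_of_nonneg_right _ (sq_nonneg _)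
              exact mul_le_mul_of_nonneg_right e1 hx
        _ = _ := by unfold kn; ring
    · intro n hn _
      rw [Finset.mem_range] at hn
      have hnm : (n : ℝ) ≤ m := by exact_mod_cast (by omega : n ≤ m)
      have hx : 0 ≤ ((m : ℝ) - n + 1) ^ μ := Real.rpow_nonneg (by linarith) _
      unfold kn
      positivity
  have s2 := cheb (1 - 2 * α.re) μ (by linarith) (by linarith) (by linarith) (by linarith) m k hk
  have s3 := sumk m k hm hk
  have hE0 : 0 ≤ EE (1 - 2 * α.re) μ m := by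
    unfold EE
    apply Finset.sum_nonneg
    intro n hn
    rw [Finset.mem_range] at hn
    have hnm : (n : ℝ) ≤ m := by exact_mod_cast (by omega : n ≤ m)
    have hx : 0 ≤ ((m : ℝ) - n + 1) ^ μ := Real.rpow_nonneg (by linarith) _
    positivity
  unfold SK BB
  calc (k : ℝ) * ((m : ℝ) + k + 1) ^ (-μ) / ‖rr α (m + k) - rr α k‖ ^ 2 *
      ∑ n ∈ Finset.Icc 1 m, (n : ℝ) * ‖bt (1 - α) n‖ ^ 2 * ((m : ℝ) - n + 1) ^ μ *
      (1 / ((n : ℝ) + k) + 1 / ((m : ℝ) + k - n)) ^ 2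
      = (((m : ℝ) + k + 1) ^ (-μ) / ‖rr α (m + k) - rr α k‖ ^ 2) * (k *
      ∑ n ∈ Finset.Icc 1 m, (n : ℝ) * ‖bt (1 - α) n‖ ^ 2 * ((m : ℝ) - n + 1) ^ μ *
      (1 / ((n : ℝ) + k) + 1 / ((m : ℝ) + k - n)) ^ 2) := by ring
    _ ≤ (((m : ℝ) + k + 1) ^ (-μ) / ‖rr α (m + k) - rr α k‖ ^ 2) * (k * (A *
        (1 / ((m : ℝ) + 1) * EE (1 - 2 * α.re) μ m * ∑ n ∈ Finset.range (m + 1), kn m k n))) := by
        apply mul_le_mul_of_nonneg_left _ hW
        apply mul_le_mul_of_nonneg_left _ (by linarith)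
        exact s1.trans (mul_le_mul_of_nonneg_left s2 hA0)
    _ = (((m : ℝ) + k + 1) ^ (-μ) / ‖rr α (m + k) - rr α k‖ ^ 2) * (A *
        (EE (1 - 2 * α.re) μ m / ((m : ℝ) + 1))) *
        (k * ∑ n ∈ Finset.range (m + 1), kn m k n) := by ring
    _ ≤ (((m : ℝ) + k + 1) ^ (-μ) / ‖rr α (m + k) - rr α k‖ ^ 2) * (A *
        (EE (1 - 2 * α.re) μ m / ((m : ℝ) + 1))) * gg m k := by
        apply mul_le_mul_of_nonneg_left s3
        positivity
    _ = _ := by ring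

theorem gg_nonneg {m k : ℕ} (hk : 1 ≤ k) : 0 ≤ gg m k := by
  have hk' : (1 : ℝ) ≤ k := by exact_mod_cast hk
  have hm : (0 : ℝ) ≤ m := Nat.cast_nonneg m
  unfold gg
  have : 0 ≤ Real.log (((m : ℝ) + k) / k) := by
    apply Real.log_nonneg
    rw [le_div_iff₀ (by linarith)]
    linarith
  positivity

theorem BB_nonneg {α : ℂ} {μ : ℝ} {m k : ℕ} (hk : 1 ≤ k) : 0 ≤ BB α μ m k := by
  have := gg_nonneg (m := m) hk
  unfold BB
  positivity

/-- the powers are different -/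
theorem pow_ne (pw : ∀ (α : ℂ) (x : ℝ), 0 < x → 0 ≤ α.re → α.re ≤ 3 / 8 → |α.im| ≤ 1 / 2 →
    GG x * ‖1 - α‖ ^ 2 * (1 + x) ^ (1 - 2 * α.re) ≤
      4 * ‖((1 + x : ℝ) : ℂ) ^ (1 - α) - (x : ℂ) ^ (1 - α)‖ ^ 2) {α : ℂ} {x : ℝ} (hx : 0 < x)
    (h0 : 0 ≤ α.re) (h1 : α.re ≤ 3 / 8) (h2 : |α.im| ≤ 1 / 2) :
    ((1 + x : ℝ) : ℂ) ^ (1 - α) ≠ (x : ℂ) ^ (1 - α) := by
  intro h
  have h3 := pw α x hx h0 h1 h2
  rw [h, sub_self, norm_zero] at h3
  have h4 : 0 < GG x := by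
    unfold GG
    have : 0 < Real.log (1 + 1 / x) := Real.log_pos (by
      have : 0 < 1 / x := by positivity
      linarith)
    positivity
  have h5 : 0 < ‖1 - α‖ := by
    rw [norm_pos_iff]
    intro h6
    have : (1 - α).re = 0 := by rw [h6]; rfl
    rw [Complex.sub_re, Complex.one_re] at this
    linarith
  have h6 : 0 < GG x * ‖1 - α‖ ^ 2 * (1 + x) ^ (1 - 2 * α.re) := by positivity
  norm_num at h3
  linarith

/-- **The Hilbert-Schmidt sums are eventually less than `1`, `Re α ≥ 0`.** -/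
theorem sm_pos (ub : S_U) (cheb : S_CHEB) (sumk : S_SUMK) (ee : S_EE) (rs : S_RS)
    (rasy : S_RASY) (rlow : S_RLOW) (ldom : S_LDOM) (lpt : S_LPT) (pwn : S_PWN) (pwh : S_PWH)
    (pw : S_PW) (pwi : S_PWI) {α : ℂ} {σ : ℝ} (hα : α ≠ 0) (h0 : 0 ≤ α.re) (h1 : α.re ≤ 3 / 8)
    (hy : |α.im| ≤ 1 / 2) (hσ : 0 < σ) (h2 : σ + 4 * α.re ≤ 2) (hc : Crit α σ) :
    ∃ (δ : ℝ) (M₀ : ℕ), 0 < δ ∧ δ ≤ 1 ∧ ∀ m, M₀ ≤ m →
      ∑' k : ℕ, ENNReal.ofReal (SK α (σ + 2 * α.re) m (k + 1)) ≤ ENNReal.ofReal (1 - δ) := by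
  have hpw := pw pwn pwh
  have h12 : α.re ≤ 1 / 2 := by linarith
  obtain ⟨C, hC⟩ := ldom rlow α σ hα h0 h12 hy hσ
  set μ := σ + 2 * α.re with hμ
  set b : ℕ → ℕ → ℝ := fun m k => if k = 0 then 0 else (m : ℝ) ^ (1 + σ) * BB α μ m k with hb
  have hb1 : ∀ m k : ℕ, 1 ≤ k → b m k = (m : ℝ) ^ (1 + σ) * BB α μ m k := by
    intro m k hk
    rw [hb]
    simp only
    rw [if_neg (by omega)]
  have hb0 : ∀ m k, 0 ≤ b m k := by
    intro m k
    rcases Nat.eq_zero_or_pos k with h | h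
    · rw [hb]; simp [h]
    · rw [hb1 m k h]
      have := BB_nonneg (α := α) (μ := μ) (m := m) h
      positivity
  obtain ⟨hs, ht⟩ := rs b (LF α σ) C σ hσ hb0 (fun m k hm hk => by
      rw [hb1 m k hk]; exact hC m k hm hk) (fun x hx => by
      have := lpt rasy α σ x hα h0 h12 hy hσ hx (pow_ne hpw hx h0 h1 hy)
      refine this.congr fun m => ?_
      rw [hb1 _ _ (by omega)])
  have hI := pwi α σ hσ hα h0 h1 hy (fun x hx => hpw α x hx h0 h1 hy)
  have hE := ee (1 - 2 * α.re) μ (by linarith) (by linarith)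
  set β := ∫ x in (0 : ℝ)..1, x ^ (1 - 2 * α.re) * (1 - x) ^ μ with hβ
  set A := 1 / ‖Complex.Gamma (1 - α)‖ ^ 2 with hA
  have hA0 : 0 ≤ A := by positivity
  -- the limit of the product
  have hm1 : Tendsto (fun m : ℕ => (m : ℝ) / ((m : ℝ) + 1)) atTop (𝓝 1) := by
    have := tendsto_natCast_div_add_atTop (𝕜 := ℝ) (1 : ℝ)
    simpa using this
  have hlim : Tendsto (fun m : ℕ => A * (EE (1 - 2 * α.re) μ m / (m : ℝ) ^ (1 - 2 * α.re + μ + 1) *
      ((m : ℝ) / ((m : ℝ) + 1))) * ∑' k : ℕ, b m (k + 1)) atTop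
      (𝓝 (A * (β * 1) * ∫ x in Ioi (0 : ℝ), LF α σ x)) :=
    ((hE.mul hm1).const_mul A).mul ht
  have hβ0 : 0 ≤ β := by
    rw [hβ]
    apply intervalIntegral.integral_nonneg zero_le_one
    intro x hx
    have : 0 ≤ (1 - x) ^ μ := Real.rpow_nonneg (by linarith [hx.2]) _
    have : 0 ≤ x ^ (1 - 2 * α.re) := Real.rpow_nonneg hx.1 _
    positivity
  have hG1 : 0 < ‖1 - α‖ := by
    rw [norm_pos_iff]
    intro h6
    have : (1 - α).re = 0 := by rw [h6]; rfl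
    rw [Complex.sub_re, Complex.one_re] at this
    linarith
  have hL : A * (β * 1) * ∫ x in Ioi (0 : ℝ), LF α σ x < 1 := by
    have hsin : ‖Complex.Gamma α‖ ^ 2 * ‖Complex.Gamma (1 - α)‖ ^ 2 * ‖Complex.sin (Real.pi * α)‖ ^ 2 =
        Real.pi ^ 2 := by
      have h3 := Complex.Gamma_mul_Gamma_one_sub α
      have hsne : Complex.sin (Real.pi * α) ≠ 0 := by
        intro h4
        rw [Complex.sin_eq_zero_iff] at h4
        obtain ⟨k, hk⟩ := h4
        have h5 : α = k := by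
          have hpi : (Real.pi : ℂ) ≠ 0 := by exact_mod_cast Real.pi_ne_zero
          apply mul_left_cancel₀ hpi
          rw [hk]; ring
        have h6 : α.re = k := by rw [h5]; simp
        have h7 : (-1 : ℝ) < k := by rw [← h6]; linarith
        have h8 : (k : ℝ) < 1 := by rw [← h6]; linarith
        have h9 : k = 0 := by
          have a1 : (-1 : ℤ) < k := by exact_mod_cast h7
          have a2 : k < (1 : ℤ) := by exact_mod_cast h8
          omega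
        apply hα
        rw [h5, h9]; simp
      have h4 : Complex.Gamma α * Complex.Gamma (1 - α) * Complex.sin (Real.pi * α) = Real.pi := by
        rw [h3]
        field_simp
      have h5 := congrArg (fun z : ℂ => ‖z‖ ^ 2) h4
      simp only [norm_mul, mul_pow, Complex.norm_real, Real.norm_eq_abs, sq_abs] at h5
      exact h5
    have hΓ1 : 0 < ‖Complex.Gamma α‖ ^ 2 := by
      rcases (sq_nonneg ‖Complex.Gamma α‖).lt_or_eq with h | h
      · exact h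
      · exfalso
        rw [← h] at hsin
        have := Real.pi_pos
        have h3 : Real.pi ^ 2 = 0 := by linarith
        have h4 : 0 < Real.pi ^ 2 := by positivity
        linarith
    have hΓ2 : 0 < ‖Complex.Gamma (1 - α)‖ ^ 2 := by
      rcases (sq_nonneg ‖Complex.Gamma (1 - α)‖).lt_or_eq with h | h
      · exact h
      · exfalso
        rw [← h] at hsin
        have := Real.pi_pos
        have h3 : Real.pi ^ 2 = 0 := by linarith
        have h4 : 0 < Real.pi ^ 2 := by positivity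
        linarith
    have h3 : A * (β * 1) * ∫ x in Ioi (0 : ℝ), LF α σ x ≤
        A * (β * 1) * (4 / (‖Complex.Gamma α‖ ^ 2 * ‖1 - α‖ ^ 2 * σ)) :=
      mul_le_mul_of_nonneg_left hI (by positivity)
    refine h3.trans_lt ?_
    have hcr : 4 * ‖Complex.sin (Real.pi * α)‖ ^ 2 * β < Real.pi ^ 2 * ‖1 - α‖ ^ 2 * σ := hc
    have e : A * (β * 1) * (4 / (‖Complex.Gamma α‖ ^ 2 * ‖1 - α‖ ^ 2 * σ)) =
        4 * β / (‖Complex.Gamma α‖ ^ 2 * ‖Complex.Gamma (1 - α)‖ ^ 2 * (‖1 - α‖ ^ 2 * σ)) := by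
      rw [hA]
      field_simp
    rw [e, div_lt_one (by positivity)]
    rw [← hsin] at hcr
    have hs0 : 0 ≤ ‖Complex.sin (Real.pi * α)‖ ^ 2 := sq_nonneg _
    have h5 : ‖Complex.sin (Real.pi * α)‖ ^ 2 * (4 * β) < ‖Complex.sin (Real.pi * α)‖ ^ 2 *
        (‖Complex.Gamma α‖ ^ 2 * ‖Complex.Gamma (1 - α)‖ ^ 2 * (‖1 - α‖ ^ 2 * σ)) := by
      nlinarith
    exact lt_of_mul_lt_mul_left h5 hs0
  obtain ⟨L, hL1, hL2⟩ := exists_between hL
  have hev := (hlim.eventually (gt_mem_nhds hL1)).and (eventually_ge_atTop 1)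
  obtain ⟨M₀, hM₀⟩ := eventually_atTop.1 hev
  refine ⟨min (1 - L) 1, M₀, by
    apply lt_min _ one_pos
    linarith, min_le_right _ _, fun m hm => ?_⟩
  obtain ⟨h3, hm1'⟩ := hM₀ m hm
  have hmr : (1 : ℝ) ≤ m := by exact_mod_cast hm1'
  set c := A * (EE (1 - 2 * α.re) μ m / ((m : ℝ) + 1)) with hcd
  have hE0 : 0 ≤ EE (1 - 2 * α.re) μ m := by
    unfold EE
    apply Finset.sum_nonneg
    intro n hn
    rw [Finset.mem_range] at hn
    have hnm : (n : ℝ) ≤ m := by exact_mod_cast (by omega : n ≤ m)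
    have hx : 0 ≤ ((m : ℝ) - n + 1) ^ μ := Real.rpow_nonneg (by linarith) _
    positivity
  have hc0 : 0 ≤ c := by positivity
  have hmp : 0 < (m : ℝ) ^ (1 + σ) := Real.rpow_pos_of_pos (by linarith) _
  have h4 : ∀ k : ℕ, SK α μ m (k + 1) ≤ c / (m : ℝ) ^ (1 + σ) * b m (k + 1) := by
    intro k
    have := SK_le ub cheb sumk h0 h12 hσ h2 hm1' (by omega : 1 ≤ k + 1)
    rw [hb1 m (k + 1) (by omega)]
    refine this.trans (le_of_eq ?_)
    rw [← hμ, ← hA, ← hcd]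
    field_simp
  have h5 : ∑' k : ℕ, ENNReal.ofReal (SK α μ m (k + 1)) ≤
      ENNReal.ofReal (c / (m : ℝ) ^ (1 + σ) * ∑' k : ℕ, b m (k + 1)) := by
    rw [← tsum_mul_left, ENNReal.ofReal_tsum_of_nonneg (fun k => by
      have := hb0 m (k + 1)
      positivity) ((hs m hm1').mul_left _)]
    exact ENNReal.tsum_le_tsum fun k => ENNReal.ofReal_le_ofReal (h4 k)
  refine h5.trans (ENNReal.ofReal_le_ofReal ?_)
  have e1 : c / (m : ℝ) ^ (1 + σ) = A * (EE (1 - 2 * α.re) μ m / (m : ℝ) ^ (1 - 2 * α.re + μ + 1) *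
      ((m : ℝ) / ((m : ℝ) + 1))) := by
    have e2 : (m : ℝ) ^ (1 - 2 * α.re + μ + 1) = (m : ℝ) ^ (1 + σ) * m := by
      rw [show 1 - 2 * α.re + μ + 1 = (1 + σ) + 1 by rw [hμ]; ring,
        Real.rpow_add (by linarith), Real.rpow_one]
    rw [e2, hcd]
    have : (m : ℝ) ≠ 0 := by linarith
    field_simp
  rw [e1]
  have h6 : min (1 - L) 1 ≤ 1 - L := min_le_left _ _
  have h7 : A * (EE (1 - 2 * α.re) μ m / (m : ℝ) ^ (1 - 2 * α.re + μ + 1) *
      ((m : ℝ) / ((m : ℝ) + 1))) * ∑' k : ℕ, b m (k + 1) < L := h3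
  linarith

end Pool.Agent.H64.CX
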