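import Mathlib

set_option autoImplicit false

/-! # Statements: complex powers of the divided difference, means with complex exponents -/

namespace Pool.Agent.H64.CX

open Metric Set Filter Topology MeasureTheory
open scoped ENNReal

/-- the coefficients `(α)_k / k!` of `(1 - x) ^ (-α)` -/
noncomputable def bt (α : ℂ) (k : ℕ) : ℂ := ∏ i ∈ Finset.range k, ((α + (i : ℂ)) / ((i : ℂ) + 1))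

/-- `k! / (α)_k` -/
noncomputable def rr (α : ℂ) (k : ℕ) : ℂ := (bt α k)⁻¹

/-- the coefficients of non-negative index -/
noncomputable def TP (α : ℂ) (ν : ℕ → ℕ → ℂ) (n m : ℕ) : ℂ :=
  ∑ b ∈ Finset.Ico n (m + 1), ν (m - b) b * bt α (b - n)

/-- the coefficients of negative index `-k` -/
noncomputable def TN (α : ℂ) (ν : ℕ → ℕ → ℂ) (k m : ℕ) : ℂ :=
  ∑ b ∈ Finset.range (m + 1), ν (m - b) b * bt α (b + k)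

/-- the coefficients on the diagonal -/
noncomputable def GD (ν : ℕ → ℕ → ℂ) (m : ℕ) : ℂ := ∑ b ∈ Finset.range (m + 1), ν (m - b) b

/-- the positive part -/
noncomputable def PP (α : ℂ) (ν : ℕ → ℕ → ℂ) (μ : ℝ) (m : ℕ) : ℝ :=
  ∑ n ∈ Finset.Icc 1 m, (n : ℝ) * ((m : ℝ) - n + 1) ^ (-μ) * ‖TP α ν n m‖ ^ 2

/-- the Hilbert-Schmidt weights -/
noncomputable def SK (α : ℂ) (μ : ℝ) (m k : ℕ) : ℝ :=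
  (k : ℝ) * ((m : ℝ) + k + 1) ^ (-μ) / ‖rr α (m + k) - rr α k‖ ^ 2 *
    ∑ n ∈ Finset.Icc 1 m, (n : ℝ) * ‖bt (1 - α) n‖ ^ 2 * ((m : ℝ) - n + 1) ^ μ *
      (1 / ((n : ℝ) + k) + 1 / ((m : ℝ) + k - n)) ^ 2

/-- the sum which tends to a Beta integral -/
noncomputable def EE (p q : ℝ) (m : ℕ) : ℝ :=
  ∑ n ∈ Finset.range (m + 1), ((n : ℝ) + 1) ^ p * ((m : ℝ) - n + 1) ^ q

/-- the kernel -/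
noncomputable def kn (m k n : ℕ) : ℝ := (1 / ((n : ℝ) + k) + 1 / ((m : ℝ) + k - n)) ^ 2

/-- bound of the sum of the kernel -/
noncomputable def gg (m k : ℕ) : ℝ :=
  2 * m / (m + k) + 4 * k / (m + 2 * k) * Real.log (((m : ℝ) + k) / k) + 4 / k

/-- the limit of `gg` -/
noncomputable def GG (x : ℝ) : ℝ := 2 / (1 + x) + 4 * x / (1 + 2 * x) * Real.log (1 + 1 / x)

/-- the terms after the sum over `n` -/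
noncomputable def BB (α : ℂ) (μ : ℝ) (m k : ℕ) : ℝ :=
  ((m : ℝ) + k + 1) ^ (-μ) / ‖rr α (m + k) - rr α k‖ ^ 2 * gg m k

/-- the limit density -/
noncomputable def LF (α : ℂ) (σ x : ℝ) : ℝ :=
  (1 + x) ^ (-(σ + 2 * α.re)) /
    (‖Complex.Gamma α‖ ^ 2 * ‖((1 + x : ℝ) : ℂ) ^ (1 - α) - (x : ℂ) ^ (1 - α)‖ ^ 2) * GG x

/-- the criterion -/
def Crit (α : ℂ) (σ : ℝ) : Prop :=
  4 * ‖Complex.sin (Real.pi * α)‖ ^ 2 *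
    (∫ x in (0 : ℝ)..1, x ^ (1 - 2 * α.re) * (1 - x) ^ (σ + 2 * α.re)) <
    Real.pi ^ 2 * ‖1 - α‖ ^ 2 * σ

/-- CX-ID: the identity for the coefficients of negative index -/
def S_ID : Prop :=
  ∀ (α : ℂ) (ν : ℕ → ℕ → ℂ), (∀ a b, ν a b = ν b a) → (∀ j : ℕ, α ≠ -(j : ℂ)) → 0 ≤ α.re →
    ∀ m k : ℕ, 1 ≤ k → TN α ν k m * (rr α (m + k) - rr α k) =
      ∑ n ∈ Finset.Icc 1 m, (n : ℂ) * bt (1 - α) n * TP α ν n m *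
        (1 / ((n : ℂ) + k) + 1 / ((m : ℂ) + k - n + α))

/-- CX-HID: the first moment -/
def S_HID : Prop :=
  ∀ (α : ℂ) (ν : ℕ → ℕ → ℂ), (∀ a b, ν a b = ν b a) → ∀ m : ℕ, 1 ≤ m →
    (m : ℂ) / 2 * GD ν m = ∑ n ∈ Finset.Icc 1 m, bt (2 - α) (n - 1) * TP α ν n m

/-- CX-CS: the Cauchy-Schwarz inequality (from CX-ID) -/
def S_CS : Prop :=
  S_ID → ∀ (α : ℂ) (ν : ℕ → ℕ → ℂ) (μ : ℝ), (∀ a b, ν a b = ν b a) → α ≠ 0 → 0 ≤ α.re →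
    ∀ m k : ℕ, 1 ≤ m → 1 ≤ k → rr α (m + k) ≠ rr α k →
    (k : ℝ) * ((m : ℝ) + k + 1) ^ (-μ) * ‖TN α ν k m‖ ^ 2 ≤ SK α μ m k * PP α ν μ m

/-- CX-BTU: growth of the coefficients -/
def S_BTU : Prop := ∀ s : ℂ, ∃ C : ℝ, 0 ≤ C ∧ ∀ j : ℕ, ‖bt s j‖ ≤ C * ((j : ℝ) + 1) ^ (s.re - 1)

/-- CX-HB: the diagonal coefficients are controlled (from CX-HID, CX-BTU) -/
def S_HB : Prop :=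
  S_HID → S_BTU → ∀ (α : ℂ) (σ : ℝ), 0 ≤ α.re → α.re ≤ 1 / 2 → 0 < σ →
    ∃ C : ℝ, 0 ≤ C ∧ ∀ ν : ℕ → ℕ → ℂ, (∀ a b, ν a b = ν b a) → ∀ m : ℕ, 1 ≤ m →
      ‖GD ν m‖ ^ 2 ≤ C * ((m : ℝ) + 1) ^ σ * PP α ν (σ + 2 * α.re) m

/-- CX-U: the sharp bound of the coefficients -/
def S_U : Prop :=
  ∀ α : ℂ, 0 ≤ α.re → α.re < 1 → ∀ n : ℕ, 1 ≤ n →
    ‖bt (1 - α) n‖ ^ 2 ≤ (n : ℝ) ^ (-(2 * α.re)) / ‖Complex.Gamma (1 - α)‖ ^ 2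

/-- CX-RASY: asymptotics of `k! / (α)_k` -/
def S_RASY : Prop :=
  ∀ α : ℂ, α ≠ 0 → 0 ≤ α.re →
    Tendsto (fun j : ℕ => rr α j / (j : ℂ) ^ (1 - α)) atTop (𝓝 (Complex.Gamma α))

/-- CX-RLOW: lower bound of the differences -/
def S_RLOW : Prop :=
  ∀ α : ℂ, α ≠ 0 → 0 ≤ α.re → α.re ≤ 1 / 2 → |α.im| ≤ 1 / 2 →
    ∃ c : ℝ, 0 < c ∧ ∀ m k : ℕ, 1 ≤ m → 1 ≤ k →
      c * m * ((m : ℝ) + k) ^ (-α.re) ≤ ‖rr α (m + k) - rr α k‖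

/-- CX-CHEB: Chebyshev's sum inequality -/
def S_CHEB : Prop :=
  ∀ p q : ℝ, 0 ≤ p → 0 ≤ q → q - p ≤ 1 → p - q ≤ 1 → ∀ m k : ℕ, 1 ≤ k →
    ∑ n ∈ Finset.range (m + 1), ((n : ℝ) + 1) ^ p * ((m : ℝ) - n + 1) ^ q * kn m k n ≤
      1 / ((m : ℝ) + 1) * EE p q m * ∑ n ∈ Finset.range (m + 1), kn m k n

/-- CX-SUMK: the sum of the kernel -/
def S_SUMK : Prop :=
  ∀ m k : ℕ, 1 ≤ m → 1 ≤ k → (k : ℝ) * ∑ n ∈ Finset.range (m + 1), kn m k n ≤ gg m k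

/-- CX-EE: convergence to the Beta integral -/
def S_EE : Prop :=
  ∀ p q : ℝ, 0 ≤ p → 0 ≤ q →
    Tendsto (fun m : ℕ => EE p q m / (m : ℝ) ^ (p + q + 1)) atTop
      (𝓝 (∫ x in (0 : ℝ)..1, x ^ p * (1 - x) ^ q))

/-- CX-RS: a sum over `k` which tends to an integral over `(0, ∞)` (dominated convergence) -/
def S_RS : Prop :=
  ∀ (b : ℕ → ℕ → ℝ) (F : ℝ → ℝ) (C σ : ℝ), 0 < σ → (∀ m k, 0 ≤ b m k) →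
    (∀ m k : ℕ, 1 ≤ m → 1 ≤ k → m * b m k ≤ C * ((m : ℝ) / (m + k)) ^ (1 + σ)) →
    (∀ x : ℝ, 0 < x → Tendsto (fun m : ℕ => m * b m (⌊(m : ℝ) * x⌋₊ + 1)) atTop (𝓝 (F x))) →
    (∀ m : ℕ, 1 ≤ m → Summable fun k : ℕ => b m (k + 1)) ∧
      Tendsto (fun m : ℕ => ∑' k : ℕ, b m (k + 1)) atTop (𝓝 (∫ x in Ioi (0 : ℝ), F x))

/-- CX-LDOM: domination (from CX-RLOW) -/
def S_LDOM : Prop :=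
  S_RLOW → ∀ (α : ℂ) (σ : ℝ), α ≠ 0 → 0 ≤ α.re → α.re ≤ 1 / 2 → |α.im| ≤ 1 / 2 → 0 < σ →
    ∃ C : ℝ, ∀ m k : ℕ, 1 ≤ m → 1 ≤ k →
      m * ((m : ℝ) ^ (1 + σ) * BB α (σ + 2 * α.re) m k) ≤ C * ((m : ℝ) / (m + k)) ^ (1 + σ)

/-- CX-LPT: the pointwise limit (from CX-RASY) -/
def S_LPT : Prop :=
  S_RASY → ∀ (α : ℂ) (σ x : ℝ), α ≠ 0 → 0 ≤ α.re → α.re ≤ 1 / 2 → |α.im| ≤ 1 / 2 → 0 < σ → 0 < x →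
    ((1 + x : ℝ) : ℂ) ^ (1 - α) ≠ (x : ℂ) ^ (1 - α) →
    Tendsto (fun m : ℕ => m * ((m : ℝ) ^ (1 + σ) * BB α (σ + 2 * α.re) m (⌊(m : ℝ) * x⌋₊ + 1)))
      atTop (𝓝 (LF α σ x))

/-- CX-PWN: the modulus of the difference of the powers -/
def S_PWN : Prop :=
  ∀ (α : ℂ) (x : ℝ), 0 < x → α.re ≤ 1 → 0 ≤ α.re →
    ((1 - α.re) ^ 2 + 2 * (x * (1 + x)) * (1 - Real.cos (α.im * Real.log (1 + 1 / x)))) *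
      (1 + x) ^ (-(2 * α.re)) ≤ ‖((1 + x : ℝ) : ℂ) ^ (1 - α) - (x : ℂ) ^ (1 - α)‖ ^ 2

/-- CX-PWH: the hyperbolic inequality -/
def S_PWH : Prop :=
  ∀ A y φ : ℝ, 0 < φ → y ^ 2 + y ^ 4 ≤ A →
    (1 + φ / Real.sinh φ) / 2 * (A + y ^ 2) ≤ A + (1 - Real.cos (y * φ)) / (Real.cosh φ - 1)

/-- CX-PW: the pointwise inequality (from CX-PWN, CX-PWH) -/
def S_PW : Prop :=
  S_PWN → S_PWH → ∀ (α : ℂ) (x : ℝ), 0 < x → 0 ≤ α.re → α.re ≤ 3 / 8 → |α.im| ≤ 1 / 2 →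
    GG x * ‖1 - α‖ ^ 2 * (1 + x) ^ (1 - 2 * α.re) ≤
      4 * ‖((1 + x : ℝ) : ℂ) ^ (1 - α) - (x : ℂ) ^ (1 - α)‖ ^ 2

/-- CX-PWI: the integral of the limit density -/
def S_PWI : Prop :=
  ∀ (α : ℂ) (σ : ℝ), 0 < σ → α ≠ 0 → 0 ≤ α.re → α.re ≤ 3 / 8 → |α.im| ≤ 1 / 2 →
    (∀ x : ℝ, 0 < x → GG x * ‖1 - α‖ ^ 2 * (1 + x) ^ (1 - 2 * α.re) ≤
      4 * ‖((1 + x : ℝ) : ℂ) ^ (1 - α) - (x : ℂ) ^ (1 - α)‖ ^ 2) →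
    ∫ x in Ioi (0 : ℝ), LF α σ x ≤ 4 / (‖Complex.Gamma α‖ ^ 2 * ‖1 - α‖ ^ 2 * σ)

/-- CX-SER: the series of the coefficients -/
def S_SER : Prop :=
  ∀ (α : ℂ) (ν : ℕ → ℕ → ℂ) (K : ℂ × ℂ → ℂ), 0 ≤ α.re → α.re ≤ 1 →
    (∀ ζ ∈ ball (0 : ℂ) 1, ∀ z ∈ ball (0 : ℂ) 1,
      HasSum (fun p : ℕ × ℕ => ν p.1 p.2 * ζ ^ p.1 * z ^ p.2) (K (ζ, z))) →
    ∃ Cp Cn κ : ℕ → ℂ → ℂ, ∀ ζ ∈ ball (0 : ℂ) 1,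
      (∀ z ∈ ball (0 : ℂ) 1, HasSum (fun b : ℕ => κ b ζ * z ^ b) (K (ζ, z))) ∧
      (∀ n, HasSum (fun j : ℕ => κ (n + j) ζ * bt α j * ζ ^ j) (Cp n ζ)) ∧
      (∀ k, HasSum (fun b : ℕ => κ b ζ * bt α (b + k) * ζ ^ (b + k)) (Cn k ζ)) ∧
      (∀ n, HasSum (fun j : ℕ => TP α ν n (n + j) * ζ ^ j) (Cp n ζ)) ∧
      (∀ k, HasSum (fun m : ℕ => TN α ν k m * ζ ^ (m + k)) (Cn k ζ))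

/-- CX-AVG: the average over the circle -/
def S_AVG : Prop :=
  ∀ (Tp Tn : ℕ → ℕ → ℂ) (Cp Cn : ℕ → ℂ → ℂ),
    (∀ n : ℕ, ∀ ζ ∈ ball (0 : ℂ) 1, HasSum (fun j : ℕ => Tp n (n + j) * ζ ^ j) (Cp n ζ)) →
    (∀ k : ℕ, ∀ ζ ∈ ball (0 : ℂ) 1, HasSum (fun m : ℕ => Tn k m * ζ ^ (m + k)) (Cn k ζ)) →
    (∀ ζ ∈ ball (0 : ℂ) 1, ζ ≠ 0 →
      ∑' n : ℕ, (n : ℝ≥0∞) * ‖Cp n ζ‖ₑ ^ 2 ≤ ∑' k : ℕ, (k : ℝ≥0∞) * ‖Cn k ζ‖ₑ ^ 2) →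
    ∀ x ∈ Ioo (0 : ℝ) 1,
      ∑' n : ℕ, ∑' j : ℕ, ENNReal.ofReal x ^ j * ((n : ℝ≥0∞) * ‖Tp n (n + j)‖ₑ ^ 2) ≤
      ∑' k : ℕ, ∑' m : ℕ, ENNReal.ofReal x ^ (m + k) * ((k : ℝ≥0∞) * ‖Tn k m‖ₑ ^ 2)

/-- CX-LAP: integration over `x` with the weight of the Gamma integral -/
def S_LAP : Prop :=
  ∀ (A B : ℕ → ℕ → ℝ≥0∞) (μ : ℝ), 0 < μ →
    (∀ x ∈ Ioo (0 : ℝ) 1, ∑' n : ℕ, ∑' j : ℕ, ENNReal.ofReal x ^ j * A n j ≤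
      ∑' k : ℕ, ∑' m : ℕ, ENNReal.ofReal x ^ (m + k) * B k m) →
    ∀ ρ ∈ Ioo (0 : ℝ) 1,
      ∑' n : ℕ, ∑' j : ℕ, ENNReal.ofReal (ρ ^ j * ((j : ℝ) + 1) ^ (-μ)) * A n j ≤
      ∑' k : ℕ, ∑' m : ℕ, ENNReal.ofReal (ρ ^ (m + k) * ((m : ℝ) + k + 1) ^ (-μ)) * B k m

/-- CX-IDX: reindexing -/
def S_IDX : Prop :=
  ∀ (α : ℂ) (ν : ℕ → ℕ → ℂ) (μ ρ : ℝ), ρ ∈ Ioo (0 : ℝ) 1 →
    (∑' n : ℕ, ∑' j : ℕ, ENNReal.ofReal (ρ ^ j * ((j : ℝ) + 1) ^ (-μ)) *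
        ((n : ℝ≥0∞) * ‖TP α ν n (n + j)‖ₑ ^ 2) ≤
      ∑' k : ℕ, ∑' m : ℕ, ENNReal.ofReal (ρ ^ (m + k) * ((m : ℝ) + k + 1) ^ (-μ)) *
        ((k : ℝ≥0∞) * ‖TN α ν k m‖ₑ ^ 2)) →
    ∑' m : ℕ, ENNReal.ofReal (ρ ^ m * PP α ν μ m) ≤
      ∑' m : ℕ, ENNReal.ofReal (ρ ^ m) *
        ∑' k : ℕ, ENNReal.ofReal ((k : ℝ) * ((m : ℝ) + k + 1) ^ (-μ) * ‖TN α ν k m‖ ^ 2)

/-- CX-CORE: the uniform bound -/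
def S_CORE : Prop :=
  ∀ (σ δ C B : ℝ) (M₀ : ℕ), 0 < σ → 0 < δ → δ ≤ 1 → 0 ≤ C → 0 ≤ B → ∃ K : ℝ, 0 ≤ K ∧
    ∀ (P G : ℕ → ℝ) (N : ℕ → ℝ≥0∞), (∀ m, 0 ≤ P m) → (∀ m, 0 ≤ G m) →
      (∀ ρ ∈ Ioo (0 : ℝ) 1, Summable fun m : ℕ => ρ ^ m * P m) →
      (∀ ρ ∈ Ioo (0 : ℝ) 1, ∑' m : ℕ, ENNReal.ofReal (ρ ^ m * P m) ≤
        ∑' m : ℕ, ENNReal.ofReal (ρ ^ m) * N m) →
      (∀ m, M₀ ≤ m → N m ≤ ENNReal.ofReal ((1 - δ) * P m)) →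
      (∀ m, m < M₀ → N m ≤ ENNReal.ofReal B) →
      (∀ m, 1 ≤ m → G m ≤ C * ((m : ℝ) + 1) ^ σ * P m) → G 0 ≤ 1 →
      ∀ M : ℕ, ∑ m ∈ Finset.range M, G m / ((m : ℝ) + 1) ^ σ ≤ K

/-- CX-LOW: the first terms (from CX-BTU) -/
def S_LOW : Prop :=
  S_BTU → ∀ (α : ℂ) (σ : ℝ) (M₀ : ℕ), 0 ≤ α.re → α.re ≤ 1 / 2 → 0 < σ → ∃ B : ℝ, 0 ≤ B ∧
    ∀ ν : ℕ → ℕ → ℂ, (∀ a b, ‖ν a b‖ ≤ Real.exp 1 * 4 ^ (a + b)) → ∀ m < M₀,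
      ∑' k : ℕ, ENNReal.ofReal ((k : ℝ) * ((m : ℝ) + k + 1) ^ (-(σ + 2 * α.re)) *
        ‖TN α ν k m‖ ^ 2) ≤ ENNReal.ofReal B

/-- CX-SUMM: convergence for `ρ < 1` (from CX-BTU) -/
def S_SUMM : Prop :=
  S_BTU → ∀ (α : ℂ) (μ : ℝ) (ν : ℕ → ℕ → ℂ), 0 ≤ μ → 0 ≤ α.re → α.re ≤ 1 →
    (∀ s ∈ Ioo (0 : ℝ) 1, ∃ C : ℝ, ∀ a b, ‖ν a b‖ * s ^ (a + b) ≤ C) →
    ∀ ρ ∈ Ioo (0 : ℝ) 1, Summable fun m : ℕ => ρ ^ m * PP α ν μ m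

/-- CX-CAU: Cauchy's estimates for the coefficients, and their growth -/
def S_CAU : Prop :=
  ∀ (ν : ℕ → ℕ → ℂ) (K : ℂ × ℂ → ℂ) (M : ℝ),
    (∀ ζ ∈ ball (0 : ℂ) 1, ∀ z ∈ ball (0 : ℂ) 1,
      HasSum (fun p : ℕ × ℕ => ν p.1 p.2 * ζ ^ p.1 * z ^ p.2) (K (ζ, z))) →
    (∀ ζ z : ℂ, ‖ζ‖ ≤ 1 / 2 → ‖z‖ ≤ 1 / 2 → ‖K (ζ, z)‖ ≤ M) →
    (∀ a b, ‖ν a b‖ ≤ M * 4 ^ (a + b)) ∧
      ∀ s ∈ Ioo (0 : ℝ) 1, ∃ C : ℝ, ∀ a b, ‖ν a b‖ * s ^ (a + b) ≤ C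

/-- CX-NUMI: the numerical inequality on the imaginary axis -/
def S_NUMI : Prop :=
  ∀ y : ℝ, 0 < y → y ≤ 1 / 2 →
    Real.sinh (Real.pi * y) ^ 2 < Real.pi ^ 2 * y ^ 2 * ((1 + y ^ 2) ^ 2 * (1 + 2 * y ^ 2))

end Pool.Agent.H64.CX
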