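import Pool.Agent.H64.G.T9f66d723.W5h41.MA11
import Pool.Agent.H64.G.R_seed8.R250.MC4
import Pool.Agent.H64.CX.Stm

set_option autoImplicit false

/-! # Statements which use the class of univalent maps -/

namespace Pool.Agent.H64.CX

open Metric Set Filter Topology MeasureTheory
open scoped ENNReal
open Pool.Agent.W677.Mar Pool.Agent.W5h41.MA

/-- CX-AREA: the area inequality for `(ψ(1/z) - ψ(1/ζ)) ^ (-α)` -/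
def S_AREA : Prop :=
  S_BTU → ∀ (Y H : ℂ → ℂ) (f : ℂ × ℂ → ℂ) (α : ℂ), Sg Y H → Lg Y f → 0 ≤ α.re → α.re ≤ 1 →
    ∀ ζ ∈ ball (0 : ℂ) 1, ζ ≠ 0 → ∀ κ Cp Cn : ℕ → ℂ,
    (∀ z ∈ ball (0 : ℂ) 1, HasSum (fun b : ℕ => κ b * z ^ b) (Complex.exp (-(α * f (ζ, z))))) →
    (∀ n, HasSum (fun j : ℕ => κ (n + j) * bt α j * ζ ^ j) (Cp n)) →
    (∀ k, HasSum (fun b : ℕ => κ b * bt α (b + k) * ζ ^ (b + k)) (Cn k)) →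
    ∑' n : ℕ, (n : ℝ≥0∞) * ‖Cp n‖ₑ ^ 2 ≤ ∑' k : ℕ, (k : ℝ≥0∞) * ‖Cn k‖ₑ ^ 2

/-- CX-FB: the logarithm of the divided difference is bounded by `1` for `|ζ|, |z| ≤ 1/2` -/
def S_FB : Prop :=
  ∀ (Y H : ℂ → ℂ) (f : ℂ × ℂ → ℂ), Sg Y H → Lg Y f → ∀ ζ z : ℂ, ‖ζ‖ ≤ 1 / 2 → ‖z‖ ≤ 1 / 2 →
    ‖f (ζ, z)‖ ≤ 1

/-- CX-SML: the bound for small exponents, with a uniform constant -/
def S_SML : Prop :=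
  ∀ κ : ℝ, 1 / 2 < κ → ∃ t₀ C : ℝ, 0 < t₀ ∧ 0 ≤ C ∧ ∀ s : ℂ, ‖s‖ ≤ t₀ → s.re ≤ 0 →
    ∀ Y H : ℂ → ℂ, Sg Y H → ∀ r ∈ Ioo (0 : ℝ) 1,
      (∫ x in (0 : ℝ)..(2 * Real.pi), ‖Complex.exp (s * H (circleMap 0 r x))‖ ^ 2) *
        (1 - r) ^ (κ * (4 * ‖s‖ ^ 2)) ≤ C

/-- the bound for one exponent -/
def Bd (α : ℂ) (σ : ℝ) : Prop :=
  ∃ C : ℝ, 0 ≤ C ∧ ∀ Y H : ℂ → ℂ, Sg Y H → ∀ r ∈ Ioo (0 : ℝ) 1,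
    (∫ x in (0 : ℝ)..(2 * Real.pi), ‖Complex.exp (-(α * H (circleMap 0 r x)))‖ ^ 2) *
      (1 - r) ^ σ ≤ C

end Pool.Agent.H64.CX
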