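import Pool.Agent.H64.CX.StmF
import Pool.Agent.H64.CX.StmA
import Pool.Agent.H64.BR.Stm
import Pool.Agent.H64.G.T9f66d723.W5h41.MA11

set_option autoImplicit false

/-! # Assembly: from the Hilbert-Schmidt sums to the means -/

namespace Pool.Agent.H64.CX

open Metric Set Filter Topology MeasureTheory
open scoped ENNReal
open Pool.Agent.W677.Mar Pool.Agent.W5h41.MA

/-- the weighted area inequality -/
def S_AW (α : ℂ) (μ : ℝ) : Prop :=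
  ∀ (Y H : ℂ → ℂ) (f : ℂ × ℂ → ℂ) (ν : ℕ → ℕ → ℂ), Sg Y H → Lg Y f →
    (∀ ζ ∈ ball (0 : ℂ) 1, ∀ z ∈ ball (0 : ℂ) 1,
      HasSum (fun p : ℕ × ℕ => ν p.1 p.2 * ζ ^ p.1 * z ^ p.2) (Complex.exp (-(α * f (ζ, z))))) →
    ∀ ρ : ℝ, ρ ∈ Ioo (0 : ℝ) 1 →
    (∑' n : ℕ, ∑' j : ℕ, ENNReal.ofReal (ρ ^ j * ((j : ℝ) + 1) ^ (-μ)) *
        ((n : ℝ≥0∞) * ‖TP α ν n (n + j)‖ₑ ^ 2) ≤
      ∑' k : ℕ, ∑' m : ℕ, ENNReal.ofReal (ρ ^ (m + k) * ((m : ℝ) + k + 1) ^ (-μ)) *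
        ((k : ℝ≥0∞) * ‖TN α ν k m‖ₑ ^ 2))

/-- For `0 ≤ Re α ≤ 1` and positive weights: from the averages over circles. -/
theorem aw_pos (btu : S_BTU) (area : S_AREA) (ser : S_SER) (avg : S_AVG) (lap : S_LAP) {α : ℂ}
    {μ : ℝ} (h0 : 0 ≤ α.re) (h1 : α.re ≤ 1) (hμ : 0 < μ) : S_AW α μ := by
  intro Y H f ν S L hν ρ hρ
  obtain ⟨Cp, Cn, κ, h⟩ := ser α ν (fun p => Complex.exp (-(α * f p))) h0 h1 hν
  have h2 := avg (TP α ν) (TN α ν) Cp Cn (fun n ζ hζ => (h ζ hζ).2.2.2.1 n)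
    (fun k ζ hζ => (h ζ hζ).2.2.2.2 k) (fun ζ hζ hζ0 =>
      area btu Y H f α S L h0 h1 ζ hζ hζ0 (fun b => κ b ζ) (fun n => Cp n ζ) (fun k => Cn k ζ)
        (h ζ hζ).1 (h ζ hζ).2.1 (h ζ hζ).2.2.1)
  exact lap (fun n j => (n : ℝ≥0∞) * ‖TP α ν n (n + j)‖ₑ ^ 2)
    (fun k m => (k : ℝ≥0∞) * ‖TN α ν k m‖ₑ ^ 2) μ hμ h2 ρ hρ

theorem bt_one (k : ℕ) : bt 1 k = 1 := by
  unfold bt
  apply Finset.prod_eq_one
  intro i _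
  have : (i : ℂ) + 1 ≠ 0 := by exact_mod_cast Nat.succ_ne_zero i
  rw [add_comm (1 : ℂ), div_self this]

/-- the diagonal -/
theorem diag_hasSum (ser : S_SER) {ν : ℕ → ℕ → ℂ} {K : ℂ × ℂ → ℂ}
    (hν : ∀ ζ ∈ ball (0 : ℂ) 1, ∀ z ∈ ball (0 : ℂ) 1,
      HasSum (fun p : ℕ × ℕ => ν p.1 p.2 * ζ ^ p.1 * z ^ p.2) (K (ζ, z))) {z : ℂ}
    (hz : z ∈ ball (0 : ℂ) 1) : HasSum (fun m : ℕ => GD ν m * z ^ m) (K (z, z)) := by
  obtain ⟨Cp, Cn, κ, h⟩ := ser 1 ν K (by simp) (by simp) hν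
  obtain ⟨g1, g2, g3, g4, g5⟩ := h z hz
  have e1 := g3 0
  have e2 := g5 0
  simp only [bt_one, mul_one, add_zero] at e1
  have e3 := (g1 z hz).unique e1
  rw [e3]
  refine e2.congr_fun ?_ |> fun h => h
  intro m
  unfold TN GD
  simp [bt_one]

/-- **From the Hilbert-Schmidt sums to the means.** -/
theorem bd_of (dps : Pool.Agent.H64.BR.S_DPS) (mean : Pool.Agent.H64.BR.S_MEAN) (ser : S_SER)
    (hid : S_HID) (btu : S_BTU) (hbn : S_HBN) (lown : S_LOWN) (summn : S_SUMMN) (cau : S_CAU)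
    (core : S_CORE) (fb : S_FB) (idx : S_IDX) {α : ℂ} {σ : ℝ} (hα1 : ‖α‖ ≤ 1)
    (h0 : -(1 / 2) ≤ α.re) (h1 : α.re ≤ 1 / 2) (hσ : 0 < σ) (hσ2 : σ ≤ 2)
    (hμ : -1 < σ + 2 * α.re) (aw : S_AW α (σ + 2 * α.re)) (S : ℕ → ℕ → ℝ)
    (hcs : ∀ ν : ℕ → ℕ → ℂ, (∀ a b, ν a b = ν b a) → ∀ m k : ℕ, 1 ≤ m → 1 ≤ k →
      (k : ℝ) * ((m : ℝ) + k + 1) ^ (-(σ + 2 * α.re)) * ‖TN α ν k m‖ ^ 2 ≤
        S m k * PP α ν (σ + 2 * α.re) m)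
    (hS : ∃ (δ : ℝ) (M₀ : ℕ), 0 < δ ∧ δ ≤ 1 ∧ ∀ m, M₀ ≤ m →
      ∑' k : ℕ, ENNReal.ofReal (S m (k + 1)) ≤ ENNReal.ofReal (1 - δ)) : Bd α σ := by
  obtain ⟨δ, M, hδ0, hδ1, hM⟩ := hS
  set μ := σ + 2 * α.re with hμd
  obtain ⟨M₀, hM₀⟩ : ∃ M₀ : ℕ, M₀ = max M 1 := ⟨_, rfl⟩
  have hMM : M ≤ M₀ := by rw [hM₀]; exact le_max_left _ _
  have hM1 : 1 ≤ M₀ := by rw [hM₀]; exact le_max_right _ _
  obtain ⟨B, hB0, hB⟩ := lown btu α σ M₀ h0 h1 hσ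
  obtain ⟨C, hC0, hC⟩ := hbn hid btu α σ h0 h1 hσ hμ
  obtain ⟨K, hK0, hK⟩ := core σ δ C B M₀ hσ hδ0 hδ1 hC0 hB0
  refine ⟨2 * Real.pi * (5 * K), by positivity, ?_⟩
  intro Y H Sg' r hr
  obtain ⟨f, L⟩ := exists_Lg Sg'
  have hd : DifferentiableOn ℂ (fun p : ℂ × ℂ => Complex.exp (-(α * f p)))
      (ball (0 : ℂ) 1 ×ˢ ball (0 : ℂ) 1) := ((f_joint Sg' L).const_mul α).neg.cexp
  obtain ⟨ν, hν1, hν2⟩ := dps (fun p : ℂ × ℂ => Complex.exp (-(α * f p))) hd (fun ζ hζ z hz => by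
    show Complex.exp (-(α * f (ζ, z))) = Complex.exp (-(α * f (z, ζ)))
    rw [L.symm hζ hz])
  have hKb : ∀ ζ z : ℂ, ‖ζ‖ ≤ 1 / 2 → ‖z‖ ≤ 1 / 2 → ‖Complex.exp (-(α * f (ζ, z)))‖ ≤ Real.exp 1 := by
    intro ζ z hζ hz
    rw [Complex.norm_exp]
    apply Real.exp_le_exp.2
    calc (-(α * f (ζ, z))).re ≤ ‖-(α * f (ζ, z))‖ := Complex.re_le_norm _
      _ = ‖α‖ * ‖f (ζ, z)‖ := by rw [norm_neg, norm_mul]
      _ ≤ 1 * 1 := mul_le_mul hα1 (fb Y H f Sg' L ζ z hζ hz) (norm_nonneg _) (by norm_num)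
      _ = 1 := one_mul 1
  obtain ⟨c1, c2⟩ := cau ν (fun p : ℂ × ℂ => Complex.exp (-(α * f p))) (Real.exp 1) hν2 hKb
  have hPP : ∀ m, 0 ≤ PP α ν μ m := by
    intro m
    unfold PP
    apply Finset.sum_nonneg
    intro n hn
    rw [Finset.mem_Icc] at hn
    have hnm : (n : ℝ) ≤ m := by exact_mod_cast hn.2
    have hx : 0 ≤ ((m : ℝ) - n + 1) ^ (-μ) := Real.rpow_nonneg (by linarith) _
    positivity
  have hdiag : ∀ z ∈ ball (0 : ℂ) 1, HasSum (fun m : ℕ => GD ν m * z ^ m)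
      (Complex.exp (-(α * H z))) := by
    intro z hz
    have := diag_hasSum ser (K := fun p => Complex.exp (-(α * f p))) hν2 hz
    have e : Complex.exp (-(α * f (z, z))) = Complex.exp (-(α * H z)) := by rw [L.diag Sg' hz]
    rw [← e]
    exact this
  have hG0 : ‖GD ν 0‖ ^ 2 ≤ 1 := by
    have h00 : (0 : ℂ) ∈ ball (0 : ℂ) 1 := mem_ball_self one_pos
    have h2 := hdiag 0 h00
    rw [Sg'.H0, mul_zero, neg_zero, Complex.exp_zero] at h2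
    have h3 : HasSum (fun m : ℕ => GD ν m * (0 : ℂ) ^ m) (GD ν 0) := by
      have h4 := hasSum_single (f := fun m : ℕ => GD ν m * (0 : ℂ) ^ m) 0 (fun m hm => by
        rw [zero_pow hm, mul_zero])
      simpa using h4
    rw [h3.unique h2, norm_one, one_pow]
  have hcore := hK (fun m => PP α ν μ m) (fun m => ‖GD ν m‖ ^ 2)
    (fun m => ∑' k : ℕ, ENNReal.ofReal ((k : ℝ) * ((m : ℝ) + k + 1) ^ (-μ) * ‖TN α ν k m‖ ^ 2))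
    hPP (fun m => sq_nonneg _) (fun ρ hρ => summn btu α μ ν (by linarith) c2 ρ hρ)
    (fun ρ hρ => idx α ν μ ρ hρ (aw Y H f ν Sg' L hν2 ρ hρ)) ?_ (fun m hm => hB ν c1 m hm)
    (fun m hm => hC ν hν1 m hm) hG0
  · exact mean σ K (fun m => GD ν m) (fun z => Complex.exp (-(α * H z))) hσ hσ2 hdiag hcore r hr
  · intro m hm
    have hm1 : 1 ≤ m := le_trans hM1 hm
    have e1 : ∑' k : ℕ, ENNReal.ofReal ((k : ℝ) * ((m : ℝ) + k + 1) ^ (-μ) * ‖TN α ν k m‖ ^ 2) =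
        ∑' k : ℕ, ENNReal.ofReal (((k + 1 : ℕ) : ℝ) * ((m : ℝ) + ((k + 1 : ℕ) : ℝ) + 1) ^ (-μ) *
          ‖TN α ν (k + 1) m‖ ^ 2) := by
      rw [tsum_eq_zero_add' ENNReal.summable]
      simp
    have hδ' : 0 ≤ 1 - δ := by linarith
    calc ∑' k : ℕ, ENNReal.ofReal ((k : ℝ) * ((m : ℝ) + k + 1) ^ (-μ) * ‖TN α ν k m‖ ^ 2)
        = ∑' k : ℕ, ENNReal.ofReal (((k + 1 : ℕ) : ℝ) * ((m : ℝ) + ((k + 1 : ℕ) : ℝ) + 1) ^ (-μ) *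
          ‖TN α ν (k + 1) m‖ ^ 2) := e1
      _ ≤ ∑' k : ℕ, ENNReal.ofReal (S m (k + 1)) * ENNReal.ofReal (PP α ν μ m) := by
          apply ENNReal.tsum_le_tsum
          intro k
          rw [← ENNReal.ofReal_mul' (hPP m)]
          exact ENNReal.ofReal_le_ofReal (hcs ν hν1 m (k + 1) hm1 (by omega))
      _ = (∑' k : ℕ, ENNReal.ofReal (S m (k + 1))) * ENNReal.ofReal (PP α ν μ m) :=
          ENNReal.tsum_mul_right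
      _ ≤ ENNReal.ofReal (1 - δ) * ENNReal.ofReal (PP α ν μ m) := by
          gcongr
          exact hM m (le_trans hMM hm)
      _ = ENNReal.ofReal ((1 - δ) * PP α ν μ m) := (ENNReal.ofReal_mul hδ').symm

end Pool.Agent.H64.CX
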