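import Pool.Agent.H64.CX.StmB

set_option autoImplicit false

/-! # CX-BETA2: an upper bound of the Beta integral -/

namespace Pool.Agent.H64.CX

open Metric Set Filter Topology MeasureTheory

namespace BETA2

/-! ## Taylor bounds for the sine -/

lemma nonneg_of_deriv {f f' : ℝ → ℝ} (hf : ∀ x, HasDerivAt f (f' x) x) (h0 : f 0 = 0)
    (h' : ∀ x, 0 ≤ x → 0 ≤ f' x) : ∀ x, 0 ≤ x → 0 ≤ f x := by
  intro x hx
  have hm : MonotoneOn f (Ici 0) := by
    refine monotoneOn_of_deriv_nonneg (convex_Ici 0)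
      (fun y _ => (hf y).continuousAt.continuousWithinAt)
      (fun y _ => (hf y).differentiableAt.differentiableWithinAt) ?_
    intro y hy
    rw [interior_Ici] at hy
    rw [(hf y).deriv]
    exact h' y (le_of_lt hy)
  have := hm (Set.mem_Ici.2 le_rfl) (Set.mem_Ici.2 hx) hx
  rwa [h0] at this

lemma cos_le4 : ∀ x : ℝ, 0 ≤ x → 0 ≤ 1 - x ^ 2 / 2 + x ^ 4 / 24 - Real.cos x := by
  refine nonneg_of_deriv (f' := fun x => -x + x ^ 3 / 6 + Real.sin x) ?_ (by simp) ?_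
  · intro x
    have h := ((((hasDerivAt_id x).pow 2).div_const 2).const_sub 1).add
      (((hasDerivAt_id x).pow 4).div_const 24)
    refine ((h.sub (Real.hasDerivAt_cos x))).congr_deriv ?_
    simp
    ring
  · intro x hx
    have := Real.sin_ge_sub_cube hx
    linarith

lemma sin_le5 : ∀ x : ℝ, 0 ≤ x → 0 ≤ x - x ^ 3 / 6 + x ^ 5 / 120 - Real.sin x := by
  refine nonneg_of_deriv (f' := fun x => 1 - x ^ 2 / 2 + x ^ 4 / 24 - Real.cos x) ?_ (by simp) ?_
  · intro x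
    have h := ((hasDerivAt_id x).sub (((hasDerivAt_id x).pow 3).div_const 6)).add
      (((hasDerivAt_id x).pow 5).div_const 120)
    refine ((h.sub (Real.hasDerivAt_sin x))).congr_deriv ?_
    simp
    ring
  · exact cos_le4

lemma cos_ge6 : ∀ x : ℝ, 0 ≤ x →
    0 ≤ Real.cos x - (1 - x ^ 2 / 2 + x ^ 4 / 24 - x ^ 6 / 720) := by
  refine nonneg_of_deriv (f' := fun x => x - x ^ 3 / 6 + x ^ 5 / 120 - Real.sin x) ?_ (by simp) ?_
  · intro x
    have h := (((((hasDerivAt_id x).pow 2).div_const 2).const_sub 1).add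
      (((hasDerivAt_id x).pow 4).div_const 24)).sub (((hasDerivAt_id x).pow 6).div_const 720)
    refine (((Real.hasDerivAt_cos x).sub h)).congr_deriv ?_
    simp
    ring
  · exact sin_le5

lemma sin_ge7 : ∀ x : ℝ, 0 ≤ x →
    0 ≤ Real.sin x - (x - x ^ 3 / 6 + x ^ 5 / 120 - x ^ 7 / 5040) := by
  refine nonneg_of_deriv
    (f' := fun x => Real.cos x - (1 - x ^ 2 / 2 + x ^ 4 / 24 - x ^ 6 / 720)) ?_ (by simp) ?_
  · intro x
    have h := (((hasDerivAt_id x).sub (((hasDerivAt_id x).pow 3).div_const 6)).add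
      (((hasDerivAt_id x).pow 5).div_const 120)).sub (((hasDerivAt_id x).pow 7).div_const 5040)
    refine (((Real.hasDerivAt_sin x).sub h)).congr_deriv ?_
    simp
    ring
  · exact cos_ge6

/-- the Taylor polynomial of `sin z / z` in `s = z ^ 2` -/
noncomputable def hh (s : ℝ) : ℝ := 1 - s / 6 + s ^ 2 / 120 - s ^ 3 / 5040

lemma hh_anti {s t : ℝ} (hs : 0 ≤ s) (hst : s ≤ t) (ht : t ≤ 5 / 2) : hh t ≤ hh s := by
  have h1 : hh s - hh t = (t - s) * (1 / 6 - (s + t) / 120 + (s ^ 2 + s * t + t ^ 2) / 5040) := by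
    unfold hh
    ring
  have h2 : 0 ≤ 1 / 6 - (s + t) / 120 + (s ^ 2 + s * t + t ^ 2) / 5040 := by
    have h3 : 0 ≤ s ^ 2 + s * t + t ^ 2 := by nlinarith
    linarith
  have h4 : 0 ≤ hh s - hh t := by
    rw [h1]
    exact mul_nonneg (by linarith) h2
  linarith

lemma poly (p : ℝ) (h0 : 0 ≤ p) (h1 : p ≤ 1 / 2) : 1 - p ≤ hh (987 / 100 * p ^ 2) * FF p := by
  have h2 : 0 ≤ 1 - 2 * p := by linarith
  have h3 : hh (987 / 100 * p ^ 2) * FF p - (1 - p) =
      p ^ 2 * (1 / 200 * (2 * p) ^ 0 * (1 - 2 * p) ^ 8 +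
        17 / 80 * (2 * p) ^ 1 * (1 - 2 * p) ^ 7 +
        1655023 / 1600000 * (2 * p) ^ 2 * (1 - 2 * p) ^ 6 +
        7006953 / 3200000 * (2 * p) ^ 3 * (1 - 2 * p) ^ 5 +
        3231986609 / 1280000000 * (2 * p) ^ 4 * (1 - 2 * p) ^ 4 +
        4368638873 / 2560000000 * (2 * p) ^ 5 * (1 - 2 * p) ^ 3 +
        69250606867 / 102400000000 * (2 * p) ^ 6 * (1 - 2 * p) ^ 2 +
        14891021607 / 102400000000 * (2 * p) ^ 7 * (1 - 2 * p) ^ 1 +
        5305854007 / 409600000000 * (2 * p) ^ 8 * (1 - 2 * p) ^ 0) := by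
    unfold hh FF
    ring
  have h4 : 0 ≤ hh (987 / 100 * p ^ 2) * FF p - (1 - p) := by
    rw [h3]
    positivity
  linarith

lemma FF_pos (p : ℝ) (h0 : 0 ≤ p) (h1 : p ≤ 1) : 0 < FF p := by
  unfold FF
  have h2 : p * (1 - p) ≤ 1 / 4 := by nlinarith [sq_nonneg (p - 1 / 2)]
  nlinarith [sq_nonneg (p * (1 - p))]

lemma sine (p : ℝ) (h0 : 0 ≤ p) (h1 : p ≤ 1 / 2) :
    Real.pi * (p * (1 - p)) ≤ Real.sin (Real.pi * p) * FF p := by
  have hpi := Real.pi_pos
  have hpi2 : Real.pi ^ 2 ≤ 987 / 100 := by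
    have := Real.pi_lt_d4
    nlinarith
  have hz : 0 ≤ Real.pi * p := by positivity
  have hs := sin_ge7 _ hz
  have hFF := FF_pos p h0 (by linarith)
  have e1 : Real.pi * p - (Real.pi * p) ^ 3 / 6 + (Real.pi * p) ^ 5 / 120 -
      (Real.pi * p) ^ 7 / 5040 = Real.pi * p * hh ((Real.pi * p) ^ 2) := by
    unfold hh
    ring
  rw [e1] at hs
  have e2 : (Real.pi * p) ^ 2 ≤ 987 / 100 * p ^ 2 := by
    rw [mul_pow]
    exact mul_le_mul_of_nonneg_right hpi2 (sq_nonneg p)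
  have e3 : 987 / 100 * p ^ 2 ≤ 5 / 2 := by nlinarith
  have e4 := hh_anti (sq_nonneg _) e2 e3
  have e5 := poly p h0 h1
  calc Real.pi * (p * (1 - p)) = Real.pi * p * (1 - p) := by ring
    _ ≤ Real.pi * p * (hh (987 / 100 * p ^ 2) * FF p) := mul_le_mul_of_nonneg_left e5 hz
    _ ≤ Real.pi * p * (hh ((Real.pi * p) ^ 2) * FF p) := by
        refine mul_le_mul_of_nonneg_left ?_ hz
        exact mul_le_mul_of_nonneg_right e4 hFF.le
    _ = Real.pi * p * hh ((Real.pi * p) ^ 2) * FF p := by ring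
    _ ≤ Real.sin (Real.pi * p) * FF p :=
        mul_le_mul_of_nonneg_right (by linarith) hFF.le

lemma sine' (p : ℝ) (h0 : 0 ≤ p) (h1 : p ≤ 1) :
    Real.pi * (p * (1 - p)) ≤ Real.sin (Real.pi * p) * FF p := by
  rcases le_total p (1 / 2) with h | h
  · exact sine p h0 h
  · have h2 := sine (1 - p) (by linarith) (by linarith)
    have h3 : Real.sin (Real.pi * (1 - p)) = Real.sin (Real.pi * p) := by
      rw [mul_sub, mul_one, Real.sin_pi_sub]
    have h4 : FF (1 - p) = FF p := by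
      unfold FF
      ring
    rw [h3, h4] at h2
    calc Real.pi * (p * (1 - p)) = Real.pi * ((1 - p) * (1 - (1 - p))) := by ring
      _ ≤ _ := h2

/-! ## the Beta integral -/

lemma beta_real (a b : ℝ) (ha : 0 < a) (hb : 0 < b) :
    ∫ x in (0 : ℝ)..1, x ^ (a - 1) * (1 - x) ^ (b - 1) =
      Real.Gamma a * Real.Gamma b / Real.Gamma (a + b) := by
  have h1 := ProbabilityTheory.beta_eq_betaIntegralReal a b ha hb
  unfold ProbabilityTheory.beta Complex.betaIntegral at h1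
  rw [h1]
  have h2 : ∀ x ∈ uIcc (0 : ℝ) 1, (x : ℂ) ^ ((a : ℂ) - 1) * (1 - (x : ℂ)) ^ ((b : ℂ) - 1) =
      ((x ^ (a - 1) * (1 - x) ^ (b - 1) : ℝ) : ℂ) := by
    intro x hx
    rw [uIcc_of_le zero_le_one] at hx
    rw [Complex.ofReal_mul, Complex.ofReal_cpow hx.1, Complex.ofReal_cpow (by linarith [hx.2])]
    push_cast
    rfl
  rw [intervalIntegral.integral_congr h2, intervalIntegral.integral_ofReal, Complex.ofReal_re]

/-- the moments -/
noncomputable def J (p : ℝ) (k : ℕ) : ℝ := ∫ x in (0 : ℝ)..1, x ^ (1 - p) * (1 - x) ^ p * x ^ k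

lemma J_eq (p : ℝ) (h0 : 0 ≤ p) (h1 : p < 1) (k : ℕ) :
    J p k = Real.Gamma (2 - p + k) * Real.Gamma (1 + p) / Real.Gamma (3 + k) := by
  have h2 := beta_real (2 - p + k) (1 + p) (by have := Nat.cast_nonneg (α := ℝ) k; linarith)
    (by linarith)
  have h3 : (2 - p + k + (1 + p)) = 3 + (k : ℝ) := by ring
  rw [h3] at h2
  rw [← h2]
  unfold J
  refine intervalIntegral.integral_congr_ae ?_
  rw [uIoc_of_le zero_le_one]
  refine Eventually.of_forall fun x hx => ?_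
  have hx0 : 0 < x := hx.1
  have h4 : (2 - p + k - 1) = (1 - p) + (k : ℝ) := by ring
  have h5 : (1 + p - 1) = p := by ring
  rw [h4, h5, Real.rpow_add hx0, Real.rpow_natCast]
  ring

lemma J_int (p : ℝ) (h0 : 0 ≤ p) (h1 : p < 1) (k : ℕ) :
    IntervalIntegrable (fun x : ℝ => x ^ (1 - p) * (1 - x) ^ p * x ^ k) volume 0 1 := by
  apply Continuous.intervalIntegrable
  refine Continuous.mul (Continuous.mul ?_ ?_) (continuous_pow k)
  · exact continuous_id.rpow_const fun x => Or.inr (by linarith)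
  · exact (continuous_const.sub continuous_id).rpow_const fun x => Or.inr h0

lemma J1 (p : ℝ) (h0 : 0 ≤ p) (h1 : p < 1) : J p 1 = (2 - p) / 3 * J p 0 := by
  rw [J_eq p h0 h1, J_eq p h0 h1]
  have e1 : Real.Gamma (2 - p + (1 : ℕ)) = (2 - p) * Real.Gamma (2 - p) := by
    rw [Nat.cast_one, Real.Gamma_add_one (by linarith)]
  have e2 : Real.Gamma (3 + (1 : ℕ)) = 3 * Real.Gamma 3 := by
    rw [Nat.cast_one, Real.Gamma_add_one (by norm_num)]
  have e3 : Real.Gamma 3 ≠ 0 := (Real.Gamma_pos_of_pos (by norm_num)).ne'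
  rw [e1, e2, Nat.cast_zero, add_zero, add_zero]
  field_simp

lemma J2 (p : ℝ) (h0 : 0 ≤ p) (h1 : p < 1) : J p 2 = (2 - p) * (3 - p) / 12 * J p 0 := by
  rw [J_eq p h0 h1, J_eq p h0 h1]
  have e1 : Real.Gamma (2 - p + (2 : ℕ)) = (3 - p) * ((2 - p) * Real.Gamma (2 - p)) := by
    rw [show (2 - p + ((2 : ℕ) : ℝ)) = (3 - p) + 1 by push_cast; ring,
      Real.Gamma_add_one (by linarith), show (3 - p) = (2 - p) + 1 by ring,
      Real.Gamma_add_one (by linarith)]
  have e2 : Real.Gamma (3 + (2 : ℕ)) = 4 * (3 * Real.Gamma 3) := by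
    rw [show ((3 : ℝ) + ((2 : ℕ) : ℝ)) = 4 + 1 by push_cast; ring,
      Real.Gamma_add_one (by norm_num), show (4 : ℝ) = 3 + 1 by ring,
      Real.Gamma_add_one (by norm_num)]
  have e3 : Real.Gamma 3 ≠ 0 := (Real.Gamma_pos_of_pos (by norm_num)).ne'
  rw [e1, e2, Nat.cast_zero, add_zero, add_zero]
  field_simp
  ring

lemma J3 (p : ℝ) (h0 : 0 ≤ p) (h1 : p < 1) :
    J p 3 = (2 - p) * (3 - p) * (4 - p) / 60 * J p 0 := by
  rw [J_eq p h0 h1, J_eq p h0 h1]
  have e1 : Real.Gamma (2 - p + (3 : ℕ)) =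
      (4 - p) * ((3 - p) * ((2 - p) * Real.Gamma (2 - p))) := by
    rw [show (2 - p + ((3 : ℕ) : ℝ)) = (4 - p) + 1 by push_cast; ring,
      Real.Gamma_add_one (by linarith), show (4 - p) = (3 - p) + 1 by ring,
      Real.Gamma_add_one (by linarith), show (3 - p) = (2 - p) + 1 by ring,
      Real.Gamma_add_one (by linarith)]
  have e2 : Real.Gamma (3 + (3 : ℕ)) = 5 * (4 * (3 * Real.Gamma 3)) := by
    rw [show ((3 : ℝ) + ((3 : ℕ) : ℝ)) = 5 + 1 by push_cast; ring,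
      Real.Gamma_add_one (by norm_num), show (5 : ℝ) = 4 + 1 by ring,
      Real.Gamma_add_one (by norm_num), show (4 : ℝ) = 3 + 1 by ring,
      Real.Gamma_add_one (by norm_num)]
  have e3 : Real.Gamma 3 ≠ 0 := (Real.Gamma_pos_of_pos (by norm_num)).ne'
  rw [e1, e2, Nat.cast_zero, add_zero, add_zero]
  field_simp
  ring

lemma Gamma_three : Real.Gamma 3 = 2 := by
  rw [show (3 : ℝ) = 1 + 1 + 1 by norm_num, Real.Gamma_add_one (by norm_num),
    Real.Gamma_add_one (by norm_num), Real.Gamma_one]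
  norm_num

lemma J0_pos (p : ℝ) (h0 : 0 ≤ p) (h1 : p < 1) : 0 < J p 0 := by
  rw [J_eq p h0 h1]
  have e1 : 0 < Real.Gamma (2 - p + (0 : ℕ)) := Real.Gamma_pos_of_pos (by push_cast; linarith)
  have e2 : 0 < Real.Gamma (1 + p) := Real.Gamma_pos_of_pos (by linarith)
  have e3 : 0 < Real.Gamma (3 + (0 : ℕ)) := Real.Gamma_pos_of_pos (by norm_num)
  positivity

lemma J0_le (p : ℝ) (h0 : 0 ≤ p) (h1 : p < 1) : J p 0 ≤ 1 / 2 * FF p := by
  rw [J_eq p h0 h1, Nat.cast_zero, add_zero, add_zero, Gamma_three]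
  rcases h0.eq_or_lt with h | h
  · rw [← h, sub_zero, add_zero, Real.Gamma_two, Real.Gamma_one]
    unfold FF
    norm_num
  · have e1 : Real.Gamma (2 - p) = (1 - p) * Real.Gamma (1 - p) := by
      rw [show (2 - p) = (1 - p) + 1 by ring, Real.Gamma_add_one (by linarith)]
    have e2 : Real.Gamma (1 + p) = p * Real.Gamma p := by
      rw [add_comm, Real.Gamma_add_one h.ne']
    have e3 := Real.Gamma_mul_Gamma_one_sub p
    have e4 : 0 < Real.sin (Real.pi * p) := by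
      apply Real.sin_pos_of_pos_of_lt_pi
      · have := Real.pi_pos
        positivity
      · have := Real.pi_pos
        nlinarith
    have e5 := sine' p h0 h1.le
    have e6 : Real.Gamma (2 - p) * Real.Gamma (1 + p) =
        Real.pi * (p * (1 - p)) / Real.sin (Real.pi * p) := by
      rw [e1, e2]
      calc (1 - p) * Real.Gamma (1 - p) * (p * Real.Gamma p)
          = p * (1 - p) * (Real.Gamma p * Real.Gamma (1 - p)) := by ring
        _ = _ := by rw [e3]; ring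
    rw [e6]
    have e7 : Real.pi * (p * (1 - p)) / Real.sin (Real.pi * p) ≤ FF p := by
      rw [div_le_iff₀ e4]
      linarith
    linarith

/-! ## the Taylor polynomial of the power -/

lemma nonneg_of_deriv' {f f' : ℝ → ℝ} (hf : ∀ x, 0 ≤ x → x < 1 → HasDerivAt f (f' x) x)
    (h0 : f 0 = 0) (h' : ∀ x, 0 ≤ x → x < 1 → 0 ≤ f' x) : ∀ x, 0 ≤ x → x < 1 → 0 ≤ f x := by
  intro x hx hx1
  have hm : MonotoneOn f (Ico 0 1) := by
    refine monotoneOn_of_deriv_nonneg (convex_Ico 0 1)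
      (fun y hy => (hf y hy.1 hy.2).continuousAt.continuousWithinAt)
      (fun y hy => ?_) ?_
    · rw [interior_Ico] at hy
      exact (hf y hy.1.le hy.2).differentiableAt.differentiableWithinAt
    · intro y hy
      rw [interior_Ico] at hy
      rw [(hf y hy.1.le hy.2).deriv]
      exact h' y hy.1.le hy.2
  have := hm (Set.mem_Ico.2 ⟨le_rfl, zero_lt_one⟩) (Set.mem_Ico.2 ⟨hx, hx1⟩) hx
  rwa [h0] at this

lemma dpow (c x : ℝ) (hx : x < 1) :
    HasDerivAt (fun x : ℝ => (1 - x) ^ c) (-(c * (1 - x) ^ (c - 1))) x := by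
  have h0 : HasDerivAt (fun x : ℝ => 1 - x) (-1) x := by
    simpa using (hasDerivAt_id x).const_sub (1 : ℝ)
  have h1 := h0.rpow_const (p := c) (Or.inl (by linarith))
  refine h1.congr_deriv ?_
  ring

lemma tay0 (σ : ℝ) (h1 : σ ≤ 1) : ∀ x : ℝ, 0 ≤ x → x < 1 →
    0 ≤ (1 - x) ^ (σ - 3) - 1 := by
  intro x hx hx1
  have h2 : 1 ≤ (1 - x) ^ (σ - 3) :=
    Real.one_le_rpow_of_pos_of_le_one_of_nonpos (by linarith) (by linarith) (by linarith)
  linarith

lemma tay1 (σ : ℝ) (h1 : σ ≤ 1) : ∀ x : ℝ, 0 ≤ x → x < 1 →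
    0 ≤ (1 - x) ^ (σ - 2) - 1 - (2 - σ) * x := by
  refine nonneg_of_deriv' (f' := fun x => (2 - σ) * ((1 - x) ^ (σ - 3) - 1)) ?_ (by simp) ?_
  · intro x hx hx1
    have h2 := ((dpow (σ - 2) x hx1).sub_const 1).sub ((hasDerivAt_id x).const_mul (2 - σ))
    refine h2.congr_deriv ?_
    rw [show σ - 2 - 1 = σ - 3 by ring]
    ring
  · intro x hx hx1
    exact mul_nonneg (by linarith) (tay0 σ h1 x hx hx1)

lemma tay2 (σ : ℝ) (h1 : σ ≤ 1) : ∀ x : ℝ, 0 ≤ x → x < 1 →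
    0 ≤ (1 - x) ^ (σ - 1) - 1 - (1 - σ) * x - (1 - σ) * (2 - σ) / 2 * x ^ 2 := by
  refine nonneg_of_deriv'
    (f' := fun x => (1 - σ) * ((1 - x) ^ (σ - 2) - 1 - (2 - σ) * x)) ?_ (by simp) ?_
  · intro x hx hx1
    have h2 := (((dpow (σ - 1) x hx1).sub_const 1).sub ((hasDerivAt_id x).const_mul (1 - σ))).sub
      (((hasDerivAt_id x).pow 2).const_mul ((1 - σ) * (2 - σ) / 2))
    refine h2.congr_deriv ?_
    rw [show σ - 1 - 1 = σ - 2 by ring]
    simp
    ring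
  · intro x hx hx1
    exact mul_nonneg (by linarith) (tay1 σ h1 x hx hx1)

lemma tay3 (σ : ℝ) (h0 : 0 ≤ σ) (h1 : σ ≤ 1) : ∀ x : ℝ, 0 ≤ x → x < 1 →
    0 ≤ 1 - σ * x - σ * (1 - σ) / 2 * x ^ 2 - σ * (1 - σ) * (2 - σ) / 6 * x ^ 3 -
      (1 - x) ^ σ := by
  refine nonneg_of_deriv'
    (f' := fun x => σ * ((1 - x) ^ (σ - 1) - 1 - (1 - σ) * x - (1 - σ) * (2 - σ) / 2 * x ^ 2))
    ?_ (by simp) ?_
  · intro x hx hx1
    have h2 := (((((hasDerivAt_id x).const_mul σ).const_sub 1).sub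
      (((hasDerivAt_id x).pow 2).const_mul (σ * (1 - σ) / 2))).sub
      (((hasDerivAt_id x).pow 3).const_mul (σ * (1 - σ) * (2 - σ) / 6))).sub (dpow σ x hx1)
    refine h2.congr_deriv ?_
    simp
    ring
  · intro x hx hx1
    exact mul_nonneg h0 (tay2 σ h1 x hx hx1)

end BETA2

open BETA2 in
theorem beta2 : S_BETA2 := by
  intro p σ h0 h1 h2 h3
  have hp1 : p < 1 := by linarith
  have hI0 := J_int p h0 hp1 0
  have hI1 := J_int p h0 hp1 1
  have hI2 := J_int p h0 hp1 2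
  have hI3 := J_int p h0 hp1 3
  set G : ℝ → ℝ := fun x => x ^ (1 - p) * (1 - x) ^ p * x ^ 0 -
    σ * (x ^ (1 - p) * (1 - x) ^ p * x ^ 1) -
    σ * (1 - σ) / 2 * (x ^ (1 - p) * (1 - x) ^ p * x ^ 2) -
    σ * (1 - σ) * (2 - σ) / 6 * (x ^ (1 - p) * (1 - x) ^ p * x ^ 3) with hG
  have hGint : ∫ x in (0 : ℝ)..1, G x = J p 0 * qq p σ := by
    rw [hG, intervalIntegral.integral_sub ((hI0.sub (hI1.const_mul _)).sub (hI2.const_mul _))
      (hI3.const_mul _), intervalIntegral.integral_sub (hI0.sub (hI1.const_mul _))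
      (hI2.const_mul _), intervalIntegral.integral_sub hI0 (hI1.const_mul _),
      intervalIntegral.integral_const_mul, intervalIntegral.integral_const_mul,
      intervalIntegral.integral_const_mul]
    have e1 := J1 p h0 hp1
    have e2 := J2 p h0 hp1
    have e3 := J3 p h0 hp1
    unfold J at e1 e2 e3 ⊢
    rw [e1, e2, e3]
    unfold qq
    ring
  have hle : ∫ x in (0 : ℝ)..1, x ^ (1 - p) * (1 - x) ^ (σ + p) ≤ ∫ x in (0 : ℝ)..1, G x := by
    refine intervalIntegral.integral_mono_on_of_le_Ioo zero_le_one ?_ ?_ ?_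
    · apply Continuous.intervalIntegrable
      refine Continuous.mul ?_ ?_
      · exact continuous_id.rpow_const fun x => Or.inr (by linarith)
      · exact (continuous_const.sub continuous_id).rpow_const fun x => Or.inr (by linarith)
    · exact ((hI0.sub (hI1.const_mul _)).sub (hI2.const_mul _)).sub (hI3.const_mul _)
    · intro x hx
      have hx1 : 0 < 1 - x := by linarith [hx.2]
      have hx0 : 0 < x := hx.1
      have h4 := tay3 σ h2.le h3 x hx.1.le hx.2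
      rw [Real.rpow_add hx1]
      have h5 : 0 ≤ x ^ (1 - p) * (1 - x) ^ p := by positivity
      have h6 := mul_nonneg h5 h4
      rw [hG]
      have h7 : x ^ (1 - p) * (1 - x) ^ p * x ^ 0 -
          σ * (x ^ (1 - p) * (1 - x) ^ p * x ^ 1) -
          σ * (1 - σ) / 2 * (x ^ (1 - p) * (1 - x) ^ p * x ^ 2) -
          σ * (1 - σ) * (2 - σ) / 6 * (x ^ (1 - p) * (1 - x) ^ p * x ^ 3) -
          x ^ (1 - p) * ((1 - x) ^ σ * (1 - x) ^ p) =
          x ^ (1 - p) * (1 - x) ^ p * (1 - σ * x - σ * (1 - σ) / 2 * x ^ 2 -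
            σ * (1 - σ) * (2 - σ) / 6 * x ^ 3 - (1 - x) ^ σ) := by ring
      linarith
  have hnn : 0 ≤ ∫ x in (0 : ℝ)..1, x ^ (1 - p) * (1 - x) ^ (σ + p) := by
    refine intervalIntegral.integral_nonneg zero_le_one fun x hx => ?_
    have hx1 : 0 ≤ 1 - x := by linarith [hx.2]
    have hx0 : 0 ≤ x := hx.1
    positivity
  rw [hGint] at hle
  have hJ := J0_pos p h0 hp1
  have hqq : 0 ≤ qq p σ := by
    by_contra hcon
    push Not at hcon
    have := mul_neg_of_pos_of_neg hJ hcon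
    linarith
  exact hle.trans (mul_le_mul_of_nonneg_right (J0_le p h0 hp1) hqq)

end Pool.Agent.H64.CX
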