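import Pool.Agent.H64.CX.Stm

set_option autoImplicit false

/-! # Growth of the coefficients `(α)_k / k!` -/

namespace Pool.Agent.H64.CX

theorem btu_fac (s : ℂ) (i : ℕ) :
    ‖(s + (i : ℂ)) / ((i : ℂ) + 1)‖ ^ 2 ≤
      Real.exp (2 * (s.re - 1) * (1 / ((i : ℝ) + 1)) +
        ‖s - 1‖ ^ 2 * (1 / ((i : ℝ) + 1) ^ 2)) := by
  have hi : (0 : ℝ) < (i : ℝ) + 1 := by positivity
  have hn : ‖((i : ℂ) + 1)‖ = (i : ℝ) + 1 := by
    have : ((i : ℂ) + 1) = (((i : ℝ) + 1 : ℝ) : ℂ) := by push_cast; ring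
    rw [this, Complex.norm_real, Real.norm_of_nonneg hi.le]
  have h1 : ‖(s + (i : ℂ)) / ((i : ℂ) + 1)‖ ^ 2 =
      1 + (2 * (s.re - 1) * (1 / ((i : ℝ) + 1)) + ‖s - 1‖ ^ 2 * (1 / ((i : ℝ) + 1) ^ 2)) := by
    rw [norm_div, hn, div_pow, ← Complex.normSq_eq_norm_sq, ← Complex.normSq_eq_norm_sq,
      Complex.normSq_apply, Complex.normSq_apply]
    simp only [Complex.add_re, Complex.add_im, Complex.natCast_re, Complex.natCast_im,
      Complex.sub_re, Complex.sub_im, Complex.one_re, Complex.one_im]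
    field_simp
    ring
  rw [h1, add_comm]
  exact Real.add_one_le_exp _

theorem btu_sq (j : ℕ) : ∑ i ∈ Finset.range j, 1 / ((i : ℝ) + 1) ^ 2 ≤ 2 * (1 - 1 / ((j : ℝ) + 1)) := by
  induction j with
  | zero => simp
  | succ n ih =>
    rw [Finset.sum_range_succ]
    have hn : (0 : ℝ) < (n : ℝ) + 1 := by positivity
    have hn2 : (0 : ℝ) < (n : ℝ) + 2 := by positivity
    have : 1 / ((n : ℝ) + 1) ^ 2 ≤ 2 * (1 / ((n : ℝ) + 1) - 1 / ((n : ℝ) + 2)) := by
      rw [div_sub_div _ _ hn.ne' hn2.ne', ← sub_nonneg]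
      have : 2 * ((1 * ((n : ℝ) + 2) - ((n : ℝ) + 1) * 1) / (((n : ℝ) + 1) * ((n : ℝ) + 2))) -
          1 / ((n : ℝ) + 1) ^ 2 = n / (((n : ℝ) + 1) ^ 2 * ((n : ℝ) + 2)) := by
        field_simp
        ring
      rw [this]
      positivity
    push_cast
    have e : (n : ℝ) + 1 + 1 = (n : ℝ) + 2 := by ring
    rw [e]
    linarith

theorem btu_har (j : ℕ) : ∑ i ∈ Finset.range j, 1 / ((i : ℝ) + 1) = (harmonic j : ℝ) := by
  simp [harmonic, one_div]

/-- CX-BTU -/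
theorem btu : S_BTU := by
  intro s
  refine ⟨Real.exp (|s.re - 1| + ‖s - 1‖ ^ 2), (Real.exp_pos _).le, fun j => ?_⟩
  have hj : (0 : ℝ) < (j : ℝ) + 1 := by positivity
  have h1 : ‖bt s j‖ ^ 2 ≤ Real.exp (2 * (s.re - 1) * (harmonic j : ℝ) + 2 * ‖s - 1‖ ^ 2) := by
    unfold bt
    rw [norm_prod, ← Finset.prod_pow]
    calc ∏ i ∈ Finset.range j, ‖(s + (i : ℂ)) / ((i : ℂ) + 1)‖ ^ 2
        ≤ ∏ i ∈ Finset.range j, Real.exp (2 * (s.re - 1) * (1 / ((i : ℝ) + 1)) +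
            ‖s - 1‖ ^ 2 * (1 / ((i : ℝ) + 1) ^ 2)) :=
          Finset.prod_le_prod (fun i _ => by positivity) fun i _ => btu_fac s i
      _ = Real.exp (2 * (s.re - 1) * (harmonic j : ℝ) +
            ‖s - 1‖ ^ 2 * ∑ i ∈ Finset.range j, 1 / ((i : ℝ) + 1) ^ 2) := by
          rw [← Real.exp_sum, Finset.sum_add_distrib, ← Finset.mul_sum, ← Finset.mul_sum, btu_har]
      _ ≤ _ := by
          apply Real.exp_le_exp.mpr
          have h2 := btu_sq j
          have h3 : ∑ i ∈ Finset.range j, 1 / ((i : ℝ) + 1) ^ 2 ≤ 2 := by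
            have : 0 ≤ 1 / ((j : ℝ) + 1) := by positivity
            linarith
          have h4 : 0 ≤ ‖s - 1‖ ^ 2 := by positivity
          nlinarith
  have h2 : (s.re - 1) * (harmonic j : ℝ) ≤ (s.re - 1) * Real.log ((j : ℝ) + 1) + |s.re - 1| := by
    have ha : Real.log ((j : ℝ) + 1) ≤ harmonic j := by
      have := log_add_one_le_harmonic j
      simpa using this
    have hb : (harmonic j : ℝ) ≤ 1 + Real.log ((j : ℝ) + 1) := by
      rcases Nat.eq_zero_or_pos j with h | h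
      · subst h; simp
      · have h5 := harmonic_le_one_add_log j
        have : Real.log (j : ℝ) ≤ Real.log ((j : ℝ) + 1) :=
          Real.log_le_log (by exact_mod_cast h) (by linarith)
        linarith
    have hc : (s.re - 1) * ((harmonic j : ℝ) - Real.log ((j : ℝ) + 1)) ≤ |s.re - 1| * 1 := by
      calc (s.re - 1) * ((harmonic j : ℝ) - Real.log ((j : ℝ) + 1))
          ≤ |s.re - 1| * ((harmonic j : ℝ) - Real.log ((j : ℝ) + 1)) :=
            mul_le_mul_of_nonneg_right (le_abs_self _) (by linarith)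
        _ ≤ |s.re - 1| * 1 := mul_le_mul_of_nonneg_left (by linarith) (abs_nonneg _)
    nlinarith
  have h3 : ‖bt s j‖ ^ 2 ≤ (Real.exp (|s.re - 1| + ‖s - 1‖ ^ 2) *
      ((j : ℝ) + 1) ^ (s.re - 1)) ^ 2 := by
    refine h1.trans ?_
    rw [Real.rpow_def_of_pos hj, ← Real.exp_add, ← Real.exp_nat_mul]
    apply Real.exp_le_exp.mpr
    push_cast
    nlinarith
  exact le_of_sq_le_sq h3 (by positivity)

end Pool.Agent.H64.CX
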