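import Pool.Agent.H64.CX.Stm

set_option autoImplicit false

namespace Pool.Agent.H64.CX

open Metric Set Filter Topology MeasureTheory
open scoped ENNReal

/-- Cauchy's estimate for the coefficients of a power series -/
theorem cau_one (c : ℕ → ℂ) (f : ℂ → ℂ) (M : ℝ)
    (h : ∀ z ∈ ball (0 : ℂ) 1, HasSum (fun n : ℕ => c n * z ^ n) (f z))
    (hM : ∀ z : ℂ, ‖z‖ ≤ 1 / 2 → ‖f z‖ ≤ M) (n : ℕ) : ‖c n‖ ≤ M * 2 ^ n := by
  have hM0 : 0 ≤ M := (norm_nonneg _).trans (hM 0 (by simp))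
  have hrad : (1 : ℝ≥0∞) ≤ (FormalMultilinearSeries.ofScalars ℂ c).radius := by
    refine ENNReal.le_of_forall_nnreal_lt fun r hr => ?_
    have hr1 : (r : ℝ) < 1 := by exact_mod_cast hr
    refine FormalMultilinearSeries.le_radius_of_summable_norm _ ?_
    have hz : ((r : ℝ) : ℂ) ∈ ball (0 : ℂ) 1 := by
      rw [mem_ball_zero_iff, Complex.norm_real]
      simpa using hr1
    have h1 := (h _ hz).summable.norm
    refine h1.congr fun k => ?_
    rw [norm_mul, norm_pow, Complex.norm_real, FormalMultilinearSeries.ofScalars_norm]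
    simp
  have hp : HasFPowerSeriesOnBall f (FormalMultilinearSeries.ofScalars ℂ c) 0 1 := by
    refine ⟨hrad, one_pos, fun {y} hy => ?_⟩
    have hy1 : y ∈ ball (0 : ℂ) 1 := by
      rw [← Metric.eball_ofReal] 
      simpa using hy
    have := h y hy1
    simpa [FormalMultilinearSeries.ofScalars_apply_eq, smul_eq_mul, mul_comm] using this
  have hd : DifferentiableOn ℂ f (closedBall 0 ((1 / 2 : NNReal) : ℝ)) := by
    refine hp.differentiableOn.mono fun z hz => ?_
    rw [mem_closedBall_zero_iff] at hz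
    push_cast at hz
    rw [show (1 : ℝ≥0∞) = ENNReal.ofReal 1 by simp, Metric.eball_ofReal, mem_ball_zero_iff]
    linarith
  have hq := hd.hasFPowerSeriesOnBall (by norm_num)
  have he := hp.hasFPowerSeriesAt.eq_formalMultilinearSeries hq.hasFPowerSeriesAt
  have h1 : ‖c n‖ = ‖FormalMultilinearSeries.ofScalars ℂ c n‖ := by
    rw [FormalMultilinearSeries.ofScalars_norm]
  rw [h1, he]
  refine (norm_cauchyPowerSeries_le f 0 _ n).trans ?_
  have h2 : ∫ θ in (0 : ℝ)..2 * Real.pi, ‖f (circleMap 0 ((1 / 2 : NNReal) : ℝ) θ)‖ ≤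
      ∫ θ in (0 : ℝ)..2 * Real.pi, M := by
    apply intervalIntegral.integral_mono_on (by positivity)
    · apply Continuous.intervalIntegrable
      refine (hd.continuousOn.comp_continuous (continuous_circleMap 0 _) fun x => ?_).norm
      exact circleMap_mem_closedBall 0 (by positivity) x
    · exact intervalIntegrable_const
    · intro x _
      refine hM _ ?_
      rw [norm_circleMap_zero]
      norm_num
  rw [intervalIntegral.integral_const, sub_zero, smul_eq_mul] at h2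
  have h3 : (2 * Real.pi)⁻¹ * ∫ θ in (0 : ℝ)..2 * Real.pi,
      ‖f (circleMap 0 ((1 / 2 : NNReal) : ℝ) θ)‖ ≤ M := by
    rw [inv_mul_le_iff₀ (by positivity)]
    exact h2
  refine (mul_le_mul_of_nonneg_right h3 (by positivity)).trans (le_of_eq ?_)
  norm_num

theorem cau : S_CAU := by
  intro ν K M h hM
  have hM0 : 0 ≤ M := (norm_nonneg _).trans (hM 0 0 (by simp) (by simp))
  have hsec : ∀ ζ ∈ ball (0 : ℂ) 1, ∀ z ∈ ball (0 : ℂ) 1,
      HasSum (fun b : ℕ => (∑' a : ℕ, ν a b * ζ ^ a) * z ^ b) (K (ζ, z)) := by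
    intro ζ hζ z hz
    have h1 := (h ζ hζ z hz)
    have h2 := (Equiv.prodComm ℕ ℕ).hasSum_iff.2 h1
    have h3 := h2.prod_fiberwise fun b => (h2.summable.prod_factor b).hasSum
    simp only [Function.comp_def, Equiv.prodComm_apply, Prod.swap_prod_mk] at h3
    simpa only [tsum_mul_right] using h3
  have hsum : ∀ b : ℕ, ∀ ζ ∈ ball (0 : ℂ) 1, Summable fun a : ℕ => ν a b * ζ ^ a := by
    intro b ζ hζ
    have h1 := (h ζ hζ (1 / 2) (by rw [mem_ball_zero_iff]; norm_num)).summable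
    have h2 := (Equiv.prodComm ℕ ℕ).summable_iff.2 h1
    have h3 := (h2.prod_factor b).mul_right ((1 / 2 : ℂ) ^ b)⁻¹
    refine h3.congr fun a => ?_
    simp only [Function.comp_def, Equiv.prodComm_apply, Prod.swap_prod_mk]
    rw [mul_assoc, mul_inv_cancel₀ (pow_ne_zero _ (by norm_num)), mul_one]
  constructor
  · intro a b
    have h1 : ∀ ζ : ℂ, ‖ζ‖ ≤ 1 / 2 → ‖∑' a : ℕ, ν a b * ζ ^ a‖ ≤ M * 2 ^ b := by
      intro ζ hζ
      exact cau_one (fun b => ∑' a : ℕ, ν a b * ζ ^ a) (fun z => K (ζ, z)) M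
        (hsec ζ (by rw [mem_ball_zero_iff]; linarith)) (fun z hz => hM ζ z hζ hz) b
    have h2 := cau_one (fun a => ν a b) (fun ζ => ∑' a : ℕ, ν a b * ζ ^ a) (M * 2 ^ b)
      (fun ζ hζ => (hsum b ζ hζ).hasSum) h1 a
    refine h2.trans ?_
    rw [mul_assoc, ← pow_add, add_comm b a]
    exact mul_le_mul_of_nonneg_left (pow_le_pow_left₀ (by norm_num) (by norm_num) _) hM0
  · intro s hs
    have hsb : ((s : ℝ) : ℂ) ∈ ball (0 : ℂ) 1 := by
      rw [mem_ball_zero_iff, Complex.norm_real, Real.norm_of_nonneg hs.1.le]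
      exact hs.2
    have h1 := (h s hsb s hsb).summable.norm
    refine ⟨∑' p : ℕ × ℕ, ‖ν p.1 p.2 * (s : ℂ) ^ p.1 * (s : ℂ) ^ p.2‖, fun a b => ?_⟩
    have h2 := h1.le_tsum (a, b) fun p _ => norm_nonneg _
    refine (le_of_eq ?_).trans h2
    rw [norm_mul, norm_mul, norm_pow, norm_pow, Complex.norm_real, Real.norm_of_nonneg hs.1.le,
      pow_add, mul_assoc]

end Pool.Agent.H64.CX
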