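import Pool.Agent.H64.CX.Stm

set_option autoImplicit false

namespace Pool.Agent.H64.CX

open Finset

/-- sums of powers with exponent in `[0,1]` increase towards the middle -/
private lemma pow_mid (s x y u v : ℝ) (hs0 : 0 ≤ s) (hs1 : s ≤ 1) (hx : 0 ≤ x) (hy : 0 ≤ y)
    (hxy : x ≤ y) (hsum : x + y = u + v) (hprod : x * y ≤ u * v) :
    x ^ s + y ^ s ≤ u ^ s + v ^ s := by
  have hbetween : (u - x) * (u - y) ≤ 0 := by
    have hv : v = x + y - u := by linarith
    rw [hv] at hprod
    nlinarith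
  rcases eq_or_lt_of_le hxy with h | h
  · subst h
    have hu : u = x := by
      have : (u - x) ^ 2 ≤ 0 := by nlinarith
      have h0 : (u - x) ^ 2 = 0 := le_antisymm this (sq_nonneg _)
      have := pow_eq_zero_iff (two_ne_zero) |>.mp h0
      linarith
    have hv : v = x := by linarith
    rw [hu, hv]
  · have hux : x ≤ u := by
      by_contra hcon
      push_neg at hcon
      have : 0 < (x - u) * (y - u) := mul_pos (by linarith) (by linarith)
      nlinarith
    have huy : u ≤ y := by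
      by_contra hcon
      push_neg at hcon
      have : 0 < (u - x) * (u - y) := mul_pos (by linarith) (by linarith)
      linarith
    have hd : 0 < y - x := by linarith
    have hconc := Real.concaveOn_rpow hs0 hs1
    set t := (y - u) / (y - x) with ht
    have ht0 : 0 ≤ t := div_nonneg (by linarith) hd.le
    have ht1 : t ≤ 1 := by
      rw [ht, div_le_one hd]
      linarith
    have e1 : t * x + (1 - t) * y = u := by
      rw [ht]
      field_simp
      ring
    have e2 : (1 - t) * x + t * y = v := by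
      have : v = x + y - u := by linarith
      rw [this, ← e1]
      ring
    have c1 := hconc.2 (Set.mem_Ici.mpr hx) (Set.mem_Ici.mpr hy) ht0 (by linarith : 0 ≤ 1 - t) (by ring)
    have c2 := hconc.2 (Set.mem_Ici.mpr hx) (Set.mem_Ici.mpr hy) (by linarith : 0 ≤ 1 - t) ht0 (by ring)
    simp only [smul_eq_mul] at c1 c2
    rw [e1] at c1
    rw [e2] at c2
    nlinarith

private lemma pow_mid' (s x y u v : ℝ) (hs0 : 0 ≤ s) (hs1 : s ≤ 1) (hx : 0 ≤ x) (hy : 0 ≤ y)
    (hsum : x + y = u + v) (hprod : x * y ≤ u * v) :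
    x ^ s + y ^ s ≤ u ^ s + v ^ s := by
  rcases le_total x y with h | h
  · exact pow_mid s x y u v hs0 hs1 hx hy h hsum hprod
  · have := pow_mid s y x u v hs0 hs1 hy hx h (by linarith) (by linarith [mul_comm x y])
    linarith

private lemma E_mid (p q x y u v : ℝ) (hp : 0 ≤ p) (hpq : p ≤ q) (hqp : q - p ≤ 1)
    (hx : 0 < x) (hy : 0 < y) (hu : 0 < u) (hv : 0 < v)
    (hsum : x + y = u + v) (hprod : x * y ≤ u * v) :
    x ^ p * y ^ q + y ^ p * x ^ q ≤ u ^ p * v ^ q + v ^ p * u ^ q := by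
  have key : ∀ a b : ℝ, 0 < a → 0 < b →
      a ^ p * b ^ q + b ^ p * a ^ q = (a * b) ^ p * (a ^ (q - p) + b ^ (q - p)) := by
    intro a b ha hb
    rw [Real.mul_rpow ha.le hb.le]
    have e1 : b ^ q = b ^ p * b ^ (q - p) := by
      rw [← Real.rpow_add hb]
      congr 1
      ring
    have e2 : a ^ q = a ^ p * a ^ (q - p) := by
      rw [← Real.rpow_add ha]
      congr 1
      ring
    rw [e1, e2]
    ring
  rw [key x y hx hy, key u v hu hv]
  have h1 : (x * y) ^ p ≤ (u * v) ^ p := Real.rpow_le_rpow (by positivity) hprod hp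
  have h2 := pow_mid' (q - p) x y u v (by linarith) hqp hx.le hy.le hsum hprod
  apply mul_le_mul h1 h2
  · positivity
  · positivity

private lemma E_mid' (p q x y u v : ℝ) (hp : 0 ≤ p) (hq : 0 ≤ q) (hqp : q - p ≤ 1) (hpq : p - q ≤ 1)
    (hx : 0 < x) (hy : 0 < y) (hu : 0 < u) (hv : 0 < v)
    (hsum : x + y = u + v) (hprod : x * y ≤ u * v) :
    x ^ p * y ^ q + y ^ p * x ^ q ≤ u ^ p * v ^ q + v ^ p * u ^ q := by
  rcases le_total p q with h | h
  · exact E_mid p q x y u v hp h hqp hx hy hu hv hsum hprod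
  · have := E_mid q p x y u v hq h hpq hx hy hu hv hsum hprod
    nlinarith

private lemma kn_eq (m k n : ℕ) (hk : 1 ≤ k) (hn : n ≤ m) :
    kn m k n = (((m : ℝ) + 2 * k) / (((n : ℝ) + k) * ((m : ℝ) + k - n))) ^ 2 := by
  have hk' : (1 : ℝ) ≤ k := by exact_mod_cast hk
  have hn'' : (n : ℝ) ≤ m := by exact_mod_cast hn
  have hn0 : (0 : ℝ) ≤ n := Nat.cast_nonneg n
  have e1 : (0 : ℝ) < (n : ℝ) + k := by linarith
  have e2 : (0 : ℝ) < (m : ℝ) + k - n := by linarith
  unfold kn
  congr 1
  field_simp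
  ring

private lemma refl_eq (m : ℕ) (f : ℕ → ℝ) :
    ∑ n ∈ Finset.range (m + 1), f (m - n) = ∑ n ∈ Finset.range (m + 1), f n := by
  rw [← Finset.sum_range_reflect f (m + 1)]
  apply Finset.sum_congr rfl
  intro n hn
  congr 1

/-- CX-CHEB -/
theorem cheb : S_CHEB := by
  intro p q hp hq hqp hpq m k hk
  have hk' : (1 : ℝ) ≤ k := by exact_mod_cast hk
  set e : ℕ → ℝ := fun n => ((n : ℝ) + 1) ^ p * ((m : ℝ) - n + 1) ^ q with he
  set e' : ℕ → ℝ := fun n => (((n : ℝ) + 1) ^ p * ((m : ℝ) - n + 1) ^ q +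
    ((m : ℝ) - n + 1) ^ p * ((n : ℝ) + 1) ^ q) / 2 with he'
  have hrefl : ∀ n, n ≤ m → e (m - n) = ((m : ℝ) - n + 1) ^ p * ((n : ℝ) + 1) ^ q := by
    intro n hn
    simp only [he]
    rw [Nat.cast_sub hn]
    congr 2
    ring
  have hee' : ∀ n, n ≤ m → e' n = (e n + e (m - n)) / 2 := by
    intro n hn
    rw [hrefl n hn]
  have hksym : ∀ n, n ≤ m → kn m k (m - n) = kn m k n := by
    intro n hn
    rw [kn_eq m k _ hk (Nat.sub_le m n), kn_eq m k n hk hn, Nat.cast_sub hn]
    congr 2
    ring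
  have hsumE : ∑ n ∈ Finset.range (m + 1), e' n = EE p q m := by
    have h1 : ∑ n ∈ Finset.range (m + 1), e' n = ∑ n ∈ Finset.range (m + 1), (e n + e (m - n)) / 2 := by
      apply Finset.sum_congr rfl
      intro n hn
      exact hee' n (by have := Finset.mem_range.mp hn; omega)
    rw [h1, ← Finset.sum_div, Finset.sum_add_distrib, refl_eq m e]
    unfold EE
    simp only [he]
    ring
  have hsumEk : ∑ n ∈ Finset.range (m + 1), e' n * kn m k n = ∑ n ∈ Finset.range (m + 1), e n * kn m k n := by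
    have h1 : ∑ n ∈ Finset.range (m + 1), e' n * kn m k n =
        ∑ n ∈ Finset.range (m + 1), (e n * kn m k n + e (m - n) * kn m k (m - n)) / 2 := by
      apply Finset.sum_congr rfl
      intro n hn
      have hn' : n ≤ m := by have := Finset.mem_range.mp hn; omega
      rw [hee' n hn', hksym n hn']
      ring
    rw [h1, ← Finset.sum_div, Finset.sum_add_distrib, refl_eq m (fun n => e n * kn m k n)]
    ring
  have hanti : AntivaryOn e' (fun n => kn m k n) (Finset.range (m + 1) : Set ℕ) := by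
    intro i hi j hj hij
    have hi' : i ≤ m := by
      have := Finset.mem_range.mp (Finset.mem_coe.mp hi); omega
    have hj' : j ≤ m := by
      have := Finset.mem_range.mp (Finset.mem_coe.mp hj); omega
    have hi'' : (i : ℝ) ≤ m := by exact_mod_cast hi'
    have hj'' : (j : ℝ) ≤ m := by exact_mod_cast hj'
    have hi0 : (0 : ℝ) ≤ i := Nat.cast_nonneg i
    have hj0 : (0 : ℝ) ≤ j := Nat.cast_nonneg j
    beta_reduce at hij
    rw [kn_eq m k i hk hi', kn_eq m k j hk hj'] at hij
    have pi1 : 0 < ((i : ℝ) + k) * ((m : ℝ) + k - i) := mul_pos (by linarith) (by linarith)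
    have pj1 : 0 < ((j : ℝ) + k) * ((m : ℝ) + k - j) := mul_pos (by linarith) (by linarith)
    have hm2k : (0 : ℝ) < (m : ℝ) + 2 * k := by
      have : (0 : ℝ) ≤ m := Nat.cast_nonneg m
      linarith
    have h1 := lt_of_pow_lt_pow_left₀ 2 (by positivity) hij
    rw [div_lt_div_iff_of_pos_left hm2k pi1 pj1] at h1
    have hprod : ((j : ℝ) + 1) * ((m : ℝ) - j + 1) ≤ ((i : ℝ) + 1) * ((m : ℝ) - i + 1) := by nlinarith
    have := E_mid' p q ((j : ℝ) + 1) ((m : ℝ) - j + 1) ((i : ℝ) + 1) ((m : ℝ) - i + 1) hp hq hqp hpq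
      (by linarith) (by linarith) (by linarith) (by linarith) (by ring) hprod
    simp only [he']
    linarith
  have hcheb := hanti.card_mul_sum_le_sum_mul_sum
  rw [Finset.card_range, hsumE, hsumEk] at hcheb
  have hm1 : (0 : ℝ) < (m : ℝ) + 1 := by positivity
  push_cast at hcheb
  calc ∑ n ∈ Finset.range (m + 1), ((n : ℝ) + 1) ^ p * ((m : ℝ) - n + 1) ^ q * kn m k n
      = 1 / ((m : ℝ) + 1) * (((m : ℝ) + 1) * ∑ n ∈ Finset.range (m + 1), e n * kn m k n) := by
        rw [← mul_assoc, one_div, inv_mul_cancel₀ hm1.ne', one_mul]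
    _ ≤ 1 / ((m : ℝ) + 1) * (EE p q m * ∑ n ∈ Finset.range (m + 1), kn m k n) := by
        apply mul_le_mul_of_nonneg_left hcheb (by positivity)
    _ = _ := by ring

end Pool.Agent.H64.CX
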