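import Pool.Agent.H64.CX.Stm

set_option autoImplicit false

namespace Pool.Agent.H64.CX

open Metric Set Filter Topology MeasureTheory
open scoped ENNReal

theorem core : S_CORE := by
  intro σ δ C B M₀ hσ hδ hδ1 hC hB
  refine ⟨1 + C * (M₀ * B / δ), by positivity, ?_⟩
  intro P G N hP hG hsum hmain hN1 hN2 hGP hG0 M
  -- the bound for `ρ < 1`
  have hS : ∀ ρ ∈ Ioo (0 : ℝ) 1, ∑' m : ℕ, ρ ^ m * P m ≤ M₀ * B / δ := by
    intro ρ hρ
    have hnn : ∀ m : ℕ, 0 ≤ ρ ^ m * P m := fun m => mul_nonneg (pow_nonneg hρ.1.le m) (hP m)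
    have hs := hsum ρ hρ
    have h1 : ENNReal.ofReal (∑' m : ℕ, ρ ^ m * P m) = ∑' m : ℕ, ENNReal.ofReal (ρ ^ m * P m) :=
      ENNReal.ofReal_tsum_of_nonneg hnn hs
    have h2 : ∀ m : ℕ, ENNReal.ofReal (ρ ^ m) * N m ≤
        (if m < M₀ then ENNReal.ofReal B else 0) + ENNReal.ofReal ((1 - δ) * (ρ ^ m * P m)) := by
      intro m
      by_cases hm : m < M₀
      · rw [if_pos hm]
        refine le_trans ?_ le_self_add
        calc ENNReal.ofReal (ρ ^ m) * N m ≤ 1 * ENNReal.ofReal B := by
              refine mul_le_mul' ?_ (hN2 m hm)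
              rw [← ENNReal.ofReal_one]
              exact ENNReal.ofReal_le_ofReal (pow_le_one₀ hρ.1.le hρ.2.le)
          _ = _ := one_mul _
      · rw [if_neg hm, zero_add]
        push Not at hm
        calc ENNReal.ofReal (ρ ^ m) * N m
            ≤ ENNReal.ofReal (ρ ^ m) * ENNReal.ofReal ((1 - δ) * P m) :=
              mul_le_mul' le_rfl (hN1 m hm)
          _ = ENNReal.ofReal ((1 - δ) * (ρ ^ m * P m)) := by
              rw [← ENNReal.ofReal_mul (pow_nonneg hρ.1.le m)]
              congr 1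
              ring
    have h3 : ∑' m : ℕ, ENNReal.ofReal (ρ ^ m) * N m ≤
        ENNReal.ofReal (M₀ * B) + ENNReal.ofReal ((1 - δ) * ∑' m : ℕ, ρ ^ m * P m) := by
      refine (ENNReal.tsum_le_tsum h2).trans ?_
      rw [ENNReal.tsum_add]
      refine add_le_add (le_of_eq ?_) (le_of_eq ?_)
      · rw [tsum_eq_sum (s := Finset.range M₀) (fun m hm => if_neg (by simpa using hm))]
        rw [Finset.sum_congr rfl (fun m hm => if_pos (Finset.mem_range.1 hm))]
        rw [Finset.sum_const, Finset.card_range, nsmul_eq_mul, ENNReal.ofReal_mul (by positivity),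
          ENNReal.ofReal_natCast]
      · rw [← tsum_mul_left, ENNReal.ofReal_tsum_of_nonneg
          (fun m => mul_nonneg (by linarith) (hnn m)) (hs.mul_left _)]
    have h4 := (hmain ρ hρ).trans h3
    rw [← h1, ← ENNReal.ofReal_add (by positivity)
      (mul_nonneg (by linarith) (tsum_nonneg hnn))] at h4
    have h5 := (ENNReal.ofReal_le_ofReal_iff (add_nonneg (by positivity)
      (mul_nonneg (by linarith) (tsum_nonneg hnn)))).1 h4
    rw [le_div_iff₀ hδ]
    nlinarith
  have hP2 : ∑ m ∈ Finset.range M, P m ≤ M₀ * B / δ := by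
    have ht : Tendsto (fun ρ : ℝ => ∑ m ∈ Finset.range M, ρ ^ m * P m) (𝓝[<] 1)
        (𝓝 (∑ m ∈ Finset.range M, (1 : ℝ) ^ m * P m)) := by
      have hc : Continuous fun ρ : ℝ => ∑ m ∈ Finset.range M, ρ ^ m * P m := by fun_prop
      exact (hc.tendsto 1).mono_left nhdsWithin_le_nhds
    simp only [one_pow, one_mul] at ht
    refine le_of_tendsto ht ?_
    have hev : ∀ᶠ ρ : ℝ in 𝓝[<] 1, ρ ∈ Ioo (0 : ℝ) 1 := Ioo_mem_nhdsLT zero_lt_one
    filter_upwards [hev] with ρ hρ
    refine ((hsum ρ hρ).sum_le_tsum (Finset.range M)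
      (fun m _ => mul_nonneg (pow_nonneg hρ.1.le m) (hP m))).trans (hS ρ hρ)
  calc ∑ m ∈ Finset.range M, G m / ((m : ℝ) + 1) ^ σ
      ≤ ∑ m ∈ Finset.range M, ((if m = 0 then (1 : ℝ) else 0) + C * P m) := by
        refine Finset.sum_le_sum fun m _ => ?_
        by_cases hm : m = 0
        · subst hm
          simp only [Nat.cast_zero, zero_add, Real.one_rpow, div_one, if_true]
          have := mul_nonneg hC (hP 0)
          linarith
        · rw [if_neg hm, zero_add, div_le_iff₀ (by positivity)]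
          have := hGP m (Nat.one_le_iff_ne_zero.2 hm)
          linarith
    _ ≤ 1 + C * (M₀ * B / δ) := by
        rw [Finset.sum_add_distrib, ← Finset.mul_sum]
        refine add_le_add ?_ (mul_le_mul_of_nonneg_left hP2 hC)
        rw [Finset.sum_ite_eq' (Finset.range M) 0]
        split_ifs <;> norm_num

end Pool.Agent.H64.CX
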