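import Pool.Agent.H64.CX.StmB

set_option autoImplicit false

/-! # CX-CRH: the criterion in the half plane (helper94) -/

namespace Pool.Agent.H64.CX

theorem crh : S_CRH := by
  intro hB hS hN α hα hre hn
  have hn0 : 0 < ‖α‖ := norm_pos_iff.2 hα
  obtain ⟨N, hNd⟩ : ∃ N, N = ‖α‖ ^ 2 := ⟨_, rfl⟩
  have hN0 : 0 < N := by rw [hNd]; positivity
  have hN1 : N ≤ 9 / 64 := by rw [hNd]; nlinarith
  have e1 : N = α.re ^ 2 + α.im ^ 2 := by
    rw [hNd, ← Complex.normSq_eq_norm_sq, Complex.normSq_apply]; ring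
  have hre1 : α.re ≤ 3 / 8 := (Complex.re_le_norm α).trans hn
  have e2 : ‖1 - α‖ ^ 2 = 1 - 2 * α.re + N := by
    rw [← Complex.normSq_eq_norm_sq, Complex.normSq_apply, e1]
    simp only [Complex.sub_re, Complex.one_re, Complex.sub_im, Complex.one_im]
    ring
  have e3 : α.im ^ 2 = N - α.re ^ 2 := by rw [e1]; ring
  have h1 := hB (2 * α.re) (20 / 9 * N) (by linarith) (by linarith) (by linarith) (by linarith)
  have h2 := hS α hre hn
  have h3 := hN α.re N hre hre1 hN0.le hN1 (by nlinarith [sq_nonneg α.im])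
  rw [e3, ← hNd] at h2
  obtain ⟨Q, hQ⟩ : ∃ Q, Q = QQ (N - α.re ^ 2) (α.re ^ 2) := ⟨_, rfl⟩
  rw [← hQ] at h2 h3
  obtain ⟨I, hI⟩ : ∃ I, I = ∫ x in (0 : ℝ)..1, x ^ (1 - 2 * α.re) * (1 - x) ^ (20 / 9 * N + 2 * α.re) :=
    ⟨_, rfl⟩
  rw [← hI] at h1
  have hI0 : 0 ≤ I := by
    rw [hI]
    apply intervalIntegral.integral_nonneg (by norm_num)
    intro x hx
    exact mul_nonneg (Real.rpow_nonneg hx.1 _) (Real.rpow_nonneg (by linarith [hx.2]) _)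
  unfold Crit
  rw [← hNd, e2, ← hI]
  obtain ⟨A, hA⟩ : ∃ A, A = Real.pi ^ 2 * N * Q := ⟨_, rfl⟩
  have hA0 : 0 ≤ A := by rw [hA]; exact (by positivity : (0 : ℝ) ≤ ‖Complex.sin (Real.pi * α)‖ ^ 2).trans h2
  rw [← hA] at h2
  have hpi : 0 < Real.pi ^ 2 := by positivity
  calc 4 * ‖Complex.sin (Real.pi * α)‖ ^ 2 * I ≤ 4 * A * I := by gcongr
    _ ≤ 4 * A * (1 / 2 * FF (2 * α.re) * qq (2 * α.re) (20 / 9 * N)) := by gcongr
    _ = 2 * Real.pi ^ 2 * N * (Q * FF (2 * α.re) * qq (2 * α.re) (20 / 9 * N)) := by rw [hA]; ring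
    _ < 2 * Real.pi ^ 2 * N * (10 / 9 * (1 - 2 * α.re + N)) := by
        apply mul_lt_mul_of_pos_left h3
        positivity
    _ = Real.pi ^ 2 * (1 - 2 * α.re + N) * (20 / 9 * N) := by ring

end Pool.Agent.H64.CX
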