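import Pool.Agent.H64.CX.Stm
import Pool.Agent.H64.BR.RIEM

set_option autoImplicit false

/-! # CX-EE (helper63) -/

namespace Pool.Agent.H64.CX

open Metric Set Filter Topology MeasureTheory

theorem eeb : S_EE := by
  intro p q hp hq
  set f : ℝ → ℝ := fun x => x ^ p * (1 - x) ^ q with hfd
  have hf : Continuous f := (Real.continuous_rpow_const hp).mul
    ((Real.continuous_rpow_const hq).comp (continuous_const.sub continuous_id))
  have h1 := (Pool.Agent.H64.BR.riem f hf.continuousOn).comp (tendsto_add_atTop_nat 2)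
  have hcast : Tendsto (fun m : ℕ => (((m + 2 : ℕ) : ℝ))) atTop atTop :=
    tendsto_natCast_atTop_atTop.comp (tendsto_add_atTop_nat 2)
  have h2 : Tendsto (fun m : ℕ => f 0 / ((m + 2 : ℕ) : ℝ)) atTop (𝓝 0) :=
    tendsto_const_nhds.div_atTop hcast
  have h3 := h1.sub h2
  rw [sub_zero] at h3
  have h4 : Tendsto (fun m : ℕ => (1 + 2 / (m : ℝ)) ^ (p + q + 1)) atTop (𝓝 1) := by
    have h5 : Tendsto (fun m : ℕ => 1 + 2 / (m : ℝ)) atTop (𝓝 (1 + 0)) :=
      tendsto_const_nhds.add (tendsto_const_div_atTop_nhds_zero_nat 2)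
    have h6 := h5.rpow_const (p := p + q + 1) (Or.inl (by norm_num))
    simpa using h6
  have h7 := h3.mul h4
  rw [mul_one] at h7
  refine h7.congr' ?_
  filter_upwards [eventually_ge_atTop 1] with m hm
  have hm0 : (0 : ℝ) < m := by exact_mod_cast hm
  have hM0 : (0 : ℝ) < (m : ℝ) + 2 := by linarith
  have e1 : ∑ n ∈ Finset.range (m + 2), f ((n : ℝ) / ((m + 2 : ℕ) : ℝ)) =
      EE p q m / ((m : ℝ) + 2) ^ (p + q) + f 0 := by
    rw [Finset.sum_range_succ', EE, Finset.sum_div]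
    congr 1
    · refine Finset.sum_congr rfl fun n hn => ?_
      rw [Finset.mem_range] at hn
      have hn' : (n : ℝ) ≤ m := by exact_mod_cast (by omega : n ≤ m)
      simp only [hfd]
      push_cast
      have e2 : 1 - ((n : ℝ) + 1) / ((m : ℝ) + 2) = ((m : ℝ) - n + 1) / ((m : ℝ) + 2) := by
        field_simp; ring
      rw [e2, Real.div_rpow (by positivity) hM0.le, Real.div_rpow (by linarith) hM0.le,
        Real.rpow_add hM0]
      field_simp
    · simp
  simp only [Function.comp]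
  rw [e1]
  have e3 : (1 + 2 / (m : ℝ)) ^ (p + q + 1) =
      ((m : ℝ) + 2) ^ (p + q) * ((m : ℝ) + 2) / (m : ℝ) ^ (p + q + 1) := by
    rw [show 1 + 2 / (m : ℝ) = ((m : ℝ) + 2) / m by field_simp, Real.div_rpow hM0.le hm0.le,
      Real.rpow_add hM0 (p + q) 1, Real.rpow_one]
  rw [e3]
  have hA : 0 < ((m : ℝ) + 2) ^ (p + q) := Real.rpow_pos_of_pos hM0 _
  have hB : 0 < (m : ℝ) ^ (p + q + 1) := Real.rpow_pos_of_pos hm0 _
  push_cast
  field_simp
  ring

end Pool.Agent.H64.CX
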