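import Pool.Agent.H64.CX.StmA

set_option autoImplicit false

/-! # CX-FB: the logarithm of the divided difference is bounded by `1` for `|ζ|, |z| ≤ 1/2` -/

namespace Pool.Agent.H64.CX

open Metric Set Filter Topology MeasureTheory
open scoped ENNReal
open Pool.Agent.W677.Mar Pool.Agent.W5h41.MA

theorem fb : S_FB := by
  intro Y H f S L ζ z hζ2 hz2
  have hζ : ζ ∈ ball (0 : ℂ) 1 := by rw [mem_ball_zero_iff]; linarith
  have hz : z ∈ ball (0 : ℂ) 1 := by rw [mem_ball_zero_iff]; linarith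
  by_cases hζ0 : ζ = 0
  · subst hζ0
    rw [L.symm hζ hz, L.zero z hz]
    simp
  set A : ℂ → ℂ := fun z => f (ζ, z) with hAdef
  have hA : DifferentiableOn ℂ A (ball 0 1) := L.diff2 S.G.diff hζ
  have hAe : ∀ z ∈ ball (0 : ℂ) 1, Complex.exp (A z) = NN Y ζ z := fun z hz => L.exp ζ hζ z hz
  have hA0 : A 0 = 0 := L.zero ζ hζ
  set c : ℕ → ℂ := fun n => (n.factorial : ℂ)⁻¹ * iteratedDeriv n A 0 with hcdef
  have hc : ∀ z ∈ ball (0:ℂ) 1, HasSum (fun j => c j * z ^ j) (A z) := by
    intro z hz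
    have h1 := Complex.hasSum_taylorSeries_on_ball hA hz
    refine h1.congr_fun ?_ |> fun h => h
    intro n
    simp only [hcdef, smul_eq_mul, sub_zero]
    ring
  have hc0 : c 0 = 0 := by
    simp [hcdef, hA0]
  have hpart : ∀ N : ℕ, ‖∑ k ∈ Finset.range N, c k * z ^ k‖ ≤ 1 := by
    intro N
    have h1 : ‖∑ k ∈ Finset.range N, c k * z ^ k‖ ≤
        ∑ k ∈ Finset.range N, (Real.sqrt k * ‖c k‖) * (‖z‖ ^ k / Real.sqrt k) := by
      refine (norm_sum_le _ _).trans (Finset.sum_le_sum fun k _ => ?_)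
      rw [norm_mul, norm_pow]
      rcases Nat.eq_zero_or_pos k with h | h
      · rw [h, hc0]
        simp
      · have hk : Real.sqrt k ≠ 0 := by
          have : (0 : ℝ) < k := by exact_mod_cast h
          positivity
        apply le_of_eq
        field_simp
    have h2 := Finset.sum_mul_sq_le_sq_mul_sq (Finset.range N) (fun k : ℕ => Real.sqrt k * ‖c k‖)
      (fun k : ℕ => ‖z‖ ^ k / Real.sqrt k)
    have h3 : ∑ k ∈ Finset.range N, (Real.sqrt (k : ℝ) * ‖c k‖) ^ 2 ≤ 1 := by
      have h31 := area_log S hζ0 hζ hA hAe hc N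
      have h32 := lam_half hζ2
      refine le_trans (le_of_eq (Finset.sum_congr rfl fun k _ => ?_)) (h31.trans h32)
      rw [mul_pow, Real.sq_sqrt (Nat.cast_nonneg k)]
    have hx1 : ‖z‖ ^ 2 < 1 := by
      have := norm_nonneg z
      nlinarith
    have h4 : ∑ k ∈ Finset.range N, (‖z‖ ^ k / Real.sqrt (k : ℝ)) ^ 2 ≤ 1 := by
      have h5 := hasSum_log (by positivity) hx1
      refine le_trans ?_ (lam_half hz2)
      refine le_trans (le_of_eq (Finset.sum_congr rfl fun k _ => ?_)) (sum_le_hasSum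
        (Finset.range N) (fun k _ => by positivity) h5)
      rw [div_pow, Real.sq_sqrt (Nat.cast_nonneg k), ← pow_mul, ← pow_mul, mul_comm]
    have h5 : (∑ k ∈ Finset.range N, (Real.sqrt k * ‖c k‖) * (‖z‖ ^ k / Real.sqrt k)) ^ 2
        ≤ 1 ^ 2 := by
      refine h2.trans ?_
      rw [one_pow, ← one_mul (1 : ℝ)]
      exact mul_le_mul h3 h4 (Finset.sum_nonneg fun k _ => sq_nonneg _) zero_le_one
    have h6 := abs_le_of_sq_le_sq h5 zero_le_one
    exact h1.trans ((le_abs_self _).trans h6)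
  exact le_of_tendsto ((hc z hz).tendsto_sum_nat.norm) (Eventually.of_forall hpart)

end Pool.Agent.H64.CX
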