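import Pool.Agent.H64.CX.StmF

/-! # CX-HBN: the diagonal coefficients are controlled -/

set_option autoImplicit false

namespace Pool.Agent.H64.CX

open Finset

namespace HbnAux

lemma step (p : ℝ) (hp : 0 < p) (hp1 : p ≤ 1) (m : ℕ) :
    p * ((m : ℝ) + 1) ^ (p - 1) ≤ ((m : ℝ) + 1) ^ p - (m : ℝ) ^ p := by
  have hm : (0 : ℝ) < (m : ℝ) + 1 := by positivity
  have hm0 : (0 : ℝ) ≤ m := by positivity
  have h1 : (1 + (-(1 / ((m : ℝ) + 1)))) ^ p ≤ 1 + p * (-(1 / ((m : ℝ) + 1))) :=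
    rpow_one_add_le_one_add_mul_self (by
      have : 1 / ((m : ℝ) + 1) ≤ 1 := by rw [div_le_one hm]; linarith
      linarith) hp.le hp1
  have h2 : (1 : ℝ) + (-(1 / ((m : ℝ) + 1))) = m / ((m : ℝ) + 1) := by field_simp; ring
  rw [h2, Real.div_rpow hm0 hm.le, div_le_iff₀ (Real.rpow_pos_of_pos hm p)] at h1
  have h3 : ((m : ℝ) + 1) ^ (p - 1) = ((m : ℝ) + 1) ^ p * (1 / ((m : ℝ) + 1)) := by
    rw [Real.rpow_sub_one hm.ne']; ring
  rw [h3]
  nlinarith [h1]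

lemma sum_pow_le (μ : ℝ) (h1 : -1 < μ) (h0 : μ < 0) (m : ℕ) :
    ∑ j ∈ range m, ((j : ℝ) + 1) ^ μ ≤ (m : ℝ) ^ (1 + μ) / (1 + μ) := by
  have hp : 0 < 1 + μ := by linarith
  induction m with
  | zero => simp [Real.zero_rpow hp.ne']
  | succ m ih =>
    rw [Finset.sum_range_succ]
    have h2 := step (1 + μ) hp (by linarith) m
    rw [show 1 + μ - 1 = μ by ring] at h2
    rw [le_div_iff₀ hp] at ih ⊢
    push_cast
    nlinarith [h2, ih]

lemma sum_le (μ : ℝ) (h1 : -1 < μ) : ∃ D : ℝ, 0 ≤ D ∧ ∀ m : ℕ,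
    ∑ n ∈ Icc 1 m, ((m : ℝ) - n + 1) ^ μ ≤ D * (m : ℝ) ^ (1 + μ) := by
  have hp : 0 < 1 + μ := by linarith
  refine ⟨1 + 1 / (1 + μ), by positivity, fun m => ?_⟩
  have hrw : ∑ n ∈ Icc 1 m, ((m : ℝ) - n + 1) ^ μ = ∑ j ∈ range m, ((j : ℝ) + 1) ^ μ := by
    refine Finset.sum_nbij' (fun n => m - n) (fun j => m - j) ?_ ?_ ?_ ?_ ?_
    · intro n hn; rw [mem_Icc] at hn; rw [mem_range]; omega
    · intro j hj; rw [mem_range] at hj; rw [mem_Icc]; omega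
    · intro n hn; rw [mem_Icc] at hn; omega
    · intro j hj; rw [mem_range] at hj; omega
    · intro n hn
      rw [mem_Icc] at hn
      rw [Nat.cast_sub hn.2]
  rw [hrw]
  have hm0 : (0 : ℝ) ≤ (m : ℝ) ^ (1 + μ) := Real.rpow_nonneg (by positivity) _
  by_cases h0 : μ < 0
  · refine (sum_pow_le μ h1 h0 m).trans ?_
    rw [div_eq_mul_one_div, mul_comm]
    nlinarith
  · push Not at h0
    have h2 : ∀ j ∈ range m, ((j : ℝ) + 1) ^ μ ≤ (m : ℝ) ^ μ := by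
      intro j hj
      rw [mem_range] at hj
      exact Real.rpow_le_rpow (by positivity) (by exact_mod_cast hj) h0
    refine (Finset.sum_le_card_nsmul _ _ _ h2).trans ?_
    rw [card_range, nsmul_eq_mul]
    rcases Nat.eq_zero_or_pos m with hm | hm
    · subst hm
      simp [Real.zero_rpow hp.ne']
    · have hmR : (0 : ℝ) < m := by exact_mod_cast hm
      rw [Real.rpow_add hmR, Real.rpow_one] at hm0 ⊢
      have : 0 ≤ 1 / (1 + μ) := by positivity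
      nlinarith

end HbnAux

theorem hbn : S_HBN := by
  intro hHID hBTU a σ hre hre2 hσ hμ1
  obtain ⟨C₀, hC0, hC⟩ := hBTU (2 - a)
  obtain ⟨D, hD0, hD⟩ := HbnAux.sum_le (σ + 2 * a.re) hμ1
  refine ⟨4 * (C₀ ^ 2 * D), by positivity, ?_⟩
  intro ν hν m hm
  have hmR : (1 : ℝ) ≤ m := by exact_mod_cast hm
  have h1 := hHID a ν hν m hm
  set μ : ℝ := σ + 2 * a.re with hμ
  have h2 : (m : ℝ) / 2 * ‖GD ν m‖ ≤ ∑ n ∈ Icc 1 m, ‖bt (2 - a) (n - 1)‖ * ‖TP a ν n m‖ := by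
    have h3 : ‖(m : ℂ) / 2 * GD ν m‖ = (m : ℝ) / 2 * ‖GD ν m‖ := by
      rw [norm_mul, norm_div, Complex.norm_natCast]
      norm_num
    rw [← h3, h1]
    refine (norm_sum_le _ _).trans (le_of_eq ?_)
    refine Finset.sum_congr rfl fun n _ => norm_mul _ _
  have h3 : (∑ n ∈ Icc 1 m, ‖bt (2 - a) (n - 1)‖ * ‖TP a ν n m‖) ^ 2 ≤
      (∑ n ∈ Icc 1 m, ‖bt (2 - a) (n - 1)‖ ^ 2 / n * ((m : ℝ) - n + 1) ^ μ) * PP a ν μ m := by
    unfold PP
    apply Finset.sum_sq_le_sum_mul_sum_of_sq_eq_mul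
    · intro n hn
      rw [Finset.mem_Icc] at hn
      have hn2 : (n : ℝ) ≤ m := by exact_mod_cast hn.2
      have : 0 ≤ ((m : ℝ) - n + 1) ^ μ := Real.rpow_nonneg (by linarith) _
      positivity
    · intro n hn
      rw [Finset.mem_Icc] at hn
      have hn2 : (n : ℝ) ≤ m := by exact_mod_cast hn.2
      have : 0 ≤ ((m : ℝ) - n + 1) ^ (-μ) := Real.rpow_nonneg (by linarith) _
      positivity
    · intro n hn
      rw [Finset.mem_Icc] at hn
      have hn1 : (1 : ℝ) ≤ n := by exact_mod_cast hn.1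
      have hn2 : (n : ℝ) ≤ m := by exact_mod_cast hn.2
      have h4 : ((m : ℝ) - n + 1) ^ μ * ((m : ℝ) - n + 1) ^ (-μ) = 1 := by
        rw [← Real.rpow_add (by linarith), add_neg_cancel, Real.rpow_zero]
      have hn0 : (n : ℝ) ≠ 0 := by linarith
      calc (‖bt (2 - a) (n - 1)‖ * ‖TP a ν n m‖) ^ 2
          = ‖bt (2 - a) (n - 1)‖ ^ 2 / n * (n * ‖TP a ν n m‖ ^ 2) *
            (((m : ℝ) - n + 1) ^ μ * ((m : ℝ) - n + 1) ^ (-μ)) := by
            rw [h4]; field_simp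
        _ = _ := by ring
  have hPP : 0 ≤ PP a ν μ m := by
    unfold PP
    apply Finset.sum_nonneg
    intro n hn
    rw [Finset.mem_Icc] at hn
    have hn2 : (n : ℝ) ≤ m := by exact_mod_cast hn.2
    have : 0 ≤ ((m : ℝ) - n + 1) ^ (-μ) := Real.rpow_nonneg (by linarith) _
    positivity
  have h4 : ∑ n ∈ Icc 1 m, ‖bt (2 - a) (n - 1)‖ ^ 2 / n * ((m : ℝ) - n + 1) ^ μ ≤
      C₀ ^ 2 * D * (m : ℝ) ^ (2 + σ) := by
    have h5 : ∀ n ∈ Icc 1 m, ‖bt (2 - a) (n - 1)‖ ^ 2 / n * ((m : ℝ) - n + 1) ^ μ ≤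
        C₀ ^ 2 * (m : ℝ) ^ (1 - 2 * a.re) * ((m : ℝ) - n + 1) ^ μ := by
      intro n hn
      rw [Finset.mem_Icc] at hn
      have hn1 : (1 : ℝ) ≤ n := by exact_mod_cast hn.1
      have hn2 : (n : ℝ) ≤ m := by exact_mod_cast hn.2
      have hn0 : (0 : ℝ) < n := by linarith
      have h6 := hC (n - 1)
      have h7 : ((n - 1 : ℕ) : ℝ) + 1 = n := by
        rw [Nat.cast_sub hn.1]
        push_cast
        ring
      rw [h7] at h6
      have h8 : (2 - a).re - 1 = 1 - a.re := by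
        simp only [Complex.sub_re, Complex.re_ofNat]
        ring
      rw [h8] at h6
      have h9 : ‖bt (2 - a) (n - 1)‖ ^ 2 / n ≤ C₀ ^ 2 * (m : ℝ) ^ (1 - 2 * a.re) := by
        rw [div_le_iff₀ hn0]
        have h10 : ‖bt (2 - a) (n - 1)‖ ^ 2 ≤ (C₀ * (n : ℝ) ^ (1 - a.re)) ^ 2 :=
          pow_le_pow_left₀ (norm_nonneg _) h6 2
        refine h10.trans ?_
        have h11 : ((n : ℝ) ^ (1 - a.re)) ^ 2 = (n : ℝ) ^ (1 - 2 * a.re) * n := by
          rw [← Real.rpow_natCast, ← Real.rpow_mul hn0.le]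
          nth_rewrite 3 [← Real.rpow_one (n : ℝ)]
          rw [← Real.rpow_add hn0]
          congr 1
          push_cast
          ring
        rw [mul_pow, h11, mul_assoc]
        apply mul_le_mul_of_nonneg_left _ (by positivity)
        apply mul_le_mul_of_nonneg_right _ hn0.le
        exact Real.rpow_le_rpow hn0.le hn2 (by linarith)
      have h13 : 0 ≤ ((m : ℝ) - n + 1) ^ μ := Real.rpow_nonneg (by linarith) _
      exact mul_le_mul_of_nonneg_right h9 h13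
    refine (Finset.sum_le_sum h5).trans ?_
    rw [← Finset.mul_sum]
    have h14 := mul_le_mul_of_nonneg_left (hD m)
      (show 0 ≤ C₀ ^ 2 * (m : ℝ) ^ (1 - 2 * a.re) by positivity)
    refine h14.trans (le_of_eq ?_)
    have h15 : (m : ℝ) ^ (2 + σ) = (m : ℝ) ^ (1 - 2 * a.re) * (m : ℝ) ^ (1 + (σ + 2 * a.re)) := by
      rw [← Real.rpow_add (by linarith)]
      congr 1
      ring
    rw [h15]
    ring
  set C : ℝ := C₀ ^ 2 * D with hCdef
  have hCn : 0 ≤ C := by positivity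
  have h5 : ((m : ℝ) / 2 * ‖GD ν m‖) ^ 2 ≤ C * (m : ℝ) ^ (2 + σ) * PP a ν μ m :=
    (pow_le_pow_left₀ (by positivity) h2 2).trans
      (h3.trans (mul_le_mul_of_nonneg_right h4 hPP))
  have h6 : (m : ℝ) ^ (2 + σ) = (m : ℝ) ^ 2 * (m : ℝ) ^ σ := by
    rw [Real.rpow_add (by linarith), Real.rpow_two]
  rw [h6] at h5
  have h7 : (m : ℝ) ^ σ ≤ ((m : ℝ) + 1) ^ σ :=
    Real.rpow_le_rpow (by positivity) (by linarith) hσ.le
  have hm2 : (0 : ℝ) < (m : ℝ) ^ 2 := by positivity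
  have h8 : ‖GD ν m‖ ^ 2 ≤ 4 * C * (m : ℝ) ^ σ * PP a ν μ m := by
    have h9 : (m : ℝ) ^ 2 * ‖GD ν m‖ ^ 2 ≤
        (m : ℝ) ^ 2 * (4 * C * (m : ℝ) ^ σ * PP a ν μ m) := by
      nlinarith [h5]
    exact le_of_mul_le_mul_left h9 hm2
  refine h8.trans ?_
  apply mul_le_mul_of_nonneg_right _ hPP
  apply mul_le_mul_of_nonneg_left h7 (by positivity)

end Pool.Agent.H64.CX
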