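import Pool.Agent.H64.CX.ID

/-! # CX-HID: the first moment -/

set_option autoImplicit false

namespace Pool.Agent.H64.CX

open Finset

theorem bt_psum (s : ℂ) (n : ℕ) : ∑ j ∈ range (n + 1), bt s j = bt (s + 1) n := by
  induction n with
  | zero => simp [bt_zero']
  | succ n ih =>
    rw [Finset.sum_range_succ, ih, bt_shift' s n, bt_succ' (s + 1) n]
    have h1 : (n : ℂ) + 1 ≠ 0 := by exact_mod_cast Nat.succ_ne_zero n
    field_simp
    ring

theorem first_mom (a : ℂ) (n : ℕ) :
    ∑ b ∈ range (n + 1 + 1), bt (-a) (n + 1 - b) * (b : ℂ) = bt (2 - a) n := by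
  have key : ∀ n : ℕ, ∑ b ∈ range (n + 1), bt (-a) (n - b) * ((b : ℂ) + 1) = bt (2 - a) n := by
    intro n
    have h1 : ∑ b ∈ range (n + 1), bt (-a) (n - b) * ((b : ℂ) + 1) =
        ∑ j ∈ range (n + 1), bt (-a) j * ((n : ℂ) - j + 1) := by
      rw [← Finset.sum_range_reflect]
      refine Finset.sum_congr rfl fun j hj => ?_
      rw [Finset.mem_range] at hj
      rw [show n - (n + 1 - 1 - j) = j by omega, show n + 1 - 1 - j = n - j by omega,
        Nat.cast_sub (by omega)]
    rw [h1]
    clear h1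
    induction n with
    | zero => simp [bt_zero']
    | succ n ih =>
      rw [Finset.sum_range_succ]
      have h2 : ∀ j ∈ range (n + 1), bt (-a) j * (((n + 1 : ℕ) : ℂ) - j + 1) =
          bt (-a) j * ((n : ℂ) - j + 1) + bt (-a) j := by
        intro j _
        push_cast
        ring
      rw [Finset.sum_congr rfl h2, Finset.sum_add_distrib, ih, sub_self, zero_add, mul_one,
        add_assoc, ← Finset.sum_range_succ, bt_psum, show -a + 1 = 1 - a by ring,
        show (2 - a : ℂ) = (1 - a) + 1 by ring, ← bt_psum (1 - a) n, ← Finset.sum_range_succ,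
        bt_psum]
  rw [Finset.sum_range_succ']
  simp only [Nat.cast_zero, mul_zero, add_zero, Nat.add_sub_add_right]
  rw [← key n]
  refine Finset.sum_congr rfl fun b _ => ?_
  push_cast
  ring

theorem hid : S_HID := by
  intro a ν hν m hm
  have h1 : ∑ b ∈ range (m + 1), ν (m - b) b * (b : ℂ) = (m : ℂ) / 2 * GD ν m := by
    have h2 : ∑ b ∈ range (m + 1), ν (m - b) b * (b : ℂ) =
        ∑ b ∈ range (m + 1), ν (m - b) b * ((m : ℂ) - b) := by
      rw [← Finset.sum_range_reflect]
      refine Finset.sum_congr rfl fun b hb => ?_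
      rw [Finset.mem_range] at hb
      rw [show m + 1 - 1 - b = m - b by omega, show m - (m - b) = b by omega, hν b (m - b),
        Nat.cast_sub (by omega)]
    have h3 : ∑ b ∈ range (m + 1), ν (m - b) b * ((m : ℂ) - b) =
        m * GD ν m - ∑ b ∈ range (m + 1), ν (m - b) b * (b : ℂ) := by
      unfold GD
      rw [Finset.mul_sum, ← Finset.sum_sub_distrib]
      refine Finset.sum_congr rfl fun b _ => ?_
      ring
    rw [h3] at h2
    linear_combination (1 / 2 : ℂ) * h2
  rw [← h1, insert_T a ν m (fun b => (b : ℂ)), Finset.sum_range_succ']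
  have h0 : TP a ν 0 m * ∑ b ∈ range (0 + 1), bt (-a) (0 - b) * (b : ℂ) = 0 := by simp
  rw [h0, add_zero]
  have e9 : Icc 1 m = Ico 1 (m + 1) := by
    ext x
    simp only [Finset.mem_Icc, Finset.mem_Ico]
    omega
  rw [e9, Finset.sum_Ico_eq_sum_range, Nat.add_sub_cancel]
  refine Finset.sum_congr rfl fun n _ => ?_
  rw [first_mom a n, add_comm 1 n, Nat.add_sub_cancel]
  ring

end Pool.Agent.H64.CX
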