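import Pool.Agent.H64.CX.Stm

set_option autoImplicit false

/-! # CX-LAP: integration over `x` with the weight of the Gamma integral (helper94) -/

namespace Pool.Agent.H64.CX

open Metric Set Filter Topology MeasureTheory
open scoped ENNReal

namespace LAP

/-- the weight -/
noncomputable def wt (μ y : ℝ) : ℝ≥0∞ := ENNReal.ofReal (y ^ (μ - 1) * Real.exp (-y))

lemma wt_meas (μ : ℝ) : Measurable (wt μ) := by
  unfold wt
  fun_prop

lemma one (μ ρ : ℝ) (hμ : 0 < μ) (hρ : 0 < ρ) (k : ℕ) :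
    ∫⁻ y in Ioi (0 : ℝ), wt μ y * ENNReal.ofReal (ρ * Real.exp (-y)) ^ k =
      ENNReal.ofReal (Real.Gamma μ) * ENNReal.ofReal (ρ ^ k * ((k : ℝ) + 1) ^ (-μ)) := by
  have hk : 0 < (k : ℝ) + 1 := by positivity
  have hG : 0 < Real.Gamma μ := Real.Gamma_pos_of_pos hμ
  have h1 := Real.integral_rpow_mul_exp_neg_mul_Ioi hμ hk
  have h2 : (∫ t in Ioi (0 : ℝ), t ^ (μ - 1) * Real.exp (-(((k : ℝ) + 1) * t))) ≠ 0 := by
    rw [h1]
    positivity
  have h3 : IntegrableOn (fun t : ℝ => t ^ (μ - 1) * Real.exp (-(((k : ℝ) + 1) * t))) (Ioi 0) := by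
    by_contra hc
    exact h2 (integral_undef hc)
  have h4 : ∀ y ∈ Ioi (0 : ℝ), wt μ y * ENNReal.ofReal (ρ * Real.exp (-y)) ^ k =
      ENNReal.ofReal (ρ ^ k) * ENNReal.ofReal (y ^ (μ - 1) * Real.exp (-(((k : ℝ) + 1) * y))) := by
    intro y hy
    have hy0 : 0 ≤ y ^ (μ - 1) := Real.rpow_nonneg (le_of_lt hy) _
    unfold wt
    rw [← ENNReal.ofReal_pow (by positivity), ← ENNReal.ofReal_mul (by positivity),
      ← ENNReal.ofReal_mul (by positivity)]
    congr 1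
    rw [mul_pow, ← Real.exp_nat_mul]
    have : Real.exp (-(((k : ℝ) + 1) * y)) = Real.exp (-y) * Real.exp ((k : ℝ) * (-y)) := by
      rw [← Real.exp_add]
      congr 1
      ring
    rw [this]
    ring
  rw [setLIntegral_congr_fun measurableSet_Ioi h4, lintegral_const_mul' _ _ ENNReal.ofReal_ne_top,
    ← ofReal_integral_eq_lintegral_ofReal h3, h1, ← ENNReal.ofReal_mul (by positivity),
    ← ENNReal.ofReal_mul hG.le]
  · congr 1
    rw [one_div, Real.inv_rpow hk.le, Real.rpow_neg hk.le]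
    ring
  · filter_upwards [ae_restrict_mem measurableSet_Ioi] with y hy
    exact mul_nonneg (Real.rpow_nonneg (le_of_lt hy) _) (Real.exp_pos _).le

lemma two (μ ρ : ℝ) (hμ : 0 < μ) (hρ : 0 < ρ) (e : ℕ → ℕ → ℕ) (A : ℕ → ℕ → ℝ≥0∞) :
    ∫⁻ y in Ioi (0 : ℝ), wt μ y *
      ∑' n : ℕ, ∑' j : ℕ, ENNReal.ofReal (ρ * Real.exp (-y)) ^ (e n j) * A n j =
    ENNReal.ofReal (Real.Gamma μ) *
      ∑' n : ℕ, ∑' j : ℕ, ENNReal.ofReal (ρ ^ (e n j) * ((e n j : ℝ) + 1) ^ (-μ)) * A n j := by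
  have hm : ∀ n j, Measurable (fun y : ℝ =>
      wt μ y * (ENNReal.ofReal (ρ * Real.exp (-y)) ^ (e n j) * A n j)) := by
    intro n j
    have := wt_meas μ
    fun_prop
  simp_rw [← ENNReal.tsum_mul_left]
  rw [lintegral_tsum (fun n => (Measurable.tsum (hm n)).aemeasurable)]
  refine tsum_congr fun n => ?_
  rw [lintegral_tsum (fun j => (hm n j).aemeasurable)]
  refine tsum_congr fun j => ?_
  rw [← mul_assoc, ← one μ ρ hμ hρ (e n j), ← lintegral_mul_const]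
  · refine lintegral_congr fun y => ?_
    rw [mul_assoc]
  · have := wt_meas μ
    fun_prop

end LAP

theorem lap : S_LAP := by
  intro A B μ hμ h ρ hρ
  have h1 : ∫⁻ y in Ioi (0 : ℝ), LAP.wt μ y *
      ∑' n : ℕ, ∑' j : ℕ, ENNReal.ofReal (ρ * Real.exp (-y)) ^ j * A n j ≤
      ∫⁻ y in Ioi (0 : ℝ), LAP.wt μ y *
      ∑' k : ℕ, ∑' m : ℕ, ENNReal.ofReal (ρ * Real.exp (-y)) ^ (m + k) * B k m := by
    apply setLIntegral_mono' measurableSet_Ioi
    intro y hy
    refine mul_le_mul' le_rfl (h _ ?_)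
    have h2 : Real.exp (-y) < 1 := Real.exp_lt_one_iff.2 (by simpa using hy)
    have h3 := Real.exp_pos (-y)
    have h4 := hρ.1
    have h5 := hρ.2
    exact ⟨by positivity, by nlinarith⟩
  rw [LAP.two μ ρ hμ hρ.1 (fun _ j => j) A, LAP.two μ ρ hμ hρ.1 (fun k m => m + k) B] at h1
  have hG : 0 < Real.Gamma μ := Real.Gamma_pos_of_pos hμ
  have h6 := (ENNReal.mul_le_mul_iff_right (by simpa using hG) ENNReal.ofReal_ne_top).1 h1
  refine h6.trans (le_of_eq ?_)
  refine tsum_congr fun k => tsum_congr fun m => ?_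
  push_cast
  rfl

end Pool.Agent.H64.CX
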