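import Pool.Agent.H64.CX.Stm

set_option autoImplicit false

/-! # CX-LDOM (helper63) -/

namespace Pool.Agent.H64.CX

open Metric Set Filter Topology MeasureTheory

theorem ldom_gg (m k : ℕ) (hm : 1 ≤ m) (hk : 1 ≤ k) :
    0 ≤ gg m k ∧ gg m k ≤ 14 * m / ((m : ℝ) + k) := by
  have hm0 : (1 : ℝ) ≤ m := by exact_mod_cast hm
  have hk0 : (1 : ℝ) ≤ k := by exact_mod_cast hk
  have hl0 : 0 ≤ Real.log (((m : ℝ) + k) / k) := by
    apply Real.log_nonneg
    rw [le_div_iff₀ (by linarith)]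
    linarith
  have hl1 : Real.log (((m : ℝ) + k) / k) ≤ m / k := by
    have h := Real.log_le_sub_one_of_pos (show 0 < ((m : ℝ) + k) / k by positivity)
    refine h.trans (le_of_eq ?_)
    field_simp
    ring
  constructor
  · unfold gg
    positivity
  · unfold gg
    have h1 : 4 * (k : ℝ) / (m + 2 * k) * Real.log (((m : ℝ) + k) / k) ≤
        4 * k / (m + 2 * k) * (m / k) := mul_le_mul_of_nonneg_left hl1 (by positivity)
    have h2 : 4 * (k : ℝ) / (m + 2 * k) * (m / k) ≤ 4 * m / ((m : ℝ) + k) := by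
      rw [show 4 * (k : ℝ) / (m + 2 * k) * (m / k) = 4 * m / (m + 2 * k) by field_simp]
      exact div_le_div_of_nonneg_left (by positivity) (by positivity) (by linarith)
    have h3 : 4 / (k : ℝ) ≤ 8 * m / ((m : ℝ) + k) := by
      rw [div_le_div_iff₀ (by positivity) (by positivity)]
      nlinarith
    have h4 : 14 * (m : ℝ) / ((m : ℝ) + k) =
        2 * m / ((m : ℝ) + k) + 4 * m / ((m : ℝ) + k) + 8 * m / ((m : ℝ) + k) := by ring
    rw [h4]
    linarith

theorem ldom : S_LDOM := by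
  intro hR α σ hα h0 h1 h2 hσ
  obtain ⟨c, hc, h⟩ := hR α hα h0 h1 h2
  refine ⟨14 / c ^ 2, fun m k hm hk => ?_⟩
  obtain ⟨hg0, hg1⟩ := ldom_gg m k hm hk
  have hr := h m k hm hk
  have hm0 : (0 : ℝ) < m := by exact_mod_cast hm
  have hk0 : (0 : ℝ) < k := by exact_mod_cast hk
  set s : ℝ := (m : ℝ) + k with hs
  have hs0 : 0 < s := by positivity
  have hw : (s + 1) ^ (-(σ + 2 * α.re)) ≤ s ^ (-(σ + 2 * α.re)) :=
    Real.rpow_le_rpow_of_nonpos hs0 (by linarith) (by linarith)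
  have hd0 : 0 < c * m * s ^ (-α.re) := by positivity
  have hd : (c * m * s ^ (-α.re)) ^ 2 ≤ ‖rr α (m + k) - rr α k‖ ^ 2 :=
    pow_le_pow_left₀ hd0.le hr 2
  have hB : BB α (σ + 2 * α.re) m k ≤
      s ^ (-(σ + 2 * α.re)) / (c * m * s ^ (-α.re)) ^ 2 * (14 * m / s) := by
    unfold BB
    refine mul_le_mul ?_ hg1 hg0 (by positivity)
    exact div_le_div₀ (by positivity) hw (by positivity) hd
  have e1 : s ^ (-(σ + 2 * α.re)) = (s ^ σ)⁻¹ * (s ^ (-α.re)) ^ 2 := by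
    rw [← Real.rpow_neg hs0.le, ← Real.rpow_natCast, ← Real.rpow_mul hs0.le, ← Real.rpow_add hs0]
    congr 1
    push_cast
    ring
  calc (m : ℝ) * ((m : ℝ) ^ (1 + σ) * BB α (σ + 2 * α.re) m k)
      ≤ (m : ℝ) * ((m : ℝ) ^ (1 + σ) *
        (s ^ (-(σ + 2 * α.re)) / (c * m * s ^ (-α.re)) ^ 2 * (14 * m / s))) := by
        gcongr
    _ = 14 / c ^ 2 * ((m : ℝ) / s) ^ (1 + σ) := by
        have hp : 0 < s ^ (-α.re) := Real.rpow_pos_of_pos hs0 _
        have hq : 0 < s ^ σ := Real.rpow_pos_of_pos hs0 _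
        rw [e1, Real.div_rpow hm0.le hs0.le, Real.rpow_add hs0 1 σ, Real.rpow_one]
        field_simp

end Pool.Agent.H64.CX
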