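import Pool.Agent.H64.CX.Stm

set_option autoImplicit false

/-! # CX-LPT: the pointwise limit (helper85) -/

namespace Pool.Agent.H64.CX

open Metric Set Filter Topology MeasureTheory
open scoped ENNReal

/-- `k = ⌊m x⌋ + 1` -/
theorem LPTh.floor_lim {x : ℝ} (hx : 0 < x) :
    Tendsto (fun m : ℕ => (((⌊(m : ℝ) * x⌋₊ + 1 : ℕ) : ℝ)) / m) atTop (𝓝 x) := by
  have h1 : Tendsto (fun m : ℕ => x + 1 / (m : ℝ)) atTop (𝓝 (x + 0)) :=
    tendsto_const_nhds.add tendsto_one_div_atTop_nhds_zero_nat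
  rw [add_zero] at h1
  refine tendsto_of_tendsto_of_tendsto_of_le_of_le' tendsto_const_nhds h1 ?_ ?_
  · filter_upwards [eventually_gt_atTop 0] with m hm
    have hm' : (0 : ℝ) < m := by exact_mod_cast hm
    rw [le_div_iff₀ hm']
    push_cast
    have := Nat.lt_floor_add_one ((m : ℝ) * x)
    linarith
  · filter_upwards [eventually_gt_atTop 0] with m hm
    have hm' : (0 : ℝ) < m := by exact_mod_cast hm
    rw [div_le_iff₀ hm', add_mul, one_div, inv_mul_cancel₀ hm'.ne']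
    push_cast
    have := Nat.floor_le (by positivity : 0 ≤ (m : ℝ) * x)
    linarith

/-- the limit of `rr` along a sequence `j m ~ m y` -/
theorem LPTh.rr_lim (hR : S_RASY) {α : ℂ} (hα : α ≠ 0) (h0 : 0 ≤ α.re) (j : ℕ → ℕ) {y : ℝ}
    (hy : 0 < y) (hj : Tendsto (fun m : ℕ => (j m : ℝ) / m) atTop (𝓝 y)) :
    Tendsto (fun m : ℕ => rr α (j m) / (m : ℂ) ^ (1 - α)) atTop
      (𝓝 (Complex.Gamma α * (y : ℂ) ^ (1 - α))) := by
  have hjt : Tendsto j atTop atTop := by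
    have h1 : Tendsto (fun m : ℕ => (j m : ℝ)) atTop atTop := by
      have h2 : Tendsto (fun m : ℕ => (j m : ℝ) / m * m) atTop atTop :=
        hj.pos_mul_atTop hy tendsto_natCast_atTop_atTop
      refine h2.congr' ?_
      filter_upwards [eventually_gt_atTop 0] with m hm
      have hm' : (m : ℝ) ≠ 0 := by exact_mod_cast hm.ne'
      exact div_mul_cancel₀ _ hm'
    exact tendsto_natCast_atTop_iff.1 h1
  have h1 := (hR α hα h0).comp hjt
  have h2 : Tendsto (fun m : ℕ => ((((j m : ℝ) / m : ℝ)) : ℂ) ^ (1 - α)) atTop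
      (𝓝 ((y : ℂ) ^ (1 - α))) :=
    (Complex.continuousAt_ofReal_cpow_const y (1 - α) (Or.inr hy.ne')).tendsto.comp hj
  refine (h1.mul h2).congr' ?_
  filter_upwards [eventually_gt_atTop 0, hjt.eventually_gt_atTop 0] with m hm hjm
  have hm' : (0 : ℝ) < m := by exact_mod_cast hm
  have hjm' : (0 : ℝ) < j m := by exact_mod_cast hjm
  have h3 : ((j m : ℕ) : ℂ) ^ (1 - α) =
      ((((j m : ℝ) / m : ℝ)) : ℂ) ^ (1 - α) * ((m : ℕ) : ℂ) ^ (1 - α) := by
    have h4 := Complex.mul_cpow_ofReal_nonneg (a := (j m : ℝ) / m) (b := (m : ℝ)) (by positivity)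
      hm'.le (1 - α)
    have h5 : (((j m : ℝ) / m : ℝ) : ℂ) * ((m : ℝ) : ℂ) = ((j m : ℕ) : ℂ) := by
      rw [← Complex.ofReal_mul, div_mul_cancel₀ _ hm'.ne']
      simp
    rw [h5] at h4
    rw [h4]
    simp
  have h6 : ((m : ℕ) : ℂ) ^ (1 - α) ≠ 0 := by
    rw [Ne, Complex.cpow_eq_zero_iff]
    rintro ⟨h, -⟩
    exact hm.ne' (by exact_mod_cast h)
  have h7 : ((((j m : ℝ) / m : ℝ)) : ℂ) ^ (1 - α) ≠ 0 := by
    rw [Ne, Complex.cpow_eq_zero_iff]
    rintro ⟨h, -⟩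
    have h8 : (j m : ℝ) / m = 0 := by exact_mod_cast h
    have h9 : 0 < (j m : ℝ) / m := by positivity
    linarith
  simp only [Function.comp]
  rw [h3]
  field_simp

theorem lpt : S_LPT := by
  intro hR α σ x hα h0 h1 _ hσ hx hne
  obtain ⟨k, hk⟩ : ∃ k : ℕ → ℕ, k = fun m : ℕ => ⌊(m : ℝ) * x⌋₊ + 1 := ⟨_, rfl⟩
  have hkx : Tendsto (fun m : ℕ => (k m : ℝ) / m) atTop (𝓝 x) := by
    rw [hk]; exact LPTh.floor_lim hx
  have hk1 : ∀ m, 1 ≤ k m := fun m => by rw [hk]; simp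
  have hmk : Tendsto (fun m : ℕ => ((m + k m : ℕ) : ℝ) / m) atTop (𝓝 (1 + x)) := by
    refine (hkx.const_add 1).congr' ?_
    filter_upwards [eventually_gt_atTop 0] with m hm
    have hm' : (m : ℝ) ≠ 0 := by exact_mod_cast hm.ne'
    push_cast
    rw [add_div, div_self hm']
  have hx1 : 0 < 1 + x := by linarith
  -- the differences
  have hA : Tendsto (fun m : ℕ => (rr α (m + k m) - rr α (k m)) / (m : ℂ) ^ (1 - α)) atTop
      (𝓝 (Complex.Gamma α * ((1 + x : ℝ) : ℂ) ^ (1 - α) - Complex.Gamma α * (x : ℂ) ^ (1 - α))) := by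
    have e1 := LPTh.rr_lim hR hα h0 (fun m => m + k m) hx1 hmk
    have e2 := LPTh.rr_lim hR hα h0 k hx hkx
    refine (e1.sub e2).congr fun m => ?_
    rw [sub_div]
  have hΓ : Complex.Gamma α ≠ 0 := by
    apply Complex.Gamma_ne_zero
    intro n hn
    have h2 := congrArg Complex.re hn
    simp at h2
    have h3 := congrArg Complex.im hn
    simp at h3
    have h4 : (n : ℝ) = 0 := by
      have : (0 : ℝ) ≤ n := Nat.cast_nonneg n
      linarith
    apply hα
    rw [hn]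
    have : n = 0 := by exact_mod_cast h4
    rw [this]
    simp
  obtain ⟨V, hV⟩ : ∃ V : ℝ, V = ‖Complex.Gamma α‖ ^ 2 *
    ‖((1 + x : ℝ) : ℂ) ^ (1 - α) - (x : ℂ) ^ (1 - α)‖ ^ 2 := ⟨_, rfl⟩
  have hV0 : 0 < V := by
    rw [hV]
    have : ((1 + x : ℝ) : ℂ) ^ (1 - α) - (x : ℂ) ^ (1 - α) ≠ 0 := sub_ne_zero.2 hne
    have h2 := norm_pos_iff.2 this
    have h3 := norm_pos_iff.2 hΓ
    positivity
  have hB : Tendsto (fun m : ℕ => ‖rr α (m + k m) - rr α (k m)‖ ^ 2 / (m : ℝ) ^ (2 - 2 * α.re))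
      atTop (𝓝 V) := by
    have e1 := (hA.norm.pow 2)
    rw [← mul_sub, norm_mul, mul_pow, ← hV] at e1
    refine e1.congr' ?_
    filter_upwards [eventually_gt_atTop 0] with m hm
    have hm' : (0 : ℝ) < m := by exact_mod_cast hm
    rw [norm_div, div_pow]
    congr 1
    have h2 : ‖((m : ℕ) : ℂ) ^ (1 - α)‖ = (m : ℝ) ^ (1 - α.re) := by
      have h3 := Complex.norm_cpow_eq_rpow_re_of_pos hm' (1 - α)
      simpa using h3
    rw [h2, ← Real.rpow_natCast, ← Real.rpow_mul hm'.le]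
    congr 1
    push_cast
    ring
  -- the weight
  have hw : Tendsto (fun m : ℕ => (((m : ℝ) + k m + 1) / m) ^ (-(σ + 2 * α.re))) atTop
      (𝓝 ((1 + x) ^ (-(σ + 2 * α.re)))) := by
    have e1 : Tendsto (fun m : ℕ => ((m : ℝ) + k m + 1) / m) atTop (𝓝 (1 + x)) := by
      have e2 := hmk.add tendsto_one_div_atTop_nhds_zero_nat
      rw [add_zero] at e2
      refine e2.congr fun m => ?_
      push_cast
      rw [← add_div]
    exact (Real.continuousAt_rpow_const _ _ (Or.inl hx1.ne')).tendsto.comp e1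
  -- the kernel
  have hg : Tendsto (fun m : ℕ => gg m (k m)) atTop (𝓝 (GG x)) := by
    have e1 : Tendsto (fun m : ℕ => (2 : ℝ) / (((m + k m : ℕ) : ℝ) / m)) atTop
        (𝓝 (2 / (1 + x))) := tendsto_const_nhds.div hmk hx1.ne'
    have e2 : Tendsto (fun m : ℕ => 4 * ((k m : ℝ) / m) / (1 + 2 * ((k m : ℝ) / m))) atTop
        (𝓝 (4 * x / (1 + 2 * x))) :=
      (hkx.const_mul 4).div ((hkx.const_mul 2).const_add 1) (by positivity)
    have e3 : Tendsto (fun m : ℕ => Real.log (1 + 1 / ((k m : ℝ) / m))) atTop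
        (𝓝 (Real.log (1 + 1 / x))) := by
      have e4 : Tendsto (fun m : ℕ => 1 + 1 / ((k m : ℝ) / m)) atTop (𝓝 (1 + 1 / x)) :=
        (tendsto_const_nhds.div hkx hx.ne').const_add 1
      exact (Real.continuousAt_log (by positivity)).tendsto.comp e4
    have e5 : Tendsto (fun m : ℕ => 4 / (k m : ℝ)) atTop (𝓝 0) := by
      have e6 : Tendsto (fun m : ℕ => (k m : ℝ)) atTop atTop := by
        have e7 : Tendsto (fun m : ℕ => (k m : ℝ) / m * m) atTop atTop :=
          hkx.pos_mul_atTop hx tendsto_natCast_atTop_atTop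
        refine e7.congr' ?_
        filter_upwards [eventually_gt_atTop 0] with m hm
        have hm' : (m : ℝ) ≠ 0 := by exact_mod_cast hm.ne'
        exact div_mul_cancel₀ _ hm'
      exact tendsto_const_nhds.div_atTop e6
    have e8 := (e1.add (e2.mul e3)).add e5
    rw [add_zero] at e8
    unfold GG
    refine e8.congr' ?_
    filter_upwards [eventually_gt_atTop 0] with m hm
    have hm' : (0 : ℝ) < m := by exact_mod_cast hm
    have hk' : (0 : ℝ) < k m := by exact_mod_cast hk1 m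
    unfold gg
    congr 1
    congr 1
    · push_cast
      field_simp
    · congr 1
      · field_simp
      · congr 1
        field_simp
        ring
  have hfin := (hw.mul (hB.inv₀ hV0.ne')).mul hg
  have hLF : LF α σ x = (1 + x) ^ (-(σ + 2 * α.re)) * V⁻¹ * GG x := by
    unfold LF
    rw [← hV, div_eq_mul_inv]
  rw [hLF]
  refine hfin.congr' ?_
  filter_upwards [eventually_gt_atTop 0] with m hm
  have hm' : (0 : ℝ) < m := by exact_mod_cast hm
  have hkm : ⌊(m : ℝ) * x⌋₊ + 1 = k m := by rw [hk]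
  rw [hkm]
  unfold BB
  have e1 : (((m : ℝ) + k m + 1) / m) ^ (-(σ + 2 * α.re)) =
      ((m : ℝ) + k m + 1) ^ (-(σ + 2 * α.re)) * (m : ℝ) ^ (σ + 2 * α.re) := by
    rw [Real.div_rpow (by positivity) hm'.le, div_eq_mul_inv]
    congr 1
    rw [Real.rpow_neg hm'.le, inv_inv]
  have e2 : (m : ℝ) * (m : ℝ) ^ (1 + σ) =
      (m : ℝ) ^ (σ + 2 * α.re) * (m : ℝ) ^ (2 - 2 * α.re) := by
    rw [← Real.rpow_add hm', ← Real.rpow_one_add' hm'.le (by linarith)]
    congr 1
    ring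
  rw [e1, inv_div]
  calc ((m : ℝ) + k m + 1) ^ (-(σ + 2 * α.re)) * (m : ℝ) ^ (σ + 2 * α.re) *
        ((m : ℝ) ^ (2 - 2 * α.re) / ‖rr α (m + k m) - rr α (k m)‖ ^ 2) * gg m (k m) =
        ((m : ℝ) ^ (σ + 2 * α.re) * (m : ℝ) ^ (2 - 2 * α.re)) *
        (((m : ℝ) + k m + 1) ^ (-(σ + 2 * α.re)) / ‖rr α (m + k m) - rr α (k m)‖ ^ 2 *
          gg m (k m)) := by ring
    _ = _ := by rw [← e2]; ring

end Pool.Agent.H64.CX
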