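import Pool.Agent.H64.CX.Stm

set_option autoImplicit false

/-! # CX-PW: the pointwise inequality -/

namespace Pool.Agent.H64.CX

open Metric Set Filter Topology MeasureTheory

theorem pw : S_PW := by
  intro hN hH α x hx h0 h1 h2
  set φ : ℝ := Real.log (1 + 1 / x) with hφ
  have hφ0 : 0 < φ := by
    apply Real.log_pos
    have : 0 < 1 / x := by positivity
    linarith
  have hexp : Real.exp φ = (1 + x) / x := by
    rw [hφ, Real.exp_log (by positivity)]
    field_simp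
    ring
  have hexpn : Real.exp (-φ) = x / (1 + x) := by
    rw [Real.exp_neg, hexp, inv_div]
  have hcosh : Real.cosh φ - 1 = 1 / (2 * (x * (1 + x))) := by
    rw [Real.cosh_eq, hexp, hexpn]
    field_simp
    ring
  have hsinh : Real.sinh φ = (1 + 2 * x) / (2 * (x * (1 + x))) := by
    rw [Real.sinh_eq, hexp, hexpn]
    field_simp
    ring
  have hA : α.im ^ 2 + α.im ^ 4 ≤ (1 - α.re) ^ 2 := by
    have h3 : α.im ^ 2 ≤ 1 / 4 := by
      rw [← sq_abs]
      nlinarith [abs_nonneg α.im]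
    have h4 : α.im ^ 4 ≤ 1 / 16 := by
      have : α.im ^ 4 = (α.im ^ 2) ^ 2 := by ring
      rw [this]
      nlinarith [sq_nonneg α.im]
    nlinarith
  have hn : ‖1 - α‖ ^ 2 = (1 - α.re) ^ 2 + α.im ^ 2 := by
    rw [Complex.sq_norm, Complex.normSq_apply]
    simp
    ring
  have hw := hH ((1 - α.re) ^ 2) α.im φ hφ0 hA
  have hv := hN α x hx (by linarith) h0
  rw [hcosh, hsinh, one_div, div_inv_eq_mul] at hw
  have hp : 0 < (1 + x) ^ (-(2 * α.re)) := by positivity
  have hpow : (1 + x) ^ (1 - 2 * α.re) = (1 + x) * (1 + x) ^ (-(2 * α.re)) := by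
    rw [sub_eq_add_neg, Real.rpow_add (by positivity), Real.rpow_one]
  have hGG : GG x * (1 + x) = 4 * ((1 + φ / ((1 + 2 * x) / (2 * (x * (1 + x))))) / 2) := by
    unfold GG
    rw [← hφ]
    field_simp
    ring
  rw [← hφ] at hv
  calc GG x * ‖1 - α‖ ^ 2 * (1 + x) ^ (1 - 2 * α.re)
      = 4 * ((1 + φ / ((1 + 2 * x) / (2 * (x * (1 + x))))) / 2 *
          ((1 - α.re) ^ 2 + α.im ^ 2)) * (1 + x) ^ (-(2 * α.re)) := by
        rw [hpow, hn]
        calc GG x * ((1 - α.re) ^ 2 + α.im ^ 2) * ((1 + x) * (1 + x) ^ (-(2 * α.re)))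
            = (GG x * (1 + x)) * ((1 - α.re) ^ 2 + α.im ^ 2) * (1 + x) ^ (-(2 * α.re)) := by ring
          _ = _ := by rw [hGG]; ring
    _ ≤ 4 * ((1 - α.re) ^ 2 + (1 - Real.cos (α.im * φ)) * (2 * (x * (1 + x)))) *
          (1 + x) ^ (-(2 * α.re)) := by
        gcongr
    _ = 4 * (((1 - α.re) ^ 2 + 2 * (x * (1 + x)) * (1 - Real.cos (α.im * φ))) *
          (1 + x) ^ (-(2 * α.re))) := by ring
    _ ≤ _ := by
        exact mul_le_mul_of_nonneg_left hv (by norm_num)

end Pool.Agent.H64.CX
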