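import Pool.Agent.H64.CX.Stm

set_option autoImplicit false

namespace Pool.Agent.H64.CX

open Metric Set Filter Topology MeasureTheory
open scoped ENNReal

namespace PWH

theorem cos_up_nonneg {z : ℝ} (hz : 0 ≤ z) : Real.cos z ≤ 1 - z ^ 2 / 2 + z ^ 4 / 24 := by
  let f (t : ℝ) : ℝ := 1 - t ^ 2 / 2 + t ^ 4 / 24 - Real.cos t
  have hderiv (t : ℝ) : deriv f t = Real.sin t - (t - t ^ 3 / 6) := by
    simp (disch := fun_prop) [f]
    ring
  have hmono : MonotoneOn f (Set.Ici 0) := by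
    apply monotoneOn_of_deriv_nonneg (convex_Ici 0) (by fun_prop) (by fun_prop)
    intro t ht
    rw [hderiv]
    rw [interior_Ici] at ht
    linarith [Real.sin_ge_sub_cube (le_of_lt ht)]
  have h0 : f 0 ≤ f z := hmono (by simp) hz hz
  simp only [f, Real.cos_zero] at h0
  linarith

theorem cos_up (z : ℝ) : Real.cos z ≤ 1 - z ^ 2 / 2 + z ^ 4 / 24 := by
  have h := cos_up_nonneg (abs_nonneg z)
  rw [Real.cos_abs, sq_abs] at h
  have h4 : |z| ^ 4 = z ^ 4 := by
    rw [show (4 : ℕ) = 2 * 2 by norm_num, pow_mul, pow_mul, sq_abs]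
  rwa [h4] at h

theorem sinh_low {x : ℝ} (hx : 0 ≤ x) : x + x ^ 3 / 6 ≤ Real.sinh x := by
  have h := sum_le_hasSum (Finset.range 2) (fun i _ => by positivity) (Real.hasSum_sinh x)
  simp only [Finset.sum_range_succ, Finset.sum_range_zero] at h
  norm_num [Nat.factorial] at h
  linarith

theorem sinh_le_mul_cosh {h : ℝ} (hh : 0 ≤ h) : Real.sinh h ≤ h * Real.cosh h := by
  refine hasSum_le (fun n => ?_) (Real.hasSum_sinh h) ((Real.hasSum_cosh h).mul_left h)
  rw [pow_succ, mul_comm, mul_div_assoc]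
  gcongr
  omega

theorem two_cosh_le {x : ℝ} (hx : 0 ≤ x) : 2 * (Real.cosh x - 1) ≤ x * Real.sinh x := by
  have h1 := sinh_le_mul_cosh (h := x / 2) (by positivity)
  have h2 : Real.cosh x = 1 + 2 * Real.sinh (x / 2) ^ 2 := by
    have := Real.cosh_two_mul (x / 2)
    rw [show 2 * (x / 2) = x by ring] at this
    rw [this]
    have := Real.cosh_sq (x / 2)
    linarith
  have h3 : Real.sinh x = 2 * Real.sinh (x / 2) * Real.cosh (x / 2) := by
    have := Real.sinh_two_mul (x / 2)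
    rwa [show 2 * (x / 2) = x by ring] at this
  rw [h2, h3]
  have h4 : 0 ≤ Real.sinh (x / 2) := Real.sinh_nonneg_iff.2 (by positivity)
  nlinarith

end PWH

open PWH in
theorem pwh : S_PWH := by
  intro A y φ hφ hA
  have hS : 0 < Real.sinh φ := Real.sinh_pos_iff.2 hφ
  have hD : 0 < Real.cosh φ - 1 := by
    have := Real.one_lt_cosh.2 hφ.ne'
    linarith
  set E := φ / Real.sinh φ with hE
  have hE0 : 0 < E := div_pos hφ hS
  have hE1 : E * φ ^ 2 / 6 ≤ 1 - E := by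
    have h1 := sinh_low hφ.le
    have h2 : E * (1 + φ ^ 2 / 6) ≤ 1 := by
      rw [hE, div_mul_eq_mul_div, div_le_one hS]
      linarith
    linarith
  have hQ : E ≤ (φ ^ 2 / 2) / (Real.cosh φ - 1) := by
    have h1 := two_cosh_le hφ.le
    rw [hE, div_le_div_iff₀ hS hD]
    nlinarith
  have hT : y ^ 2 * (1 - y ^ 2 * φ ^ 2 / 12) * E ≤
      (1 - Real.cos (y * φ)) / (Real.cosh φ - 1) := by
    by_cases h : 0 ≤ 1 - y ^ 2 * φ ^ 2 / 12
    · calc y ^ 2 * (1 - y ^ 2 * φ ^ 2 / 12) * E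
          ≤ y ^ 2 * (1 - y ^ 2 * φ ^ 2 / 12) * ((φ ^ 2 / 2) / (Real.cosh φ - 1)) := by gcongr
        _ = ((y * φ) ^ 2 / 2 - (y * φ) ^ 4 / 24) / (Real.cosh φ - 1) := by ring
        _ ≤ _ := by
            have := cos_up (y * φ)
            refine div_le_div_of_nonneg_right ?_ hD.le
            linarith
    · push Not at h
      have h1 : 0 ≤ (1 - Real.cos (y * φ)) / (Real.cosh φ - 1) :=
        div_nonneg (by linarith [Real.cos_le_one (y * φ)]) hD.le
      refine le_trans ?_ h1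
      have h2 : y ^ 2 * (1 - y ^ 2 * φ ^ 2 / 12) ≤ 0 :=
        mul_nonpos_of_nonneg_of_nonpos (sq_nonneg y) h.le
      exact mul_nonpos_of_nonpos_of_nonneg h2 hE0.le
  have hE2 : 0 ≤ 1 - E := le_trans (by positivity) hE1
  have h5 : (y ^ 2 + y ^ 4) * (1 - E) ≤ A * (1 - E) := mul_le_mul_of_nonneg_right hA hE2
  have h6 : 0 ≤ y ^ 4 * ((1 - E) - E * φ ^ 2 / 6) := mul_nonneg (by positivity) (by linarith)
  nlinarith

end Pool.Agent.H64.CX
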