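import Pool.Agent.H64.CX.Stm

set_option autoImplicit false

/-! # CX-PWI: the integral of the limit density -/

namespace Pool.Agent.H64.CX

open Metric Set Filter Topology MeasureTheory

lemma GG_nonneg (x : ℝ) (hx : 0 < x) : 0 ≤ GG x := by
  unfold GG
  have h1 : 0 ≤ Real.log (1 + 1 / x) := by
    apply Real.log_nonneg
    have : 0 < 1 / x := by positivity
    linarith
  positivity

lemma pwi_int (s : ℝ) (hs : 0 < s) :
    IntegrableOn (fun x : ℝ => (1 + x) ^ (-(1 + s))) (Ioi 0) ∧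
    ∫ x in Ioi (0 : ℝ), (1 + x) ^ (-(1 + s)) = 1 / s := by
  have hd : ∀ x ∈ Ici (0 : ℝ), HasDerivAt (fun x : ℝ => -(1 / s) * (1 + x) ^ (-s))
      ((1 + x) ^ (-(1 + s))) x := by
    intro x hx
    have hx' : (0 : ℝ) ≤ x := hx
    have h0 : HasDerivAt (fun x : ℝ => 1 + x) 1 x := by
      simpa using (hasDerivAt_id x).const_add (1 : ℝ)
    have h1 := (h0.rpow_const (p := -s) (Or.inl (by linarith))).const_mul (-(1 / s))
    refine h1.congr_deriv ?_
    rw [show (-(1 + s)) = -s - 1 by ring]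
    field_simp
  have ht : Tendsto (fun x : ℝ => -(1 / s) * (1 + x) ^ (-s)) atTop (𝓝 0) := by
    have h1 : Tendsto (fun x : ℝ => (1 + x) ^ (-s)) atTop (𝓝 0) :=
      (tendsto_rpow_neg_atTop hs).comp (tendsto_atTop_add_const_left _ _ tendsto_id)
    simpa using h1.const_mul (-(1 / s))
  have hpos : ∀ x ∈ Ioi (0 : ℝ), 0 ≤ (1 + x) ^ (-(1 + s)) := by
    intro x hx
    have hx' : (0 : ℝ) < x := hx
    positivity
  refine ⟨integrableOn_Ioi_deriv_of_nonneg' hd hpos ht, ?_⟩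
  rw [integral_Ioi_of_hasDerivAt_of_nonneg' hd hpos ht]
  simp

theorem pwi : S_PWI := by
  intro α σ hσ hα h0 h1 _ hb
  have hn : 0 < ‖1 - α‖ := by
    rw [norm_pos_iff, sub_ne_zero]
    intro h
    rw [← h] at h1
    norm_num at h1
  have hG : 0 < ‖Complex.Gamma α‖ := by
    rw [norm_pos_iff]
    refine Complex.Gamma_ne_zero fun m h => hα ?_
    have h2 : α.re = -(m : ℝ) := by rw [h]; simp
    have h3 : (m : ℝ) = 0 := by
      have : (0 : ℝ) ≤ m := Nat.cast_nonneg m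
      linarith
    rw [h]
    have h4 : m = 0 := by exact_mod_cast h3
    rw [h4]
    simp
  obtain ⟨hi, he⟩ := pwi_int σ hσ
  set c : ℝ := 4 / (‖Complex.Gamma α‖ ^ 2 * ‖1 - α‖ ^ 2) with hc
  have hle : ∀ x ∈ Ioi (0 : ℝ), LF α σ x ≤ c * (1 + x) ^ (-(1 + σ)) := by
    intro x hx
    have hx' : (0 : ℝ) < x := hx
    have h2 := hb x hx'
    unfold LF
    set D : ℝ := ‖((1 + x : ℝ) : ℂ) ^ (1 - α) - (x : ℂ) ^ (1 - α)‖ ^ 2 with hD
    have hGG := GG_nonneg x hx'
    have hDn : 0 ≤ D := by positivity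
    rcases hDn.eq_or_lt with h3 | h3
    · rw [← h3, mul_zero, div_zero, zero_mul]
      positivity
    · have h4 : (1 + x) ^ (-(σ + 2 * α.re)) =
          (1 + x) ^ (-(1 + σ)) * (1 + x) ^ (1 - 2 * α.re) := by
        rw [← Real.rpow_add (by linarith)]
        congr 1
        ring
      rw [h4, hc]
      have h5 : 0 < (1 + x) ^ (-(1 + σ)) := by positivity
      rw [div_mul_eq_mul_div, div_mul_eq_mul_div, div_le_div_iff₀ (by positivity) (by positivity)]
      have h6 : 0 ≤ (1 + x) ^ (-(1 + σ)) * ‖Complex.Gamma α‖ ^ 2 := by positivity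
      calc (1 + x) ^ (-(1 + σ)) * (1 + x) ^ (1 - 2 * α.re) * GG x *
            (‖Complex.Gamma α‖ ^ 2 * ‖1 - α‖ ^ 2)
          = (1 + x) ^ (-(1 + σ)) * ‖Complex.Gamma α‖ ^ 2 *
              (GG x * ‖1 - α‖ ^ 2 * (1 + x) ^ (1 - 2 * α.re)) := by ring
        _ ≤ (1 + x) ^ (-(1 + σ)) * ‖Complex.Gamma α‖ ^ 2 * (4 * D) :=
            mul_le_mul_of_nonneg_left h2 h6
        _ = 4 * (1 + x) ^ (-(1 + σ)) * (‖Complex.Gamma α‖ ^ 2 * D) := by ring
  have hnn : ∀ x ∈ Ioi (0 : ℝ), 0 ≤ LF α σ x := by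
    intro x hx
    have hx' : (0 : ℝ) < x := hx
    unfold LF
    have := GG_nonneg x hx'
    positivity
  calc ∫ x in Ioi (0 : ℝ), LF α σ x ≤ ∫ x in Ioi (0 : ℝ), c * (1 + x) ^ (-(1 + σ)) := by
        refine integral_mono_of_nonneg ?_ (hi.const_mul c) ?_
        · exact (ae_restrict_iff' measurableSet_Ioi).2 (Eventually.of_forall hnn)
        · exact (ae_restrict_iff' measurableSet_Ioi).2 (Eventually.of_forall hle)
    _ = c * (1 / σ) := by rw [integral_const_mul, he]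
    _ = 4 / (‖Complex.Gamma α‖ ^ 2 * ‖1 - α‖ ^ 2 * σ) := by
        rw [hc, div_mul_div_comm, mul_one]

end Pool.Agent.H64.CX
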