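import Pool.Agent.H64.CX.Stm

set_option autoImplicit false

namespace Pool.Agent.H64.CX

open Metric Set Filter Topology MeasureTheory
open scoped ENNReal

namespace PWN

theorem cpow_re_im (α : ℂ) (u : ℝ) (hu : 0 < u) :
    ((u : ℂ) ^ (1 - α)).re = u ^ (1 - α.re) * Real.cos (α.im * Real.log u) ∧
    ((u : ℂ) ^ (1 - α)).im = -(u ^ (1 - α.re) * Real.sin (α.im * Real.log u)) := by
  rw [Complex.cpow_def_of_ne_zero (by exact_mod_cast hu.ne'), ← Complex.ofReal_log hu.le,
    Complex.exp_re, Complex.exp_im]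
  have e1 : ((Real.log u : ℂ) * (1 - α)).re = Real.log u * (1 - α.re) := by simp
  have e2 : ((Real.log u : ℂ) * (1 - α)).im = -(α.im * Real.log u) := by
    simp
    ring
  rw [e1, e2, Real.cos_neg, Real.sin_neg, Real.rpow_def_of_pos hu]
  constructor
  · ring
  · ring

theorem norm_formula (α : ℂ) (x : ℝ) (hx : 0 < x) :
    ‖((1 + x : ℝ) : ℂ) ^ (1 - α) - (x : ℂ) ^ (1 - α)‖ ^ 2 =
      ((1 + x) ^ (1 - α.re) - x ^ (1 - α.re)) ^ 2 +
        2 * ((1 + x) ^ (1 - α.re) * x ^ (1 - α.re)) *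
          (1 - Real.cos (α.im * Real.log (1 + 1 / x))) := by
  have hx1 : 0 < 1 + x := by linarith
  have hlog : Real.log (1 + 1 / x) = Real.log (1 + x) - Real.log x := by
    rw [← Real.log_div hx1.ne' hx.ne']
    congr 1
    field_simp
    ring
  obtain ⟨a1, a2⟩ := cpow_re_im α (1 + x) hx1
  obtain ⟨b1, b2⟩ := cpow_re_im α x hx
  rw [Complex.sq_norm, Complex.normSq_apply, Complex.sub_re, Complex.sub_im, a1, a2, b1, b2, hlog,
    mul_sub α.im (Real.log (1 + x)) (Real.log x), Real.cos_sub]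
  have c1 := Real.sin_sq_add_cos_sq (α.im * Real.log (1 + x))
  have c2 := Real.sin_sq_add_cos_sq (α.im * Real.log x)
  linear_combination ((1 + x) ^ (1 - α.re)) ^ 2 * c1 + (x ^ (1 - α.re)) ^ 2 * c2

end PWN

open PWN in
theorem pwn : S_PWN := by
  intro α x hx h1 h0
  have hx1 : 0 < 1 + x := by linarith
  rw [norm_formula α x hx, add_mul]
  refine add_le_add ?_ ?_
  · -- the difference
    have hb : x ^ (1 - α.re) ≤ (1 + x) ^ (1 - α.re) - (1 - α.re) * (1 + x) ^ (-α.re) := by
      have e1 : x = (1 + x) * (1 + (-(1 / (1 + x)))) := by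
        field_simp
        ring
      have hs : (-1 : ℝ) ≤ -(1 / (1 + x)) := by
        have : 1 / (1 + x) ≤ 1 := by
          rw [div_le_one hx1]
          linarith
        linarith
      have hber := rpow_one_add_le_one_add_mul_self hs (p := 1 - α.re) (by linarith) (by linarith)
      have h3 : (1 + x) ^ (-α.re) = (1 + x) ^ (1 - α.re) * (1 / (1 + x)) := by
        rw [show -α.re = (1 - α.re) - 1 by ring, Real.rpow_sub hx1, Real.rpow_one]
        ring
      calc x ^ (1 - α.re) = ((1 + x) * (1 + (-(1 / (1 + x))))) ^ (1 - α.re) := by rw [← e1]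
        _ = (1 + x) ^ (1 - α.re) * (1 + (-(1 / (1 + x)))) ^ (1 - α.re) := by
            rw [Real.mul_rpow hx1.le (by linarith)]
        _ ≤ (1 + x) ^ (1 - α.re) * (1 + (1 - α.re) * (-(1 / (1 + x)))) := by gcongr
        _ = _ := by
            rw [h3]
            ring
    have h2 : (0 : ℝ) ≤ (1 - α.re) * (1 + x) ^ (-α.re) :=
      mul_nonneg (by linarith) (Real.rpow_nonneg hx1.le _)
    have h3 : (1 + x) ^ (-(2 * α.re)) = ((1 + x) ^ (-α.re)) ^ 2 := by
      rw [← Real.rpow_natCast, ← Real.rpow_mul hx1.le]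
      congr 1
      push_cast
      ring
    rw [h3, ← mul_pow]
    exact pow_le_pow_left₀ h2 (by linarith) 2
  · have hc : 0 ≤ 1 - Real.cos (α.im * Real.log (1 + 1 / x)) := by
      linarith [Real.cos_le_one (α.im * Real.log (1 + 1 / x))]
    have h3 : x * (1 + x) * (1 + x) ^ (-(2 * α.re)) ≤ (1 + x) ^ (1 - α.re) * x ^ (1 - α.re) := by
      have e1 : (1 + x) ^ (1 - α.re) * x ^ (1 - α.re) =
          x * (1 + x) * ((1 + x) ^ (-α.re) * x ^ (-α.re)) := by
        rw [sub_eq_add_neg, Real.rpow_add hx1, Real.rpow_add hx, Real.rpow_one, Real.rpow_one]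
        ring
      have e2 : (1 + x) ^ (-(2 * α.re)) = (1 + x) ^ (-α.re) * (1 + x) ^ (-α.re) := by
        rw [← Real.rpow_add hx1]
        congr 1
        ring
      rw [e1, e2]
      have h4 : (1 + x) ^ (-α.re) ≤ x ^ (-α.re) :=
        Real.rpow_le_rpow_of_nonpos hx (by linarith) (by linarith)
      have h5 : 0 ≤ (1 + x) ^ (-α.re) := Real.rpow_nonneg hx1.le _
      gcongr
    calc 2 * (x * (1 + x)) * (1 - Real.cos (α.im * Real.log (1 + 1 / x))) *
          (1 + x) ^ (-(2 * α.re))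
        = 2 * (x * (1 + x) * (1 + x) ^ (-(2 * α.re))) *
          (1 - Real.cos (α.im * Real.log (1 + 1 / x))) := by ring
      _ ≤ _ := by gcongr

end Pool.Agent.H64.CX
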