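import Pool.Agent.H64.CX.U

set_option autoImplicit false

namespace Pool.Agent.H64.CX

open Finset Filter Topology

/-- CX-RASY -/
theorem rasy : S_RASY := by
  intro α hα h0
  have hs : ∀ j : ℕ, α ≠ -(j : ℂ) := by
    intro j h
    rcases Nat.eq_zero_or_pos j with hj | hj
    · subst hj
      simp at h
      exact hα h
    · have := congrArg Complex.re h
      simp at this
      have hj' : (1 : ℝ) ≤ j := by exact_mod_cast hj
      linarith
  rw [← tendsto_add_atTop_iff_nat 1]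
  have hg := Complex.GammaSeq_tendsto_Gamma α
  have hquot : Tendsto (fun n : ℕ => (((n : ℂ) / ((n : ℂ) + 1)) ^ (-α))) atTop (𝓝 1) := by
    have h1 : Tendsto (fun n : ℕ => (n : ℂ) / ((n : ℂ) + 1)) atTop (𝓝 1) :=
      tendsto_natCast_div_add_atTop (𝕜 := ℂ) 1
    have h2 : Tendsto (fun _ : ℕ => -α) atTop (𝓝 (-α)) := tendsto_const_nhds
    have := h1.cpow h2 (by simp)
    rwa [Complex.one_cpow] at this
  have h2 := hquot.mul hg
  rw [one_mul] at h2
  refine h2.congr' ?_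
  filter_upwards [eventually_ge_atTop 1] with n hn
  have hn0 : (n : ℂ) ≠ 0 := by
    have : n ≠ 0 := by omega
    exact_mod_cast this
  have hn1 : (n : ℂ) + 1 ≠ 0 := by exact_mod_cast Nat.succ_ne_zero n
  have key := bt_gammaSeq α hs n
  have hpow0 : (n : ℂ) ^ α ≠ 0 := by
    rw [Complex.cpow_ne_zero_iff]
    exact Or.inl hn0
  have hb0 : bt α (n + 1) ≠ 0 := by
    intro h
    rw [h, zero_mul] at key
    exact hpow0 key.symm
  have hg0 : Complex.GammaSeq α n ≠ 0 := by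
    intro h
    rw [h, mul_zero, mul_zero] at key
    exact hpow0 key.symm
  have hpow1 : ((n : ℂ) + 1) ^ α ≠ 0 := by
    rw [Complex.cpow_ne_zero_iff]
    exact Or.inl hn1
  have hdiv : ((n : ℂ) / ((n : ℂ) + 1)) ^ (-α) = ((n : ℂ) + 1) ^ α / (n : ℂ) ^ α := by
    have h3 : (n : ℂ) = (((n : ℂ) / ((n : ℂ) + 1))) * ((n : ℂ) + 1) := by field_simp
    have h4 : (n : ℂ) ^ α = ((n : ℂ) / ((n : ℂ) + 1)) ^ α * ((n : ℂ) + 1) ^ α := by
      have h5 : ((n : ℂ) / ((n : ℂ) + 1)) = (((n : ℝ) / ((n : ℝ) + 1) : ℝ) : ℂ) := by push_cast; rfl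
      have h6 : ((n : ℂ) + 1) = (((n : ℝ) + 1 : ℝ) : ℂ) := by push_cast; rfl
      conv_lhs => rw [h3]
      rw [h5, h6]
      exact Complex.mul_cpow_ofReal_nonneg (by positivity) (by positivity) α
    rw [Complex.cpow_neg, eq_div_iff hpow0, h4]
    have h7 : ((n : ℂ) / ((n : ℂ) + 1)) ^ α ≠ 0 := by
      rw [Complex.cpow_ne_zero_iff]
      exact Or.inl (div_ne_zero hn0 hn1)
    field_simp
  rw [hdiv]
  unfold rr
  have hpow : (((n + 1 : ℕ) : ℂ)) ^ (1 - α) = ((n : ℂ) + 1) / ((n : ℂ) + 1) ^ α := by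
    push_cast
    rw [Complex.cpow_sub _ _ hn1, Complex.cpow_one]
  rw [hpow, ← key]
  field_simp

end Pool.Agent.H64.CX
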