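import Pool.Agent.H64.CX.RASY

set_option autoImplicit false

namespace Pool.Agent.H64.CX

open Finset Filter Topology

/-- CX-RLOW -/
theorem rlow : S_RLOW := by
  intro α hα h0 h1 h2
  have hs : ∀ j : ℕ, α ≠ -(j : ℂ) := by
    intro j h
    rcases Nat.eq_zero_or_pos j with hj | hj
    · subst hj
      simp at h
      exact hα h
    · have := congrArg Complex.re h
      simp at this
      have hj' : (1 : ℝ) ≤ j := by exact_mod_cast hj
      linarith
  have hsum : ∀ j : ℕ, α + (j : ℂ) ≠ 0 := fun j h => hs j (eq_neg_of_add_eq_zero_left h)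
  have hG : Complex.Gamma α ≠ 0 := Complex.Gamma_ne_zero hs
  have hbt : ∀ j : ℕ, bt α j ≠ 0 := by
    intro j
    unfold bt
    rw [Finset.prod_ne_zero_iff]
    intro i _
    exact div_ne_zero (hsum i) (by exact_mod_cast Nat.succ_ne_zero i)
  have hrr : ∀ j : ℕ, rr α j ≠ 0 := fun j => inv_ne_zero (hbt j)
  set θ := α.re with hθ
  -- lower bound of the coefficients
  obtain ⟨B, hB⟩ : ∃ B : ℝ, ∀ j : ℕ, ‖(j : ℂ) ^ (1 - α) / rr α j‖ ≤ B := by
    have ht : Tendsto (fun j : ℕ => ‖(j : ℂ) ^ (1 - α) / rr α j‖) atTop (𝓝 ‖(Complex.Gamma α)⁻¹‖) := by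
      have := ((rasy α hα h0).inv₀ hG).norm
      refine this.congr ?_
      intro j
      rw [inv_div]
    obtain ⟨B, hB⟩ := ht.bddAbove_range
    exact ⟨B, fun j => hB ⟨j, rfl⟩⟩
  have hBpos : 0 < B := by
    have := hB 1
    have h3 : 0 < ‖((1 : ℕ) : ℂ) ^ (1 - α) / rr α 1‖ := by
      rw [norm_pos_iff]
      apply div_ne_zero _ (hrr 1)
      simp
    linarith
  have hlow : ∀ j : ℕ, 1 ≤ j → (j : ℝ) ^ (1 - θ) / B ≤ ‖rr α j‖ := by
    intro j hj
    have h3 := hB j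
    rw [norm_div, Complex.norm_natCast_cpow_of_pos (by omega), div_le_iff₀ (norm_pos_iff.mpr (hrr j))] at h3
    have e : (1 - α).re = 1 - θ := by simp [hθ]
    rw [e] at h3
    rw [div_le_iff₀ hBpos]
    linarith
  refine ⟨3 / 8 / (2 * B), by positivity, ?_⟩
  intro m k hm hk
  have hk' : (1 : ℝ) ≤ k := by exact_mod_cast hk
  -- the increments
  have hinc : ∀ j : ℕ, 1 ≤ j → 3 / 8 / (2 * B) * (j : ℝ) ^ (-θ) ≤ ‖rr α (j + 1)‖ - ‖rr α j‖ := by
    intro j hj
    have hj' : (1 : ℝ) ≤ j := by exact_mod_cast hj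
    have hj0 : (0 : ℝ) < j := by linarith
    have hstep : rr α (j + 1) = rr α j * (((j : ℂ) + 1) / (α + (j : ℂ))) := by
      unfold rr
      rw [bt_succ, mul_inv, inv_div]
    have e1 : ‖(j : ℂ) + 1‖ = (j : ℝ) + 1 := by
      have : (j : ℂ) + 1 = (((j : ℝ) + 1 : ℝ) : ℂ) := by push_cast; ring
      rw [this, Complex.norm_real, Real.norm_of_nonneg (by positivity)]
    have hnpos : 0 < ‖α + (j : ℂ)‖ := norm_pos_iff.mpr (hsum j)
    have e2 : ‖α + (j : ℂ)‖ ≤ (j : ℝ) + 5 / 8 := by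
      have h3 : ‖α + (j : ℂ)‖ ^ 2 = (θ + j) ^ 2 + α.im ^ 2 := by
        rw [Complex.sq_norm, Complex.normSq_apply]
        simp [hθ]
        ring
      have h4 : α.im ^ 2 ≤ 1 / 4 := by
        have : |α.im| ^ 2 ≤ (1 / 2) ^ 2 := by gcongr
        rw [sq_abs] at this
        linarith
      refine (sq_le_sq₀ (norm_nonneg _) (by positivity)).mp ?_
      rw [h3]
      nlinarith
    rw [hstep, norm_mul, norm_div, e1]
    have hr := hlow j hj
    have h5 : ‖rr α j‖ * (((j : ℝ) + 1) / ‖α + (j : ℂ)‖) - ‖rr α j‖ =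
        ‖rr α j‖ * (((j : ℝ) + 1 - ‖α + (j : ℂ)‖) / ‖α + (j : ℂ)‖) := by
      field_simp
    rw [h5]
    have h6 : (3 / 8) / (2 * (j : ℝ)) ≤ ((j : ℝ) + 1 - ‖α + (j : ℂ)‖) / ‖α + (j : ℂ)‖ := by
      rw [div_le_div_iff₀ (by positivity) hnpos]
      nlinarith
    have h7 : (j : ℝ) ^ (1 - θ) / B * ((3 / 8) / (2 * (j : ℝ))) = 3 / 8 / (2 * B) * (j : ℝ) ^ (-θ) := by
      rw [show (1 - θ) = 1 + (-θ) by ring, Real.rpow_add hj0, Real.rpow_one]
      field_simp
    rw [← h7]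
    exact mul_le_mul hr h6 (by positivity) (norm_nonneg _)
  -- summation
  have hsumm : ∀ m : ℕ, 3 / 8 / (2 * B) * (m : ℝ) * ((m : ℝ) + k) ^ (-θ) ≤ ‖rr α (m + k)‖ - ‖rr α k‖ := by
    intro m
    have htel : ‖rr α (m + k)‖ - ‖rr α k‖ = ∑ i ∈ Finset.range m, (‖rr α (i + k + 1)‖ - ‖rr α (i + k)‖) := by
      have := Finset.sum_range_sub (fun i => ‖rr α (i + k)‖) m
      rw [zero_add] at this
      rw [← this]
      apply Finset.sum_congr rfl
      intro i _
      congr 3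
      ring
    rw [htel]
    have h8 : ∀ i ∈ Finset.range m, 3 / 8 / (2 * B) * ((m : ℝ) + k) ^ (-θ) ≤
        ‖rr α (i + k + 1)‖ - ‖rr α (i + k)‖ := by
      intro i hi
      have hi' := Finset.mem_range.mp hi
      refine le_trans ?_ (hinc (i + k) (by omega))
      apply mul_le_mul_of_nonneg_left _ (by positivity)
      apply Real.rpow_le_rpow_of_nonpos (by positivity) _ (by linarith)
      push_cast
      have : (i : ℝ) ≤ m := by exact_mod_cast hi'.le
      linarith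
    calc 3 / 8 / (2 * B) * (m : ℝ) * ((m : ℝ) + k) ^ (-θ)
        = ∑ i ∈ Finset.range m, 3 / 8 / (2 * B) * ((m : ℝ) + k) ^ (-θ) := by
          rw [Finset.sum_const, Finset.card_range, nsmul_eq_mul]
          ring
      _ ≤ _ := Finset.sum_le_sum h8
  refine (hsumm m).trans ?_
  exact (norm_sub_norm_le _ _)

end Pool.Agent.H64.CX
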