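import Pool.Agent.H64.CX.Stm

set_option autoImplicit false

/-! # CX-RS (helper63) -/

namespace Pool.Agent.H64.CX

open Metric Set Filter Topology MeasureTheory

theorem rs_step (c : ℕ → ℝ) (hc : Summable c) (hc0 : ∀ k, 0 ≤ c k) :
    ∫ x in Ioi (0 : ℝ), c ⌊x⌋₊ = ∑' k, c k := by
  have hfl : ∀ (k : ℕ) (x : ℝ), x ∈ Ico (k : ℝ) (k + 1) → ⌊x⌋₊ = k := fun k x hx =>
    (Nat.floor_eq_iff ((Nat.cast_nonneg k).trans hx.1)).2 hx
  have hU : ⋃ k : ℕ, Ico (k : ℝ) (k + 1) = Ici 0 := by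
    ext x
    simp only [mem_iUnion, mem_Ico, mem_Ici]
    constructor
    · rintro ⟨k, h1, _⟩
      exact (Nat.cast_nonneg k).trans h1
    · intro hx
      exact ⟨⌊x⌋₊, Nat.floor_le hx, Nat.lt_floor_add_one x⟩
  have hI : ∀ k : ℕ, IntegrableOn (fun x : ℝ => c ⌊x⌋₊) (Ico (k : ℝ) (k + 1)) := fun k =>
    (integrableOn_const (C := c k) (by simp)).congr_fun
      (fun x hx => by simp only [hfl k x hx]) measurableSet_Ico
  have hint : ∀ k : ℕ, ∫ x in Ico (k : ℝ) (k + 1), c ⌊x⌋₊ = c k := by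
    intro k
    rw [setIntegral_congr_fun measurableSet_Ico (g := fun _ => c k)
      (fun x hx => by simp only [hfl k x hx])]
    simp
  have hnint : ∀ k : ℕ, ∫ x in Ico (k : ℝ) (k + 1), ‖c ⌊x⌋₊‖ = c k := by
    intro k
    rw [← hint k]
    refine setIntegral_congr_fun measurableSet_Ico fun x _ => ?_
    exact Real.norm_of_nonneg (hc0 _)
  have hIU : IntegrableOn (fun x : ℝ => c ⌊x⌋₊) (⋃ k : ℕ, Ico (k : ℝ) (k + 1)) := by
    refine integrableOn_iUnion_of_summable_integral_norm hI ?_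
    simp only [hnint]
    exact hc
  have hdis : Pairwise (Function.onFun Disjoint fun k : ℕ => Ico (k : ℝ) (k + 1)) := by
    intro i j hij
    refine Set.disjoint_left.2 fun x h1 h2 => hij ?_
    rw [← hfl i x h1, ← hfl j x h2]
  have h := hasSum_integral_iUnion (fun k => measurableSet_Ico) hdis hIU
  simp only [hint, hU] at h
  rw [← integral_Ici_eq_integral_Ioi]
  exact h.tsum_eq.symm

theorem rs : S_RS := by
  intro b F C σ hσ hb0 hb hlim
  have hsum : ∀ m : ℕ, 1 ≤ m → Summable fun k : ℕ => b m (k + 1) := by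
    intro m hm
    have hm0 : (0 : ℝ) < m := by exact_mod_cast hm
    have hC : 0 ≤ C := by
      have h1 := hb 1 1 le_rfl le_rfl
      have h2 := hb0 1 1
      by_contra hneg
      push Not at hneg
      have h3 : (0 : ℝ) < (((1 : ℕ) : ℝ) / (((1 : ℕ) : ℝ) + ((1 : ℕ) : ℝ))) ^ (1 + σ) :=
        Real.rpow_pos_of_pos (by norm_num) _
      have h4 := mul_neg_of_neg_of_pos hneg h3
      have h5 : 0 ≤ ((1 : ℕ) : ℝ) * b 1 1 := mul_nonneg (by norm_num) h2
      linarith
    have hs : Summable (fun k : ℕ => ((k + 1 : ℕ) : ℝ) ^ (-(1 + σ))) :=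
      (summable_nat_add_iff 1).2 (Real.summable_nat_rpow.2 (by linarith))
    refine Summable.of_nonneg_of_le (fun k => hb0 _ _) (fun k => ?_)
      (hs.mul_left (C * (m : ℝ) ^ (1 + σ) / m))
    have h1 := hb m (k + 1) hm (by omega)
    have hk0 : (0 : ℝ) < ((k + 1 : ℕ) : ℝ) := by positivity
    have h2 : ((m : ℝ) / (m + ((k + 1 : ℕ) : ℝ))) ^ (1 + σ) ≤
        (m : ℝ) ^ (1 + σ) * ((k + 1 : ℕ) : ℝ) ^ (-(1 + σ)) := by
      rw [Real.rpow_neg hk0.le, ← div_eq_mul_inv, ← Real.div_rpow hm0.le hk0.le]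
      refine Real.rpow_le_rpow (by positivity) ?_ (by linarith)
      exact div_le_div_of_nonneg_left hm0.le hk0 (by linarith)
    have h3 := h1.trans (mul_le_mul_of_nonneg_left h2 hC)
    rw [← le_div_iff₀' hm0] at h3
    refine h3.trans (le_of_eq ?_)
    ring
  refine ⟨hsum, ?_⟩
  have hint : ∀ m : ℕ, 1 ≤ m → ∑' k : ℕ, b m (k + 1) =
      ∫ x in Ioi (0 : ℝ), (m : ℝ) * b m (⌊(m : ℝ) * x⌋₊ + 1) := by
    intro m hm
    have hm0 : (0 : ℝ) < m := by exact_mod_cast hm
    have h1 := integral_comp_mul_left_Ioi (fun x : ℝ => (m : ℝ) * b m (⌊x⌋₊ + 1)) 0 hm0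
    rw [h1, mul_zero, integral_const_mul, rs_step (fun k => b m (k + 1)) (hsum m hm)
      (fun k => hb0 _ _), smul_eq_mul]
    field_simp
  have hmain : Tendsto (fun m : ℕ => ∫ x in Ioi (0 : ℝ), (m : ℝ) * b m (⌊(m : ℝ) * x⌋₊ + 1))
      atTop (𝓝 (∫ x in Ioi (0 : ℝ), F x)) := by
    refine tendsto_integral_filter_of_dominated_convergence
      (fun x : ℝ => C * (x + 1) ^ (-(1 + σ))) ?_ ?_ ?_ ?_
    · filter_upwards with m
      refine Measurable.aestronglyMeasurable ?_
      have h1 : Measurable (fun x : ℝ => ⌊(m : ℝ) * x⌋₊) :=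
        Nat.measurable_floor.comp (measurable_const.mul measurable_id)
      exact measurable_const.mul ((measurable_from_nat (f := fun k => b m (k + 1))).comp h1)
    · filter_upwards [eventually_ge_atTop 1] with m hm
      rw [ae_restrict_iff' measurableSet_Ioi]
      refine Filter.Eventually.of_forall fun x hx => ?_
      have hx0 : (0 : ℝ) < x := hx
      have hm0 : (0 : ℝ) < m := by exact_mod_cast hm
      rw [Real.norm_of_nonneg (mul_nonneg hm0.le (hb0 _ _))]
      have h1 := hb m (⌊(m : ℝ) * x⌋₊ + 1) hm (by omega)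
      refine h1.trans ?_
      have hC : 0 ≤ C := by
        have h2 := hb0 m (⌊(m : ℝ) * x⌋₊ + 1)
        by_contra hneg
        push Not at hneg
        have h3 : (0 : ℝ) < ((m : ℝ) / ((m : ℝ) + ((⌊(m : ℝ) * x⌋₊ + 1 : ℕ) : ℝ))) ^ (1 + σ) :=
          Real.rpow_pos_of_pos (by positivity) _
        have h4 := mul_neg_of_neg_of_pos hneg h3
        have h5 : 0 ≤ (m : ℝ) * b m (⌊(m : ℝ) * x⌋₊ + 1) := mul_nonneg hm0.le h2
        linarith
      refine mul_le_mul_of_nonneg_left ?_ hC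
      rw [Real.rpow_neg (by linarith), ← Real.inv_rpow (by linarith)]
      refine Real.rpow_le_rpow (by positivity) ?_ (by linarith)
      have h6 : (m : ℝ) * x ≤ ((⌊(m : ℝ) * x⌋₊ + 1 : ℕ) : ℝ) := by
        push_cast
        exact (Nat.lt_floor_add_one _).le
      rw [inv_eq_one_div, div_le_div_iff₀ (by positivity) (by linarith)]
      nlinarith
    · have h1 : IntegrableOn (fun x : ℝ => (x + 1) ^ (-(1 + σ))) (Ioi 0) :=
        integrableOn_add_rpow_Ioi_of_lt (by linarith) (by norm_num)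
      exact h1.const_mul C
    · rw [ae_restrict_iff' measurableSet_Ioi]
      exact Filter.Eventually.of_forall fun x hx => hlim x hx
  refine hmain.congr' ?_
  filter_upwards [eventually_ge_atTop 1] with m hm
  exact (hint m hm).symm

end Pool.Agent.H64.CX
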