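import Pool.Agent.H64.CX.Stm

set_option autoImplicit false

/-! # CX-SER (helper63) -/

namespace Pool.Agent.H64.CX

open Metric Set Filter Topology MeasureTheory

theorem ser_bt (α : ℂ) (h0 : 0 ≤ α.re) (h1 : α.re ≤ 1) : ∃ B : ℝ, 0 ≤ B ∧ ∀ j, ‖bt α j‖ ≤ B := by
  have hs : Summable (fun n : ℕ => α.im ^ 2 / ((n : ℝ) + 1) ^ 2) := by
    have h2 : Summable (fun n : ℕ => 1 / ((n + 1 : ℕ) : ℝ) ^ 2) :=
      (summable_nat_add_iff 1).2 (Real.summable_one_div_nat_pow.2 (by norm_num))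
    refine (h2.mul_left (α.im ^ 2)).congr fun n => ?_
    push_cast
    ring
  refine ⟨Real.exp (∑' n : ℕ, α.im ^ 2 / ((n : ℝ) + 1) ^ 2), (Real.exp_pos _).le, fun j => ?_⟩
  unfold bt
  rw [norm_prod]
  have h2 : ∀ i ∈ Finset.range j, ‖(α + (i : ℂ)) / ((i : ℂ) + 1)‖ ≤
      Real.exp (α.im ^ 2 / ((i : ℝ) + 1) ^ 2) := by
    intro i _
    have hi : (0 : ℝ) < (i : ℝ) + 1 := by positivity
    have h3 : ‖(i : ℂ) + 1‖ = (i : ℝ) + 1 := by
      have : ((i : ℂ) + 1) = (((i : ℝ) + 1 : ℝ) : ℂ) := by push_cast; rfl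
      rw [this, Complex.norm_real, Real.norm_of_nonneg hi.le]
    have h4 : ‖α + (i : ℂ)‖ ^ 2 = (α.re + i) ^ 2 + α.im ^ 2 := by
      rw [Complex.sq_norm, Complex.normSq_apply]
      simp
      ring
    rw [norm_div, h3]
    refine le_of_sq_le_sq ?_ (Real.exp_pos _).le
    rw [div_pow, h4]
    have h5 : ((α.re + i) ^ 2 + α.im ^ 2) / ((i : ℝ) + 1) ^ 2 ≤ α.im ^ 2 / ((i : ℝ) + 1) ^ 2 + 1 := by
      rw [div_add_one (by positivity)]
      apply div_le_div_of_nonneg_right _ (by positivity)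
      have : (α.re + i) ^ 2 ≤ ((i : ℝ) + 1) ^ 2 := by
        apply pow_le_pow_left₀ (by positivity)
        linarith
      linarith
    refine h5.trans ((Real.add_one_le_exp _).trans ?_)
    have h6 : 1 ≤ Real.exp (α.im ^ 2 / ((i : ℝ) + 1) ^ 2) := Real.one_le_exp (by positivity)
    nlinarith
  refine (Finset.prod_le_prod (fun i _ => norm_nonneg _) h2).trans ?_
  rw [← Real.exp_sum]
  exact Real.exp_le_exp.2 (hs.sum_le_tsum _ fun i _ => by positivity)

theorem ser : S_SER := by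
  intro α ν K h0 h1 hK
  obtain ⟨B, hB0, hB⟩ := ser_bt α h0 h1
  set κ : ℕ → ℂ → ℂ := fun b ζ => ∑' a, ν a b * ζ ^ a with hκ
  set g : ℂ → ℕ → ℕ × ℕ → ℂ :=
    fun ζ n p => ν p.1 (n + p.2) * bt α p.2 * ζ ^ (p.1 + p.2) with hg
  set h : ℂ → ℕ → ℕ × ℕ → ℂ :=
    fun ζ k p => ν p.1 p.2 * bt α (p.2 + k) * ζ ^ (p.1 + p.2 + k) with hh
  refine ⟨fun n ζ => ∑' p, g ζ n p, fun k ζ => ∑' p, h ζ k p, κ, fun ζ hζB => ?_⟩
  have hζ := hζB
  rw [mem_ball_zero_iff] at hζ
  obtain ⟨s, hs1, hs2⟩ := exists_between hζ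
  have hs0 : 0 < s := (norm_nonneg ζ).trans_lt hs1
  have hsB : ((s : ℝ) : ℂ) ∈ ball (0 : ℂ) 1 := by
    rw [mem_ball_zero_iff, Complex.norm_real, Real.norm_of_nonneg hs0.le]; exact hs2
  have hsum0 : Summable (fun p : ℕ × ℕ => ‖ν p.1 p.2‖ * ‖ζ‖ ^ p.1 * s ^ p.2) := by
    have := (hK ζ hζB _ hsB).summable.norm
    refine this.congr fun p => ?_
    rw [norm_mul, norm_mul, norm_pow, norm_pow, Complex.norm_real, Real.norm_of_nonneg hs0.le]
  have hgs : ∀ n, Summable (g ζ n) := by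
    intro n
    have h1 : Summable (fun p : ℕ × ℕ => ‖ν p.1 (n + p.2)‖ * ‖ζ‖ ^ p.1 * s ^ (n + p.2)) := by
      have hinj : Function.Injective (fun p : ℕ × ℕ => (p.1, n + p.2)) := by
        rintro ⟨a, b⟩ ⟨a', b'⟩ h
        simp only [Prod.mk.injEq] at h ⊢
        exact ⟨h.1, by omega⟩
      have := Summable.comp_injective (f := fun p : ℕ × ℕ => ‖ν p.1 p.2‖ * ‖ζ‖ ^ p.1 * s ^ p.2) hsum0 hinj
      exact this
    refine Summable.of_norm_bounded (h1.mul_left (B * (s ^ n)⁻¹)) fun p => ?_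
    simp only [hg, norm_mul, norm_pow]
    have h2 : ‖ζ‖ ^ p.2 ≤ s ^ p.2 := pow_le_pow_left₀ (norm_nonneg _) hs1.le _
    have h3 : B * (s ^ n)⁻¹ * (‖ν p.1 (n + p.2)‖ * ‖ζ‖ ^ p.1 * s ^ (n + p.2)) =
        ‖ν p.1 (n + p.2)‖ * B * (‖ζ‖ ^ p.1 * s ^ p.2) := by
      rw [pow_add]; field_simp
    rw [h3, pow_add]
    have h4 := hB p.2
    gcongr
  have hhs : ∀ k, Summable (h ζ k) := by
    intro k
    refine Summable.of_norm_bounded (hsum0.mul_left B) fun p => ?_
    simp only [hh, norm_mul, norm_pow]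
    have h2 : ‖ζ‖ ^ p.2 ≤ s ^ p.2 := pow_le_pow_left₀ (norm_nonneg _) hs1.le _
    have h4 := hB (p.2 + k)
    have h5 : ‖ζ‖ ^ k ≤ 1 := pow_le_one₀ (norm_nonneg _) hζ.le
    calc ‖ν p.1 p.2‖ * ‖bt α (p.2 + k)‖ * ‖ζ‖ ^ (p.1 + p.2 + k)
        ≤ ‖ν p.1 p.2‖ * B * (‖ζ‖ ^ p.1 * s ^ p.2 * 1) := by
          rw [pow_add, pow_add]
          gcongr
      _ = B * (‖ν p.1 p.2‖ * ‖ζ‖ ^ p.1 * s ^ p.2) := by ring
  refine ⟨?_, ?_, ?_, ?_, ?_⟩
  · intro z hz
    have h1 := (Equiv.prodComm ℕ ℕ).hasSum_iff.mpr (hK ζ hζB z hz)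
    have h2 : ∀ b, Summable (fun a => ν a b * ζ ^ a * z ^ b) := by
      intro b
      have hinj : Function.Injective (fun a : ℕ => (a, b)) := fun a a' h => by
        simpa using h
      have := Summable.comp_injective (f := fun p : ℕ × ℕ => ν p.1 p.2 * ζ ^ p.1 * z ^ p.2)
        (hK ζ hζB z hz).summable hinj
      exact this
    have h3 := h1.prod_fiberwise (fun b => (h2 b).hasSum)
    convert h3 using 1
    funext b
    exact tsum_mul_right.symm
  · intro n
    have h1 := (Equiv.prodComm ℕ ℕ).hasSum_iff.mpr (hgs n).hasSum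
    have h2 : ∀ j, Summable (fun a => g ζ n (a, j)) := by
      intro j
      have hinj : Function.Injective (fun a : ℕ => (a, j)) := fun a a' h => by
        simpa using h
      exact (hgs n).comp_injective hinj
    have h3 := h1.prod_fiberwise (fun b => (h2 b).hasSum)
    convert h3 using 1
    funext j
    rw [hκ]
    simp only [hg]
    rw [← tsum_mul_right, ← tsum_mul_right]
    refine tsum_congr fun a => ?_
    rw [pow_add]
    ring
  · intro k
    have h1 := (Equiv.prodComm ℕ ℕ).hasSum_iff.mpr (hhs k).hasSum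
    have h2 : ∀ j, Summable (fun a => h ζ k (a, j)) := by
      intro j
      have hinj : Function.Injective (fun a : ℕ => (a, j)) := fun a a' h => by
        simpa using h
      exact (hhs k).comp_injective hinj
    have h3 := h1.prod_fiberwise (fun b => (h2 b).hasSum)
    convert h3 using 1
    funext j
    rw [hκ]
    simp only [hh]
    rw [← tsum_mul_right, ← tsum_mul_right]
    refine tsum_congr fun a => ?_
    rw [pow_add, pow_add, pow_add]
    ring
  · intro n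
    have h1 := (Finset.HasAntidiagonal.sigmaAntidiagonalEquivProd (A := ℕ)).hasSum_iff.mpr (hgs n).hasSum
    have h2 := h1.sigma (fun j => hasSum_fintype _)
    convert h2 using 1
    funext j
    have e0 : ∑ x : (Finset.HasAntidiagonal.antidiagonal j : Finset (ℕ × ℕ)), g ζ n x =
        ∑ p ∈ Finset.HasAntidiagonal.antidiagonal j, g ζ n p :=
      Finset.sum_coe_sort (Finset.HasAntidiagonal.antidiagonal j) (fun p : ℕ × ℕ => g ζ n p)
    refine Eq.trans ?_ e0.symm
    rw [TP, Finset.sum_mul, Finset.sum_Ico_eq_sum_range, ← Finset.Nat.sum_antidiagonal_swap,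
      Finset.Nat.sum_antidiagonal_eq_sum_range_succ_mk]
    have e1 : n + j + 1 - n = j + 1 := by omega
    rw [e1]
    refine Finset.sum_congr rfl fun i hi => ?_
    rw [Finset.mem_range] at hi
    simp only [hg, Prod.swap_prod_mk]
    rw [show n + j - (n + i) = j - i by omega, show j - i + i = j by omega,
      show n + i - n = i by omega]
  · intro k
    have h1 := (Finset.HasAntidiagonal.sigmaAntidiagonalEquivProd (A := ℕ)).hasSum_iff.mpr (hhs k).hasSum
    have h2 := h1.sigma (fun j => hasSum_fintype _)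
    convert h2 using 1
    funext j
    have e0 : ∑ x : (Finset.HasAntidiagonal.antidiagonal j : Finset (ℕ × ℕ)), h ζ k x =
        ∑ p ∈ Finset.HasAntidiagonal.antidiagonal j, h ζ k p :=
      Finset.sum_coe_sort (Finset.HasAntidiagonal.antidiagonal j) (fun p : ℕ × ℕ => h ζ k p)
    refine Eq.trans ?_ e0.symm
    rw [TN, Finset.sum_mul, ← Finset.Nat.sum_antidiagonal_swap,
      Finset.Nat.sum_antidiagonal_eq_sum_range_succ_mk]
    refine Finset.sum_congr rfl fun i hi => ?_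
    rw [Finset.mem_range] at hi
    simp only [hh, Prod.swap_prod_mk]
    rw [show j - i + i = j by omega]

end Pool.Agent.H64.CX
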