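import Pool.Agent.H64.CX.StmB

set_option autoImplicit false

/-! # CX-SINQ: the bound of the sine (helper94) -/

namespace Pool.Agent.H64.CX

namespace SINQ

lemma cexp12 (x : ℂ) (hx : ‖x‖ ≤ 6) :
    ‖Complex.exp x - ∑ m ∈ Finset.range 12, x ^ m / (m.factorial : ℂ)‖ ≤ ‖x‖ ^ 12 / 239500800 := by
  have h := Complex.exp_bound' (x := x) (n := 12) (by
    rw [div_le_div_iff₀ (by positivity) (by norm_num)]
    push_cast
    linarith)
  refine h.trans (le_of_eq ?_)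
  have : ((12 : ℕ).factorial : ℝ) = 479001600 := by norm_num [Nat.factorial]
  rw [this]
  ring

lemma exp12 (u : ℝ) (hu : |u| ≤ 6) :
    |Real.exp u - ∑ m ∈ Finset.range 12, u ^ m / (m.factorial : ℝ)| ≤ u ^ 12 / 239500800 := by
  have h := cexp12 (u : ℂ) (by rw [Complex.norm_real, Real.norm_eq_abs]; exact hu)
  have e : (Complex.exp (u : ℂ) - ∑ m ∈ Finset.range 12, (u : ℂ) ^ m / (m.factorial : ℂ)) =
      ((Real.exp u - ∑ m ∈ Finset.range 12, u ^ m / (m.factorial : ℝ) : ℝ) : ℂ) := by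
    push_cast
    rfl
  rw [e, Complex.norm_real, Real.norm_eq_abs, Complex.norm_real, Real.norm_eq_abs] at h
  have e2 : |u| ^ 12 = u ^ 12 := by
    rw [← abs_pow]
    exact abs_of_nonneg (by positivity)
  rwa [e2] at h

lemma cosh_le (u : ℝ) (hu : |u| ≤ 6) :
    Real.cosh u ≤ 1 + u ^ 2 / 2 + u ^ 4 / 24 + u ^ 6 / 720 + u ^ 8 / 40320 + u ^ 10 / 3628800 +
      u ^ 12 / 239500800 := by
  have h1 := (abs_le.1 (exp12 u hu)).2
  have h2 := (abs_le.1 (exp12 (-u) (by rwa [abs_neg]))).2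
  simp only [Finset.sum_range_succ, Finset.sum_range_zero] at h1 h2
  norm_num [Nat.factorial] at h1 h2
  rw [Real.cosh_eq]
  have e : ∀ (x : ℝ), (-x) ^ 12 = x ^ 12 := fun x => by ring
  nlinarith [h1, h2]

lemma cos_ge (v : ℝ) (hv : |v| ≤ 6) :
    1 - v ^ 2 / 2 + v ^ 4 / 24 - v ^ 6 / 720 + v ^ 8 / 40320 - v ^ 10 / 3628800 -
      v ^ 12 / 239500800 ≤ Real.cos v := by
  have hn : ‖(v : ℂ) * Complex.I‖ = |v| := by
    rw [norm_mul, Complex.norm_I, mul_one, Complex.norm_real, Real.norm_eq_abs]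
  have h := cexp12 ((v : ℂ) * Complex.I) (by rw [hn]; exact hv)
  have hI2 : Complex.I ^ 2 = -1 := Complex.I_sq
  have hI3 : Complex.I ^ 3 = -Complex.I := by rw [pow_succ, hI2]; ring
  have hI4 : Complex.I ^ 4 = 1 := by rw [pow_succ, hI3]; simp
  have e : ∑ m ∈ Finset.range 12, ((v : ℂ) * Complex.I) ^ m / (m.factorial : ℂ) =
      ((1 - v ^ 2 / 2 + v ^ 4 / 24 - v ^ 6 / 720 + v ^ 8 / 40320 - v ^ 10 / 3628800 : ℝ) : ℂ) +
      ((v - v ^ 3 / 6 + v ^ 5 / 120 - v ^ 7 / 5040 + v ^ 9 / 362880 - v ^ 11 / 39916800 : ℝ) : ℂ) *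
        Complex.I := by
    simp only [Finset.sum_range_succ, Finset.sum_range_zero, mul_pow]
    have h5 : Complex.I ^ 5 = Complex.I := by rw [pow_succ, hI4, one_mul]
    have h6 : Complex.I ^ 6 = -1 := by rw [pow_succ, h5, ← pow_two, hI2]
    have h7 : Complex.I ^ 7 = -Complex.I := by rw [pow_succ, h6]; ring
    have h8 : Complex.I ^ 8 = 1 := by rw [pow_succ, h7]; simp
    have h9 : Complex.I ^ 9 = Complex.I := by rw [pow_succ, h8, one_mul]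
    have h10 : Complex.I ^ 10 = -1 := by rw [pow_succ, h9, ← pow_two, hI2]
    have h11 : Complex.I ^ 11 = -Complex.I := by rw [pow_succ, h10]; ring
    rw [hI2, hI3, hI4, h5, h6, h7, h8, h9, h10, h11]
    norm_num [Nat.factorial]
    ring
  rw [e, hn] at h
  have h2 := (Complex.abs_re_le_norm _).trans h
  rw [Complex.sub_re, Complex.exp_ofReal_mul_I_re] at h2
  simp only [Complex.add_re, Complex.ofReal_re, Complex.mul_re, Complex.I_re, mul_zero,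
    Complex.ofReal_im, Complex.I_im, zero_mul, sub_zero, add_zero] at h2
  have e2 : |v| ^ 12 = v ^ 12 := by
    rw [← abs_pow]
    exact abs_of_nonneg (by positivity)
  rw [e2] at h2
  have h3 := (abs_le.1 h2).1
  linarith

lemma nsin (z w : ℝ) : ‖Complex.sin ((z : ℂ) + w * Complex.I)‖ ^ 2 =
    (Real.cosh (2 * w) - Real.cos (2 * z)) / 2 := by
  rw [Complex.sin_add, Complex.sin_mul_I, Complex.cos_mul_I]
  have e : Complex.sin z * Complex.cosh w + Complex.cos z * (Complex.sinh w * Complex.I) =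
      ((Real.sin z * Real.cosh w : ℝ) : ℂ) + ((Real.cos z * Real.sinh w : ℝ) : ℂ) * Complex.I := by
    push_cast
    ring
  rw [e, ← Complex.normSq_eq_norm_sq, Complex.normSq_add_mul_I, Real.cosh_two_mul, Real.cos_two_mul]
  have h1 := Real.cosh_sq w
  have h2 := Real.sin_sq_add_cos_sq z
  have h3 : Real.sin z ^ 2 = 1 - Real.cos z ^ 2 := by linarith
  rw [mul_pow, mul_pow, h3, h1]
  ring

lemma tail (U Z : ℝ) (hU0 : 0 ≤ U) (hZ0 : 0 ≤ Z) (hUZ : U + Z ≤ 1.388) :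
    U ^ 6 + Z ^ 6 ≤ (U + Z) * 5.2 := by
  have t1 : U ^ 6 + Z ^ 6 ≤ (U + Z) * (U ^ 5 + Z ^ 5) := by
    have h5 : 0 ≤ U * Z ^ 5 + Z * U ^ 5 := by positivity
    have h6 : (U + Z) * (U ^ 5 + Z ^ 5) = U ^ 6 + Z ^ 6 + (U * Z ^ 5 + Z * U ^ 5) := by ring
    linarith
  have t2 : U ^ 5 + Z ^ 5 ≤ (U + Z) ^ 5 := by
    have h5 : 0 ≤ 5 * U ^ 4 * Z + 10 * U ^ 3 * Z ^ 2 + 10 * U ^ 2 * Z ^ 3 + 5 * U * Z ^ 4 := by positivity
    have h6 : (U + Z) ^ 5 = U ^ 5 + Z ^ 5 +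
      (5 * U ^ 4 * Z + 10 * U ^ 3 * Z ^ 2 + 10 * U ^ 2 * Z ^ 3 + 5 * U * Z ^ 4) := by ring
    linarith
  have t3 : (U + Z) ^ 5 ≤ 5.2 := (pow_le_pow_left₀ (by positivity) hUZ 5).trans (by norm_num)
  exact t1.trans (mul_le_mul_of_nonneg_left (t2.trans t3) (by positivity))

/-- the polynomial part -/
lemma poly (P a b : ℝ) (hP1 : 9.8696 < P) (hP2 : P < 9.86961) (ha0 : 0 ≤ a) (hb0 : 0 ≤ b) :
    1 + (P * a - P * b) / 3 + 2 / 45 * ((P * a) ^ 2 - (P * a) * (P * b) + (P * b) ^ 2) +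
      1 / 315 * ((P * a - P * b) * ((P * a) ^ 2 + (P * b) ^ 2)) +
      2 / 14175 * ((P * a) ^ 4 - (P * a) ^ 3 * (P * b) + (P * a) ^ 2 * (P * b) ^ 2 -
        (P * a) * (P * b) ^ 3 + (P * b) ^ 4) + 1 / 10000 ≤ QQ a b := by
  have hP0 : 0 < P := by linarith
  have P2a : 97.4089 < P ^ 2 := lt_of_lt_of_le (by norm_num : (97.4089 : ℝ) < 9.8696 ^ 2)
    (pow_le_pow_left₀ (by norm_num) hP1.le 2)
  have P2b : P ^ 2 < 97.4093 := lt_of_le_of_lt (pow_le_pow_left₀ hP0.le hP2.le 2) (by norm_num)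
  have P3a : 961.38 < P ^ 3 := lt_of_lt_of_le (by norm_num : (961.38 : ℝ) < 9.8696 ^ 3)
    (pow_le_pow_left₀ (by norm_num) hP1.le 3)
  have P3b : P ^ 3 < 961.4 := lt_of_le_of_lt (pow_le_pow_left₀ hP0.le hP2.le 3) (by norm_num)
  have P4a : 9488 < P ^ 4 := lt_of_lt_of_le (by norm_num : (9488 : ℝ) < 9.8696 ^ 4)
    (pow_le_pow_left₀ (by norm_num) hP1.le 4)
  have P4b : P ^ 4 < 9489 := lt_of_le_of_lt (pow_le_pow_left₀ hP0.le hP2.le 4) (by norm_num)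
  have m1 : P / 3 * a ≤ 329 / 100 * a := mul_le_mul_of_nonneg_right (by linarith) ha0
  have m2 : 3289 / 1000 * b ≤ P / 3 * b := mul_le_mul_of_nonneg_right (by linarith) hb0
  have m3 : 2 / 45 * P ^ 2 * a ^ 2 ≤ 433 / 100 * a ^ 2 :=
    mul_le_mul_of_nonneg_right (by linarith) (by positivity)
  have m4 : 4329 / 1000 * (a * b) ≤ 2 / 45 * P ^ 2 * (a * b) :=
    mul_le_mul_of_nonneg_right (by linarith) (by positivity)
  have m5 : 2 / 45 * P ^ 2 * b ^ 2 ≤ 433 / 100 * b ^ 2 :=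
    mul_le_mul_of_nonneg_right (by linarith) (by positivity)
  have m6 : 1 / 315 * P ^ 3 * (a ^ 3 + a * b ^ 2) ≤ 3053 / 1000 * (a ^ 3 + a * b ^ 2) :=
    mul_le_mul_of_nonneg_right (by linarith) (by positivity)
  have m7 : 3052 / 1000 * (a ^ 2 * b + b ^ 3) ≤ 1 / 315 * P ^ 3 * (a ^ 2 * b + b ^ 3) :=
    mul_le_mul_of_nonneg_right (by linarith) (by positivity)
  have m8 : 2 / 14175 * P ^ 4 * (a ^ 4 + a ^ 2 * b ^ 2 + b ^ 4) ≤
      134 / 100 * (a ^ 4 + a ^ 2 * b ^ 2 + b ^ 4) :=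
    mul_le_mul_of_nonneg_right (by linarith) (by positivity)
  have m9 : 1338 / 1000 * (a ^ 3 * b + a * b ^ 3) ≤ 2 / 14175 * P ^ 4 * (a ^ 3 * b + a * b ^ 3) :=
    mul_le_mul_of_nonneg_right (by linarith) (by positivity)
  unfold QQ
  have e : 1 + (P * a - P * b) / 3 + 2 / 45 * ((P * a) ^ 2 - (P * a) * (P * b) + (P * b) ^ 2) +
      1 / 315 * ((P * a - P * b) * ((P * a) ^ 2 + (P * b) ^ 2)) +
      2 / 14175 * ((P * a) ^ 4 - (P * a) ^ 3 * (P * b) + (P * a) ^ 2 * (P * b) ^ 2 -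
        (P * a) * (P * b) ^ 3 + (P * b) ^ 4) + 1 / 10000 =
      1 + P / 3 * a - P / 3 * b + (2 / 45 * P ^ 2 * a ^ 2 - 2 / 45 * P ^ 2 * (a * b) +
        2 / 45 * P ^ 2 * b ^ 2) + (1 / 315 * P ^ 3 * (a ^ 3 + a * b ^ 2) -
        1 / 315 * P ^ 3 * (a ^ 2 * b + b ^ 3)) + (2 / 14175 * P ^ 4 * (a ^ 4 + a ^ 2 * b ^ 2 + b ^ 4) -
        2 / 14175 * P ^ 4 * (a ^ 3 * b + a * b ^ 3)) + 1 / 10000 := by ring
  rw [e]
  linarith

end SINQ

open Pool.Agent.H64.CX.SINQ in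
theorem sinq : S_SINQ := by
  intro α hre hn
  obtain ⟨P, hP⟩ : ∃ P, P = Real.pi ^ 2 := ⟨_, rfl⟩
  have hpi1 := Real.pi_gt_d6
  have hpi2 := Real.pi_lt_d6
  have hP1 : 9.8696 < P := by rw [hP]; nlinarith
  have hP2 : P < 9.86961 := by rw [hP]; nlinarith
  obtain ⟨a, ha⟩ : ∃ a, a = α.im ^ 2 := ⟨_, rfl⟩
  obtain ⟨b, hb⟩ : ∃ b, b = α.re ^ 2 := ⟨_, rfl⟩
  have ha0 : 0 ≤ a := by rw [ha]; positivity
  have hb0 : 0 ≤ b := by rw [hb]; positivity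
  have hab : ‖α‖ ^ 2 = a + b := by
    rw [← Complex.normSq_eq_norm_sq, Complex.normSq_apply, ha, hb]; ring
  have hab1 : a + b ≤ 9 / 64 := by rw [← hab]; nlinarith [norm_nonneg α]
  have him : |α.im| ≤ 3 / 8 := (Complex.abs_im_le_norm α).trans hn
  have hre' : |α.re| ≤ 3 / 8 := (Complex.abs_re_le_norm α).trans hn
  have e0 : (Real.pi * α : ℂ) = ((Real.pi * α.re : ℝ) : ℂ) + ((Real.pi * α.im : ℝ) : ℂ) * Complex.I := by
    conv_lhs => rw [← Complex.re_add_im α]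
    push_cast
    ring
  rw [e0, nsin, hab, ← ha, ← hb, ← hP]
  have hw : |2 * (Real.pi * α.im)| ≤ 6 := by
    rw [abs_mul, abs_mul, abs_of_pos Real.pi_pos, abs_of_pos (by norm_num : (0 : ℝ) < 2)]
    nlinarith [abs_nonneg α.im]
  have hz : |2 * (Real.pi * α.re)| ≤ 6 := by
    rw [abs_mul, abs_mul, abs_of_pos Real.pi_pos, abs_of_pos (by norm_num : (0 : ℝ) < 2)]
    nlinarith [abs_nonneg α.re]
  have h1 := cosh_le _ hw
  have h2 := cos_ge _ hz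
  have q1 : ∀ n : ℕ, (2 * (Real.pi * α.im)) ^ (2 * n) = 4 ^ n * (P * a) ^ n := fun n => by
    rw [pow_mul, ← mul_pow]
    congr 1
    rw [hP, ha]; ring
  have q2 : ∀ n : ℕ, (2 * (Real.pi * α.re)) ^ (2 * n) = 4 ^ n * (P * b) ^ n := fun n => by
    rw [pow_mul, ← mul_pow]
    congr 1
    rw [hP, hb]; ring
  have c1 := q1 1; have c2 := q1 2; have c3 := q1 3; have c4 := q1 4; have c5 := q1 5; have c6 := q1 6
  have d1 := q2 1; have d2 := q2 2; have d3 := q2 3; have d4 := q2 4; have d5 := q2 5; have d6 := q2 6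
  norm_num at c1 c2 c3 c4 c5 c6 d1 d2 d3 d4 d5 d6
  rw [c1, c2, c3, c4, c5, c6] at h1
  rw [d1, d2, d3, d4, d5, d6] at h2
  obtain ⟨U, hU⟩ : ∃ U, U = P * a := ⟨_, rfl⟩
  obtain ⟨Z, hZ⟩ : ∃ Z, Z = P * b := ⟨_, rfl⟩
  rw [← hU] at h1
  rw [← hZ] at h2
  have hP0 : 0 < P := by linarith
  have hU0 : 0 ≤ U := by rw [hU]; positivity
  have hZ0 : 0 ≤ Z := by rw [hZ]; positivity
  have hUZ : U + Z ≤ 1.388 := by
    rw [hU, hZ, ← mul_add]
    nlinarith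
  have t4 := tail U Z hU0 hZ0 hUZ
  -- the polynomial
  have k1 := poly P a b hP1 hP2 ha0 hb0
  rw [← hU, ← hZ] at k1
  have k2 := mul_le_mul_of_nonneg_left k1 (by positivity : 0 ≤ U + Z)
  have e3 : P * (a + b) = U + Z := by rw [hU, hZ]; ring
  rw [e3]
  refine le_trans ?_ k2
  have e4 : (U + Z) * (1 + (U - Z) / 3 + 2 / 45 * (U ^ 2 - U * Z + Z ^ 2) +
      1 / 315 * ((U - Z) * (U ^ 2 + Z ^ 2)) +
      2 / 14175 * (U ^ 4 - U ^ 3 * Z + U ^ 2 * Z ^ 2 - U * Z ^ 3 + Z ^ 4) + 1 / 10000) =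
      U + Z + (U ^ 2 - Z ^ 2) / 3 + 2 / 45 * (U ^ 3 + Z ^ 3) + 1 / 315 * (U ^ 4 - Z ^ 4) +
      2 / 14175 * (U ^ 5 + Z ^ 5) + (U + Z) / 10000 := by ring
  rw [e4]
  linarith [h1, h2, t4]

end Pool.Agent.H64.CX
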