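import Pool.Agent.H64.CX.Stm

set_option autoImplicit false

namespace Pool.Agent.H64.CX

open Finset

private lemma sq_sum (k : ℕ) (hk : 1 ≤ k) (m : ℕ) :
    ∑ n ∈ Finset.range (m + 1), (1 / ((n : ℝ) + k)) ^ 2 ≤ 1 / (k : ℝ) ^ 2 + 1 / k - 1 / ((m : ℝ) + k) := by
  have hk' : (1 : ℝ) ≤ k := by exact_mod_cast hk
  have hk0 : (0 : ℝ) < k := by linarith
  induction m with
  | zero => simp
  | succ m ih =>
    rw [Finset.sum_range_succ]
    have hm : (0 : ℝ) ≤ m := Nat.cast_nonneg m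
    have h1 : (0 : ℝ) < (m : ℝ) + k := by linarith
    have h2 : (0 : ℝ) < (m : ℝ) + 1 + k := by linarith
    have h3 : (1 / (((m + 1 : ℕ) : ℝ) + k)) ^ 2 ≤ 1 / ((m : ℝ) + k) - 1 / (((m + 1 : ℕ) : ℝ) + k) := by
      push_cast
      rw [div_sub_div _ _ h1.ne' h2.ne', div_pow, one_pow, div_le_div_iff₀ (by positivity) (by positivity)]
      nlinarith
    linarith

private lemma har_sum (k : ℕ) (hk : 1 ≤ k) (m : ℕ) :
    ∑ n ∈ Finset.range (m + 1), (1 / ((n : ℝ) + k)) ≤ 1 / (k : ℝ) + Real.log (((m : ℝ) + k) / k) := by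
  have hk' : (1 : ℝ) ≤ k := by exact_mod_cast hk
  have hk0 : (0 : ℝ) < k := by linarith
  induction m with
  | zero => simp [div_self hk0.ne']
  | succ m ih =>
    rw [Finset.sum_range_succ]
    have hm : (0 : ℝ) ≤ m := Nat.cast_nonneg m
    have h1 : (0 : ℝ) < (m : ℝ) + k := by linarith
    have h2 : (0 : ℝ) < (m : ℝ) + 1 + k := by linarith
    have h3 : 1 / (((m + 1 : ℕ) : ℝ) + k) ≤ Real.log ((((m + 1 : ℕ) : ℝ) + k) / k) - Real.log (((m : ℝ) + k) / k) := by
      push_cast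
      rw [← Real.log_div (by positivity) (by positivity)]
      have h4 : ((m : ℝ) + 1 + k) / k / (((m : ℝ) + k) / k) = ((m : ℝ) + 1 + k) / ((m : ℝ) + k) := by
        field_simp
      rw [h4]
      have h5 := Real.one_sub_inv_le_log_of_pos (x := ((m : ℝ) + 1 + k) / ((m : ℝ) + k)) (by positivity)
      have h6 : 1 - (((m : ℝ) + 1 + k) / ((m : ℝ) + k))⁻¹ = 1 / ((m : ℝ) + 1 + k) := by
        rw [inv_div]
        field_simp
        ring
      rw [h6] at h5
      exact h5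
    linarith

private lemma refl_sum (m k : ℕ) (f : ℝ → ℝ) :
    ∑ n ∈ Finset.range (m + 1), f ((m : ℝ) + k - n) = ∑ n ∈ Finset.range (m + 1), f ((n : ℝ) + k) := by
  rw [← Finset.sum_range_reflect (fun n : ℕ => f ((n : ℝ) + k)) (m + 1)]
  apply Finset.sum_congr rfl
  intro n hn
  have hn' : n ≤ m := by
    have := Finset.mem_range.mp hn
    omega
  have : ((m + 1 - 1 - n : ℕ) : ℝ) = (m : ℝ) - n := by
    have : m + 1 - 1 - n = m - n := by omega
    rw [this, Nat.cast_sub hn']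
  simp only [this]
  congr 1
  ring

/-- CX-SUMK -/
theorem sumk : S_SUMK := by
  intro m k hm hk
  have hk' : (1 : ℝ) ≤ k := by exact_mod_cast hk
  have hk0 : (0 : ℝ) < k := by linarith
  have hm' : (1 : ℝ) ≤ m := by exact_mod_cast hm
  have hA := sq_sum k hk m
  have hH := har_sum k hk m
  set A := ∑ n ∈ Finset.range (m + 1), (1 / ((n : ℝ) + k)) ^ 2 with hAdef
  set H := ∑ n ∈ Finset.range (m + 1), (1 / ((n : ℝ) + k)) with hHdef
  set L := Real.log (((m : ℝ) + k) / k) with hL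
  have hmk : (0 : ℝ) < (m : ℝ) + k := by linarith
  have hm2k : (0 : ℝ) < (m : ℝ) + 2 * k := by linarith
  have hsum : ∑ n ∈ Finset.range (m + 1), kn m k n = 2 * A + 4 / ((m : ℝ) + 2 * k) * H := by
    have h1 : ∀ n ∈ Finset.range (m + 1), kn m k n =
        (1 / ((n : ℝ) + k)) ^ 2 + (1 / ((m : ℝ) + k - n)) ^ 2 +
          2 / ((m : ℝ) + 2 * k) * (1 / ((n : ℝ) + k)) + 2 / ((m : ℝ) + 2 * k) * (1 / ((m : ℝ) + k - n)) := by
      intro n hn
      have hn' : n ≤ m := by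
        have := Finset.mem_range.mp hn
        omega
      have hn'' : (n : ℝ) ≤ m := by exact_mod_cast hn'
      have hn0 : (0 : ℝ) ≤ n := Nat.cast_nonneg n
      have e1 : (0 : ℝ) < (n : ℝ) + k := by linarith
      have e2 : (0 : ℝ) < (m : ℝ) + k - n := by linarith
      unfold kn
      have e3 : 1 / ((n : ℝ) + k) * (1 / ((m : ℝ) + k - n)) =
          1 / ((m : ℝ) + 2 * k) * (1 / ((n : ℝ) + k)) + 1 / ((m : ℝ) + 2 * k) * (1 / ((m : ℝ) + k - n)) := by
        field_simp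
        ring
      have e4 : (1 / ((n : ℝ) + k) + 1 / ((m : ℝ) + k - n)) ^ 2 =
        (1 / ((n : ℝ) + k)) ^ 2 + (1 / ((m : ℝ) + k - n)) ^ 2 +
          2 * (1 / ((n : ℝ) + k) * (1 / ((m : ℝ) + k - n))) := by ring
      rw [e4, e3]
      ring
    rw [Finset.sum_congr rfl h1, Finset.sum_add_distrib, Finset.sum_add_distrib, Finset.sum_add_distrib,
      ← Finset.mul_sum, ← Finset.mul_sum]
    have h2 := refl_sum m k (fun x => (1 / x) ^ 2)
    have h3 := refl_sum m k (fun x => 1 / x)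
    beta_reduce at h2 h3
    rw [h2, h3]
    ring
  rw [hsum]
  unfold gg
  rw [← hL]
  have hA2 : (k : ℝ) * (2 * A) ≤ 2 / k + 2 * m / (m + k) := by
    have : (k : ℝ) * (2 * A) ≤ k * (2 * (1 / (k : ℝ) ^ 2 + 1 / k - 1 / ((m : ℝ) + k))) := by
      apply mul_le_mul_of_nonneg_left _ hk0.le
      linarith
    refine this.trans (le_of_eq ?_)
    field_simp
    ring
  have hH2 : (k : ℝ) * (4 / ((m : ℝ) + 2 * k) * H) ≤ 4 / ((m : ℝ) + 2 * k) + 4 * k / (m + 2 * k) * L := by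
    have h0 : 0 ≤ (k : ℝ) * (4 / ((m : ℝ) + 2 * k)) := by positivity
    have : (k : ℝ) * (4 / ((m : ℝ) + 2 * k) * H) ≤ (k : ℝ) * (4 / ((m : ℝ) + 2 * k)) * (1 / (k : ℝ) + L) := by
      rw [← mul_assoc]
      exact mul_le_mul_of_nonneg_left hH h0
    refine this.trans (le_of_eq ?_)
    field_simp
  have hlast : 4 / ((m : ℝ) + 2 * k) ≤ 2 / k := by
    rw [div_le_div_iff₀ hm2k hk0]
    nlinarith
  have e : 4 / (k : ℝ) = 2 / k + 2 / k := by ring
  rw [mul_add, e]
  linarith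

end Pool.Agent.H64.CX
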