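import Pool.Agent.H64.CX.Stm

set_option autoImplicit false

namespace Pool.Agent.H64.CX

open Finset Filter Topology

/-- `bt s (n+1)` in terms of the Gamma sequence -/
lemma bt_gammaSeq (s : ℂ) (hs : ∀ j : ℕ, s ≠ -(j : ℂ)) (n : ℕ) :
    bt s (n + 1) * (((n : ℂ) + 1) * Complex.GammaSeq s n) = (n : ℂ) ^ s := by
  have hprod : ∏ j ∈ Finset.range (n + 1), (s + (j : ℂ)) ≠ 0 := by
    rw [Finset.prod_ne_zero_iff]
    intro j _ h
    exact hs j (eq_neg_of_add_eq_zero_left h)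
  have hfac : ∏ i ∈ Finset.range (n + 1), ((i : ℂ) + 1) = ((n + 1).factorial : ℂ) := by
    have := Finset.prod_range_add_one_eq_factorial (n + 1)
    rw [← this]
    push_cast
    rfl
  have hf0 : ((n.factorial : ℕ) : ℂ) ≠ 0 := by exact_mod_cast Nat.factorial_ne_zero n
  have hn1 : (n : ℂ) + 1 ≠ 0 := by exact_mod_cast Nat.succ_ne_zero n
  unfold bt Complex.GammaSeq
  rw [Finset.prod_div_distrib, hfac, Nat.factorial_succ]
  push_cast
  field_simp

lemma bt_succ (s : ℂ) (n : ℕ) : bt s (n + 1) = bt s n * ((s + (n : ℂ)) / ((n : ℂ) + 1)) := by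
  unfold bt
  rw [Finset.prod_range_succ]

/-- CX-U -/
theorem ub : S_U := by
  intro α h0 h1 n hn
  have hs : ∀ j : ℕ, (1 - α) ≠ -(j : ℂ) := by
    intro j h
    have := congrArg Complex.re h
    simp at this
    have hj : (0 : ℝ) ≤ j := Nat.cast_nonneg j
    linarith
  have hG : Complex.Gamma (1 - α) ≠ 0 := Complex.Gamma_ne_zero hs
  have hG' : 0 < ‖Complex.Gamma (1 - α)‖ := norm_pos_iff.mpr hG
  set θ := α.re with hθ
  -- the sequence
  set c : ℕ → ℝ := fun n => ‖bt (1 - α) (n + 1)‖ * ((n : ℝ) + 1) ^ θ with hc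
  have hmono : Monotone c := by
    apply monotone_nat_of_le_succ
    intro n
    simp only [hc]
    rw [bt_succ (1 - α) (n + 1), norm_mul, norm_div]
    push_cast
    have hn0 : (0 : ℝ) ≤ n := Nat.cast_nonneg n
    have e1 : ‖(n : ℂ) + 1 + 1‖ = (n : ℝ) + 2 := by
      have : (n : ℂ) + 1 + 1 = (((n : ℝ) + 2 : ℝ) : ℂ) := by push_cast; ring
      rw [this, Complex.norm_real, Real.norm_of_nonneg (by positivity)]
    have e2 : (n : ℝ) + 2 - θ ≤ ‖1 - α + ((n : ℂ) + 1)‖ := by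
      have := Complex.abs_re_le_norm (1 - α + ((n : ℂ) + 1))
      have h3 : (1 - α + ((n : ℂ) + 1)).re = (n : ℝ) + 2 - θ := by simp; ring
      rw [h3] at this
      exact (le_abs_self _).trans this
    have h4 : ((n : ℝ) + 1) ^ θ ≤ ‖1 - α + ((n : ℂ) + 1)‖ / ((n : ℝ) + 2) * ((n : ℝ) + 1 + 1) ^ θ := by
      have hb := rpow_one_add_le_one_add_mul_self (s := -(1 / ((n : ℝ) + 2)))
        (by
          rw [neg_le_neg_iff, div_le_one (by positivity)]
          linarith) (p := θ) h0 h1.le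
      have h5 : (1 : ℝ) + -(1 / ((n : ℝ) + 2)) = ((n : ℝ) + 1) / ((n : ℝ) + 2) := by
        field_simp
        ring
      rw [h5, Real.div_rpow (by positivity) (by positivity), div_le_iff₀ (by positivity)] at hb
      have h6 : (n : ℝ) + 1 + 1 = n + 2 := by ring
      rw [h6]
      refine hb.trans ?_
      apply mul_le_mul_of_nonneg_right _ (by positivity)
      rw [le_div_iff₀ (by positivity)]
      refine le_trans (le_of_eq ?_) e2
      field_simp
      ring
    calc ‖bt (1 - α) (n + 1)‖ * ((n : ℝ) + 1) ^ θ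
        ≤ ‖bt (1 - α) (n + 1)‖ * (‖1 - α + ((n : ℂ) + 1)‖ / ((n : ℝ) + 2) * ((n : ℝ) + 1 + 1) ^ θ) :=
          mul_le_mul_of_nonneg_left h4 (norm_nonneg _)
      _ = _ := by rw [e1]; ring
  have hlim : Tendsto c atTop (𝓝 (1 / ‖Complex.Gamma (1 - α)‖)) := by
    have hg := (Complex.GammaSeq_tendsto_Gamma (1 - α)).norm
    have hquot : Tendsto (fun n : ℕ => ((n : ℝ) / ((n : ℝ) + 1)) ^ (1 - θ)) atTop (𝓝 1) := by
      have := (tendsto_natCast_div_add_atTop (𝕜 := ℝ) 1).rpow_const (p := 1 - θ) (Or.inl one_ne_zero)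
      rwa [Real.one_rpow] at this
    have h2 := hquot.div hg hG'.ne'
    refine h2.congr' ?_
    filter_upwards [eventually_ge_atTop 1] with n hn
    have hn' : (1 : ℝ) ≤ n := by exact_mod_cast hn
    have hn0 : (0 : ℝ) < n := by linarith
    have key := congrArg norm (bt_gammaSeq (1 - α) hs n)
    rw [norm_mul, norm_mul, Complex.norm_natCast_cpow_of_pos (by omega)] at key
    have e1 : ‖(n : ℂ) + 1‖ = (n : ℝ) + 1 := by
      have : (n : ℂ) + 1 = (((n : ℝ) + 1 : ℝ) : ℂ) := by push_cast; ring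
      rw [this, Complex.norm_real, Real.norm_of_nonneg (by positivity)]
    have e2 : (1 - α).re = 1 - θ := by simp [hθ]
    rw [e1, e2] at key
    have hgne : ‖Complex.GammaSeq (1 - α) n‖ ≠ 0 := by
      intro h0'
      rw [h0', mul_zero, mul_zero] at key
      have : 0 < (n : ℝ) ^ (1 - θ) := by positivity
      linarith
    simp only [hc, Pi.div_apply]
    rw [div_eq_iff hgne, Real.div_rpow hn0.le (by positivity), ← key, Real.rpow_sub (by positivity), Real.rpow_one]
    have : (0 : ℝ) < ((n : ℝ) + 1) ^ θ := by positivity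
    field_simp
  obtain ⟨n', rfl⟩ : ∃ n', n = n' + 1 := ⟨n - 1, by omega⟩
  have hle := hmono.ge_of_tendsto hlim n'
  simp only [hc] at hle
  have hp : (0 : ℝ) < (n' : ℝ) + 1 := by positivity
  have hpp : (0 : ℝ) < ((n' : ℝ) + 1) ^ θ := by positivity
  have h3 : ‖bt (1 - α) (n' + 1)‖ ≤ 1 / ‖Complex.Gamma (1 - α)‖ / ((n' : ℝ) + 1) ^ θ := by
    rw [le_div_iff₀ hpp]
    exact hle
  calc ‖bt (1 - α) (n' + 1)‖ ^ 2 ≤ (1 / ‖Complex.Gamma (1 - α)‖ / ((n' : ℝ) + 1) ^ θ) ^ 2 := by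
        gcongr
    _ = _ := by
        push_cast
        rw [Real.rpow_neg hp.le, mul_comm 2 θ, Real.rpow_mul hp.le, Real.rpow_two]
        field_simp

end Pool.Agent.H64.CX
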