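import Pool.Agent.H64.CX.Asm1
import Pool.Agent.H64.CX.Asm2
import Pool.Agent.H64.CX.AREA
import Pool.Agent.H64.CX.AVG
import Pool.Agent.H64.CX.BETA2
import Pool.Agent.H64.CX.BTU
import Pool.Agent.H64.CX.CAU
import Pool.Agent.H64.CX.CHEB
import Pool.Agent.H64.CX.CORE
import Pool.Agent.H64.CX.CRH
import Pool.Agent.H64.CX.EE
import Pool.Agent.H64.CX.FB
import Pool.Agent.H64.CX.HID
import Pool.Agent.H64.CX.HBN
import Pool.Agent.H64.CX.CS
import Pool.Agent.H64.CX.IDX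
import Pool.Agent.H64.CX.LAP
import Pool.Agent.H64.CX.LDOM
import Pool.Agent.H64.CX.LOWN
import Pool.Agent.H64.CX.LPT
import Pool.Agent.H64.CX.NUMP
import Pool.Agent.H64.CX.PW
import Pool.Agent.H64.CX.PWH
import Pool.Agent.H64.CX.PWI
import Pool.Agent.H64.CX.PWN
import Pool.Agent.H64.CX.RASY
import Pool.Agent.H64.CX.RLOW
import Pool.Agent.H64.CX.RS
import Pool.Agent.H64.CX.SER
import Pool.Agent.H64.CX.SINQ
import Pool.Agent.H64.CX.SUMK
import Pool.Agent.H64.CX.SUMMN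
import Pool.Agent.H64.CX.U
import Pool.Agent.H64.BR.DPS
import Pool.Agent.H64.BR.MEAN

set_option autoImplicit false

/-! # The bound for exponents with `Re α ≥ 0` -/

namespace Pool.Agent.H64.CX

open Metric Set Filter Topology MeasureTheory
open scoped ENNReal
open Pool.Agent.W677.Mar Pool.Agent.W5h41.MA

/-- **The bound for one exponent from the criterion, `Re α ≥ 0`.** -/
theorem bd_pos {α : ℂ} {σ : ℝ} (hα : α ≠ 0) (h0 : 0 ≤ α.re) (h1 : α.re ≤ 3 / 8)
    (hy : |α.im| ≤ 1 / 2) (hσ : 0 < σ) (h2 : σ + 4 * α.re ≤ 2) (hc : Crit α σ) : Bd α σ := by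
  have hn : ‖α‖ ≤ 1 := by
    have h3 := Complex.norm_le_abs_re_add_abs_im α
    rw [abs_of_nonneg h0] at h3
    linarith
  obtain ⟨c, hc0, hcl⟩ := rlow α hα h0 (by linarith) hy
  refine bd_of Pool.Agent.H64.BR.dps Pool.Agent.H64.BR.mean ser hid btu hbn lown summn cau core fb
    idx hn (by linarith) (by linarith) hσ (by linarith) (by linarith)
    (aw_pos btu area ser avg lap h0 (by linarith) (by linarith)) (SK α (σ + 2 * α.re)) ?_
    (sm_pos ub cheb sumk eeb rs rasy rlow ldom lpt pwn pwh pw pwi hα h0 h1 hy hσ h2 hc)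
  intro ν hν m k hm hk
  apply cst idt α ν _ hν hα h0 m k hm hk
  intro h
  have h3 := hcl m k hm hk
  rw [h, sub_self, norm_zero] at h3
  have h4 : 0 < c * m * ((m : ℝ) + k) ^ (-α.re) := by
    have : (0 : ℝ) < m := by exact_mod_cast hm
    positivity
  linarith

/-- **The bound in the half disc `Re α ≥ 0`, `|α| ≤ 3 / 8`.** -/
theorem bd_right {α : ℂ} (hα : α ≠ 0) (h0 : 0 ≤ α.re) (h1 : ‖α‖ ≤ 3 / 8) :
    Bd α (20 / 9 * ‖α‖ ^ 2) := by
  have hre := Complex.re_le_norm α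
  have him := Complex.abs_im_le_norm α
  have hpos : 0 < ‖α‖ := norm_pos_iff.2 hα
  have hsq : ‖α‖ ^ 2 ≤ (3 / 8) ^ 2 := pow_le_pow_left₀ hpos.le h1 2
  exact bd_pos hα h0 (by linarith) (by linarith) (by positivity) (by linarith)
    (crh beta2 sinq nump α hα h0 h1)

end Pool.Agent.H64.CX
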