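import Pool.Agent.H64.CX.StmF

/-! # CX-CSN: the Cauchy-Schwarz inequality with the exact kernel -/

set_option autoImplicit false

namespace Pool.Agent.H64.CX

open Finset

theorem csn : S_CSN := by
  intro hID a ν μ hν ha0 hre m k hm hk hne
  have h1 := hID a ν hν ha0 hre m k hk
  have hkR : (1 : ℝ) ≤ k := by exact_mod_cast hk
  have hD : 0 < ‖rr a (m + k) - rr a k‖ := norm_pos_iff.2 (sub_ne_zero.2 hne)
  -- norm bound
  have h2 : ‖TN a ν k m‖ * ‖rr a (m + k) - rr a k‖ ≤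
      ∑ n ∈ Icc 1 m, (n : ℝ) * ‖bt (1 - a) n‖ * ‖TP a ν n m‖ *
        ‖1 / ((n : ℂ) + k) + 1 / ((m : ℂ) + k - n + a)‖ := by
    rw [← norm_mul, h1]
    refine (norm_sum_le _ _).trans (Finset.sum_le_sum fun n hn => ?_)
    rw [norm_mul, norm_mul, norm_mul, Complex.norm_natCast]
  have h3 : (∑ n ∈ Icc 1 m, (n : ℝ) * ‖bt (1 - a) n‖ * ‖TP a ν n m‖ *
        ‖1 / ((n : ℂ) + k) + 1 / ((m : ℂ) + k - n + a)‖) ^ 2 ≤
      (∑ n ∈ Icc 1 m, (n : ℝ) * ‖bt (1 - a) n‖ ^ 2 * ((m : ℝ) - n + 1) ^ μ *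
      ‖1 / ((n : ℂ) + k) + 1 / ((m : ℂ) + k - n + a)‖ ^ 2) * PP a ν μ m := by
    unfold PP
    apply Finset.sum_sq_le_sum_mul_sum_of_sq_eq_mul
    · intro n hn
      rw [Finset.mem_Icc] at hn
      have hn2 : (n : ℝ) ≤ m := by exact_mod_cast hn.2
      have : 0 ≤ ((m : ℝ) - n + 1) ^ μ := Real.rpow_nonneg (by linarith) _
      positivity
    · intro n hn
      rw [Finset.mem_Icc] at hn
      have hn2 : (n : ℝ) ≤ m := by exact_mod_cast hn.2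
      have : 0 ≤ ((m : ℝ) - n + 1) ^ (-μ) := Real.rpow_nonneg (by linarith) _
      positivity
    · intro n hn
      rw [Finset.mem_Icc] at hn
      have hn2 : (n : ℝ) ≤ m := by exact_mod_cast hn.2
      have h4 : ((m : ℝ) - n + 1) ^ μ * ((m : ℝ) - n + 1) ^ (-μ) = 1 := by
        rw [← Real.rpow_add (by linarith), add_neg_cancel, Real.rpow_zero]
      calc ((n : ℝ) * ‖bt (1 - a) n‖ * ‖TP a ν n m‖ *
            ‖1 / ((n : ℂ) + k) + 1 / ((m : ℂ) + k - n + a)‖) ^ 2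
          = (n : ℝ) ^ 2 * ‖bt (1 - a) n‖ ^ 2 * ‖TP a ν n m‖ ^ 2 *
            ‖1 / ((n : ℂ) + k) + 1 / ((m : ℂ) + k - n + a)‖ ^ 2 *
            (((m : ℝ) - n + 1) ^ μ * ((m : ℝ) - n + 1) ^ (-μ)) := by rw [h4]; ring
        _ = _ := by ring
  have hA : 0 ≤ ∑ n ∈ Icc 1 m, (n : ℝ) * ‖bt (1 - a) n‖ * ‖TP a ν n m‖ *
        ‖1 / ((n : ℂ) + k) + 1 / ((m : ℂ) + k - n + a)‖ :=
    le_trans (by positivity) h2
  have h5 : (‖TN a ν k m‖ * ‖rr a (m + k) - rr a k‖) ^ 2 ≤ _ :=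
    (pow_le_pow_left₀ (by positivity) h2 2).trans h3
  have h6 : ‖TN a ν k m‖ ^ 2 ≤ (∑ n ∈ Icc 1 m, (n : ℝ) * ‖bt (1 - a) n‖ ^ 2 *
      ((m : ℝ) - n + 1) ^ μ * ‖1 / ((n : ℂ) + k) + 1 / ((m : ℂ) + k - n + a)‖ ^ 2) * PP a ν μ m /
        ‖rr a (m + k) - rr a k‖ ^ 2 := by
    rw [le_div_iff₀ (by positivity), ← mul_pow]
    exact h5
  unfold SN
  have h7 : 0 ≤ (k : ℝ) * ((m : ℝ) + k + 1) ^ (-μ) := by positivity
  refine (mul_le_mul_of_nonneg_left h6 h7).trans (le_of_eq ?_)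
  ring

end Pool.Agent.H64.CX
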