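import Pool.Agent.H64.CX.Stm

/-! # CX-ID: the identity for the coefficients of negative index -/

set_option autoImplicit false

namespace Pool.Agent.H64.CX

open Finset

theorem bt_zero' (s : ℂ) : bt s 0 = 1 := by simp [bt]

theorem bt_succ' (s : ℂ) (n : ℕ) : bt s (n + 1) = bt s n * ((s + n) / ((n : ℂ) + 1)) := by
  unfold bt
  rw [Finset.prod_range_succ]

theorem bt_shift' (s : ℂ) (n : ℕ) : bt s (n + 1) = s / ((n : ℂ) + 1) * bt (s + 1) n := by
  induction n with
  | zero => simp [bt]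
  | succ n ih =>
    rw [bt_succ' s (n + 1), ih, bt_succ' (s + 1) n]
    have h1 : (n : ℂ) + 1 ≠ 0 := by exact_mod_cast Nat.succ_ne_zero n
    have h2 : (n : ℂ) + 1 + 1 ≠ 0 := by exact_mod_cast Nat.succ_ne_zero (n + 1)
    push_cast
    field_simp
    ring

theorem bt_ne_zero' (s : ℂ) (hs : ∀ j : ℕ, s ≠ -(j : ℂ)) (n : ℕ) : bt s n ≠ 0 := by
  unfold bt
  refine Finset.prod_ne_zero_iff.2 fun i _ => div_ne_zero ?_ ?_
  · intro h
    exact hs i (eq_neg_of_add_eq_zero_left h)
  · exact_mod_cast Nat.succ_ne_zero i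

/-- the convolution with shifted index -/
theorem conv_F (a : ℂ) (n : ℕ) : ∀ k : ℕ, 1 ≤ k →
    ∑ b ∈ range (n + 1), bt (-a) (n - b) * bt a (b + k) =
      bt (1 - a) n * k * bt a k / ((n : ℂ) + k) := by
  induction n with
  | zero =>
    intro k hk
    have : (k : ℂ) ≠ 0 := by exact_mod_cast (by omega : k ≠ 0)
    simp [bt_zero']
    field_simp
  | succ n ih =>
    intro k hk
    have hk0 : (k : ℂ) ≠ 0 := by exact_mod_cast (by omega : k ≠ 0)
    have h1 : (n : ℂ) + 1 ≠ 0 := by exact_mod_cast Nat.succ_ne_zero n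
    have h2 : (n : ℂ) + 1 + k ≠ 0 := by exact_mod_cast (by omega : n + 1 + k ≠ 0)
    have h3 : (n : ℂ) + (k + 1) ≠ 0 := by exact_mod_cast (by omega : n + (k + 1) ≠ 0)
    have h4 : (k : ℂ) + 1 ≠ 0 := by exact_mod_cast Nat.succ_ne_zero k
    rw [Finset.sum_range_succ']
    have e1 : ∀ b ∈ range (n + 1), bt (-a) (n + 1 - (b + 1)) * bt a (b + 1 + k) =
        bt (-a) (n - b) * bt a (b + (k + 1)) := by
      intro b _
      rw [Nat.add_sub_add_right, show b + 1 + k = b + (k + 1) by ring]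
    rw [Finset.sum_congr rfl e1, ih (k + 1) (by omega), Nat.sub_zero, zero_add,
      bt_shift' (-a) n, bt_succ' a k, bt_succ' (1 - a) n]
    rw [show -a + 1 = 1 - a by ring]
    push_cast
    field_simp
    ring

theorem conv_0 (a : ℂ) (n : ℕ) :
    ∑ b ∈ range (n + 1), bt (-a) (n - b) * bt a b = if n = 0 then 1 else 0 := by
  rcases n with _ | n
  · simp [bt_zero']
  · rw [Finset.sum_range_succ']
    have e1 : ∀ b ∈ range (n + 1), bt (-a) (n + 1 - (b + 1)) * bt a (b + 1) =
        bt (-a) (n - b) * bt a (b + 1) := by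
      intro b _
      rw [Nat.add_sub_add_right]
    rw [Finset.sum_congr rfl e1, conv_F a n 1 le_rfl, Nat.sub_zero, bt_shift' (-a) n, bt_zero',
      show -a + 1 = 1 - a by ring]
    have h1 : (n : ℂ) + 1 ≠ 0 := by exact_mod_cast Nat.succ_ne_zero n
    simp [bt]
    field_simp
    ring

theorem conv_G (a : ℂ) (ha : ∀ j : ℕ, a ≠ -(j : ℂ)) (l : ℕ) (n : ℕ) :
    ∑ b ∈ range (n + 1), bt (-a) (n - b) * bt a (n + l - b) =
      bt (1 - a) n * ((n : ℂ) + l + a) * bt a (n + l) / ((l : ℂ) + a) := by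
  have hl : (l : ℂ) + a ≠ 0 := by
    intro h
    exact ha l (eq_neg_of_add_eq_zero_right h)
  induction n with
  | zero =>
    simp [bt_zero']
    field_simp
  | succ n ih =>
    have h1 : (n : ℂ) + 1 ≠ 0 := by exact_mod_cast Nat.succ_ne_zero n
    have h2 : (n : ℂ) + l + 1 ≠ 0 := by exact_mod_cast Nat.succ_ne_zero (n + l)
    rw [Finset.sum_range_succ']
    have e1 : ∀ b ∈ range (n + 1), bt (-a) (n + 1 - (b + 1)) * bt a (n + 1 + l - (b + 1)) =
        bt (-a) (n - b) * bt a (n + l - b) := by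
      intro b _
      rw [Nat.add_sub_add_right, show n + 1 + l = n + l + 1 by ring, Nat.add_sub_add_right]
    rw [Finset.sum_congr rfl e1, ih, Nat.sub_zero, Nat.sub_zero, show n + 1 + l = (n + l) + 1 by ring,
      bt_shift' (-a) n, bt_succ' a (n + l), bt_succ' (1 - a) n]
    rw [show -a + 1 = 1 - a by ring]
    push_cast
    field_simp
    ring

/-- inversion -/
theorem inv_T (a : ℂ) (ν : ℕ → ℕ → ℂ) (m b : ℕ) (hb : b ≤ m) :
    ν (m - b) b = ∑ n ∈ Ico b (m + 1), bt (-a) (n - b) * TP a ν n m := by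
  unfold TP
  simp_rw [Finset.mul_sum]
  have e1 : ∑ n ∈ Ico b (m + 1), ∑ c ∈ Ico n (m + 1),
      bt (-a) (n - b) * (ν (m - c) c * bt a (c - n)) =
      ∑ c ∈ Ico b (m + 1), ∑ n ∈ Ico b (c + 1),
        bt (-a) (n - b) * (ν (m - c) c * bt a (c - n)) := by
    rw [Finset.sum_sigma', Finset.sum_sigma']
    refine Finset.sum_nbij' (fun x => ⟨x.2, x.1⟩) (fun x => ⟨x.2, x.1⟩) ?_ ?_ ?_ ?_ ?_
    · rintro ⟨n, c⟩ h
      simp only [Finset.mem_sigma, Finset.mem_Ico] at h ⊢
      omega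
    · rintro ⟨n, c⟩ h
      simp only [Finset.mem_sigma, Finset.mem_Ico] at h ⊢
      omega
    · rintro ⟨n, c⟩ _
      rfl
    · rintro ⟨n, c⟩ _
      rfl
    · rintro ⟨n, c⟩ _
      rfl
  rw [e1]
  have e2 : ∀ c ∈ Ico b (m + 1), ∑ n ∈ Ico b (c + 1),
      bt (-a) (n - b) * (ν (m - c) c * bt a (c - n)) = if c = b then ν (m - c) c else 0 := by
    intro c hc
    rw [Finset.mem_Ico] at hc
    have e3 : ∑ n ∈ Ico b (c + 1), bt (-a) (n - b) * (ν (m - c) c * bt a (c - n)) =
        ν (m - c) c * ∑ j ∈ range (c - b + 1), bt (-a) ((c - b) - j) * bt a j := by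
      rw [Finset.mul_sum, ← Finset.sum_range_reflect, Finset.sum_Ico_eq_sum_range,
        show c + 1 - b = c - b + 1 by omega]
      refine Finset.sum_congr rfl fun i hi => ?_
      rw [Finset.mem_range] at hi
      rw [show b + i - b = i by omega, show c - b - (c - b + 1 - 1 - i) = i by omega,
        show c - (b + i) = c - b + 1 - 1 - i by omega]
      ring
    rw [e3, conv_0]
    by_cases hcb : c = b
    · subst hcb
      simp
    · rw [if_neg (by omega), if_neg hcb, mul_zero]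
  rw [Finset.sum_congr rfl e2, Finset.sum_ite_eq' , if_pos]
  rw [Finset.mem_Ico]
  omega

/-- insertion of the inversion into a sum over the antidiagonal -/
theorem insert_T (a : ℂ) (ν : ℕ → ℕ → ℂ) (m : ℕ) (g : ℕ → ℂ) :
    ∑ b ∈ range (m + 1), ν (m - b) b * g b =
      ∑ n ∈ range (m + 1), TP a ν n m * ∑ b ∈ range (n + 1), bt (-a) (n - b) * g b := by
  have e1 : ∀ b ∈ range (m + 1), ν (m - b) b * g b =
      ∑ n ∈ Ico b (m + 1), TP a ν n m * (bt (-a) (n - b) * g b) := by
    intro b hb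
    rw [Finset.mem_range] at hb
    rw [inv_T a ν m b (by omega), Finset.sum_mul]
    refine Finset.sum_congr rfl fun n _ => ?_
    ring
  rw [Finset.sum_congr rfl e1]
  simp_rw [Finset.mul_sum]
  rw [Finset.sum_sigma', Finset.sum_sigma']
  refine Finset.sum_nbij' (fun x => ⟨x.2, x.1⟩) (fun x => ⟨x.2, x.1⟩) ?_ ?_ ?_ ?_ ?_
  · rintro ⟨n, c⟩ h
    simp only [Finset.mem_sigma, Finset.mem_Ico, Finset.mem_range] at h ⊢
    omega
  · rintro ⟨n, c⟩ h
    simp only [Finset.mem_sigma, Finset.mem_Ico, Finset.mem_range] at h ⊢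
    omega
  · rintro ⟨n, c⟩ _
    rfl
  · rintro ⟨n, c⟩ _
    rfl
  · rintro ⟨n, c⟩ _
    rfl

theorem idt : S_ID := by
  intro a ν hν ha hre m k hk
  have hk0 : (k : ℂ) ≠ 0 := by exact_mod_cast (by omega : k ≠ 0)
  have hbk := bt_ne_zero' a ha k
  have hbmk := bt_ne_zero' a ha (m + k)
  -- first formula
  have f1 : TN a ν k m * rr a k =
      ∑ n ∈ range (m + 1), bt (1 - a) n * TP a ν n m * (k / ((n : ℂ) + k)) := by
    unfold TN rr
    rw [insert_T a ν m (fun b => bt a (b + k)), Finset.sum_mul]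
    refine Finset.sum_congr rfl fun n _ => ?_
    rw [conv_F a n k hk]
    have h2 : (n : ℂ) + k ≠ 0 := by exact_mod_cast (by omega : n + k ≠ 0)
    field_simp
  -- symmetry
  have f2 : TN a ν k m = ∑ b ∈ range (m + 1), ν (m - b) b * bt a (m + k - b) := by
    unfold TN
    rw [← Finset.sum_range_reflect]
    refine Finset.sum_congr rfl fun b hb => ?_
    rw [Finset.mem_range] at hb
    rw [show m + 1 - 1 - b = m - b by omega, show m - (m - b) = b by omega, hν b (m - b),
      show m - b + k = m + k - b by omega]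
  have f3 : TN a ν k m * rr a (m + k) =
      ∑ n ∈ range (m + 1), bt (1 - a) n * TP a ν n m *
        (((m : ℂ) + k + a) / ((m : ℂ) + k - n + a)) := by
    rw [f2]
    unfold rr
    rw [insert_T a ν m (fun b => bt a (m + k - b)), Finset.sum_mul]
    refine Finset.sum_congr rfl fun n hn => ?_
    rw [Finset.mem_range] at hn
    have h5 := conv_G a ha (m + k - n) n
    rw [show n + (m + k - n) = m + k by omega] at h5
    rw [h5]
    have h6 : ((m + k - n : ℕ) : ℂ) = (m : ℂ) + k - n := by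
      rw [Nat.cast_sub (by omega)]
      push_cast
      ring
    rw [h6]
    have h7 : (m : ℂ) + k - n + a ≠ 0 := by
      rw [← h6]
      intro h
      exact ha _ (eq_neg_of_add_eq_zero_right h)
    rw [show (n : ℂ) + (m + k - n) + a = m + k + a by ring]
    field_simp
  rw [mul_sub, f1, f3, ← Finset.sum_sub_distrib]
  rw [Finset.sum_range_succ']
  have hz : bt (1 - a) 0 * TP a ν 0 m * (((m : ℂ) + k + a) / ((m : ℂ) + k - ((0 : ℕ) : ℂ) + a)) -
      bt (1 - a) 0 * TP a ν 0 m * (k / (((0 : ℕ) : ℂ) + k)) = 0 := by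
    have h8 : (m : ℂ) + k + a ≠ 0 := by
      intro h
      apply ha (m + k)
      have := eq_neg_of_add_eq_zero_right h
      rw [this]
      push_cast
      ring
    simp only [Nat.cast_zero, sub_zero, zero_add]
    rw [div_self h8, div_self hk0, sub_self]
  rw [hz, add_zero]
  have e9 : Icc 1 m = Ico 1 (m + 1) := by
    ext x
    simp only [Finset.mem_Icc, Finset.mem_Ico]
    omega
  rw [e9, Finset.sum_Ico_eq_sum_range, Nat.add_sub_cancel]
  refine Finset.sum_congr rfl fun n hn => ?_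
  rw [Finset.mem_range] at hn
  rw [add_comm 1 n]
  have h10 : ((n + 1 : ℕ) : ℂ) + k ≠ 0 := by exact_mod_cast (by omega : n + 1 + k ≠ 0)
  have h11 : (m : ℂ) + k - ((n + 1 : ℕ) : ℂ) + a ≠ 0 := by
    have h6 : ((m + k - (n + 1) : ℕ) : ℂ) = (m : ℂ) + k - ((n + 1 : ℕ) : ℂ) := by
      rw [Nat.cast_sub (by omega)]
      push_cast
      ring
    rw [← h6]
    intro h
    exact ha _ (eq_neg_of_add_eq_zero_right h)
  field_simp
  ring

end Pool.Agent.H64.CX
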