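import Pool.Agent.H64.CX.StmF
import Pool.Agent.H64.CX.ID

/-! # CX-IDN: the identity for the coefficients of negative index, `Re α > -1` -/

set_option autoImplicit false

namespace Pool.Agent.H64.CX

open Finset

theorem idt_gen (a : ℂ) (ν : ℕ → ℕ → ℂ) (hν : ∀ a b, ν a b = ν b a) (ha : ∀ j : ℕ, a ≠ -(j : ℂ))
    (m k : ℕ) (hk : 1 ≤ k) : TN a ν k m * (rr a (m + k) - rr a k) =
      ∑ n ∈ Finset.Icc 1 m, (n : ℂ) * bt (1 - a) n * TP a ν n m *
        (1 / ((n : ℂ) + k) + 1 / ((m : ℂ) + k - n + a)) := by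
  have hk0 : (k : ℂ) ≠ 0 := by exact_mod_cast (by omega : k ≠ 0)
  have hbk := bt_ne_zero' a ha k
  have hbmk := bt_ne_zero' a ha (m + k)
  -- first formula
  have f1 : TN a ν k m * rr a k =
      ∑ n ∈ range (m + 1), bt (1 - a) n * TP a ν n m * (k / ((n : ℂ) + k)) := by
    unfold TN rr
    rw [insert_T a ν m (fun b => bt a (b + k)), Finset.sum_mul]
    refine Finset.sum_congr rfl fun n _ => ?_
    rw [conv_F a n k hk]
    have h2 : (n : ℂ) + k ≠ 0 := by exact_mod_cast (by omega : n + k ≠ 0)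
    field_simp
  -- symmetry
  have f2 : TN a ν k m = ∑ b ∈ range (m + 1), ν (m - b) b * bt a (m + k - b) := by
    unfold TN
    rw [← Finset.sum_range_reflect]
    refine Finset.sum_congr rfl fun b hb => ?_
    rw [Finset.mem_range] at hb
    rw [show m + 1 - 1 - b = m - b by omega, show m - (m - b) = b by omega, hν b (m - b),
      show m - b + k = m + k - b by omega]
  have f3 : TN a ν k m * rr a (m + k) =
      ∑ n ∈ range (m + 1), bt (1 - a) n * TP a ν n m *
        (((m : ℂ) + k + a) / ((m : ℂ) + k - n + a)) := by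
    rw [f2]
    unfold rr
    rw [insert_T a ν m (fun b => bt a (m + k - b)), Finset.sum_mul]
    refine Finset.sum_congr rfl fun n hn => ?_
    rw [Finset.mem_range] at hn
    have h5 := conv_G a ha (m + k - n) n
    rw [show n + (m + k - n) = m + k by omega] at h5
    rw [h5]
    have h6 : ((m + k - n : ℕ) : ℂ) = (m : ℂ) + k - n := by
      rw [Nat.cast_sub (by omega)]
      push_cast
      ring
    rw [h6]
    have h7 : (m : ℂ) + k - n + a ≠ 0 := by
      rw [← h6]
      intro h
      exact ha _ (eq_neg_of_add_eq_zero_right h)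
    rw [show (n : ℂ) + (m + k - n) + a = m + k + a by ring]
    field_simp
  rw [mul_sub, f1, f3, ← Finset.sum_sub_distrib]
  rw [Finset.sum_range_succ']
  have hz : bt (1 - a) 0 * TP a ν 0 m * (((m : ℂ) + k + a) / ((m : ℂ) + k - ((0 : ℕ) : ℂ) + a)) -
      bt (1 - a) 0 * TP a ν 0 m * (k / (((0 : ℕ) : ℂ) + k)) = 0 := by
    have h8 : (m : ℂ) + k + a ≠ 0 := by
      intro h
      apply ha (m + k)
      have := eq_neg_of_add_eq_zero_right h
      rw [this]
      push_cast
      ring
    simp only [Nat.cast_zero, sub_zero, zero_add]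
    rw [div_self h8, div_self hk0, sub_self]
  rw [hz, add_zero]
  have e9 : Icc 1 m = Ico 1 (m + 1) := by
    ext x
    simp only [Finset.mem_Icc, Finset.mem_Ico]
    omega
  rw [e9, Finset.sum_Ico_eq_sum_range, Nat.add_sub_cancel]
  refine Finset.sum_congr rfl fun n hn => ?_
  rw [Finset.mem_range] at hn
  rw [add_comm 1 n]
  have h10 : ((n + 1 : ℕ) : ℂ) + k ≠ 0 := by exact_mod_cast (by omega : n + 1 + k ≠ 0)
  have h11 : (m : ℂ) + k - ((n + 1 : ℕ) : ℂ) + a ≠ 0 := by
    have h6 : ((m + k - (n + 1) : ℕ) : ℂ) = (m : ℂ) + k - ((n + 1 : ℕ) : ℂ) := by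
      rw [Nat.cast_sub (by omega)]
      push_cast
      ring
    rw [← h6]
    intro h
    exact ha _ (eq_neg_of_add_eq_zero_right h)
  field_simp
  ring

theorem idn : S_IDN := by
  intro a ν hν ha0 hre m k hk
  refine idt_gen a ν hν (fun j h => ?_) m k hk
  rcases Nat.eq_zero_or_pos j with rfl | hj
  · exact ha0 (by simpa using h)
  · have h1 := congrArg Complex.re h
    rw [Complex.neg_re, Complex.natCast_re] at h1
    have h2 : (1 : ℝ) ≤ j := by exact_mod_cast hj
    linarith

end Pool.Agent.H64.CX
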