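import Pool.Agent.H64.CX.StmN

set_option autoImplicit false

/-! # CX-UN: two-sided information on the coefficients of `(1 - x) ^ (-(1 - α))` -/

namespace Pool.Agent.H64.CX

open Filter Topology

namespace UNX

lemma bt_gs (s : ℂ) (hs : ∀ j : ℕ, s ≠ -(j : ℂ)) (n : ℕ) :
    bt s n * ((s + (n : ℂ)) * Complex.GammaSeq s n) = (n : ℂ) ^ s := by
  have hprod : ∏ j ∈ Finset.range (n + 1), (s + (j : ℂ)) ≠ 0 := by
    rw [Finset.prod_ne_zero_iff]
    intro j _ h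
    exact hs j (eq_neg_of_add_eq_zero_left h)
  have hprod' : ∏ j ∈ Finset.range n, (s + (j : ℂ)) ≠ 0 := by
    rw [Finset.prod_ne_zero_iff]
    intro j _ h
    exact hs j (eq_neg_of_add_eq_zero_left h)
  have hsn : s + (n : ℂ) ≠ 0 := fun h => hs n (eq_neg_of_add_eq_zero_left h)
  have hfac : ∏ i ∈ Finset.range n, ((i : ℂ) + 1) = (n.factorial : ℂ) := by
    have := Finset.prod_range_add_one_eq_factorial n
    rw [← this]
    push_cast
    rfl
  have hf0 : ((n.factorial : ℕ) : ℂ) ≠ 0 := by exact_mod_cast Nat.factorial_ne_zero n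
  unfold bt Complex.GammaSeq
  rw [Finset.prod_div_distrib, hfac, Finset.prod_range_succ]
  field_simp

end UNX

open UNX in
/-- CX-UN -/
theorem un : S_UN := by
  intro α h0 h1
  have hs : ∀ j : ℕ, (1 - α) ≠ -(j : ℂ) := by
    intro j h
    have := congrArg Complex.re h
    simp at this
    have hj : (0 : ℝ) ≤ j := Nat.cast_nonneg j
    linarith
  have hG : Complex.Gamma (1 - α) ≠ 0 := Complex.Gamma_ne_zero hs
  have hG' : 0 < ‖Complex.Gamma (1 - α)‖ := norm_pos_iff.mpr hG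
  have key : ∀ n : ℕ, 1 ≤ n → ‖bt (1 - α) n‖ ^ 2 * (n : ℝ) ^ (2 * α.re) =
      ‖(n : ℂ) / ((n : ℂ) + (1 - α))‖ ^ 2 * (1 / ‖Complex.GammaSeq (1 - α) n‖ ^ 2) := by
    intro n hn
    have hn0 : (0 : ℝ) < n := by exact_mod_cast hn
    have h2 := congrArg norm (bt_gs (1 - α) hs n)
    have hpow : ‖(n : ℂ) ^ (1 - α)‖ = (n : ℝ) ^ (1 - α.re) := by
      rw [Complex.norm_natCast_cpow_of_pos (by omega)]
      simp
    rw [norm_mul, norm_mul, hpow] at h2
    have hpos : 0 < (n : ℝ) ^ (1 - α.re) := Real.rpow_pos_of_pos hn0 _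
    have hA : ‖1 - α + (n : ℂ)‖ ≠ 0 := by
      intro h
      rw [h, zero_mul, mul_zero] at h2
      exact hpos.ne h2
    have hB : ‖Complex.GammaSeq (1 - α) n‖ ≠ 0 := by
      intro h
      rw [h, mul_zero, mul_zero] at h2
      exact hpos.ne h2
    have hb : ‖bt (1 - α) n‖ =
        (n : ℝ) ^ (1 - α.re) / (‖1 - α + (n : ℂ)‖ * ‖Complex.GammaSeq (1 - α) n‖) := by
      rw [eq_div_iff (mul_ne_zero hA hB)]
      exact h2
    have hsq : ((n : ℝ) ^ (1 - α.re)) ^ 2 * (n : ℝ) ^ (2 * α.re) = (n : ℝ) ^ 2 := by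
      rw [← Real.rpow_natCast ((n : ℝ) ^ (1 - α.re)) 2, ← Real.rpow_mul hn0.le,
        ← Real.rpow_add hn0]
      rw [show (1 - α.re) * ((2 : ℕ) : ℝ) + 2 * α.re = ((2 : ℕ) : ℝ) by push_cast; ring,
        Real.rpow_natCast]
    rw [hb, norm_div, Complex.norm_natCast, add_comm (n : ℂ) (1 - α), div_pow, mul_pow, div_pow,
      ← hsq]
    field_simp
  have hlim : Tendsto (fun n : ℕ => ‖bt (1 - α) n‖ ^ 2 * (n : ℝ) ^ (2 * α.re)) atTop
      (𝓝 (1 / ‖Complex.Gamma (1 - α)‖ ^ 2)) := by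
    have e1 : Tendsto (fun n : ℕ => ‖(n : ℂ) / ((n : ℂ) + (1 - α))‖ ^ 2) atTop (𝓝 1) := by
      have := (tendsto_natCast_div_add_atTop (𝕜 := ℂ) (1 - α)).norm.pow 2
      simpa using this
    have e2 : Tendsto (fun n : ℕ => 1 / ‖Complex.GammaSeq (1 - α) n‖ ^ 2) atTop
        (𝓝 (1 / ‖Complex.Gamma (1 - α)‖ ^ 2)) := by
      have := ((Complex.GammaSeq_tendsto_Gamma (1 - α)).norm.pow 2)
      exact tendsto_const_nhds.div this (by positivity)
    have e3 := e1.mul e2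
    rw [one_mul] at e3
    refine e3.congr' ?_
    filter_upwards [eventually_ge_atTop 1] with n hn
    exact (key n hn).symm
  refine ⟨?_, hlim⟩
  obtain ⟨C, hC⟩ := hlim.bddAbove_range
  have hC' : ∀ n : ℕ, ‖bt (1 - α) n‖ ^ 2 * (n : ℝ) ^ (2 * α.re) ≤ C := fun n =>
    hC ⟨n, rfl⟩
  refine ⟨C, le_trans (by positivity) (hC' 0), fun n hn => ?_⟩
  have hn0 : (0 : ℝ) < n := by exact_mod_cast hn
  rw [Real.rpow_neg hn0.le, ← div_eq_mul_inv, le_div_iff₀ (Real.rpow_pos_of_pos hn0 _)]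
  exact hC' n

end Pool.Agent.H64.CX
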