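import Pool.Agent.H64.CX.Asm3
import Pool.Agent.H64.CX.IDN
import Pool.Agent.H64.CX.CSN
import Pool.Agent.H64.CX.UN
import Pool.Agent.H64.CX.LC
import Pool.Agent.H64.CX.LD

set_option autoImplicit false

/-! # The bound for exponents with `Re α ≤ 0` -/

namespace Pool.Agent.H64.CX

open Metric Set Filter Topology MeasureTheory
open scoped ENNReal
open Pool.Agent.W677.Mar Pool.Agent.W5h41.MA

/-- The Hilbert-Schmidt sums are eventually less than `1` when the limit is less than `1`. -/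
theorem sm_lim (rn : S_RN) (lim2 : S_LIM2) {α : ℂ} {σ : ℝ} (hα : α ≠ 0) (h0 : -(1 / 2) ≤ α.re)
    (h1 : α.re ≤ 1 / 2) (hy : |α.im| ≤ 1 / 2) (hσ : 0 < σ) (hμ : -1 < σ + 2 * α.re)
    (hL : ∫⁻ x in Ioi (0 : ℝ), ∫⁻ s in Ioo (0 : ℝ) 1, ENNReal.ofReal (DD α σ x s) < 1) :
    ∃ (δ : ℝ) (M₀ : ℕ), 0 < δ ∧ δ ≤ 1 ∧ ∀ m, M₀ ≤ m →
      ∑' k : ℕ, ENNReal.ofReal (SN α (σ + 2 * α.re) m (k + 1)) ≤ ENNReal.ofReal (1 - δ) := by
  have hlim := lim2 un rn α σ hα h0 h1 hy hσ hμ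
  set I := ∫⁻ x in Ioi (0 : ℝ), ∫⁻ s in Ioo (0 : ℝ) 1, ENNReal.ofReal (DD α σ x s) with hI
  obtain ⟨L, hL1, hL2⟩ := exists_between hL
  have hLt : L ≠ ⊤ := (hL2.trans ENNReal.one_lt_top).ne
  have hLr : L.toReal < 1 := by
    have := (ENNReal.toReal_lt_toReal hLt ENNReal.one_ne_top).2 hL2
    simpa using this
  have hL0 : 0 ≤ L.toReal := ENNReal.toReal_nonneg
  obtain ⟨M₀, hM₀⟩ := eventually_atTop.1 (hlim.eventually (gt_mem_nhds hL1))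
  refine ⟨1 - L.toReal, M₀, by linarith, by linarith, fun m hm => ?_⟩
  have h2 := hM₀ m hm
  rw [show (1 : ℝ) - (1 - L.toReal) = L.toReal by ring, ENNReal.ofReal_toReal hLt]
  exact h2.le

/-- **The bound for one exponent from the limit.** -/
theorem bd_lim (rn : S_RN) (lim2 : S_LIM2) {α : ℂ} {σ : ℝ} (hα : α ≠ 0) (hn : ‖α‖ ≤ 1 / 2)
    (hσ : 0 < σ) (hσ2 : σ ≤ 2) (hμ : -1 < σ + 2 * α.re) (aw : S_AW α (σ + 2 * α.re))
    (hL : ∫⁻ x in Ioi (0 : ℝ), ∫⁻ s in Ioo (0 : ℝ) 1, ENNReal.ofReal (DD α σ x s) < 1) :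
    Bd α σ := by
  have hre := Complex.abs_re_le_norm α
  have him := Complex.abs_im_le_norm α
  have h3 := abs_le.1 (hre.trans hn)
  have h0 : -(1 / 2) ≤ α.re := h3.1
  have h1 : α.re ≤ 1 / 2 := h3.2
  obtain ⟨-, c, hc0, hcl⟩ := rn α hα h0 h1 (him.trans hn)
  refine bd_of Pool.Agent.H64.BR.dps Pool.Agent.H64.BR.mean ser hid btu hbn lown summn cau core fb
    idx (by linarith) h0 h1 hσ hσ2 hμ aw (SN α (σ + 2 * α.re)) ?_
    (sm_lim rn lim2 hα h0 h1 (him.trans hn) hσ hμ hL)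
  intro ν hν m k hm hk
  apply csn idn α ν _ hν hα (by linarith) m k hm hk
  intro h
  have h3 := hcl m k hm hk
  rw [h, sub_self, norm_zero] at h3
  have h4 : 0 < c * m * ((m : ℝ) + k) ^ (-α.re) := by
    have : (0 : ℝ) < m := by exact_mod_cast hm
    positivity
  linarith

/-- **The bound in the half disc `Re α ≤ 0`, `|α| ≤ 3 / 8`.** -/
theorem bd_left (rn : S_RN) (lim2 : S_LIM2) (fch : S_FCH) (la : S_LA) (lb : S_LB)
    (num2 : S_NUM2) (ubn : S_UBN) {α : ℂ} (hα : α ≠ 0) (h0 : α.re ≤ 0) (h1 : ‖α‖ ≤ 3 / 8)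
    (aw : S_AW α (20 / 9 * ‖α‖ ^ 2 + 2 * α.re)) : Bd α (20 / 9 * ‖α‖ ^ 2) := by
  have hpos : 0 < ‖α‖ := norm_pos_iff.2 hα
  have hsq : ‖α‖ ^ 2 ≤ (3 / 8) ^ 2 := pow_le_pow_left₀ hpos.le h1 2
  have h3 := abs_le.1 ((Complex.abs_re_le_norm α).trans h1)
  exact bd_lim rn lim2 hα (by linarith) (by positivity) (by linarith)
    (by have : 0 < 20 / 9 * ‖α‖ ^ 2 := by positivity
        linarith [h3.1]) aw
    (ubn sinq fch la lb lc ld num2 α hα h0 h1)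

end Pool.Agent.H64.CX
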