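import Pool.Agent.H64.CX.StmN

set_option autoImplicit false

/-! # CX-FCH (helper63) -/

namespace Pool.Agent.H64.CX

open Set Filter Topology MeasureTheory

/-- Padé bound of the logarithm -/
theorem fch_pade {z : ℝ} (h0 : 0 < z) (h1 : z ≤ 1) :
    3 * (1 - z ^ 2) / (1 + 4 * z + z ^ 2) ≤ -Real.log z := by
  have hd : ∀ t : ℝ, 0 < t → HasDerivAt
      (fun t : ℝ => -Real.log t - 3 * (1 - t ^ 2) / (1 + 4 * t + t ^ 2))
      (-((1 - t) ^ 4 / (t * (1 + 4 * t + t ^ 2) ^ 2))) t := by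
    intro t ht
    have hne : (1 + 4 * t + t ^ 2) ≠ 0 := by positivity
    have h1 := (Real.hasDerivAt_log ht.ne').neg
    have h2 : HasDerivAt (fun t : ℝ => 3 * (1 - t ^ 2)) (3 * (-(2 * t))) t := by
      have := ((hasDerivAt_pow 2 t).const_sub 1).const_mul 3
      simpa using this
    have h3 : HasDerivAt (fun t : ℝ => 1 + 4 * t + t ^ 2) (4 + 2 * t) t := by
      have := (((hasDerivAt_id t).const_mul 4).const_add 1).fun_add (hasDerivAt_pow 2 t)
      simpa using this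
    have h4 := h1.sub (h2.div h3 hne)
    refine h4.congr_deriv ?_
    field_simp
    ring
  have hanti : AntitoneOn
      (fun t : ℝ => -Real.log t - 3 * (1 - t ^ 2) / (1 + 4 * t + t ^ 2)) (Ioi 0) := by
    refine antitoneOn_of_deriv_nonpos (convex_Ioi 0)
      (fun t ht => (hd t ht).continuousAt.continuousWithinAt)
      (fun t ht => ?_) (fun t ht => ?_)
    · rw [interior_Ioi] at ht
      exact (hd t ht).differentiableAt.differentiableWithinAt
    · rw [interior_Ioi] at ht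
      have ht0 : (0 : ℝ) < t := ht
      rw [(hd t ht).deriv, neg_nonpos]
      positivity
  have := hanti (mem_Ioi.2 h0) (mem_Ioi.2 one_pos) h1
  simp only [Real.log_one] at this
  norm_num at this
  linarith

/-- the variance bound -/
theorem fch_var {z : ℝ} (h0 : 0 < z) (h1 : z < 1) :
    z * (1 - z * Real.log z ^ 2 / (1 - z) ^ 2) ≤ 6 / 100 * (1 - z) := by
  have hp := fch_pade h0 h1.le
  have hw : 0 < 1 - z := by linarith
  have hD : 0 < 1 + 4 * z + z ^ 2 := by positivity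
  have hp0 : 0 ≤ 3 * (1 - z ^ 2) / (1 + 4 * z + z ^ 2) := by
    apply div_nonneg _ hD.le
    nlinarith
  have hsq : (3 * (1 - z ^ 2) / (1 + 4 * z + z ^ 2)) ^ 2 ≤ Real.log z ^ 2 := by
    have := pow_le_pow_left₀ hp0 hp 2
    rwa [neg_sq] at this
  have h2 : 1 - z * Real.log z ^ 2 / (1 - z) ^ 2 ≤
      1 - z * (3 * (1 - z ^ 2) / (1 + 4 * z + z ^ 2)) ^ 2 / (1 - z) ^ 2 := by
    gcongr
  have h3 : 1 - z * (3 * (1 - z ^ 2) / (1 + 4 * z + z ^ 2)) ^ 2 / (1 - z) ^ 2 =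
      (1 - z) ^ 2 * (1 + z + z ^ 2) / (1 + 4 * z + z ^ 2) ^ 2 := by
    field_simp
    ring
  rw [h3] at h2
  have h4 : z * (1 - z * Real.log z ^ 2 / (1 - z) ^ 2) ≤
      z * ((1 - z) ^ 2 * (1 + z + z ^ 2) / (1 + 4 * z + z ^ 2) ^ 2) :=
    mul_le_mul_of_nonneg_left h2 h0.le
  refine h4.trans ?_
  rw [← mul_div_assoc, div_le_iff₀ (by positivity)]
  have h5 : z * (1 - z ^ 3) ≤ 6 / 100 * (1 + 4 * z + z ^ 2) ^ 2 := by
    have h6 : 0 ≤ (z - 1 / 5) ^ 2 * (z + 2 / 5) := by positivity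
    nlinarith [sq_nonneg (z - 214 / 1000), sq_nonneg (z ^ 2)]
  have h7 := mul_le_mul_of_nonneg_left h5 hw.le
  nlinarith [h7]

/-- the integral of the square of the centred logarithm -/
theorem fch_int {z c : ℝ} (h0 : 0 < z) (h1 : z < 1) :
    ∫ t in z..1, (-Real.log t - c) ^ 2 =
      ((-c) ^ 2 + 2 * (-c) + 2) - z * ((-Real.log z - c) ^ 2 + 2 * (-Real.log z - c) + 2) := by
  have hd : ∀ t ∈ uIcc z 1, HasDerivAt
      (fun t : ℝ => t * ((-Real.log t - c) ^ 2 + 2 * (-Real.log t - c) + 2))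
      ((-Real.log t - c) ^ 2) t := by
    intro t ht
    rw [uIcc_of_le h1.le] at ht
    have ht0 : 0 < t := lt_of_lt_of_le h0 ht.1
    have h2 := ((Real.hasDerivAt_log ht0.ne').neg).sub_const c
    have h3 := (hasDerivAt_id t).mul (((h2.pow 2).add (h2.const_mul 2)).add_const 2)
    refine h3.congr_deriv ?_
    simp
    field_simp
    ring
  have hc : ContinuousOn (fun t : ℝ => (-Real.log t - c) ^ 2) (uIcc z 1) := by
    rw [uIcc_of_le h1.le]
    refine ContinuousOn.pow ?_ 2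
    refine ContinuousOn.sub (ContinuousOn.neg ?_) continuousOn_const
    exact Real.continuousOn_log.mono fun t ht => (lt_of_lt_of_le h0 ht.1).ne'
  rw [intervalIntegral.integral_eq_sub_of_hasDerivAt hd hc.intervalIntegrable]
  simp

/-- the second lower bound of the chord -/
theorem fch_low {α : ℂ} {z : ℝ} (hr : α.re ≤ 0) (h0 : 0 < z) (h1 : z < 1) :
    ‖1 - α‖ * ((1 - z ^ (1 - α.re)) / (1 - α.re) -
      α.im ^ 2 / 2 * ((1 - z) * (1 - z * Real.log z ^ 2 / (1 - z) ^ 2))) ≤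
      ‖1 - (z : ℂ) ^ (1 - α)‖ := by
  have hw : 0 < 1 - z := by linarith
  have hne : (1 : ℂ) - α ≠ 0 := by
    intro h
    have := congrArg Complex.re h
    simp at this
    linarith
  -- the integral
  have hI : ∫ t in z..1, (t : ℂ) ^ (-α) = (1 - (z : ℂ) ^ (1 - α)) / (1 - α) := by
    rw [integral_cpow (Or.inl (by simp; linarith))]
    rw [show -α + 1 = 1 - α by ring]
    simp
  set c : ℝ := 1 - z * (-Real.log z) / (1 - z) with hc
  set u : ℂ := Complex.exp (-(α.im * c * Complex.I)) with hu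
  have hun : ‖u‖ = 1 := by
    rw [hu, Complex.norm_exp]
    simp
  have hii : IntervalIntegrable (fun t : ℝ => (t : ℂ) ^ (-α)) volume z 1 :=
    intervalIntegral.intervalIntegrable_cpow (Or.inl (by simp; linarith))
  have h2 : ∫ t in z..1, (u * (t : ℂ) ^ (-α)).re ≤ ‖∫ t in z..1, (t : ℂ) ^ (-α)‖ := by
    have h3 := Complex.reCLM.intervalIntegral_comp_comm (hii.const_mul u)
    simp only [Complex.reCLM_apply] at h3
    rw [h3, intervalIntegral.integral_const_mul]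
    refine (Complex.re_le_norm _).trans ?_
    rw [norm_mul, hun, one_mul]
  have h4 : ∫ t in z..1, (t ^ (-α.re) - α.im ^ 2 / 2 * (-Real.log t - c) ^ 2) ≤
      ∫ t in z..1, (u * (t : ℂ) ^ (-α)).re := by
    have hcl : ContinuousOn (fun t : ℝ => Real.log t) (uIcc z 1) := by
      rw [uIcc_of_le h1.le]
      exact Real.continuousOn_log.mono fun t ht => (lt_of_lt_of_le h0 ht.1).ne'
    refine intervalIntegral.integral_mono_on h1.le ?_ ?_ ?_
    · refine ContinuousOn.intervalIntegrable ?_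
      refine ContinuousOn.sub ?_ ?_
      · rw [uIcc_of_le h1.le]
        exact continuousOn_id.rpow_const fun t ht => Or.inl (lt_of_lt_of_le h0 ht.1).ne'
      · exact continuousOn_const.mul ((hcl.neg.sub continuousOn_const).pow 2)
    · exact ⟨Complex.reCLM.integrable_comp (hii.const_mul u).1,
        Complex.reCLM.integrable_comp (hii.const_mul u).2⟩
    · intro t ht
      have ht0 : 0 < t := lt_of_lt_of_le h0 ht.1
      have e1 : (u * (t : ℂ) ^ (-α)).re =
          t ^ (-α.re) * Real.cos (α.im * (-Real.log t - c)) := by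
        rw [Complex.cpow_def_of_ne_zero (by exact_mod_cast ht0.ne'), ← Complex.ofReal_log ht0.le,
          hu, ← Complex.exp_add, Complex.exp_re, Real.rpow_def_of_pos ht0]
        congr 2
        · simp
        · simp
          ring
      rw [e1]
      have e2 := Real.one_sub_sq_div_two_le_cos (x := α.im * (-Real.log t - c))
      have e3 : 0 ≤ t ^ (-α.re) := Real.rpow_nonneg ht0.le _
      have e4 : t ^ (-α.re) ≤ 1 := Real.rpow_le_one ht0.le ht.2 (by linarith)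
      have e5 := mul_le_mul_of_nonneg_left e2 e3
      have e6 : 0 ≤ α.im ^ 2 / 2 * (-Real.log t - c) ^ 2 := by positivity
      nlinarith
  have h5 : ∫ t in z..1, (t ^ (-α.re) - α.im ^ 2 / 2 * (-Real.log t - c) ^ 2) =
      (1 - z ^ (1 - α.re)) / (1 - α.re) -
      α.im ^ 2 / 2 * ((1 - z) * (1 - z * Real.log z ^ 2 / (1 - z) ^ 2)) := by
    have hcl : ContinuousOn (fun t : ℝ => Real.log t) (uIcc z 1) := by
      rw [uIcc_of_le h1.le]
      exact Real.continuousOn_log.mono fun t ht => (lt_of_lt_of_le h0 ht.1).ne'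
    rw [intervalIntegral.integral_sub, intervalIntegral.integral_const_mul, fch_int h0 h1,
      integral_rpow (Or.inl (by linarith))]
    · rw [show -α.re + 1 = 1 - α.re by ring, Real.one_rpow, hc]
      congr 2
      field_simp
      ring
    · refine ContinuousOn.intervalIntegrable ?_
      rw [uIcc_of_le h1.le]
      exact continuousOn_id.rpow_const fun t ht => Or.inl (lt_of_lt_of_le h0 ht.1).ne'
    · refine ContinuousOn.intervalIntegrable ?_
      exact continuousOn_const.mul ((hcl.neg.sub continuousOn_const).pow 2)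
  have h6 : (1 - z ^ (1 - α.re)) / (1 - α.re) -
      α.im ^ 2 / 2 * ((1 - z) * (1 - z * Real.log z ^ 2 / (1 - z) ^ 2)) ≤
      ‖(1 - (z : ℂ) ^ (1 - α)) / (1 - α)‖ := by
    rw [← h5, ← hI]
    exact h4.trans h2
  rw [norm_div, le_div_iff₀ (norm_pos_iff.2 hne)] at h6
  rw [mul_comm]
  exact h6

/-- the final algebra -/
theorem fch_alg {e Y z w V N : ℝ} (he : 0 ≤ e) (hY : 0 ≤ Y) (heY : e ^ 2 + Y ≤ 9 / 64)
    (hz : 0 < z) (hw : 0 < w) (hzw : z + w = 1) (hV0 : 0 ≤ V) (hV1 : V ≤ 1)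
    (hV : z * V ≤ 6 / 100 * w) (_hN0 : 0 ≤ N) (hb : w * (1 + e * z) ≤ N)
    (ha : √((1 + e) ^ 2 + Y) * (w * ((1 + e * z) / (1 + e)) - Y / 2 * (w * V)) ≤ N) :
    ((1 + e) ^ 2 + Y) * w ^ 2 ≤ (1 + (101 / 100 * ((1 + e) ^ 2 + Y) - 1) * w) * N ^ 2 := by
  have hz1 : z = 1 - w := by linarith
  set M : ℝ := (1 + e) ^ 2 + Y with hM
  set κ : ℝ := 101 / 100 * M - 1 with hκ
  have he1 : e ≤ 3 / 8 := by nlinarith
  have hκe : 2 * e ≤ κ := by rw [hκ, hM]; nlinarith
  have hκ0 : 0 ≤ κ := by linarith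
  have hκw : 0 < 1 + κ * w := by positivity
  have hw1 : w ≤ 1 := by linarith
  -- (2)
  have hF : (1 + e) ^ 2 + w * (1 / 100 * (1 + e) ^ 2 + 101 / 100 * Y) ≤
      (1 + e * z) ^ 2 * (1 + κ * w) := by
    have h1 : (1 + e * z) ^ 2 * (1 + κ * w) - ((1 + e) ^ 2 +
        w * (1 / 100 * (1 + e) ^ 2 + 101 / 100 * Y)) =
        w * z * e * (2 * κ * (1 + e) - e - e * κ * (1 + w)) := by
      rw [hκ, hM, hz1]; ring
    have h2 : 0 ≤ 2 * κ * (1 + e) - e - e * κ * (1 + w) := by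
      have : e * κ * (1 + w) ≤ e * κ * 2 := mul_le_mul_of_nonneg_left (by linarith) (by positivity)
      nlinarith
    have h3 : 0 ≤ w * z * e * (2 * κ * (1 + e) - e - e * κ * (1 + w)) := by positivity
    linarith
  -- (3)
  have hYE : Y * (1 + e) ^ 2 ≤ 165 / 1000 := by
    have h1 : Y ≤ 9 / 64 - e ^ 2 := by linarith
    have h2 : Y * (1 + e) ^ 2 ≤ (9 / 64 - e ^ 2) * (1 + e) ^ 2 :=
      mul_le_mul_of_nonneg_right h1 (by positivity)
    refine h2.trans ?_
    nlinarith [sq_nonneg (e - 1637 / 10000), pow_nonneg he 3, pow_nonneg he 4]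
  have hM0 : 0 < M := by positivity
  have h4 : z * ((1 + e) ^ 2 * Y * V * (1 + κ * w)) ≤ w * (1 / 100 * M) := by
    have h5 : 1 + κ * w ≤ 101 / 100 * M := by
      have : κ * w ≤ κ := by nlinarith
      rw [hκ] at this ⊢
      linarith
    calc z * ((1 + e) ^ 2 * Y * V * (1 + κ * w)) = (Y * (1 + e) ^ 2) * (z * V) * (1 + κ * w) := by
          ring
      _ ≤ (165 / 1000) * (6 / 100 * w) * (101 / 100 * M) := by
          gcongr
      _ ≤ w * (1 / 100 * M) := by nlinarith [mul_pos hw hM0]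
  rcases le_or_gt M ((1 + e * z) ^ 2 * (1 + κ * w)) with h5 | h5
  · have h6 : (w * (1 + e * z)) ^ 2 ≤ N ^ 2 := pow_le_pow_left₀ (by positivity) hb 2
    calc M * w ^ 2 ≤ (1 + e * z) ^ 2 * (1 + κ * w) * w ^ 2 :=
          mul_le_mul_of_nonneg_right h5 (by positivity)
      _ = (1 + κ * w) * (w * (1 + e * z)) ^ 2 := by ring
      _ ≤ _ := mul_le_mul_of_nonneg_left h6 hκw.le
  · have h6 : (1 + e) ^ 2 + (1 + e) ^ 2 * Y * V * (1 + κ * w) ≤
        (1 + e * z) ^ 2 * (1 + κ * w) := by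
      by_contra hcon
      push Not at hcon
      have h7 := mul_lt_mul_of_pos_left h5 hw
      have h8 := mul_lt_mul_of_pos_left hcon hz
      have h9 : (1 + e * z) ^ 2 * (1 + κ * w) =
          w * ((1 + e * z) ^ 2 * (1 + κ * w)) + z * ((1 + e * z) ^ 2 * (1 + κ * w)) := by
        rw [← add_mul, add_comm w z, hzw, one_mul]
      have h10 : w * M + z * ((1 + e) ^ 2) = (1 + e) ^ 2 + w * Y := by rw [hM, hz1]; ring
      have h11 : w * (1 / 100 * M) = w * (1 / 100 * (1 + e) ^ 2 + 1 / 100 * Y) := by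
        rw [hM]; ring
      nlinarith
    have h1e : 0 < 1 + e := by linarith
    set β : ℝ := (1 + e * z) / (1 + e) with hβ
    have hβ1 : β ≤ 1 := by
      rw [hβ, div_le_one h1e]
      nlinarith
    have hβ0 : 1 / 2 ≤ β := by
      rw [hβ, le_div_iff₀ h1e]
      nlinarith [mul_nonneg he hz.le]
    have h7 : 1 ≤ (β ^ 2 - Y * V) * (1 + κ * w) := by
      have h8 : (β ^ 2 - Y * V) * (1 + κ * w) =
          ((1 + e * z) ^ 2 * (1 + κ * w) - (1 + e) ^ 2 * Y * V * (1 + κ * w)) / (1 + e) ^ 2 := by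
        rw [hβ]; field_simp
      rw [h8, le_div_iff₀ (by positivity)]
      linarith
    have hYV : Y * V ≤ 9 / 64 := by nlinarith
    have h8 : 0 ≤ w * β - Y / 2 * (w * V) := by
      have : w * β - Y / 2 * (w * V) = w * (β - Y * V / 2) := by ring
      rw [this]
      apply mul_nonneg hw.le
      linarith
    have h9 : M * (w ^ 2 * (β ^ 2 - Y * V)) ≤ N ^ 2 := by
      have h10 := pow_le_pow_left₀ (mul_nonneg (Real.sqrt_nonneg M) h8) ha 2
      rw [mul_pow, Real.sq_sqrt hM0.le] at h10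
      refine le_trans (mul_le_mul_of_nonneg_left ?_ hM0.le) h10
      have h11 : (w * β - Y / 2 * (w * V)) ^ 2 = w ^ 2 * (β - Y * V / 2) ^ 2 := by ring
      rw [h11]
      refine mul_le_mul_of_nonneg_left ?_ (by positivity)
      have hYV0 : 0 ≤ Y * V := mul_nonneg hY hV0
      nlinarith [sq_nonneg (Y * V), mul_le_mul_of_nonneg_right hβ1 hYV0]
    calc M * w ^ 2 = M * w ^ 2 * 1 := by ring
      _ ≤ M * w ^ 2 * ((β ^ 2 - Y * V) * (1 + κ * w)) :=
          mul_le_mul_of_nonneg_left h7 (by positivity)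
      _ = (1 + κ * w) * (M * (w ^ 2 * (β ^ 2 - Y * V))) := by ring
      _ ≤ _ := mul_le_mul_of_nonneg_left h9 hκw.le

theorem fch_fac (M x : ℝ) (hM : M ≠ 0) (hx : 1 + x ≠ 0) :
    1 / M + (101 / 100 - 1 / M) / (1 + x) = (1 + (101 / 100 * M - 1) * (1 / (1 + x))) / M := by
  field_simp

/-- CX-FCH -/
theorem fch : S_FCH := by
  intro α x hr hα hx
  have hx1 : 0 < 1 + x := by linarith
  set z : ℝ := x / (1 + x) with hz
  have hz0 : 0 < z := by positivity
  have hz1 : z < 1 := by rw [hz, div_lt_one hx1]; linarith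
  have hw : 1 - z = 1 / (1 + x) := by rw [hz]; field_simp; ring
  have hw0 : 0 < 1 - z := by linarith
  set e : ℝ := -α.re with he
  have he0 : 0 ≤ e := by rw [he]; linarith
  have hM : ‖1 - α‖ ^ 2 = (1 + e) ^ 2 + α.im ^ 2 := by
    rw [Complex.sq_norm, Complex.normSq_apply, he]
    simp
    ring
  have hM' : ‖1 - α‖ = √((1 + e) ^ 2 + α.im ^ 2) := by
    rw [← hM, Real.sqrt_sq (norm_nonneg _)]
  have hn : e ^ 2 + α.im ^ 2 ≤ 9 / 64 := by
    have h1 : ‖α‖ ^ 2 = e ^ 2 + α.im ^ 2 := by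
      rw [Complex.sq_norm, Complex.normSq_apply, he]; ring
    rw [← h1]
    nlinarith [norm_nonneg α]
  set V : ℝ := 1 - z * Real.log z ^ 2 / (1 - z) ^ 2 with hV
  have hV0 : 0 ≤ V := by
    have h1 : ∫ t in z..1, (-Real.log t - (1 - z * (-Real.log z) / (1 - z))) ^ 2 = (1 - z) * V := by
      rw [fch_int hz0 hz1, hV]
      field_simp
      ring
    have h2 : 0 ≤ ∫ t in z..1, (-Real.log t - (1 - z * (-Real.log z) / (1 - z))) ^ 2 :=
      intervalIntegral.integral_nonneg hz1.le fun t _ => sq_nonneg _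
    rw [h1] at h2
    exact nonneg_of_mul_nonneg_right h2 hw0
  have hV1 : V ≤ 1 := by
    rw [hV]
    have : 0 ≤ z * Real.log z ^ 2 / (1 - z) ^ 2 := by positivity
    linarith
  have hVz := fch_var hz0 hz1
  rw [← hV] at hVz
  set N : ℝ := ‖1 - (z : ℂ) ^ (1 - α)‖ with hN
  have hre : (1 - α).re = 1 + e := by rw [he]; simp; ring
  have hbern : z ^ (1 + e) ≤ z * (1 - e * (1 - z)) := by
    rw [Real.rpow_add hz0, Real.rpow_one]
    refine mul_le_mul_of_nonneg_left ?_ hz0.le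
    have h1 := rpow_one_add_le_one_add_mul_self (s := -(1 - z)) (by linarith) he0
      (by nlinarith)
    rw [show 1 + -(1 - z) = z by ring] at h1
    linarith
  have hb : (1 - z) * (1 + e * z) ≤ N := by
    have h1 : ‖(z : ℂ) ^ (1 - α)‖ = z ^ (1 + e) := by
      rw [Complex.norm_cpow_eq_rpow_re_of_pos hz0, hre]
    have h2 := norm_sub_norm_le (1 : ℂ) ((z : ℂ) ^ (1 - α))
    rw [norm_one, h1] at h2
    refine le_trans ?_ h2
    nlinarith
  have ha : √((1 + e) ^ 2 + α.im ^ 2) * ((1 - z) * ((1 + e * z) / (1 + e)) -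
      α.im ^ 2 / 2 * ((1 - z) * V)) ≤ N := by
    have h1 := fch_low hr hz0 hz1
    rw [hM', ← hV, ← hN] at h1
    refine le_trans (mul_le_mul_of_nonneg_left ?_ (Real.sqrt_nonneg _)) h1
    have h2 : 1 - α.re = 1 + e := by rw [he]; ring
    rw [h2]
    have h3 : (1 - z) * ((1 + e * z) / (1 + e)) ≤ (1 - z ^ (1 + e)) / (1 + e) := by
      rw [← mul_div_assoc]
      apply div_le_div_of_nonneg_right _ (by linarith)
      nlinarith
    linarith
  have key := fch_alg he0 (sq_nonneg α.im) hn hz0 hw0 (by ring) hV0 hV1 hVz (norm_nonneg _) hb ha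
  rw [← hM] at key
  -- back to `x`
  have hfac : ‖((1 + x : ℝ) : ℂ) ^ (1 - α) - (x : ℂ) ^ (1 - α)‖ = (1 + x) ^ (1 + e) * N := by
    have h1 : (x : ℂ) = ((1 + x : ℝ) : ℂ) * (z : ℂ) := by
      rw [← Complex.ofReal_mul, hz]
      congr 1
      field_simp
    have h2 : (x : ℂ) ^ (1 - α) = ((1 + x : ℝ) : ℂ) ^ (1 - α) * (z : ℂ) ^ (1 - α) := by
      rw [h1, Complex.mul_cpow_ofReal_nonneg hx1.le hz0.le]
    have h3 : ((1 + x : ℝ) : ℂ) ^ (1 - α) - (x : ℂ) ^ (1 - α) =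
        ((1 + x : ℝ) : ℂ) ^ (1 - α) * (1 - (z : ℂ) ^ (1 - α)) := by rw [h2]; ring
    rw [h3, norm_mul, Complex.norm_cpow_eq_rpow_re_of_pos hx1, hre, hN]
  rw [hfac]
  have hM0 : 0 < ‖1 - α‖ ^ 2 := by rw [hM]; positivity
  have hpow : (1 + x) ^ (-(2 * α.re)) = ((1 + x) ^ (1 + e)) ^ 2 * (1 - z) ^ 2 := by
    rw [hw, ← Real.rpow_natCast, ← Real.rpow_mul hx1.le, one_div, ← Real.rpow_neg_one,
      ← Real.rpow_natCast, ← Real.rpow_mul hx1.le, ← Real.rpow_add hx1]
    congr 1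
    rw [he]
    push_cast
    ring
  rw [hpow, mul_pow]
  have hP : 0 < ((1 + x) ^ (1 + e)) ^ 2 := by positivity
  have h1 : (1 / ‖1 - α‖ ^ 2 + (101 / 100 - 1 / ‖1 - α‖ ^ 2) / (1 + x)) =
      (1 + (101 / 100 * ‖1 - α‖ ^ 2 - 1) * (1 - z)) / ‖1 - α‖ ^ 2 := by
    rw [hw]
    exact fch_fac _ x hM0.ne' hx1.ne'
  rw [h1]
  have h2 : (1 - z) ^ 2 ≤ (1 + (101 / 100 * ‖1 - α‖ ^ 2 - 1) * (1 - z)) / ‖1 - α‖ ^ 2 * N ^ 2 := by
    rw [div_mul_eq_mul_div, le_div_iff₀ hM0]
    linarith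
  calc ((1 + x) ^ (1 + e)) ^ 2 * (1 - z) ^ 2 ≤ ((1 + x) ^ (1 + e)) ^ 2 *
        ((1 + (101 / 100 * ‖1 - α‖ ^ 2 - 1) * (1 - z)) / ‖1 - α‖ ^ 2 * N ^ 2) :=
        mul_le_mul_of_nonneg_left h2 hP.le
    _ = _ := by ring

end Pool.Agent.H64.CX
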