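import Pool.Agent.H64.CX.Stm

/-! # CX-HB: the diagonal coefficients are controlled -/

set_option autoImplicit false

namespace Pool.Agent.H64.CX

open Finset

theorem hb : S_HB := by
  intro hHID hBTU a σ hre hre2 hσ
  obtain ⟨C, hC0, hC⟩ := hBTU (2 - a)
  refine ⟨4 * C ^ 2, by positivity, ?_⟩
  intro ν hν m hm
  have hmR : (1 : ℝ) ≤ m := by exact_mod_cast hm
  have h1 := hHID a ν hν m hm
  set μ : ℝ := σ + 2 * a.re with hμ
  have h2 : (m : ℝ) / 2 * ‖GD ν m‖ ≤ ∑ n ∈ Icc 1 m, ‖bt (2 - a) (n - 1)‖ * ‖TP a ν n m‖ := by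
    have h3 : ‖(m : ℂ) / 2 * GD ν m‖ = (m : ℝ) / 2 * ‖GD ν m‖ := by
      rw [norm_mul, norm_div, Complex.norm_natCast]
      norm_num
    rw [← h3, h1]
    refine (norm_sum_le _ _).trans (le_of_eq ?_)
    refine Finset.sum_congr rfl fun n _ => norm_mul _ _
  have h3 : (∑ n ∈ Icc 1 m, ‖bt (2 - a) (n - 1)‖ * ‖TP a ν n m‖) ^ 2 ≤
      (∑ n ∈ Icc 1 m, ‖bt (2 - a) (n - 1)‖ ^ 2 / n * ((m : ℝ) - n + 1) ^ μ) * PP a ν μ m := by
    unfold PP
    apply Finset.sum_sq_le_sum_mul_sum_of_sq_eq_mul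
    · intro n hn
      rw [Finset.mem_Icc] at hn
      have hn2 : (n : ℝ) ≤ m := by exact_mod_cast hn.2
      have : 0 ≤ ((m : ℝ) - n + 1) ^ μ := Real.rpow_nonneg (by linarith) _
      positivity
    · intro n hn
      rw [Finset.mem_Icc] at hn
      have hn2 : (n : ℝ) ≤ m := by exact_mod_cast hn.2
      have : 0 ≤ ((m : ℝ) - n + 1) ^ (-μ) := Real.rpow_nonneg (by linarith) _
      positivity
    · intro n hn
      rw [Finset.mem_Icc] at hn
      have hn1 : (1 : ℝ) ≤ n := by exact_mod_cast hn.1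
      have hn2 : (n : ℝ) ≤ m := by exact_mod_cast hn.2
      have h4 : ((m : ℝ) - n + 1) ^ μ * ((m : ℝ) - n + 1) ^ (-μ) = 1 := by
        rw [← Real.rpow_add (by linarith), add_neg_cancel, Real.rpow_zero]
      have hn0 : (n : ℝ) ≠ 0 := by linarith
      calc (‖bt (2 - a) (n - 1)‖ * ‖TP a ν n m‖) ^ 2
          = ‖bt (2 - a) (n - 1)‖ ^ 2 / n * (n * ‖TP a ν n m‖ ^ 2) *
            (((m : ℝ) - n + 1) ^ μ * ((m : ℝ) - n + 1) ^ (-μ)) := by
            rw [h4]; field_simp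
        _ = _ := by ring
  have hPP : 0 ≤ PP a ν μ m := by
    unfold PP
    apply Finset.sum_nonneg
    intro n hn
    rw [Finset.mem_Icc] at hn
    have hn2 : (n : ℝ) ≤ m := by exact_mod_cast hn.2
    have : 0 ≤ ((m : ℝ) - n + 1) ^ (-μ) := Real.rpow_nonneg (by linarith) _
    positivity
  have h4 : ∑ n ∈ Icc 1 m, ‖bt (2 - a) (n - 1)‖ ^ 2 / n * ((m : ℝ) - n + 1) ^ μ ≤
      C ^ 2 * (m : ℝ) ^ (2 + σ) := by
    have h5 : ∀ n ∈ Icc 1 m, ‖bt (2 - a) (n - 1)‖ ^ 2 / n * ((m : ℝ) - n + 1) ^ μ ≤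
        C ^ 2 * (m : ℝ) ^ (1 + σ) := by
      intro n hn
      rw [Finset.mem_Icc] at hn
      have hn1 : (1 : ℝ) ≤ n := by exact_mod_cast hn.1
      have hn2 : (n : ℝ) ≤ m := by exact_mod_cast hn.2
      have hn0 : (0 : ℝ) < n := by linarith
      have h6 := hC (n - 1)
      have h7 : ((n - 1 : ℕ) : ℝ) + 1 = n := by
        rw [Nat.cast_sub hn.1]
        push_cast
        ring
      rw [h7] at h6
      have h8 : (2 - a).re - 1 = 1 - a.re := by
        simp only [Complex.sub_re, Complex.re_ofNat]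
        ring
      rw [h8] at h6
      have h9 : ‖bt (2 - a) (n - 1)‖ ^ 2 / n ≤ C ^ 2 * (m : ℝ) ^ (1 - 2 * a.re) := by
        rw [div_le_iff₀ hn0]
        have h10 : ‖bt (2 - a) (n - 1)‖ ^ 2 ≤ (C * (n : ℝ) ^ (1 - a.re)) ^ 2 :=
          pow_le_pow_left₀ (norm_nonneg _) h6 2
        refine h10.trans ?_
        have h11 : ((n : ℝ) ^ (1 - a.re)) ^ 2 = (n : ℝ) ^ (1 - 2 * a.re) * n := by
          rw [← Real.rpow_natCast, ← Real.rpow_mul hn0.le]
          nth_rewrite 3 [← Real.rpow_one (n : ℝ)]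
          rw [← Real.rpow_add hn0]
          congr 1
          push_cast
          ring
        rw [mul_pow, h11, mul_assoc]
        apply mul_le_mul_of_nonneg_left _ (by positivity)
        apply mul_le_mul_of_nonneg_right _ hn0.le
        exact Real.rpow_le_rpow hn0.le hn2 (by linarith)
      have h12 : ((m : ℝ) - n + 1) ^ μ ≤ (m : ℝ) ^ μ :=
        Real.rpow_le_rpow (by linarith) (by linarith) (by rw [hμ]; linarith)
      have h13 : 0 ≤ ((m : ℝ) - n + 1) ^ μ := Real.rpow_nonneg (by linarith) _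
      calc ‖bt (2 - a) (n - 1)‖ ^ 2 / n * ((m : ℝ) - n + 1) ^ μ
          ≤ (C ^ 2 * (m : ℝ) ^ (1 - 2 * a.re)) * (m : ℝ) ^ μ :=
            mul_le_mul h9 h12 h13 (by positivity)
        _ = C ^ 2 * (m : ℝ) ^ (1 + σ) := by
            rw [mul_assoc, ← Real.rpow_add (by linarith)]
            congr 2
            rw [hμ]
            ring
    refine (Finset.sum_le_card_nsmul _ _ _ h5).trans (le_of_eq ?_)
    have h14 : (m : ℝ) ^ (2 + σ) = m * (m : ℝ) ^ (1 + σ) := by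
      rw [show (2 + σ : ℝ) = 1 + (1 + σ) by ring, Real.rpow_add (by linarith), Real.rpow_one]
    rw [Nat.card_Icc, Nat.add_sub_cancel, nsmul_eq_mul, h14]
    ring
  have h5 : ((m : ℝ) / 2 * ‖GD ν m‖) ^ 2 ≤ C ^ 2 * (m : ℝ) ^ (2 + σ) * PP a ν μ m :=
    (pow_le_pow_left₀ (by positivity) h2 2).trans
      (h3.trans (mul_le_mul_of_nonneg_right h4 hPP))
  have h6 : (m : ℝ) ^ (2 + σ) = (m : ℝ) ^ 2 * (m : ℝ) ^ σ := by
    rw [Real.rpow_add (by linarith), Real.rpow_two]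
  rw [h6] at h5
  have h7 : (m : ℝ) ^ σ ≤ ((m : ℝ) + 1) ^ σ :=
    Real.rpow_le_rpow (by positivity) (by linarith) hσ.le
  have hm2 : (0 : ℝ) < (m : ℝ) ^ 2 := by positivity
  have h8 : ‖GD ν m‖ ^ 2 ≤ 4 * C ^ 2 * (m : ℝ) ^ σ * PP a ν μ m := by
    have h9 : (m : ℝ) ^ 2 * ‖GD ν m‖ ^ 2 ≤
        (m : ℝ) ^ 2 * (4 * C ^ 2 * (m : ℝ) ^ σ * PP a ν μ m) := by
      nlinarith [h5]
    exact le_of_mul_le_mul_left h9 hm2
  refine h8.trans ?_
  apply mul_le_mul_of_nonneg_right _ hPP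
  apply mul_le_mul_of_nonneg_left h7 (by positivity)

end Pool.Agent.H64.CX
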