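import Pool.Agent.H64.CX.Stm

set_option autoImplicit false

/-! # CX-IDX: reindexing (helper85) -/

namespace Pool.Agent.H64.CX

open Metric Set Filter Topology MeasureTheory
open scoped ENNReal

/-- summation over the antidiagonals -/
theorem IDXh.antidiag (f : ℕ → ℕ → ℝ≥0∞) :
    ∑' m : ℕ, ∑ n ∈ Finset.range (m + 1), f n (m - n) = ∑' n : ℕ, ∑' j : ℕ, f n j := by
  have h1 : ∑' n : ℕ, ∑' j : ℕ, f n j = ∑' p : ℕ × ℕ, f p.1 p.2 :=
    (ENNReal.tsum_prod (f := f)).symm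
  have h2 := (Finset.HasAntidiagonal.sigmaAntidiagonalEquivProd (A := ℕ)).tsum_eq (fun p : ℕ × ℕ => f p.1 p.2)
  rw [h1, ← h2, ENNReal.tsum_sigma']
  refine tsum_congr fun m => ?_
  rw [tsum_fintype, Finset.univ_eq_attach]
  simp only [Finset.HasAntidiagonal.sigmaAntidiagonalEquivProd_apply]
  rw [Finset.sum_attach (Finset.HasAntidiagonal.antidiagonal m) (fun p => f p.1 p.2),
    Finset.Nat.sum_antidiagonal_eq_sum_range_succ (f := f)]

theorem idx : S_IDX := by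
  intro α ν μ ρ hρ H
  obtain ⟨f, hf⟩ : ∃ f : ℕ → ℕ → ℝ≥0∞, f = fun (n j : ℕ) =>
    ENNReal.ofReal (ρ ^ j * ((j : ℝ) + 1) ^ (-μ)) * ((n : ℝ≥0∞) * ‖TP α ν n (n + j)‖ₑ ^ 2) :=
    ⟨_, rfl⟩
  have hsq : ∀ (n : ℕ) (x : ℂ), (n : ℝ≥0∞) * ‖x‖ₑ ^ 2 = ENNReal.ofReal ((n : ℝ) * ‖x‖ ^ 2) := by
    intro n x
    rw [ENNReal.ofReal_mul (Nat.cast_nonneg n), ENNReal.ofReal_natCast,
      ENNReal.ofReal_pow (norm_nonneg x), ofReal_norm]
  have hleft : ∑' m : ℕ, ENNReal.ofReal (ρ ^ m * PP α ν μ m) ≤ ∑' n : ℕ, ∑' j : ℕ, f n j := by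
    rw [← IDXh.antidiag f]
    refine ENNReal.tsum_le_tsum fun m => ?_
    have h1 : ρ ^ m * PP α ν μ m = ∑ n ∈ Finset.Icc 1 m,
        ρ ^ m * ((n : ℝ) * ((m : ℝ) - n + 1) ^ (-μ) * ‖TP α ν n m‖ ^ 2) := by
      unfold PP
      rw [Finset.mul_sum]
    rw [h1, ENNReal.ofReal_sum_of_nonneg]
    · calc ∑ n ∈ Finset.Icc 1 m, ENNReal.ofReal
            (ρ ^ m * ((n : ℝ) * ((m : ℝ) - n + 1) ^ (-μ) * ‖TP α ν n m‖ ^ 2)) ≤
            ∑ n ∈ Finset.Icc 1 m, f n (m - n) := by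
            refine Finset.sum_le_sum fun n hn => ?_
            rw [Finset.mem_Icc] at hn
            have h2 : ((m - n : ℕ) : ℝ) = (m : ℝ) - n := Nat.cast_sub hn.2
            have h3 : n + (m - n) = m := by omega
            have h4 : (n : ℝ) ≤ m := by exact_mod_cast hn.2
            have h5 : 0 ≤ ((m : ℝ) - n + 1) ^ (-μ) := Real.rpow_nonneg (by linarith) _
            rw [hf]
            simp only
            rw [h3, hsq, ← ENNReal.ofReal_mul (mul_nonneg (pow_nonneg hρ.1.le _)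
              (by rw [h2]; exact h5)), h2]
            apply ENNReal.ofReal_le_ofReal
            have h6 : ρ ^ m ≤ ρ ^ (m - n) := pow_le_pow_of_le_one hρ.1.le hρ.2.le (Nat.sub_le m n)
            calc ρ ^ m * ((n : ℝ) * ((m : ℝ) - n + 1) ^ (-μ) * ‖TP α ν n m‖ ^ 2) ≤
                ρ ^ (m - n) * ((n : ℝ) * ((m : ℝ) - n + 1) ^ (-μ) * ‖TP α ν n m‖ ^ 2) :=
                  mul_le_mul_of_nonneg_right h6 (by positivity)
              _ = _ := by ring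
        _ ≤ ∑ n ∈ Finset.range (m + 1), f n (m - n) := by
            apply Finset.sum_le_sum_of_subset
            intro n hn
            rw [Finset.mem_Icc] at hn
            rw [Finset.mem_range]
            omega
    · intro n hn
      rw [Finset.mem_Icc] at hn
      have h4 : (n : ℝ) ≤ m := by exact_mod_cast hn.2
      have h5 : 0 ≤ ((m : ℝ) - n + 1) ^ (-μ) := Real.rpow_nonneg (by linarith) _
      have h6 := pow_nonneg hρ.1.le m
      positivity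
  have hright : ∑' k : ℕ, ∑' m : ℕ, ENNReal.ofReal (ρ ^ (m + k) * ((m : ℝ) + k + 1) ^ (-μ)) *
        ((k : ℝ≥0∞) * ‖TN α ν k m‖ₑ ^ 2) ≤
      ∑' m : ℕ, ENNReal.ofReal (ρ ^ m) *
        ∑' k : ℕ, ENNReal.ofReal ((k : ℝ) * ((m : ℝ) + k + 1) ^ (-μ) * ‖TN α ν k m‖ ^ 2) := by
    rw [ENNReal.tsum_comm]
    refine ENNReal.tsum_le_tsum fun m => ?_
    rw [← ENNReal.tsum_mul_left]
    refine ENNReal.tsum_le_tsum fun k => ?_
    have h5 : 0 ≤ ((m : ℝ) + k + 1) ^ (-μ) := Real.rpow_nonneg (by positivity) _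
    rw [hsq, ← ENNReal.ofReal_mul (mul_nonneg (pow_nonneg hρ.1.le _) h5),
      ← ENNReal.ofReal_mul (pow_nonneg hρ.1.le _)]
    apply ENNReal.ofReal_le_ofReal
    have h6 : ρ ^ (m + k) ≤ ρ ^ m :=
      pow_le_pow_of_le_one hρ.1.le hρ.2.le (Nat.le_add_right m k)
    calc ρ ^ (m + k) * ((m : ℝ) + k + 1) ^ (-μ) * ((k : ℝ) * ‖TN α ν k m‖ ^ 2) =
        ρ ^ (m + k) * ((k : ℝ) * ((m : ℝ) + k + 1) ^ (-μ) * ‖TN α ν k m‖ ^ 2) := by ring
      _ ≤ _ := mul_le_mul_of_nonneg_right h6 (by positivity)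
  rw [hf] at hleft
  exact hleft.trans (H.trans hright)

end Pool.Agent.H64.CX
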