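import Pool.Agent.H64.CX.StmN

set_option autoImplicit false

/-! # CX-LA: the integral over `x`, first part (helper69) -/

namespace Pool.Agent.H64.CX

open Set Filter Topology MeasureTheory

namespace LA

/-- the fundamental theorem of calculus on a half line, as an upper bound of a `lintegral` -/
lemma fin (f F' F : ℝ → ℝ) (L : ℝ) (hd : ∀ x ∈ Ici (0 : ℝ), HasDerivAt F (F' x) x)
    (h0 : ∀ x ∈ Ioi (0 : ℝ), 0 ≤ F' x) (hle : ∀ x ∈ Ioi (0 : ℝ), f x ≤ F' x)
    (hlim : Tendsto F atTop (𝓝 L)) :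
    ∫⁻ x in Ioi (0 : ℝ), ENNReal.ofReal (f x) ≤ ENNReal.ofReal (L - F 0) := by
  have hint : IntegrableOn F' (Ioi 0) := integrableOn_Ioi_deriv_of_nonneg' hd h0 hlim
  have hI : ∫ x in Ioi (0 : ℝ), F' x = L - F 0 := integral_Ioi_of_hasDerivAt_of_nonneg' hd h0 hlim
  calc ∫⁻ x in Ioi (0 : ℝ), ENNReal.ofReal (f x)
      ≤ ∫⁻ x in Ioi (0 : ℝ), ENNReal.ofReal (F' x) :=
        setLIntegral_mono' measurableSet_Ioi fun x hx => ENNReal.ofReal_le_ofReal (hle x hx)
    _ = ENNReal.ofReal (∫ x in Ioi (0 : ℝ), F' x) := by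
        rw [ofReal_integral_eq_lintegral_ofReal hint]
        exact (ae_restrict_iff' measurableSet_Ioi).2 (Eventually.of_forall h0)
    _ = ENNReal.ofReal (L - F 0) := by rw [hI]

/-- the difference of the integrand (without the power) and its majorant -/
noncomputable def g (s x : ℝ) : ℝ := x * (1 / (s + x) + 1 / (1 + x - s)) ^ 2 - 4 / (1 + x)

lemma g_eq (s x : ℝ) (hs : 0 < s) (hs1 : s < 1) (hx : 0 ≤ x) :
    g s x = (x * (1 + x) * (1 - 8 * (s * (1 - s))) - 4 * (s * (1 - s)) ^ 2) /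
      ((1 + x) * (x * (1 + x) + s * (1 - s)) ^ 2) := by
  have h1 : s + x ≠ 0 := by positivity
  have h2 : 1 + x - s ≠ 0 := by
    have : 0 < 1 + x - s := by linarith
    exact this.ne'
  have h3 : 1 + x ≠ 0 := by positivity
  have h4 : x * (1 + x) + s * (1 - s) = (s + x) * (1 + x - s) := by ring
  rw [h4]
  unfold g
  field_simp
  ring

lemma g_den_pos (s x : ℝ) (hs : 0 < s) (hs1 : s < 1) (hx : 0 ≤ x) :
    0 < (1 + x) * (x * (1 + x) + s * (1 - s)) ^ 2 := by
  have : 0 < 1 - s := by linarith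
  positivity

/-- the integrand in terms of `g` -/
lemma int_eq (σ s x : ℝ) (hx : 0 ≤ x) :
    x * (1 + x) ^ (-σ) * (1 / (s + x) + 1 / (1 + x - s)) ^ 2 =
      4 * (1 + x) ^ (-σ - 1) + (1 + x) ^ (-σ) * g s x := by
  have h3 : 0 < 1 + x := by linarith
  rw [Real.rpow_sub_one h3.ne']
  unfold g
  ring

lemma deriv_pow (σ x : ℝ) (hσ : 0 < σ) (hx : 0 ≤ x) :
    HasDerivAt (fun x : ℝ => -(4 / σ) * (1 + x) ^ (-σ)) (4 * (1 + x) ^ (-σ - 1)) x := by
  have h3 : 0 < 1 + x := by linarith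
  have h := ((hasDerivAt_id x).const_add 1).rpow_const (p := -σ) (Or.inl h3.ne')
  have h2 := h.const_mul (-(4 / σ))
  refine h2.congr_deriv ?_
  simp only [id]
  field_simp

lemma lim_pow (σ : ℝ) (hσ : 0 < σ) :
    Tendsto (fun x : ℝ => -(4 / σ) * (1 + x) ^ (-σ)) atTop (𝓝 0) := by
  have h : Tendsto (fun x : ℝ => (1 + x) ^ (-σ)) atTop (𝓝 0) :=
    (tendsto_rpow_neg_atTop hσ).comp (tendsto_atTop_add_const_left _ _ tendsto_id)
  simpa using h.const_mul (-(4 / σ))

/-- a primitive of `g` -/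
noncomputable def Gm (s x : ℝ) : ℝ :=
  (1 - 4 * s) / (1 - 2 * s) * (Real.log (s + x) - Real.log (1 + x)) +
    (3 - 4 * s) / (1 - 2 * s) * (Real.log (1 + x - s) - Real.log (1 + x)) +
    s / (s + x) + (1 - s) / (1 + x - s)

lemma deriv_Gm (s x : ℝ) (hs : 0 < s) (hs1 : s < 1 / 2) (hx : 0 ≤ x) :
    HasDerivAt (Gm s) (g s x) x := by
  have h1 : 0 < s + x := by positivity
  have h2 : 0 < 1 + x - s := by linarith
  have h3 : 0 < 1 + x := by linarith
  have h4 : 1 - 2 * s ≠ 0 := by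
    have : 0 < 1 - 2 * s := by linarith
    exact this.ne'
  have d1 : HasDerivAt (fun x : ℝ => s + x) 1 x := (hasDerivAt_id x).const_add s
  have d3 : HasDerivAt (fun x : ℝ => 1 + x) 1 x := (hasDerivAt_id x).const_add 1
  have d2 : HasDerivAt (fun x : ℝ => 1 + x - s) 1 x := d3.sub_const s
  have l1 := d1.log h1.ne'
  have l2 := d2.log h2.ne'
  have l3 := d3.log h3.ne'
  have q1 := (hasDerivAt_const x s).div d1 h1.ne'
  have q2 := (hasDerivAt_const x (1 - s)).div d2 h2.ne'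
  have := ((((l1.sub l3).const_mul ((1 - 4 * s) / (1 - 2 * s))).add
    ((l2.sub l3).const_mul ((3 - 4 * s) / (1 - 2 * s)))).add q1).add q2
  refine this.congr_deriv ?_
  have e1 := h1.ne'
  have e2 := h2.ne'
  have e3 := h3.ne'
  obtain ⟨A, hA⟩ : ∃ A, A = (1 - 4 * s) / (1 - 2 * s) := ⟨_, rfl⟩
  obtain ⟨B, hB⟩ : ∃ B, B = (3 - 4 * s) / (1 - 2 * s) := ⟨_, rfl⟩
  have hA' : A * (1 - 2 * s) = 1 - 4 * s := by rw [hA]; exact div_mul_cancel₀ _ h4
  have hB' : B * (1 - 2 * s) = 3 - 4 * s := by rw [hB]; exact div_mul_cancel₀ _ h4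
  have hAB : A + B = 4 := by
    apply mul_right_cancel₀ h4
    linear_combination hA' + hB'
  have hAB2 : A * (1 + x - s) + B * (s + x) = 1 + 4 * x := by
    linear_combination (1 + x - s) * hAB - hB'
  have t1 : A / (s + x) + B / (1 + x - s) = (1 + 4 * x) / ((s + x) * (1 + x - s)) := by
    rw [div_add_div _ _ e1 e2, ← hAB2]; ring
  rw [← hA, ← hB]
  have t2 : A * (1 / (s + x) - 1 / (1 + x)) + B * (1 / (1 + x - s) - 1 / (1 + x)) +
      (0 * (s + x) - s * 1) / (s + x) ^ 2 + (0 * (1 + x - s) - (1 - s) * 1) / (1 + x - s) ^ 2 =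
      (A / (s + x) + B / (1 + x - s)) - (A + B) / (1 + x) - s / (s + x) ^ 2 -
        (1 - s) / (1 + x - s) ^ 2 := by ring
  rw [t2, t1, hAB]
  unfold g
  field_simp
  ring

lemma lim_log (a : ℝ) : Tendsto (fun x : ℝ => Real.log (a + x) - Real.log (1 + x)) atTop (𝓝 0) := by
  have hx : Tendsto (fun x : ℝ => 1 + x) atTop atTop := tendsto_atTop_add_const_left _ _ tendsto_id
  have h1 : Tendsto (fun x : ℝ => 1 + (a - 1) * (1 + x)⁻¹) atTop (𝓝 1) := by
    have := ((tendsto_inv_atTop_zero.comp hx).const_mul (a - 1)).const_add 1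
    simpa using this
  have h2 : Tendsto (fun x : ℝ => Real.log (1 + (a - 1) * (1 + x)⁻¹)) atTop (𝓝 0) := by
    have := (Real.continuousAt_log (one_ne_zero)).tendsto.comp h1
    rw [Real.log_one] at this
    exact this
  refine h2.congr' ?_
  filter_upwards [eventually_gt_atTop (0 : ℝ), eventually_gt_atTop (-a)] with x hx0 hxa
  have h3 : 0 < 1 + x := by linarith
  have h4 : 0 < a + x := by linarith
  rw [← Real.log_div h4.ne' h3.ne']
  congr 1
  field_simp
  ring

lemma lim_Gm (s : ℝ) : Tendsto (Gm s) atTop (𝓝 0) := by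
  have h1 := (lim_log s).const_mul ((1 - 4 * s) / (1 - 2 * s))
  have h2 : Tendsto (fun x : ℝ => Real.log (1 + x - s) - Real.log (1 + x)) atTop (𝓝 0) := by
    refine (lim_log (1 - s)).congr fun x => ?_
    rw [show 1 - s + x = 1 + x - s by ring]
  have h2' := h2.const_mul ((3 - 4 * s) / (1 - 2 * s))
  have h3 : Tendsto (fun x : ℝ => s / (s + x)) atTop (𝓝 0) :=
    (tendsto_atTop_add_const_left _ _ tendsto_id).const_div_atTop s
  have h4 : Tendsto (fun x : ℝ => (1 - s) / (1 + x - s)) atTop (𝓝 0) := by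
    have : Tendsto (fun x : ℝ => 1 + x - s) atTop atTop := by
      have := tendsto_atTop_add_const_left atTop (1 - s) (tendsto_id (α := ℝ))
      refine this.congr fun x => ?_
      simp only [id]; ring
    exact this.const_div_atTop (1 - s)
  have := ((h1.add h2').add h3).add h4
  rw [mul_zero, mul_zero, add_zero, add_zero, add_zero] at this
  exact this

lemma nonneg_int (σ s x : ℝ) (hx : 0 ≤ x) :
    0 ≤ x * (1 + x) ^ (-σ) * (1 / (s + x) + 1 / (1 + x - s)) ^ 2 := by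
  have : 0 ≤ (1 + x) ^ (-σ) := Real.rpow_nonneg (by linarith) _
  positivity

/-- the case in which the difference is negative -/
lemma case_neg (σ s : ℝ) (hσ : 0 < σ) (hs : 0 < s) (hs1 : s < 1) (hv : 1 ≤ 8 * (s * (1 - s))) :
    ∫⁻ x in Ioi (0 : ℝ), ENNReal.ofReal (x * (1 + x) ^ (-σ) * (1 / (s + x) + 1 / (1 + x - s)) ^ 2) ≤
      ENNReal.ofReal (4 / σ) := by
  have h := fin (fun x => x * (1 + x) ^ (-σ) * (1 / (s + x) + 1 / (1 + x - s)) ^ 2)
    (fun x => 4 * (1 + x) ^ (-σ - 1)) (fun x : ℝ => -(4 / σ) * (1 + x) ^ (-σ)) 0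
    (fun x hx => deriv_pow σ x hσ hx)
    (fun x hx => by
      have hx' : (0 : ℝ) < x := hx
      have : 0 ≤ (1 + x) ^ (-σ - 1) := Real.rpow_nonneg (by linarith) _
      positivity)
    (fun x hx => by
      have hx' : (0 : ℝ) < x := hx
      rw [int_eq σ s x hx'.le]
      have h1 : 0 ≤ (1 + x) ^ (-σ) := Real.rpow_nonneg (by linarith) _
      have h2 : g s x ≤ 0 := by
        rw [g_eq s x hs hs1 hx'.le]
        apply div_nonpos_of_nonpos_of_nonneg _ (g_den_pos s x hs hs1 hx'.le).le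
        have : 0 ≤ x * (1 + x) := by positivity
        nlinarith [mul_nonneg this (by linarith : 0 ≤ 8 * (s * (1 - s)) - 1), sq_nonneg (s * (1 - s))]
      nlinarith [mul_nonneg h1 (by linarith : 0 ≤ -g s x)])
    (lim_pow σ hσ)
  simpa using h

/-- the logarithmic inequality -/
lemma log_ineq (s : ℝ) (hs : 0 < s) (hs1 : s ≤ 1 / 5) :
    -((1 - 4 * s) / (1 - 2 * s) * Real.log s + (3 - 4 * s) / (1 - 2 * s) * Real.log (1 - s)) ≤
      Real.log (1 / s) := by
  have h2 : 0 < 1 - 2 * s := by linarith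
  have h3 : 0 < 1 - s := by linarith
  -- `log (1 / s) ≥ 3 / 2`
  have hl1 : 3 / 2 ≤ Real.log (1 / s) := by
    rw [Real.le_log_iff_exp_le (by positivity)]
    have he : Real.exp (3 / 2) ≤ 5 := by
      have h1 := Real.exp_one_lt_d9
      have h2 : Real.exp (3 / 2) ^ 2 = Real.exp 1 ^ 3 := by
        rw [← Real.exp_nat_mul, ← Real.exp_nat_mul]; norm_num
      have h3 : Real.exp 1 ^ 3 ≤ 25 := by
        have : Real.exp 1 ^ 3 ≤ (2.7182818286 : ℝ) ^ 3 :=
          pow_le_pow_left₀ (Real.exp_pos 1).le h1.le 3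
        refine this.trans ?_
        norm_num
      have h4 : 0 < Real.exp (3 / 2) := Real.exp_pos _
      nlinarith
    refine he.trans ?_
    rw [le_div_iff₀ hs]; linarith
  have hl2 : -(s / (1 - s)) ≤ Real.log (1 - s) := by
    have := Real.one_sub_inv_le_log_of_pos h3
    refine le_trans (le_of_eq ?_) this
    field_simp
    ring
  have hl3 : Real.log (1 / s) = -Real.log s := by rw [one_div, Real.log_inv]
  have key : 2 * s * Real.log s ≤ (3 - 4 * s) * Real.log (1 - s) := by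
    have h4 : 0 < 3 - 4 * s := by linarith
    have h5 : (3 - 4 * s) * -(s / (1 - s)) ≤ (3 - 4 * s) * Real.log (1 - s) :=
      mul_le_mul_of_nonneg_left hl2 h4.le
    have h6 : -(3 * s) ≤ (3 - 4 * s) * -(s / (1 - s)) := by
      rw [mul_neg, neg_le_neg_iff, ← mul_div_assoc, div_le_iff₀ h3]
      nlinarith [sq_nonneg s]
    have h7 : 2 * s * Real.log s ≤ -(3 * s) := by
      have : Real.log s ≤ -(3 / 2) := by linarith
      nlinarith
    linarith
  rw [hl3]
  have e : -((1 - 4 * s) / (1 - 2 * s) * Real.log s + (3 - 4 * s) / (1 - 2 * s) * Real.log (1 - s)) =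
      -Real.log s + (2 * s * Real.log s - (3 - 4 * s) * Real.log (1 - s)) / (1 - 2 * s) := by
    have e4 : (1 - 2 * s) / (1 - 2 * s) = 1 := div_self h2.ne'
    have : -Real.log s = -(Real.log s * ((1 - 2 * s) / (1 - 2 * s))) := by rw [e4]; ring
    rw [this]
    ring
  rw [e]
  have : (2 * s * Real.log s - (3 - 4 * s) * Real.log (1 - s)) / (1 - 2 * s) ≤ 0 :=
    div_nonpos_of_nonpos_of_nonneg (by linarith) h2.le
  linarith

/-- the case in which the difference changes its sign -/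
lemma case_pos (σ s : ℝ) (hσ : 0 < σ) (hs : 0 < s) (hs1 : s < 1 / 2) (hv : 8 * (s * (1 - s)) < 1) :
    ∫⁻ x in Ioi (0 : ℝ), ENNReal.ofReal (x * (1 + x) ^ (-σ) * (1 / (s + x) + 1 / (1 + x - s)) ^ 2) ≤
      ENNReal.ofReal (4 / σ + max 0 (Real.log (1 / s) - 2)) := by
  obtain ⟨v, hvd⟩ : ∃ v, v = s * (1 - s) := ⟨_, rfl⟩
  have hv0 : 0 < v := by rw [hvd]; exact mul_pos hs (by linarith)
  rw [← hvd] at hv
  have hu : 0 < 1 - 8 * v := by linarith
  obtain ⟨X, hX⟩ : ∃ X, X = 4 * v ^ 2 / (1 - 8 * v) := ⟨_, rfl⟩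
  have hX0 : 0 < X := by rw [hX]; positivity
  have hXe : X * (1 - 8 * v) = 4 * v ^ 2 := by rw [hX]; exact div_mul_cancel₀ _ hu.ne'
  obtain ⟨z, hz⟩ : ∃ z, z = (Real.sqrt (1 + 4 * X) - 1) / 2 := ⟨_, rfl⟩
  have hsq : Real.sqrt (1 + 4 * X) ^ 2 = 1 + 4 * X := Real.sq_sqrt (by positivity)
  have hsq1 : 1 < Real.sqrt (1 + 4 * X) := by
    rw [Real.lt_sqrt (by norm_num)]; linarith
  have hz0 : 0 < z := by rw [hz]; linarith
  have hzX : z * (1 + z) = X := by rw [hz]; nlinarith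
  obtain ⟨c, hc⟩ : ∃ c, c = (1 + z) ^ (-σ) := ⟨_, rfl⟩
  have hc0 : 0 ≤ c := by rw [hc]; exact Real.rpow_nonneg (by linarith) _
  have hc1 : c ≤ 1 := by
    rw [hc]; exact Real.rpow_le_one_of_one_le_of_nonpos (by linarith) (by linarith)
  have hs1' : s < 1 := by linarith
  have hle : ∀ x ∈ Ioi (0 : ℝ), x * (1 + x) ^ (-σ) * (1 / (s + x) + 1 / (1 + x - s)) ^ 2 ≤
      4 * (1 + x) ^ (-σ - 1) + c * g s x := by
    intro x hx
    have hx' : (0 : ℝ) < x := hx
    rw [int_eq σ s x hx'.le]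
    have hd := g_den_pos s x hs hs1' hx'.le
    rcases le_total x z with hxz | hxz
    · have h1 : c ≤ (1 + x) ^ (-σ) := by
        rw [hc]
        exact Real.rpow_le_rpow_of_nonpos (by linarith) (by linarith) (by linarith)
      have h2 : g s x ≤ 0 := by
        rw [g_eq s x hs hs1' hx'.le]
        apply div_nonpos_of_nonpos_of_nonneg _ hd.le
        rw [← hvd]
        have : x * (1 + x) ≤ X := by rw [← hzX]; nlinarith
        nlinarith
      nlinarith [mul_nonneg (by linarith : 0 ≤ (1 + x) ^ (-σ) - c) (by linarith : 0 ≤ -g s x)]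
    · have h1 : (1 + x) ^ (-σ) ≤ c := by
        rw [hc]
        exact Real.rpow_le_rpow_of_nonpos (by linarith) (by linarith) (by linarith)
      have h2 : 0 ≤ g s x := by
        rw [g_eq s x hs hs1' hx'.le]
        apply div_nonneg _ hd.le
        rw [← hvd]
        have : X ≤ x * (1 + x) := by rw [← hzX]; nlinarith
        nlinarith
      nlinarith [mul_nonneg (by linarith : 0 ≤ c - (1 + x) ^ (-σ)) h2]
  have h := fin (fun x => x * (1 + x) ^ (-σ) * (1 / (s + x) + 1 / (1 + x - s)) ^ 2)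
    (fun x => 4 * (1 + x) ^ (-σ - 1) + c * g s x)
    (fun x : ℝ => -(4 / σ) * (1 + x) ^ (-σ) + c * Gm s x) (0 + c * 0)
    (fun x hx => (deriv_pow σ x hσ hx).add ((deriv_Gm s x hs hs1 hx).const_mul c))
    (fun x hx => (nonneg_int σ s x (le_of_lt hx)).trans (hle x hx))
    hle
    ((lim_pow σ hσ).add ((lim_Gm s).const_mul c))
  refine h.trans (ENNReal.ofReal_le_ofReal ?_)
  have hG0 : Gm s 0 = (1 - 4 * s) / (1 - 2 * s) * Real.log s +
      (3 - 4 * s) / (1 - 2 * s) * Real.log (1 - s) + 2 := by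
    unfold Gm
    have h1 : s ≠ 0 := hs.ne'
    have h2 : (1 : ℝ) - s ≠ 0 := by
      have : 0 < 1 - s := by linarith
      exact this.ne'
    simp only [add_zero, Real.log_one, sub_zero]
    rw [div_self h1, div_self h2]
    ring
  have hs5 : s ≤ 1 / 5 := by
    by_contra hcon
    push Not at hcon
    have : v = s * (1 - s) := hvd
    nlinarith
  have hlog := log_ineq s hs hs5
  simp only [mul_zero, add_zero, Real.one_rpow, mul_one, zero_sub]
  rw [hG0]
  have h3 : c * (-(((1 - 4 * s) / (1 - 2 * s) * Real.log s +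
      (3 - 4 * s) / (1 - 2 * s) * Real.log (1 - s)) + 2)) ≤ max 0 (Real.log (1 / s) - 2) := by
    rcases le_total (-(((1 - 4 * s) / (1 - 2 * s) * Real.log s +
      (3 - 4 * s) / (1 - 2 * s) * Real.log (1 - s)) + 2)) 0 with h0 | h0
    · exact (mul_nonpos_of_nonneg_of_nonpos hc0 h0).trans (le_max_left _ _)
    · refine le_trans ?_ (le_max_right _ _)
      nlinarith
  linarith

lemma half (σ s : ℝ) (hσ : 0 < σ) (hs : 0 < s) (hs1 : s ≤ 1 / 2) :
    ∫⁻ x in Ioi (0 : ℝ), ENNReal.ofReal (x * (1 + x) ^ (-σ) * (1 / (s + x) + 1 / (1 + x - s)) ^ 2) ≤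
      ENNReal.ofReal (4 / σ + max 0 (Real.log (1 / s) - 2)) := by
  rcases le_or_gt 1 (8 * (s * (1 - s))) with hv | hv
  · refine (case_neg σ s hσ hs (by linarith) hv).trans (ENNReal.ofReal_le_ofReal ?_)
    have := le_max_left (0 : ℝ) (Real.log (1 / s) - 2)
    linarith
  · refine case_pos σ s hσ hs ?_ hv
    rcases lt_or_eq_of_le hs1 with h | h
    · exact h
    · exfalso; rw [h] at hv; norm_num at hv

end LA

theorem la : S_LA := by
  intro σ s hσ hs hs1
  rcases le_total s (1 / 2) with h | h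
  · refine (LA.half σ s hσ hs h).trans (ENNReal.ofReal_le_ofReal ?_)
    have := le_max_left (0 : ℝ) (Real.log (1 / (1 - s)) - 2)
    linarith
  · have h1 := LA.half σ (1 - s) hσ (by linarith) (by linarith)
    have e : ∀ x : ℝ, x * (1 + x) ^ (-σ) * (1 / (s + x) + 1 / (1 + x - s)) ^ 2 =
        x * (1 + x) ^ (-σ) * (1 / (1 - s + x) + 1 / (1 + x - (1 - s))) ^ 2 := by
      intro x
      rw [show 1 - s + x = 1 + x - s by ring, show 1 + x - (1 - s) = s + x by ring,
        add_comm (1 / (s + x))]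
    simp only [e]
    refine h1.trans (ENNReal.ofReal_le_ofReal ?_)
    have := le_max_left (0 : ℝ) (Real.log (1 / s) - 2)
    linarith

end Pool.Agent.H64.CX
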