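import Pool.Agent.H64.CX.StmN

/-! # CX-LB: the integral over `x`, second part (helper75)

With `m = s (1 - s)`, `u = x (x + 1)`, `P = u + m` the integrand is at most
`x (2 x + 1)² / ((1 + x) P²)`, and this is at most
`u (2 x + 1) / P² - x (2 x + 1) / (1 + x)³ + 2 m (2 x + 1) / (1 + x)⁴`, the difference being
`(2 x + 1) (3 u m² + 2 m³) / ((1 + x)⁴ P²)`. The integral of this function is
`log (1 / m) + 3 / 2 + 4 m / 3`. -/

set_option autoImplicit false

open MeasureTheory Set Filter Topology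

namespace Pool.Agent.H64.CX

namespace LBAux

/-- the dominating function -/
noncomputable def h (m x : ℝ) : ℝ :=
  x * (x + 1) * (2 * x + 1) / (x * (x + 1) + m) ^ 2 - x * (2 * x + 1) / (1 + x) ^ 3 +
    2 * m * (2 * x + 1) / (1 + x) ^ 4

/-- its antiderivative -/
noncomputable def H (m x : ℝ) : ℝ :=
  Real.log (x * (x + 1) + m) + m * (x * (x + 1) + m)⁻¹ - 2 * Real.log (1 + x) - 3 * (1 + x)⁻¹ +
    (1 / 2 - 2 * m) * ((1 + x)⁻¹) ^ 2 + 2 * m / 3 * ((1 + x)⁻¹) ^ 3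

theorem H_deriv {m x : ℝ} (hm : 0 < m) (hx : 0 ≤ x) : HasDerivAt (H m) (h m x) x := by
  have hP0 : 0 < x * (x + 1) + m := by positivity
  have hy0 : 0 < 1 + x := by linarith
  have hP : HasDerivAt (fun x : ℝ => x * (x + 1) + m) (2 * x + 1) x := by
    have h1 := ((hasDerivAt_id x).mul ((hasDerivAt_id x).add_const (1 : ℝ))).add_const m
    have e : 1 * (id x + 1) + id x * 1 = 2 * x + 1 := by simp only [id]; ring
    rw [e] at h1
    exact h1
  have hy : HasDerivAt (fun x : ℝ => 1 + x) 1 x := by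
    exact (hasDerivAt_id x).const_add 1
  have hz := hy.inv hy0.ne'
  have h1 := (((((hP.log hP0.ne').add ((hP.inv hP0.ne').const_mul m)).sub
    ((hy.log hy0.ne').const_mul 2)).sub (hz.const_mul 3)).add
    ((hz.pow 2).const_mul (1 / 2 - 2 * m))).add ((hz.pow 3).const_mul (2 * m / 3))
  have e : h m x = (2 * x + 1) / (x * (x + 1) + m) +
      m * (-(2 * x + 1) / (x * (x + 1) + m) ^ 2) - 2 * (1 / (1 + x)) -
      3 * (-1 / (1 + x) ^ 2) +
      (1 / 2 - 2 * m) * (((2 : ℕ) : ℝ) * ((1 + x)⁻¹) ^ (2 - 1) * (-1 / (1 + x) ^ 2)) +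
      2 * m / 3 * (((3 : ℕ) : ℝ) * ((1 + x)⁻¹) ^ (3 - 1) * (-1 / (1 + x) ^ 2)) := by
    unfold h
    push_cast
    norm_num
    field_simp
    ring
  rw [e]
  exact h1

theorem H_lim {m : ℝ} (hm : 0 < m) : Tendsto (H m) atTop (𝓝 0) := by
  have hz : Tendsto (fun x : ℝ => (1 + x)⁻¹) atTop (𝓝 0) :=
    tendsto_inv_atTop_zero.comp (tendsto_atTop_add_const_left _ _ tendsto_id)
  have hc : ContinuousAt (fun z : ℝ => Real.log (1 - z + m * z ^ 2) +
      m * (z ^ 2 * (1 - z + m * z ^ 2)⁻¹) - 3 * z + (1 / 2 - 2 * m) * z ^ 2 +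
      2 * m / 3 * z ^ 3) 0 := by
    have h0 : (1 - (0 : ℝ) + m * 0 ^ 2) ≠ 0 := by norm_num
    have h1 : ContinuousAt (fun z : ℝ => 1 - z + m * z ^ 2) 0 := by fun_prop
    have h2 : ContinuousAt (fun z : ℝ => Real.log (1 - z + m * z ^ 2)) 0 := h1.log h0
    have h3 : ContinuousAt (fun z : ℝ => (1 - z + m * z ^ 2)⁻¹) 0 := h1.inv₀ h0
    fun_prop
  have h1 := hc.tendsto.comp hz
  have e0 : (Real.log (1 - (0 : ℝ) + m * 0 ^ 2) +
      m * ((0 : ℝ) ^ 2 * (1 - 0 + m * 0 ^ 2)⁻¹) - 3 * 0 + (1 / 2 - 2 * m) * 0 ^ 2 +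
      2 * m / 3 * 0 ^ 3) = 0 := by norm_num
  rw [e0] at h1
  refine h1.congr' ?_
  filter_upwards [eventually_gt_atTop (0 : ℝ)] with x hx
  have hy0 : 0 < 1 + x := by linarith
  have hP0 : 0 < x * (x + 1) + m := by positivity
  have e1 : 1 - (1 + x)⁻¹ + m * ((1 + x)⁻¹) ^ 2 = (x * (x + 1) + m) / (1 + x) ^ 2 := by
    field_simp
    ring
  have e2 : Real.log (1 - (1 + x)⁻¹ + m * ((1 + x)⁻¹) ^ 2) =
      Real.log (x * (x + 1) + m) - 2 * Real.log (1 + x) := by
    rw [e1, Real.log_div hP0.ne' (by positivity), Real.log_pow]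
    push_cast
    ring
  have e3 : ((1 + x)⁻¹) ^ 2 * (1 - (1 + x)⁻¹ + m * ((1 + x)⁻¹) ^ 2)⁻¹ =
      (x * (x + 1) + m)⁻¹ := by
    rw [e1]
    field_simp
  simp only [Function.comp_apply]
  unfold H
  rw [e2, e3]
  ring

theorem le_h {m x : ℝ} (hm : 0 < m) (hx : 0 < x) :
    x / (1 + x) * ((2 * x + 1) / (x * (x + 1) + m)) ^ 2 ≤ h m x := by
  have hP0 : 0 < x * (x + 1) + m := by positivity
  have e : h m x = x / (1 + x) * ((2 * x + 1) / (x * (x + 1) + m)) ^ 2 +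
      (2 * x + 1) * (3 * (x * (x + 1)) * m ^ 2 + 2 * m ^ 3) /
        ((1 + x) ^ 4 * (x * (x + 1) + m) ^ 2) := by
    unfold h
    field_simp
    ring
  rw [e]
  have : 0 ≤ (2 * x + 1) * (3 * (x * (x + 1)) * m ^ 2 + 2 * m ^ 3) /
        ((1 + x) ^ 4 * (x * (x + 1) + m) ^ 2) := by positivity
  linarith

end LBAux

open LBAux in
theorem lb : S_LB := by
  intro σ s hσ hs hs1
  have ht : 0 < 1 - s := by linarith
  obtain ⟨m, hm⟩ : ∃ m, m = s * (1 - s) := ⟨_, rfl⟩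
  have hm0 : 0 < m := by rw [hm]; positivity
  have key : ∀ x ∈ Ioi (0 : ℝ), x * (1 + x) ^ (-(1 + σ)) *
      (1 / (s + x) + 1 / (1 + x - s)) ^ 2 ≤ h m x := by
    intro x hx
    have hx : 0 < x := hx
    have h1 : (1 + x) ^ (-(1 + σ)) ≤ (1 + x)⁻¹ := by
      rw [← Real.rpow_neg_one]
      exact Real.rpow_le_rpow_of_exponent_le (by linarith) (by linarith)
    have h2 : 0 < 1 + x - s := by linarith
    have h3 : 1 / (s + x) + 1 / (1 + x - s) = (2 * x + 1) / (x * (x + 1) + m) := by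
      have h4 : x * (x + 1) + m = (s + x) * (1 + x - s) := by rw [hm]; ring
      rw [h4]
      have : s + x ≠ 0 := by positivity
      have := h2.ne'
      field_simp
      ring
    rw [h3]
    refine le_trans ?_ (le_h hm0 hx)
    have h5 : x * (1 + x) ^ (-(1 + σ)) ≤ x / (1 + x) := by
      rw [div_eq_mul_inv]
      exact mul_le_mul_of_nonneg_left h1 hx.le
    exact mul_le_mul_of_nonneg_right h5 (sq_nonneg _)
  have hpos : ∀ x ∈ Ioi (0 : ℝ), 0 ≤ h m x := by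
    intro x hx
    have hx : 0 < x := hx
    refine le_trans ?_ (le_h hm0 hx)
    positivity
  have hd : ∀ x ∈ Ici (0 : ℝ), HasDerivAt (H m) (h m x) x := fun x hx => H_deriv hm0 hx
  have hint : IntegrableOn (h m) (Ioi 0) :=
    integrableOn_Ioi_deriv_of_nonneg' hd hpos (H_lim hm0)
  have hval : ∫ x in Ioi (0 : ℝ), h m x = 0 - H m 0 :=
    integral_Ioi_of_hasDerivAt_of_nonneg' hd hpos (H_lim hm0)
  have hH0 : 0 - H m 0 =
      Real.log (1 / s) + Real.log (1 / (1 - s)) + 3 / 2 + 4 / 3 * (s * (1 - s)) := by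
    unfold H
    have e1 : Real.log m = Real.log s + Real.log (1 - s) := by
      rw [hm, Real.log_mul hs.ne' ht.ne']
    rw [one_div s, one_div (1 - s), Real.log_inv, Real.log_inv, ← hm]
    simp only [zero_mul, zero_add, add_zero, Real.log_one, inv_one, one_pow, mul_one, mul_zero]
    rw [mul_inv_cancel₀ hm0.ne', e1]
    ring
  calc ∫⁻ x in Ioi (0 : ℝ), ENNReal.ofReal (x * (1 + x) ^ (-(1 + σ)) *
        (1 / (s + x) + 1 / (1 + x - s)) ^ 2)
      ≤ ∫⁻ x in Ioi (0 : ℝ), ENNReal.ofReal (h m x) :=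
        setLIntegral_mono' measurableSet_Ioi fun x hx => ENNReal.ofReal_le_ofReal (key x hx)
    _ = ENNReal.ofReal (∫ x in Ioi (0 : ℝ), h m x) := by
        rw [ofReal_integral_eq_lintegral_ofReal hint]
        filter_upwards [ae_restrict_mem measurableSet_Ioi] with x hx
        exact hpos x hx
    _ = _ := by rw [hval, hH0]

end Pool.Agent.H64.CX
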