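import Pool.Agent.H64.CX.LIM2b

set_option autoImplicit false

/-! # CX-LIM2, part d: the dominating function is integrable (helper10) -/

namespace Pool.Agent.H64.CX

open Metric Set Filter Topology MeasureTheory
open scoped ENNReal

theorem lim2_fin1 {σ ε : ℝ} (hσ : 0 < σ) (hε : 0 < ε) (hε1 : ε < σ) :
    ∫⁻ x in Ioi (0 : ℝ), ENNReal.ofReal (x ^ (ε - 1) * (1 + x) ^ (-σ)) < ∞ := by
  have hU : Ioi (0 : ℝ) = Ioc 0 1 ∪ Ioi 1 := (Ioc_union_Ioi_eq_Ioi zero_le_one).symm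
  rw [hU]
  refine (lintegral_union_le _ _ _).trans_lt ?_
  have a1 : ∫⁻ x in Ioc (0 : ℝ) 1, ENNReal.ofReal (x ^ (ε - 1) * (1 + x) ^ (-σ)) ≤
      ∫⁻ x in Ioc (0 : ℝ) 1, ENNReal.ofReal (x ^ (ε - 1)) := by
    refine setLIntegral_mono' measurableSet_Ioc fun x hx => ?_
    apply ENNReal.ofReal_le_ofReal
    have h1 : (1 + x) ^ (-σ) ≤ 1 := Real.rpow_le_one_of_one_le_of_nonpos (by linarith [hx.1]) (by linarith)
    have h2 : 0 ≤ x ^ (ε - 1) := Real.rpow_nonneg hx.1.le _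
    nlinarith
  have a2 : ∫⁻ x in Ioi (1 : ℝ), ENNReal.ofReal (x ^ (ε - 1) * (1 + x) ^ (-σ)) ≤
      ∫⁻ x in Ioi (1 : ℝ), ENNReal.ofReal (x ^ (ε - 1 - σ)) := by
    refine setLIntegral_mono' measurableSet_Ioi fun x hx => ?_
    apply ENNReal.ofReal_le_ofReal
    have hx1 : (1 : ℝ) < x := hx
    have hx0 : 0 < x := by linarith
    have h1 : (1 + x) ^ (-σ) ≤ x ^ (-σ) :=
      Real.rpow_le_rpow_of_nonpos hx0 (by linarith) (by linarith)
    rw [show ε - 1 - σ = (ε - 1) + -σ by ring, Real.rpow_add hx0]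
    exact mul_le_mul_of_nonneg_left h1 (by positivity)
  have b1 : IntegrableOn (fun x : ℝ => x ^ (ε - 1)) (Ioc 0 1) := by
    rw [← intervalIntegrable_iff_integrableOn_Ioc_of_le zero_le_one]
    exact intervalIntegral.intervalIntegrable_rpow' (by linarith)
  have b2 : IntegrableOn (fun x : ℝ => x ^ (ε - 1 - σ)) (Ioi 1) :=
    integrableOn_Ioi_rpow_of_lt (by linarith) one_pos
  have c1 := b1.lintegral_lt_top
  have c2 := b2.lintegral_lt_top
  exact ENNReal.add_lt_top.2 ⟨a1.trans_lt c1, a2.trans_lt c2⟩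

theorem lim2_fin2 {ε p : ℝ} (hε : 0 < ε) (hε1 : ε < 1) (hp : -1 < p) (hp0 : p ≤ 0) :
    ∫⁻ s in Ioo (0 : ℝ) 1, ENNReal.ofReal (s ^ (-ε) * (1 - s) ^ p) < ∞ := by
  have b1 : IntegrableOn (fun x : ℝ => x ^ (-ε)) (Ioo 0 1) := by
    have h : IntegrableOn (fun x : ℝ => x ^ (-ε)) (Ioc 0 1) := by
      rw [← intervalIntegrable_iff_integrableOn_Ioc_of_le zero_le_one]
      exact intervalIntegral.intervalIntegrable_rpow' (by linarith)
    exact h.mono_set Ioo_subset_Ioc_self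
  have b2 : IntegrableOn (fun x : ℝ => (1 - x) ^ p) (Ioo 0 1) := by
    have h1 : IntervalIntegrable (fun x : ℝ => x ^ p) volume 0 1 :=
      intervalIntegral.intervalIntegrable_rpow' hp
    have h2 := (h1.comp_sub_left 1).symm
    simp only [sub_self, sub_zero] at h2
    have h : IntegrableOn (fun x : ℝ => (1 - x) ^ p) (Ioc 0 1) := by
      rw [← intervalIntegrable_iff_integrableOn_Ioc_of_le zero_le_one]
      exact h2
    exact h.mono_set Ioo_subset_Ioc_self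
  have b3 : IntegrableOn (fun x : ℝ => 2 * x ^ (-ε) + 2 * (1 - x) ^ p) (Ioo 0 1) :=
    (b1.const_mul 2).add (b2.const_mul 2)
  refine lt_of_le_of_lt ?_ b3.lintegral_lt_top
  refine setLIntegral_mono' measurableSet_Ioo fun s hs => ?_
  apply ENNReal.ofReal_le_ofReal
  have hs0 : 0 < s := hs.1
  have hs1 : 0 < 1 - s := by linarith [hs.2]
  have h1 : 0 ≤ s ^ (-ε) := by positivity
  have h2 : 0 ≤ (1 - s) ^ p := by positivity
  rcases le_or_gt s (1 / 2) with h | h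
  · have h3 : (1 - s) ^ p ≤ 2 := by
      calc (1 - s) ^ p ≤ (1 / 2 : ℝ) ^ p :=
            Real.rpow_le_rpow_of_nonpos (by norm_num) (by linarith) hp0
        _ ≤ (1 / 2 : ℝ) ^ (-1 : ℝ) :=
            Real.rpow_le_rpow_of_exponent_ge (by norm_num) (by norm_num) hp.le
        _ = 2 := by rw [Real.rpow_neg_one]; norm_num
    nlinarith
  · have h3 : s ^ (-ε) ≤ 2 := by
      calc s ^ (-ε) ≤ (1 / 2 : ℝ) ^ (-ε) :=
            Real.rpow_le_rpow_of_nonpos (by norm_num) h.le (by linarith)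
        _ ≤ (1 / 2 : ℝ) ^ (-1 : ℝ) :=
            Real.rpow_le_rpow_of_exponent_ge (by norm_num) (by norm_num) (by linarith)
        _ = 2 := by rw [Real.rpow_neg_one]; norm_num
    nlinarith

/-- the pointwise bound by a product -/
theorem lim2_prod {x s ε ν : ℝ} (hx : 0 < x) (hs : 0 < s) (hs1 : s < 1) (hε : 0 < ε)
    (hε1 : ε ≤ 1) :
    (1 - s) ^ ν * (1 / (s + x) + 1 / (1 - s + x)) ≤
      2 * (x ^ (ε - 1) * (s ^ (-ε) * (1 - s) ^ (ν - ε))) := by
  have ht : 0 < 1 - s := by linarith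
  have h1 := lim2_kap hx hs hε.le hε1
  have h2 := lim2_kap hx ht hε.le hε1
  have h3 : 1 ≤ s ^ (-ε) := Real.one_le_rpow_of_pos_of_le_one_of_nonpos hs hs1.le (by linarith)
  have h4 : 1 ≤ (1 - s) ^ (-ε) :=
    Real.one_le_rpow_of_pos_of_le_one_of_nonpos ht (by linarith) (by linarith)
  have h5 : 0 < x ^ (ε - 1) := by positivity
  have h6 : s ^ (-ε) * x ^ (ε - 1) ≤ s ^ (-ε) * (1 - s) ^ (-ε) * x ^ (ε - 1) := by
    apply mul_le_mul_of_nonneg_right _ h5.le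
    nlinarith
  have h7 : (1 - s) ^ (-ε) * x ^ (ε - 1) ≤ s ^ (-ε) * (1 - s) ^ (-ε) * x ^ (ε - 1) := by
    apply mul_le_mul_of_nonneg_right _ h5.le
    nlinarith
  have h8 : (1 - s) ^ (ν - ε) = (1 - s) ^ ν * (1 - s) ^ (-ε) := by
    rw [← Real.rpow_add ht]; congr 1
  rw [h8]
  have h9 : 0 < (1 - s) ^ ν := by positivity
  calc (1 - s) ^ ν * (1 / (s + x) + 1 / (1 - s + x)) ≤
      (1 - s) ^ ν * (2 * (s ^ (-ε) * (1 - s) ^ (-ε) * x ^ (ε - 1))) := by
        apply mul_le_mul_of_nonneg_left _ h9.le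
        linarith
    _ = _ := by ring

end Pool.Agent.H64.CX
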