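import Pool.Agent.H64.CX.LIM2b
import Pool.Agent.H64.CX.LPT

set_option autoImplicit false

/-! # CX-LIM2, part e: the pointwise limit (helper10) -/

namespace Pool.Agent.H64.CX

open Metric Set Filter Topology MeasureTheory
open scoped ENNReal

theorem lim2_atTop {j : ℕ → ℕ} {y : ℝ} (hy : 0 < y)
    (hj : Tendsto (fun m : ℕ => (j m : ℝ) / m) atTop (𝓝 y)) : Tendsto j atTop atTop := by
  have h1 : Tendsto (fun m : ℕ => (j m : ℝ)) atTop atTop := by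
    have h2 : Tendsto (fun m : ℕ => (j m : ℝ) / m * m) atTop atTop :=
      hj.pos_mul_atTop hy tendsto_natCast_atTop_atTop
    refine h2.congr' ?_
    filter_upwards [eventually_gt_atTop 0] with m hm
    have hm' : (m : ℝ) ≠ 0 := by exact_mod_cast hm.ne'
    exact div_mul_cancel₀ _ hm'
  exact tendsto_natCast_atTop_iff.1 h1

theorem lim2_rr {α : ℂ}
    (hR : Tendsto (fun j : ℕ => rr α j / (j : ℂ) ^ (1 - α)) atTop (𝓝 (Complex.Gamma α)))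
    (j : ℕ → ℕ) {y : ℝ} (hy : 0 < y)
    (hj : Tendsto (fun m : ℕ => (j m : ℝ) / m) atTop (𝓝 y)) :
    Tendsto (fun m : ℕ => rr α (j m) / (m : ℂ) ^ (1 - α)) atTop
      (𝓝 (Complex.Gamma α * (y : ℂ) ^ (1 - α))) := by
  have hjt := lim2_atTop hy hj
  have h1 := hR.comp hjt
  have h2 : Tendsto (fun m : ℕ => ((((j m : ℝ) / m : ℝ)) : ℂ) ^ (1 - α)) atTop
      (𝓝 ((y : ℂ) ^ (1 - α))) :=
    (Complex.continuousAt_ofReal_cpow_const y (1 - α) (Or.inr hy.ne')).tendsto.comp hj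
  refine (h1.mul h2).congr' ?_
  filter_upwards [eventually_gt_atTop 0, hjt.eventually_gt_atTop 0] with m hm hjm
  have hm' : (0 : ℝ) < m := by exact_mod_cast hm
  have hjm' : (0 : ℝ) < j m := by exact_mod_cast hjm
  have h3 : ((j m : ℕ) : ℂ) ^ (1 - α) =
      ((((j m : ℝ) / m : ℝ)) : ℂ) ^ (1 - α) * ((m : ℕ) : ℂ) ^ (1 - α) := by
    have h4 := Complex.mul_cpow_ofReal_nonneg (a := (j m : ℝ) / m) (b := (m : ℝ)) (by positivity)
      hm'.le (1 - α)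
    have h5 : (((j m : ℝ) / m : ℝ) : ℂ) * ((m : ℝ) : ℂ) = ((j m : ℕ) : ℂ) := by
      rw [← Complex.ofReal_mul, div_mul_cancel₀ _ hm'.ne']
      simp
    rw [h5] at h4
    rw [h4]
    simp
  have h6 : ((m : ℕ) : ℂ) ^ (1 - α) ≠ 0 := by
    rw [Ne, Complex.cpow_eq_zero_iff]
    rintro ⟨h, -⟩
    exact hm.ne' (by exact_mod_cast h)
  have h7 : ((((j m : ℝ) / m : ℝ)) : ℂ) ^ (1 - α) ≠ 0 := by
    rw [Ne, Complex.cpow_eq_zero_iff]
    rintro ⟨h, -⟩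
    have h8 : (j m : ℝ) / m = 0 := by exact_mod_cast h
    have h9 : 0 < (j m : ℝ) / m := by positivity
    linarith
  simp only [Function.comp]
  rw [h3]
  field_simp

theorem lim2_pt {α : ℂ} {σ c : ℝ} (hc : 0 < c)
    (hU : Tendsto (fun n : ℕ => ‖bt (1 - α) n‖ ^ 2 * (n : ℝ) ^ (2 * α.re)) atTop
        (𝓝 (1 / ‖Complex.Gamma (1 - α)‖ ^ 2)))
    (hR : Tendsto (fun j : ℕ => rr α j / (j : ℂ) ^ (1 - α)) atTop (𝓝 (Complex.Gamma α)))
    (hr : ∀ m k : ℕ, 1 ≤ m → 1 ≤ k → c * m * ((m : ℝ) + k) ^ (-α.re) ≤ ‖rr α (m + k) - rr α k‖)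
    {x s : ℝ} (hx : 0 < x) (hs : 0 < s) (hs1 : s < 1) :
    Tendsto (fun m : ℕ => (m : ℝ) ^ 2 * TT α (σ + 2 * α.re) m (⌊(m : ℝ) * x⌋₊ + 1)
      (⌊(m : ℝ) * s⌋₊ + 1)) atTop (𝓝 (DD α σ x s)) := by
  obtain ⟨k, hk⟩ : ∃ k : ℕ → ℕ, k = fun m : ℕ => ⌊(m : ℝ) * x⌋₊ + 1 := ⟨_, rfl⟩
  obtain ⟨n, hn⟩ : ∃ n : ℕ → ℕ, n = fun m : ℕ => ⌊(m : ℝ) * s⌋₊ + 1 := ⟨_, rfl⟩
  have hkx : Tendsto (fun m : ℕ => (k m : ℝ) / m) atTop (𝓝 x) := by
    rw [hk]; exact LPTh.floor_lim hx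
  have hns : Tendsto (fun m : ℕ => (n m : ℝ) / m) atTop (𝓝 s) := by
    rw [hn]; exact LPTh.floor_lim hs
  have hk1 : ∀ m, 1 ≤ k m := fun m => by rw [hk]; simp
  have hn1 : ∀ m, 1 ≤ n m := fun m => by rw [hn]; simp
  have hmk : Tendsto (fun m : ℕ => ((m + k m : ℕ) : ℝ) / m) atTop (𝓝 (1 + x)) := by
    refine (hkx.const_add 1).congr' ?_
    filter_upwards [eventually_gt_atTop 0] with m hm
    have hm' : (m : ℝ) ≠ 0 := by exact_mod_cast hm.ne'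
    push_cast
    rw [add_div, div_self hm']
  have hx1 : 0 < 1 + x := by linarith
  have ht : 0 < 1 - s := by linarith
  -- the differences
  have hA : Tendsto (fun m : ℕ => (rr α (m + k m) - rr α (k m)) / (m : ℂ) ^ (1 - α)) atTop
      (𝓝 (Complex.Gamma α * ((1 + x : ℝ) : ℂ) ^ (1 - α) - Complex.Gamma α * (x : ℂ) ^ (1 - α))) := by
    have e1 := lim2_rr hR (fun m => m + k m) hx1 hmk
    have e2 := lim2_rr hR k hx hkx
    refine (e1.sub e2).congr fun m => ?_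
    rw [sub_div]
  have hnorm : ∀ m : ℕ, 0 < m → ‖((m : ℕ) : ℂ) ^ (1 - α)‖ = (m : ℝ) ^ (1 - α.re) := by
    intro m hm
    have hm' : (0 : ℝ) < m := by exact_mod_cast hm
    have h3 := Complex.norm_cpow_eq_rpow_re_of_pos hm' (1 - α)
    simpa using h3
  have hlow : c * (1 + x) ^ (-α.re) ≤ ‖Complex.Gamma α * ((1 + x : ℝ) : ℂ) ^ (1 - α) -
      Complex.Gamma α * (x : ℂ) ^ (1 - α)‖ := by
    have e1 : Tendsto (fun m : ℕ => c * (((m + k m : ℕ) : ℝ) / m) ^ (-α.re)) atTop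
        (𝓝 (c * (1 + x) ^ (-α.re))) :=
      ((Real.continuousAt_rpow_const _ _ (Or.inl hx1.ne')).tendsto.comp hmk).const_mul c
    refine le_of_tendsto_of_tendsto e1 hA.norm ?_
    filter_upwards [eventually_gt_atTop 0] with m hm
    have hm' : (0 : ℝ) < m := by exact_mod_cast hm
    have hkm : (0 : ℝ) < k m := by exact_mod_cast hk1 m
    rw [norm_div, hnorm m hm, le_div_iff₀ (by positivity)]
    refine le_trans (le_of_eq ?_) (hr m (k m) hm (hk1 m))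
    push_cast
    rw [Real.div_rpow (by positivity) hm'.le, show 1 - α.re = 1 + -α.re by ring,
      Real.rpow_add hm', Real.rpow_one]
    have : (m : ℝ) ^ (-α.re) ≠ 0 := by positivity
    field_simp
  obtain ⟨V, hV⟩ : ∃ V : ℝ, V = ‖Complex.Gamma α‖ ^ 2 *
    ‖((1 + x : ℝ) : ℂ) ^ (1 - α) - (x : ℂ) ^ (1 - α)‖ ^ 2 := ⟨_, rfl⟩
  have hV0 : 0 < V := by
    rw [← mul_sub, norm_mul] at hlow
    have h2 : 0 < c * (1 + x) ^ (-α.re) := by positivity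
    have h3 : 0 < ‖Complex.Gamma α‖ * ‖((1 + x : ℝ) : ℂ) ^ (1 - α) - (x : ℂ) ^ (1 - α)‖ := by
      linarith
    rw [hV, ← mul_pow]
    positivity
  have hB : Tendsto (fun m : ℕ => ‖rr α (m + k m) - rr α (k m)‖ ^ 2 / (m : ℝ) ^ (2 - 2 * α.re))
      atTop (𝓝 V) := by
    have e1 := (hA.norm.pow 2)
    rw [← mul_sub, norm_mul, mul_pow, ← hV] at e1
    refine e1.congr' ?_
    filter_upwards [eventually_gt_atTop 0] with m hm
    have hm' : (0 : ℝ) < m := by exact_mod_cast hm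
    rw [norm_div, div_pow]
    congr 1
    rw [hnorm m hm, ← Real.rpow_natCast, ← Real.rpow_mul hm'.le]
    congr 1
    push_cast
    ring
  -- the weights
  have hw : Tendsto (fun m : ℕ => (((m : ℝ) + k m + 1) / m) ^ (-(σ + 2 * α.re))) atTop
      (𝓝 ((1 + x) ^ (-(σ + 2 * α.re)))) := by
    have e1 : Tendsto (fun m : ℕ => ((m : ℝ) + k m + 1) / m) atTop (𝓝 (1 + x)) := by
      have e2 := hmk.add tendsto_one_div_atTop_nhds_zero_nat
      rw [add_zero] at e2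
      refine e2.congr fun m => ?_
      push_cast
      rw [← add_div]
    exact (Real.continuousAt_rpow_const _ _ (Or.inl hx1.ne')).tendsto.comp e1
  have hv : Tendsto (fun m : ℕ => (((m : ℝ) - n m + 1) / m) ^ (σ + 2 * α.re)) atTop
      (𝓝 ((1 - s) ^ (σ + 2 * α.re))) := by
    have e1 : Tendsto (fun m : ℕ => ((m : ℝ) - n m + 1) / m) atTop (𝓝 (1 - s)) := by
      have e2 := (hns.const_sub 1).add tendsto_one_div_atTop_nhds_zero_nat
      rw [add_zero] at e2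
      refine e2.congr' ?_
      filter_upwards [eventually_gt_atTop 0] with m hm
      have hm' : (m : ℝ) ≠ 0 := by exact_mod_cast hm.ne'
      field_simp
    exact (Real.continuousAt_rpow_const _ _ (Or.inl ht.ne')).tendsto.comp e1
  have hnp : Tendsto (fun m : ℕ => ((n m : ℝ) / m) ^ (1 - 2 * α.re)) atTop
      (𝓝 (s ^ (1 - 2 * α.re))) :=
    (Real.continuousAt_rpow_const _ _ (Or.inl hs.ne')).tendsto.comp hns
  have hbt : Tendsto (fun m : ℕ => ‖bt (1 - α) (n m)‖ ^ 2 * ((n m : ℕ) : ℝ) ^ (2 * α.re)) atTop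
      (𝓝 (1 / ‖Complex.Gamma (1 - α)‖ ^ 2)) := hU.comp (lim2_atTop hs hns)
  -- the kernel
  have hK : Tendsto (fun m : ℕ => ‖(m : ℂ) * (1 / ((n m : ℂ) + k m) +
      1 / ((m : ℂ) + k m - n m + α))‖ ^ 2) atTop (𝓝 ((1 / (s + x) + 1 / (1 + x - s)) ^ 2)) := by
    have c1 : Tendsto (fun m : ℕ => ((n m : ℂ) + k m) / m) atTop (𝓝 ((s + x : ℝ) : ℂ)) := by
      have d1 := (Complex.continuous_ofReal.tendsto (s + x)).comp (hns.add hkx)
      refine d1.congr fun m => ?_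
      simp only [Function.comp]
      push_cast
      rw [← add_div]
    have c2 : Tendsto (fun m : ℕ => ((m : ℂ) + k m - n m + α) / m) atTop
        (𝓝 ((1 + x - s : ℝ) : ℂ)) := by
      have d1 := (Complex.continuous_ofReal.tendsto (1 + x - s)).comp ((hkx.const_add 1).sub hns)
      have d2 : Tendsto (fun m : ℕ => α / (m : ℂ)) atTop (𝓝 0) :=
        tendsto_const_div_atTop_nhds_zero_nat α
      have d3 := d1.add d2
      rw [add_zero] at d3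
      refine d3.congr' ?_
      filter_upwards [eventually_gt_atTop 0] with m hm
      have hm' : (m : ℂ) ≠ 0 := by exact_mod_cast hm.ne'
      simp only [Function.comp]
      push_cast
      field_simp
    have hsx : ((s + x : ℝ) : ℂ) ≠ 0 := by
      have : s + x ≠ 0 := by positivity
      exact_mod_cast this
    have hxs : ((1 + x - s : ℝ) : ℂ) ≠ 0 := by
      have h : 0 < 1 + x - s := by linarith
      exact_mod_cast h.ne'
    have c3 := (c1.inv₀ hsx).add (c2.inv₀ hxs)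
    have c4 := c3.norm.pow 2
    have c5 : ‖((s + x : ℝ) : ℂ)⁻¹ + ((1 + x - s : ℝ) : ℂ)⁻¹‖ ^ 2 =
        (1 / (s + x) + 1 / (1 + x - s)) ^ 2 := by
      rw [← Complex.ofReal_inv, ← Complex.ofReal_inv, ← Complex.ofReal_add, Complex.norm_real,
        Real.norm_eq_abs, sq_abs, one_div, one_div]
    rw [c5] at c4
    refine c4.congr fun m => ?_
    congr 2
    rw [mul_add, inv_div, inv_div, mul_one_div, mul_one_div]
  have hfin := (((((hkx.mul hw).mul (hB.inv₀ hV0.ne')).mul hnp).mul hbt).mul hv).mul hK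
  have hDD : DD α σ x s = x * (1 + x) ^ (-(σ + 2 * α.re)) * V⁻¹ * s ^ (1 - 2 * α.re) *
      (1 / ‖Complex.Gamma (1 - α)‖ ^ 2) * (1 - s) ^ (σ + 2 * α.re) *
      (1 / (s + x) + 1 / (1 + x - s)) ^ 2 := by
    unfold DD
    rw [← hV]
    ring
  rw [hDD]
  refine hfin.congr' ?_
  filter_upwards [eventually_gt_atTop 0] with m hm
  have hm' : (0 : ℝ) < m := by exact_mod_cast hm
  have hkm : ⌊(m : ℝ) * x⌋₊ + 1 = k m := by rw [hk]
  have hnm : ⌊(m : ℝ) * s⌋₊ + 1 = n m := by rw [hn]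
  rw [hkm, hnm]
  have hn0 : (0 : ℝ) < n m := by exact_mod_cast hn1 m
  have hn2 : (n m : ℝ) ≤ m := by
    have h3 : (n m : ℝ) < m + 1 := by
      rw [← hnm]; push_cast
      have := Nat.floor_le (by positivity : 0 ≤ (m : ℝ) * s)
      nlinarith
    have h4 : n m < m + 1 := by exact_mod_cast h3
    exact_mod_cast Nat.lt_succ_iff.1 h4
  unfold TT
  have e1 : (((m : ℝ) + k m + 1) / m) ^ (-(σ + 2 * α.re)) =
      ((m : ℝ) + k m + 1) ^ (-(σ + 2 * α.re)) * (m : ℝ) ^ (σ + 2 * α.re) := by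
    rw [Real.div_rpow (by positivity) hm'.le, div_eq_mul_inv]
    congr 1
    rw [Real.rpow_neg hm'.le, inv_inv]
  have e2 : (((m : ℝ) - n m + 1) / m) ^ (σ + 2 * α.re) =
      ((m : ℝ) - n m + 1) ^ (σ + 2 * α.re) * (m : ℝ) ^ (-(σ + 2 * α.re)) := by
    rw [Real.div_rpow (by linarith) hm'.le, div_eq_mul_inv, Real.rpow_neg hm'.le]
  have e3 : ((n m : ℝ) / m) ^ (1 - 2 * α.re) =
      (n m : ℝ) ^ (1 - 2 * α.re) * (m : ℝ) ^ (-(1 - 2 * α.re)) := by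
    rw [Real.div_rpow hn0.le hm'.le, div_eq_mul_inv, Real.rpow_neg hm'.le]
  have e4 : (n m : ℝ) ^ (1 - 2 * α.re) * ((n m : ℕ) : ℝ) ^ (2 * α.re) = n m := by
    rw [← Real.rpow_add hn0]
    rw [show 1 - 2 * α.re + 2 * α.re = 1 by ring, Real.rpow_one]
  have e5 : (m : ℝ) ^ (σ + 2 * α.re) * (m : ℝ) ^ (-(σ + 2 * α.re)) = 1 := by
    rw [← Real.rpow_add hm', add_neg_cancel, Real.rpow_zero]
  have e6 : (m : ℝ) ^ (2 - 2 * α.re) * (m : ℝ) ^ (-(1 - 2 * α.re)) = m := by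
    rw [← Real.rpow_add hm', show 2 - 2 * α.re + -(1 - 2 * α.re) = 1 by ring, Real.rpow_one]
  rw [e1, e2, e3, inv_div, norm_mul, mul_pow, Complex.norm_natCast]
  obtain ⟨R, hRd⟩ : ∃ R : ℝ, R = ‖rr α (m + k m) - rr α (k m)‖ ^ 2 := ⟨_, rfl⟩
  obtain ⟨K, hKd⟩ : ∃ K : ℝ, K = ‖1 / ((n m : ℂ) + k m) + 1 / ((m : ℂ) + k m - n m + α)‖ ^ 2 :=
    ⟨_, rfl⟩
  obtain ⟨U, hUd⟩ : ∃ U : ℝ, U = ‖bt (1 - α) (n m)‖ ^ 2 := ⟨_, rfl⟩
  obtain ⟨W, hWd⟩ : ∃ W : ℝ, W = ((m : ℝ) + k m + 1) ^ (-(σ + 2 * α.re)) := ⟨_, rfl⟩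
  obtain ⟨Z, hZd⟩ : ∃ Z : ℝ, Z = ((m : ℝ) - n m + 1) ^ (σ + 2 * α.re) := ⟨_, rfl⟩
  rw [← hRd, ← hKd, ← hUd, ← hWd, ← hZd]
  calc (k m : ℝ) / m * (W * (m : ℝ) ^ (σ + 2 * α.re)) * ((m : ℝ) ^ (2 - 2 * α.re) / R) *
        ((n m : ℝ) ^ (1 - 2 * α.re) * (m : ℝ) ^ (-(1 - 2 * α.re))) *
        (U * ((n m : ℕ) : ℝ) ^ (2 * α.re)) * (Z * (m : ℝ) ^ (-(σ + 2 * α.re))) *
        ((m : ℝ) ^ 2 * K) =
      (k m : ℝ) / m * W / R * U * Z * K * (m : ℝ) ^ 2 *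
        ((n m : ℝ) ^ (1 - 2 * α.re) * ((n m : ℕ) : ℝ) ^ (2 * α.re)) *
        ((m : ℝ) ^ (σ + 2 * α.re) * (m : ℝ) ^ (-(σ + 2 * α.re))) *
        ((m : ℝ) ^ (2 - 2 * α.re) * (m : ℝ) ^ (-(1 - 2 * α.re))) := by ring
    _ = (k m : ℝ) / m * W / R * U * Z * K * (m : ℝ) ^ 2 * (n m : ℝ) * 1 * m := by
        rw [e4, e5, e6]
    _ = (m : ℝ) ^ 2 * ((k m : ℝ) * W / R * ((n m : ℝ) * U * Z * K)) := by
        field_simp

end Pool.Agent.H64.CX
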