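import Pool.Agent.H64.CX.LIM2c
import Pool.Agent.H64.CX.LIM2d
import Pool.Agent.H64.CX.LIM2e

set_option autoImplicit false

/-! # CX-LIM2: the exact limit of the Hilbert-Schmidt sums (helper10) -/

namespace Pool.Agent.H64.CX

open Metric Set Filter Topology MeasureTheory
open scoped ENNReal

theorem lim2 : S_LIM2 := by
  intro hUN hRN α σ hα h1 h2 h3 hσ hμ
  obtain ⟨⟨C₁, hC, hb⟩, hU⟩ := hUN α h1 h2
  obtain ⟨hR, c, hc, hr⟩ := hRN α hα h1 h2 h3
  obtain ⟨ν, hν⟩ : ∃ ν : ℝ, ν = min (σ + 2 * α.re) 0 := ⟨_, rfl⟩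
  have hν1 : -1 < ν := by rw [hν]; exact lt_min hμ (by norm_num)
  have hν0 : ν ≤ 0 := by rw [hν]; exact min_le_right _ _
  obtain ⟨ε, hε⟩ : ∃ ε : ℝ, ε = min (σ / 2) ((1 + ν) / 2) := ⟨_, rfl⟩
  have hε0 : 0 < ε := by rw [hε]; exact lt_min (by linarith) (by linarith)
  have hεσ : ε < σ := by
    have : ε ≤ σ / 2 := by rw [hε]; exact min_le_left _ _
    linarith
  have hεν : ε ≤ (1 + ν) / 2 := by rw [hε]; exact min_le_right _ _
  obtain ⟨P, hP⟩ : ∃ P : Measure (ℝ × ℝ),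
    P = (volume.restrict (Ioi (0 : ℝ))).prod (volume.restrict (Ioo (0 : ℝ) 1)) := ⟨_, rfl⟩
  have hae : ∀ᵐ z ∂P, 0 < z.1 ∧ 0 < z.2 ∧ z.2 < 1 := by
    rw [hP, Measure.prod_restrict]
    filter_upwards [ae_restrict_mem (measurableSet_Ioi.prod measurableSet_Ioo)] with z hz
    exact ⟨hz.1, hz.2.1, hz.2.2⟩
  obtain ⟨a, ha⟩ : ∃ a : ℝ → ℝ≥0∞,
    a = fun x => ENNReal.ofReal (x ^ (ε - 1) * (1 + x) ^ (-σ)) := ⟨_, rfl⟩
  obtain ⟨b, hb'⟩ : ∃ b : ℝ → ℝ≥0∞,
    b = fun s => ENNReal.ofReal (s ^ (-ε) * (1 - s) ^ (ν - ε)) := ⟨_, rfl⟩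
  have ham : Measurable a := by rw [ha]; fun_prop
  have hbm : Measurable b := by rw [hb']; fun_prop
  have hafin : ∫⁻ x in Ioi (0 : ℝ), a x < ∞ := by rw [ha]; exact lim2_fin1 hσ hε0 hεσ
  have hbfin : ∫⁻ s in Ioo (0 : ℝ) 1, b s < ∞ := by
    rw [hb']
    exact lim2_fin2 hε0 (by linarith) (by linarith) (by linarith)
  have hlim : ∀ᵐ z ∂P, Tendsto (fun m : ℕ => GM α (σ + 2 * α.re) m z.1 z.2) atTop
      (𝓝 (ENNReal.ofReal (DD α σ z.1 z.2))) := by
    filter_upwards [hae] with z hz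
    exact ENNReal.tendsto_ofReal (lim2_pt hc hU hR hr hz.1 hz.2.1 hz.2.2)
  have hmeas : ∀ m : ℕ, Measurable (fun z : ℝ × ℝ => GM α (σ + 2 * α.re) m z.1 z.2) :=
    fun m => lim2_GM_meas α _ m
  have hDm : AEMeasurable (fun z : ℝ × ℝ => ENNReal.ofReal (DD α σ z.1 z.2)) P :=
    aemeasurable_of_tendsto_metrizable_ae' (fun m => (hmeas m).aemeasurable) hlim
  have key : Tendsto (fun m : ℕ => ∫⁻ z, GM α (σ + 2 * α.re) m z.1 z.2 ∂P) atTop
      (𝓝 (∫⁻ z, ENNReal.ofReal (DD α σ z.1 z.2) ∂P)) := by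
    refine tendsto_lintegral_of_dominated_convergence
      (fun z : ℝ × ℝ => ENNReal.ofReal (48 * C₁ / c ^ 2) * (a z.1 * b z.2)) hmeas ?_ ?_ hlim
    · intro m
      filter_upwards [hae] with z hz
      obtain ⟨hx, hs, hs1⟩ := hz
      have ht : 0 < 1 - z.2 := by linarith
      rw [ha, hb']
      simp only
      rw [← ENNReal.ofReal_mul (by positivity), ← ENNReal.ofReal_mul (by positivity)]
      unfold GM
      apply ENNReal.ofReal_le_ofReal
      rcases Nat.eq_zero_or_pos m with hm | hm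
      · subst hm
        simp only [Nat.cast_zero, ne_eq, OfNat.ofNat_ne_zero, not_false_eq_true, zero_pow, zero_mul]
        positivity
      · have e1 := lim2_dom hc hC hσ h1 h2 hb hr hm hx hs hs1
        have e2 := lim2_prod (ν := ν) hx hs hs1 hε0 (by linarith : ε ≤ 1)
        rw [← hν] at e1
        refine e1.trans ?_
        have e3 : 0 ≤ 24 * C₁ / c ^ 2 * (1 + z.1) ^ (-σ) := by positivity
        have e4 := mul_le_mul_of_nonneg_left e2 e3
        refine le_trans (le_of_eq ?_) (e4.trans (le_of_eq ?_))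
        · ring
        · ring
    · rw [lintegral_const_mul _ (by fun_prop), hP, lintegral_prod_mul ham.aemeasurable
        hbm.aemeasurable]
      exact ENNReal.mul_ne_top ENNReal.ofReal_ne_top (ENNReal.mul_ne_top hafin.ne hbfin.ne)
  rw [hP, lintegral_prod _ (by rw [← hP]; exact hDm)] at key
  refine key.congr' ?_
  filter_upwards [eventually_gt_atTop 0] with m hm
  rw [lim2_eq α (σ + 2 * α.re) m hm, lintegral_prod _ (hmeas m).aemeasurable]

end Pool.Agent.H64.CX
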