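import Pool.Agent.H64.CX.Stm

set_option autoImplicit false

/-! # CX-LIM2, part a: integrals of step functions (helper10) -/

namespace Pool.Agent.H64.CX

open Metric Set Filter Topology MeasureTheory
open scoped ENNReal

theorem lim2_meas (m : ℕ) : Measurable (fun x : ℝ => ⌊(m : ℝ) * x⌋₊) :=
  Nat.measurable_floor.comp (measurable_const.mul measurable_id)

theorem lim2_pre (m : ℕ) (hm : 1 ≤ m) (k : ℕ) :
    ((fun x : ℝ => ⌊(m : ℝ) * x⌋₊) ⁻¹' {k}) ∩ Ici 0 = Ico ((k : ℝ) / m) (((k : ℝ) + 1) / m) := by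
  have hm0 : (0 : ℝ) < m := by exact_mod_cast hm
  ext x
  simp only [mem_inter_iff, mem_preimage, mem_singleton_iff, mem_Ici, mem_Ico]
  constructor
  · rintro ⟨h1, h2⟩
    have h3 := (Nat.floor_eq_iff (by positivity : 0 ≤ (m : ℝ) * x)).1 h1
    constructor
    · rw [div_le_iff₀' hm0]; exact h3.1
    · rw [lt_div_iff₀' hm0]; exact h3.2
  · rintro ⟨h1, h2⟩
    have hx : 0 ≤ x := le_trans (by positivity) h1
    refine ⟨?_, hx⟩
    rw [Nat.floor_eq_iff (by positivity)]
    rw [div_le_iff₀' hm0] at h1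
    rw [lt_div_iff₀' hm0] at h2
    exact ⟨h1, h2⟩

theorem lim2_vol (m : ℕ) (hm : 1 ≤ m) (k : ℕ) :
    volume (Ico ((k : ℝ) / m) (((k : ℝ) + 1) / m)) = ENNReal.ofReal (1 / m) := by
  rw [Real.volume_Ico]
  congr 1
  have hm0 : (m : ℝ) ≠ 0 := by
    have : (0 : ℝ) < m := by exact_mod_cast hm
    exact this.ne'
  field_simp
  ring

theorem lim2_step (m : ℕ) (hm : 1 ≤ m) (f : ℕ → ℝ≥0∞) :
    ∫⁻ x in Ioi (0 : ℝ), f ⌊(m : ℝ) * x⌋₊ = ∑' k, f k * ENNReal.ofReal (1 / m) := by
  rw [Measure.restrict_congr_set Ioi_ae_eq_Ici]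
  rw [← lintegral_map (μ := volume.restrict (Ici (0 : ℝ))) (f := f) (measurable_from_nat) (lim2_meas m)]
  rw [lintegral_countable']
  refine tsum_congr fun k => ?_
  rw [Measure.map_apply (lim2_meas m) (measurableSet_singleton k),
    Measure.restrict_apply (lim2_meas m (measurableSet_singleton k)), lim2_pre m hm k,
    lim2_vol m hm k]

theorem lim2_step01 (m : ℕ) (hm : 1 ≤ m) (f : ℕ → ℝ≥0∞) :
    ∫⁻ x in Ioo (0 : ℝ) 1, f ⌊(m : ℝ) * x⌋₊ =
      ∑ k ∈ Finset.range m, f k * ENNReal.ofReal (1 / m) := by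
  have hm0 : (0 : ℝ) < m := by exact_mod_cast hm
  rw [Measure.restrict_congr_set Ioo_ae_eq_Ico]
  rw [← lintegral_map (μ := volume.restrict (Ico (0 : ℝ) 1)) (f := f) (measurable_from_nat) (lim2_meas m)]
  rw [lintegral_countable']
  rw [tsum_eq_sum (s := Finset.range m)]
  · refine Finset.sum_congr rfl fun k hk => ?_
    rw [Measure.map_apply (lim2_meas m) (measurableSet_singleton k),
      Measure.restrict_apply (lim2_meas m (measurableSet_singleton k))]
    have h1 : ((fun x : ℝ => ⌊(m : ℝ) * x⌋₊) ⁻¹' {k}) ∩ Ico 0 1 =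
        Ico ((k : ℝ) / m) (((k : ℝ) + 1) / m) := by
      rw [← lim2_pre m hm k]
      ext x
      simp only [mem_inter_iff, mem_preimage, mem_singleton_iff, mem_Ici, mem_Ico]
      refine and_congr_right fun h => and_iff_left_of_imp fun hx => ?_
      have h3 := (Nat.floor_eq_iff (by positivity : 0 ≤ (m : ℝ) * x)).1 h
      have h4 : ((k : ℝ) + 1) ≤ m := by exact_mod_cast Finset.mem_range.1 hk
      by_contra h5
      push Not at h5
      nlinarith
    rw [h1, lim2_vol m hm k]
  · intro k hk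
    rw [Measure.map_apply (lim2_meas m) (measurableSet_singleton k),
      Measure.restrict_apply (lim2_meas m (measurableSet_singleton k))]
    have h1 : ((fun x : ℝ => ⌊(m : ℝ) * x⌋₊) ⁻¹' {k}) ∩ Ico 0 1 = ∅ := by
      ext x
      simp only [mem_inter_iff, mem_preimage, mem_singleton_iff, mem_Ico, mem_empty_iff_false,
        iff_false, not_and, not_lt]
      intro h hx
      have h3 := (Nat.floor_eq_iff (by positivity : 0 ≤ (m : ℝ) * x)).1 h
      have h4 : (m : ℝ) ≤ k := by
        have : ¬ k < m := fun h => hk (Finset.mem_range.2 h)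
        exact_mod_cast not_lt.1 this
      by_contra h5
      push Not at h5
      nlinarith
    rw [h1]
    simp

end Pool.Agent.H64.CX
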