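import Pool.Agent.H64.CX.StmN
import Pool.Agent.H64.CX.LIM2a

set_option autoImplicit false

/-! # CX-LIM2, part b: the sums as integrals (helper10) -/

namespace Pool.Agent.H64.CX

open Metric Set Filter Topology MeasureTheory
open scoped ENNReal

/-- one term of `SN` -/
noncomputable def TT (α : ℂ) (μ : ℝ) (m k n : ℕ) : ℝ :=
  (k : ℝ) * ((m : ℝ) + k + 1) ^ (-μ) / ‖rr α (m + k) - rr α k‖ ^ 2 *
    ((n : ℝ) * ‖bt (1 - α) n‖ ^ 2 * ((m : ℝ) - n + 1) ^ μ *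
      ‖1 / ((n : ℂ) + k) + 1 / ((m : ℂ) + k - n + α)‖ ^ 2)

theorem SN_eq (α : ℂ) (μ : ℝ) (m k : ℕ) :
    SN α μ m k = ∑ n ∈ Finset.range m, TT α μ m k (n + 1) := by
  unfold SN TT
  rw [Finset.mul_sum]
  refine Finset.sum_bij' (i := fun n _ => n - 1) (j := fun n _ => n + 1) ?_ ?_ ?_ ?_ ?_
  · intro n hn
    simp only [Finset.mem_Icc] at hn
    simp only [Finset.mem_range]
    omega
  · intro n hn
    simp only [Finset.mem_range] at hn
    simp only [Finset.mem_Icc]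
    omega
  · intro n hn
    simp only [Finset.mem_Icc] at hn
    omega
  · intro n hn
    omega
  · intro n hn
    simp only [Finset.mem_Icc] at hn
    have : n - 1 + 1 = n := by omega
    rw [this]

theorem TT_nonneg (α : ℂ) (μ : ℝ) (m k n : ℕ) (hn : n ≤ m) : 0 ≤ TT α μ m k n := by
  unfold TT
  have h1 : (0 : ℝ) ≤ (m : ℝ) - n + 1 := by
    have : (n : ℝ) ≤ m := by exact_mod_cast hn
    linarith
  have h2 := Real.rpow_nonneg h1 μ
  positivity

theorem SN_nonneg (α : ℂ) (μ : ℝ) (m k : ℕ) : 0 ≤ SN α μ m k := by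
  rw [SN_eq]
  refine Finset.sum_nonneg fun n hn => TT_nonneg _ _ _ _ _ ?_
  have := Finset.mem_range.1 hn
  omega

/-- the step function -/
noncomputable def GM (α : ℂ) (μ : ℝ) (m : ℕ) (x s : ℝ) : ℝ≥0∞ :=
  ENNReal.ofReal ((m : ℝ) ^ 2 * TT α μ m (⌊(m : ℝ) * x⌋₊ + 1) (⌊(m : ℝ) * s⌋₊ + 1))

theorem lim2_eq (α : ℂ) (μ : ℝ) (m : ℕ) (hm : 1 ≤ m) :
    ∑' k : ℕ, ENNReal.ofReal (SN α μ m (k + 1)) =
      ∫⁻ x in Ioi (0 : ℝ), ∫⁻ s in Ioo (0 : ℝ) 1, GM α μ m x s := by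
  have hm0 : (0 : ℝ) < m := by exact_mod_cast hm
  have inner : ∀ k : ℕ, ∫⁻ s in Ioo (0 : ℝ) 1,
      ENNReal.ofReal ((m : ℝ) ^ 2 * TT α μ m k (⌊(m : ℝ) * s⌋₊ + 1)) =
      ENNReal.ofReal (m * SN α μ m k) := by
    intro k
    rw [lim2_step01 m hm (fun n => ENNReal.ofReal ((m : ℝ) ^ 2 * TT α μ m k (n + 1)))]
    have h1 : ∀ n ∈ Finset.range m, ENNReal.ofReal ((m : ℝ) ^ 2 * TT α μ m k (n + 1)) *
        ENNReal.ofReal (1 / m) = ENNReal.ofReal ((m : ℝ) * TT α μ m k (n + 1)) := by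
      intro n hn
      have hn' : n + 1 ≤ m := Finset.mem_range.1 hn
      rw [← ENNReal.ofReal_mul (by have := TT_nonneg α μ m k (n + 1) hn'; positivity)]
      congr 1
      field_simp
    rw [Finset.sum_congr rfl h1, ← ENNReal.ofReal_sum_of_nonneg, SN_eq, Finset.mul_sum]
    intro n hn
    have hn' : n + 1 ≤ m := Finset.mem_range.1 hn
    have := TT_nonneg α μ m k (n + 1) hn'
    positivity
  unfold GM
  simp_rw [inner]
  rw [lim2_step m hm (fun k => ENNReal.ofReal (m * SN α μ m (k + 1)))]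
  refine tsum_congr fun k => ?_
  rw [← ENNReal.ofReal_mul (by have := SN_nonneg α μ m (k + 1); positivity)]
  congr 1
  field_simp

theorem lim2_GM_meas (α : ℂ) (μ : ℝ) (m : ℕ) :
    Measurable (fun z : ℝ × ℝ => GM α μ m z.1 z.2) := by
  unfold GM
  have h1 : Measurable (fun z : ℝ × ℝ => (⌊(m : ℝ) * z.1⌋₊, ⌊(m : ℝ) * z.2⌋₊)) :=
    ((lim2_meas m).comp measurable_fst).prodMk ((lim2_meas m).comp measurable_snd)
  obtain ⟨h, hh⟩ : ∃ h : ℕ × ℕ → ℝ≥0∞, h = fun p : ℕ × ℕ =>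
      ENNReal.ofReal ((m : ℝ) ^ 2 * TT α μ m (p.1 + 1) (p.2 + 1)) := ⟨_, rfl⟩
  have h2 : Measurable h := measurable_of_countable _
  have h3 := h2.comp h1
  rw [hh] at h3
  exact h3

/-- the kernel is integrable along both variables -/
theorem lim2_kap {x s ε : ℝ} (hx : 0 < x) (hs : 0 < s) (hε : 0 ≤ ε) (hε1 : ε ≤ 1) :
    1 / (s + x) ≤ s ^ (-ε) * x ^ (ε - 1) := by
  have h1 : s ^ ε * x ^ (1 - ε) ≤ s + x := by
    calc s ^ ε * x ^ (1 - ε) ≤ (s + x) ^ ε * (s + x) ^ (1 - ε) := by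
          apply mul_le_mul
          · exact Real.rpow_le_rpow hs.le (by linarith) hε
          · exact Real.rpow_le_rpow hx.le (by linarith) (by linarith)
          · positivity
          · positivity
      _ = s + x := by
          rw [← Real.rpow_add (by linarith)]
          simp
  have h2 : s ^ (-ε) * x ^ (ε - 1) = 1 / (s ^ ε * x ^ (1 - ε)) := by
    rw [Real.rpow_neg hs.le, show ε - 1 = -(1 - ε) by ring, Real.rpow_neg hx.le]
    rw [one_div, mul_inv]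
  rw [h2]
  exact one_div_le_one_div_of_le (by positivity) h1

end Pool.Agent.H64.CX
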