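import Pool.Agent.H64.CX.LIM2b

set_option autoImplicit false

/-! # CX-LIM2, part c: domination (helper10) -/

namespace Pool.Agent.H64.CX

open Metric Set Filter Topology MeasureTheory
open scoped ENNReal

/-- the kernel -/
theorem lim2_ker {α : ℂ} (h1 : -(1 / 2) ≤ α.re) {m k n : ℕ} (hk : 1 ≤ k) (hn1 : 1 ≤ n)
    (hn : n ≤ m) {x s : ℝ} (hx : 0 < x) (hs : 0 < s) (hs1 : s < 1) (hkx : (m : ℝ) * x ≤ k)
    (hns : (m : ℝ) * s ≤ n) (hns2 : (n : ℝ) ≤ m * s + 1) :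
    (k : ℝ) * ‖1 / ((n : ℂ) + k) + 1 / ((m : ℂ) + k - n + α)‖ ^ 2 ≤
      12 / m * (1 / (s + x) + 1 / (1 - s + x)) := by
  have hK : (1 : ℝ) ≤ k := by exact_mod_cast hk
  have hN : (1 : ℝ) ≤ n := by exact_mod_cast hn1
  have hNM : (n : ℝ) ≤ m := by exact_mod_cast hn
  have hM : (0 : ℝ) < m := by linarith
  obtain ⟨V, hV⟩ : ∃ V : ℝ, V = ‖1 / ((n : ℂ) + k) + 1 / ((m : ℂ) + k - n + α)‖ := ⟨_, rfl⟩
  have hV0 : 0 ≤ V := by rw [hV]; positivity
  have e1 : ‖1 / ((n : ℂ) + k)‖ = 1 / ((n : ℝ) + k) := by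
    have : ((n : ℂ) + k) = (((n : ℝ) + k : ℝ) : ℂ) := by push_cast; rfl
    rw [this, norm_div, norm_one, Complex.norm_real, Real.norm_of_nonneg (by positivity)]
  have e2 : ‖1 / ((m : ℂ) + k - n + α)‖ ≤ 2 / ((m : ℝ) + k - n) := by
    have hre : ((m : ℂ) + k - n + α).re = (m : ℝ) + k - n + α.re := by simp
    have h3 := Complex.re_le_norm ((m : ℂ) + k - n + α)
    rw [hre] at h3
    have h4 : ((m : ℝ) + k - n) / 2 ≤ ‖(m : ℂ) + k - n + α‖ := by linarith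
    rw [norm_div, norm_one]
    have h5 : 0 < ((m : ℝ) + k - n) / 2 := by linarith
    calc 1 / ‖(m : ℂ) + k - n + α‖ ≤ 1 / (((m : ℝ) + k - n) / 2) :=
          one_div_le_one_div_of_le h5 h4
      _ = 2 / ((m : ℝ) + k - n) := by rw [one_div_div]
  have e3 : V ≤ 1 / ((n : ℝ) + k) + 2 / ((m : ℝ) + k - n) := by
    rw [hV]
    refine (norm_add_le _ _).trans ?_
    rw [e1]
    linarith
  have hd : 0 < (m : ℝ) + k - n := by linarith
  have e4 : (k : ℝ) * V ≤ 3 := by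
    have a1 : (k : ℝ) * (1 / ((n : ℝ) + k)) ≤ 1 := by
      rw [mul_one_div, div_le_one (by positivity)]
      linarith
    have a2 : (k : ℝ) * (2 / ((m : ℝ) + k - n)) ≤ 2 := by
      rw [mul_div_assoc', div_le_iff₀ hd]
      nlinarith
    have a3 := mul_le_mul_of_nonneg_left e3 (by linarith : (0 : ℝ) ≤ k)
    rw [mul_add] at a3
    linarith
  have e5 : V ≤ 4 / m * (1 / (s + x) + 1 / (1 - s + x)) := by
    have a1 : 1 / ((n : ℝ) + k) ≤ 1 / m * (1 / (s + x)) := by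
      have b1 : 1 / (m : ℝ) * (1 / (s + x)) = 1 / ((m : ℝ) * (s + x)) := by
        rw [div_mul_div_comm, one_mul]
      rw [b1]
      refine one_div_le_one_div_of_le (by positivity) ?_
      rw [mul_add]
      linarith
    have a2 : 2 / ((m : ℝ) + k - n) ≤ 4 / m * (1 / (1 - s + x)) := by
      have b1 : (m : ℝ) * (1 - s + x) / 2 ≤ (m : ℝ) + k - n := by
        have c1 : (m : ℝ) * (1 - s + x) - 1 ≤ (m : ℝ) + k - n := by nlinarith
        by_cases hc : (m : ℝ) * (1 - s + x) ≤ 2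
        · linarith
        · push Not at hc
          linarith
      have b2 : 0 < (m : ℝ) * (1 - s + x) := by
        have : 0 < 1 - s + x := by linarith
        positivity
      calc 2 / ((m : ℝ) + k - n) ≤ 2 / ((m : ℝ) * (1 - s + x) / 2) :=
            div_le_div_of_nonneg_left (by norm_num) (by linarith) b1
        _ = 4 / m * (1 / (1 - s + x)) := by
            have : (1 - s + x) ≠ 0 := by
              have : 0 < 1 - s + x := by linarith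
              exact this.ne'
            field_simp
            norm_num
    have a3 : 1 / (m : ℝ) * (1 / (s + x)) ≤ 4 / m * (1 / (s + x)) := by
      apply mul_le_mul_of_nonneg_right
      · exact div_le_div_of_nonneg_right (by norm_num) hM.le
      · positivity
    rw [mul_add]
    linarith
  calc (k : ℝ) * ‖1 / ((n : ℂ) + k) + 1 / ((m : ℂ) + k - n + α)‖ ^ 2 = ((k : ℝ) * V) * V := by
        rw [← hV]; ring
    _ ≤ 3 * (4 / m * (1 / (s + x) + 1 / (1 - s + x))) := by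
        apply mul_le_mul e4 e5 hV0 (by norm_num)
    _ = _ := by ring

/-- the factor before the sum -/
theorem lim2_fac {α : ℂ} {σ c : ℝ} (hc : 0 < c) (hσ : 0 < σ) (h1 : -(1 / 2) ≤ α.re)
    {m k : ℕ} (hm : 1 ≤ m) (hk : 1 ≤ k)
    (hr : c * m * ((m : ℝ) + k) ^ (-α.re) ≤ ‖rr α (m + k) - rr α k‖) {x : ℝ} (hx : 0 < x)
    (hkx : (m : ℝ) * x ≤ k) :
    ((m : ℝ) + k + 1) ^ (-(σ + 2 * α.re)) / ‖rr α (m + k) - rr α k‖ ^ 2 ≤
      2 / c ^ 2 * ((m : ℝ) ^ (-(2 + σ)) * (1 + x) ^ (-σ)) := by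
  have hM : (1 : ℝ) ≤ m := by exact_mod_cast hm
  have hK : (1 : ℝ) ≤ k := by exact_mod_cast hk
  have hM0 : (0 : ℝ) < m := by linarith
  obtain ⟨S, hS⟩ : ∃ S : ℝ, S = (m : ℝ) + k := ⟨_, rfl⟩
  rw [← hS] at hr ⊢
  have hS0 : 2 ≤ S := by linarith
  have hSp : 0 < S := by linarith
  have hd0 : 0 < c * m * S ^ (-α.re) := by positivity
  have hd : (c * m * S ^ (-α.re)) ^ 2 ≤ ‖rr α (m + k) - rr α k‖ ^ 2 :=
    pow_le_pow_left₀ hd0.le hr 2
  have h2 : (S + 1) ^ (-(2 * α.re)) ≤ 2 * S ^ (-(2 * α.re)) := by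
    rcases le_or_gt 0 α.re with h | h
    · have : (S + 1) ^ (-(2 * α.re)) ≤ S ^ (-(2 * α.re)) :=
        Real.rpow_le_rpow_of_nonpos hSp (by linarith) (by linarith)
      have h3 : 0 ≤ S ^ (-(2 * α.re)) := by positivity
      linarith
    · calc (S + 1) ^ (-(2 * α.re)) ≤ (2 * S) ^ (-(2 * α.re)) :=
            Real.rpow_le_rpow (by linarith) (by linarith) (by linarith)
        _ = 2 ^ (-(2 * α.re)) * S ^ (-(2 * α.re)) := Real.mul_rpow (by norm_num) hSp.le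
        _ ≤ 2 * S ^ (-(2 * α.re)) := by
            apply mul_le_mul_of_nonneg_right _ (by positivity)
            calc (2 : ℝ) ^ (-(2 * α.re)) ≤ 2 ^ (1 : ℝ) :=
                  Real.rpow_le_rpow_of_exponent_le (by norm_num) (by linarith)
              _ = 2 := Real.rpow_one 2
  have h3 : (S + 1) ^ (-σ) ≤ ((m : ℝ) * (1 + x)) ^ (-σ) := by
    apply Real.rpow_le_rpow_of_nonpos
    · positivity
    · rw [hS]; nlinarith
    · linarith
  have h4 : (S + 1) ^ (-(σ + 2 * α.re)) ≤ ((m : ℝ) * (1 + x)) ^ (-σ) * (2 * S ^ (-(2 * α.re))) := by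
    calc (S + 1) ^ (-(σ + 2 * α.re)) = (S + 1) ^ (-σ) * (S + 1) ^ (-(2 * α.re)) := by
          rw [← Real.rpow_add (by linarith)]
          congr 1
          ring
      _ ≤ _ := mul_le_mul h3 h2 (by positivity) (by positivity)
  calc (S + 1) ^ (-(σ + 2 * α.re)) / ‖rr α (m + k) - rr α k‖ ^ 2 ≤
        ((m : ℝ) * (1 + x)) ^ (-σ) * (2 * S ^ (-(2 * α.re))) / (c * m * S ^ (-α.re)) ^ 2 :=
        div_le_div₀ (by positivity) h4 (by positivity) hd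
    _ = 2 / c ^ 2 * ((m : ℝ) ^ (-(2 + σ)) * (1 + x) ^ (-σ)) := by
        have e1 : (S ^ (-α.re)) ^ 2 = S ^ (-(2 * α.re)) := by
          rw [← Real.rpow_natCast, ← Real.rpow_mul hSp.le]
          congr 1
          push_cast
          ring
        have e2 : (m : ℝ) ^ (-(2 + σ)) = (m : ℝ) ^ (-σ) / (m : ℝ) ^ 2 := by
          rw [show -(2 + σ) = -σ - 2 by ring, Real.rpow_sub hM0]
          norm_num
        rw [mul_pow, mul_pow, e1, e2, Real.mul_rpow hM0.le (by linarith)]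
        have e3 : S ^ (-(2 * α.re)) ≠ 0 := by positivity
        field_simp

/-- domination -/
theorem lim2_dom {α : ℂ} {σ c C₁ : ℝ} (hc : 0 < c) (hC : 0 ≤ C₁) (hσ : 0 < σ)
    (h1 : -(1 / 2) ≤ α.re) (h2 : α.re ≤ 1 / 2)
    (hb : ∀ n : ℕ, 1 ≤ n → ‖bt (1 - α) n‖ ^ 2 ≤ C₁ * (n : ℝ) ^ (-(2 * α.re)))
    (hr : ∀ m k : ℕ, 1 ≤ m → 1 ≤ k → c * m * ((m : ℝ) + k) ^ (-α.re) ≤ ‖rr α (m + k) - rr α k‖)
    {m : ℕ} (hm : 1 ≤ m) {x s : ℝ} (hx : 0 < x) (hs : 0 < s) (hs1 : s < 1) :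
    (m : ℝ) ^ 2 * TT α (σ + 2 * α.re) m (⌊(m : ℝ) * x⌋₊ + 1) (⌊(m : ℝ) * s⌋₊ + 1) ≤
      24 * C₁ / c ^ 2 * ((1 + x) ^ (-σ) * (1 - s) ^ (min (σ + 2 * α.re) 0) *
        (1 / (s + x) + 1 / (1 - s + x))) := by
  have hM : (1 : ℝ) ≤ m := by exact_mod_cast hm
  have hM0 : (0 : ℝ) < m := by linarith
  obtain ⟨k, hk⟩ : ∃ k : ℕ, k = ⌊(m : ℝ) * x⌋₊ + 1 := ⟨_, rfl⟩
  obtain ⟨n, hn⟩ : ∃ n : ℕ, n = ⌊(m : ℝ) * s⌋₊ + 1 := ⟨_, rfl⟩
  rw [← hk, ← hn]
  have hk1 : 1 ≤ k := by omega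
  have hn1 : 1 ≤ n := by omega
  have hkx : (m : ℝ) * x ≤ k := by
    rw [hk]; push_cast; exact (Nat.lt_floor_add_one _).le
  have hns : (m : ℝ) * s ≤ n := by
    rw [hn]; push_cast; exact (Nat.lt_floor_add_one _).le
  have hns2 : (n : ℝ) ≤ m * s + 1 := by
    rw [hn]; push_cast
    have := Nat.floor_le (by positivity : 0 ≤ (m : ℝ) * s)
    linarith
  have hnm : n ≤ m := by
    have h3 : (n : ℝ) < m + 1 := by nlinarith
    have h4 : n < m + 1 := by exact_mod_cast h3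
    omega
  have hN : (1 : ℝ) ≤ n := by exact_mod_cast hn1
  have hNM : (n : ℝ) ≤ m := by exact_mod_cast hnm
  have A := lim2_ker (α := α) h1 hk1 hn1 hnm hx hs hs1 hkx hns hns2
  have B := lim2_fac hc hσ h1 hm hk1 (hr m k hm hk1) hx hkx
  have Cc : (n : ℝ) * ‖bt (1 - α) n‖ ^ 2 ≤ C₁ * (m : ℝ) ^ (1 - 2 * α.re) := by
    have h3 := hb n hn1
    have hn0 : (0 : ℝ) < n := by linarith
    calc (n : ℝ) * ‖bt (1 - α) n‖ ^ 2 ≤ n * (C₁ * (n : ℝ) ^ (-(2 * α.re))) :=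
          mul_le_mul_of_nonneg_left h3 hn0.le
      _ = C₁ * (n : ℝ) ^ (1 - 2 * α.re) := by
          rw [show 1 - 2 * α.re = 1 + -(2 * α.re) by ring, Real.rpow_add hn0, Real.rpow_one]
          ring
      _ ≤ C₁ * (m : ℝ) ^ (1 - 2 * α.re) := by
          apply mul_le_mul_of_nonneg_left _ hC
          exact Real.rpow_le_rpow hn0.le hNM (by linarith)
  have hs2 : 0 < 1 - s := by linarith
  have D : ((m : ℝ) - n + 1) ^ (σ + 2 * α.re) ≤
      (m : ℝ) ^ (σ + 2 * α.re) * (1 - s) ^ (min (σ + 2 * α.re) 0) := by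
    rcases le_or_gt 0 (σ + 2 * α.re) with h | h
    · rw [min_eq_right h, Real.rpow_zero, mul_one]
      exact Real.rpow_le_rpow (by linarith) (by linarith) h
    · rw [min_eq_left h.le, ← Real.mul_rpow hM0.le hs2.le]
      exact Real.rpow_le_rpow_of_nonpos (by positivity) (by linarith) h.le
  have hD0 : 0 ≤ ((m : ℝ) - n + 1) ^ (σ + 2 * α.re) := Real.rpow_nonneg (by linarith) _
  unfold TT
  have hpow : (m : ℝ) ^ 2 * (1 / m) * (m : ℝ) ^ (-(2 + σ)) * (m : ℝ) ^ (1 - 2 * α.re) *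
      (m : ℝ) ^ (σ + 2 * α.re) = 1 := by
    have e1 : (m : ℝ) ^ 2 * (1 / m) = (m : ℝ) ^ (1 : ℝ) := by
      rw [Real.rpow_one]; field_simp
    rw [e1, ← Real.rpow_add hM0, ← Real.rpow_add hM0, ← Real.rpow_add hM0]
    rw [show (1 : ℝ) + -(2 + σ) + (1 - 2 * α.re) + (σ + 2 * α.re) = 0 by ring, Real.rpow_zero]
  have hx1 : 0 < 1 + x := by linarith
  have hsx : 0 < 1 - s + x := by linarith
  calc (m : ℝ) ^ 2 * ((k : ℝ) * ((m : ℝ) + k + 1) ^ (-(σ + 2 * α.re)) /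
        ‖rr α (m + k) - rr α k‖ ^ 2 * ((n : ℝ) * ‖bt (1 - α) n‖ ^ 2 *
          ((m : ℝ) - n + 1) ^ (σ + 2 * α.re) *
          ‖1 / ((n : ℂ) + k) + 1 / ((m : ℂ) + k - n + α)‖ ^ 2)) =
      (m : ℝ) ^ 2 * (((k : ℝ) * ‖1 / ((n : ℂ) + k) + 1 / ((m : ℂ) + k - n + α)‖ ^ 2) *
        (((m : ℝ) + k + 1) ^ (-(σ + 2 * α.re)) / ‖rr α (m + k) - rr α k‖ ^ 2) *
        ((n : ℝ) * ‖bt (1 - α) n‖ ^ 2) * ((m : ℝ) - n + 1) ^ (σ + 2 * α.re)) := by ring
    _ ≤ (m : ℝ) ^ 2 * ((12 / m * (1 / (s + x) + 1 / (1 - s + x))) *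
        (2 / c ^ 2 * ((m : ℝ) ^ (-(2 + σ)) * (1 + x) ^ (-σ))) *
        (C₁ * (m : ℝ) ^ (1 - 2 * α.re)) *
        ((m : ℝ) ^ (σ + 2 * α.re) * (1 - s) ^ (min (σ + 2 * α.re) 0))) := by
        apply mul_le_mul_of_nonneg_left _ (by positivity)
        apply mul_le_mul _ D hD0 (by positivity)
        apply mul_le_mul _ Cc (by positivity) (by positivity)
        apply mul_le_mul A B (by positivity) (by positivity)
    _ = ((m : ℝ) ^ 2 * (1 / m) * (m : ℝ) ^ (-(2 + σ)) * (m : ℝ) ^ (1 - 2 * α.re) *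
      (m : ℝ) ^ (σ + 2 * α.re)) * (24 * C₁ / c ^ 2 * ((1 + x) ^ (-σ) *
        (1 - s) ^ (min (σ + 2 * α.re) 0) * (1 / (s + x) + 1 / (1 - s + x)))) := by ring
    _ = _ := by rw [hpow, one_mul]

end Pool.Agent.H64.CX
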