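import Pool.Agent.H64.CX.Stm

set_option autoImplicit false

/-! # CX-LOW: the first terms (helper85) -/

namespace Pool.Agent.H64.CX

open Metric Set Filter Topology MeasureTheory
open scoped ENNReal

theorem low : S_LOW := by
  intro hB α σ M₀ h0 h1 hσ
  obtain ⟨Cb, hCb0, hCb⟩ := hB α
  obtain ⟨D, hD⟩ : ∃ D : ℝ, D = ((M₀ : ℝ) + 1) * (Real.exp 1 * 4 ^ M₀ * Cb) := ⟨_, rfl⟩
  have hD0 : 0 ≤ D := by rw [hD]; positivity
  have hS : Summable fun k : ℕ => D ^ 2 * ((k : ℝ) + 1) ^ (-(1 + σ)) := by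
    apply Summable.mul_left
    have h2 : Summable fun k : ℕ => ((k : ℝ)) ^ (-(1 + σ)) :=
      Real.summable_nat_rpow.2 (by linarith)
    have h3 := (summable_nat_add_iff 1).2 h2
    refine h3.congr fun m => ?_
    push_cast
    rfl
  refine ⟨∑' k : ℕ, D ^ 2 * ((k : ℝ) + 1) ^ (-(1 + σ)), tsum_nonneg fun k => by positivity, ?_⟩
  intro ν hν m hm
  have hTN : ∀ k : ℕ, ‖TN α ν k m‖ ≤ D * ((k : ℝ) + 1) ^ (α.re - 1) := by
    intro k
    have h2 : ∀ b ∈ Finset.range (m + 1), ‖ν (m - b) b * bt α (b + k)‖ ≤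
        Real.exp 1 * 4 ^ M₀ * Cb * ((k : ℝ) + 1) ^ (α.re - 1) := by
      intro b hb
      rw [Finset.mem_range] at hb
      have h3 := hν (m - b) b
      have h4 : m - b + b = m := by omega
      rw [h4] at h3
      have h5 : ‖ν (m - b) b‖ ≤ Real.exp 1 * 4 ^ M₀ := by
        refine h3.trans (mul_le_mul_of_nonneg_left ?_ (Real.exp_pos 1).le)
        exact pow_le_pow_right₀ (by norm_num) hm.le
      have h6 : ‖bt α (b + k)‖ ≤ Cb * ((k : ℝ) + 1) ^ (α.re - 1) := by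
        refine (hCb (b + k)).trans (mul_le_mul_of_nonneg_left ?_ hCb0)
        apply Real.rpow_le_rpow_of_nonpos (by positivity) _ (by linarith)
        push_cast
        linarith [(Nat.cast_nonneg b : (0 : ℝ) ≤ b)]
      rw [norm_mul]
      calc ‖ν (m - b) b‖ * ‖bt α (b + k)‖ ≤
            Real.exp 1 * 4 ^ M₀ * (Cb * ((k : ℝ) + 1) ^ (α.re - 1)) :=
            mul_le_mul h5 h6 (norm_nonneg _) (by positivity)
        _ = _ := by ring
    calc ‖TN α ν k m‖ ≤ ∑ b ∈ Finset.range (m + 1), ‖ν (m - b) b * bt α (b + k)‖ := by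
          unfold TN
          exact norm_sum_le _ _
      _ ≤ ∑ _b ∈ Finset.range (m + 1), Real.exp 1 * 4 ^ M₀ * Cb * ((k : ℝ) + 1) ^ (α.re - 1) :=
          Finset.sum_le_sum h2
      _ = ((m : ℝ) + 1) * (Real.exp 1 * 4 ^ M₀ * Cb * ((k : ℝ) + 1) ^ (α.re - 1)) := by
          rw [Finset.sum_const, Finset.card_range, nsmul_eq_mul]
          push_cast
          rfl
      _ ≤ ((M₀ : ℝ) + 1) * (Real.exp 1 * 4 ^ M₀ * Cb * ((k : ℝ) + 1) ^ (α.re - 1)) := by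
          refine mul_le_mul_of_nonneg_right ?_ (by positivity)
          have : (m : ℝ) ≤ M₀ := by exact_mod_cast hm.le
          linarith
      _ = _ := by rw [hD]; ring
  have hterm : ∀ k : ℕ, (k : ℝ) * ((m : ℝ) + k + 1) ^ (-(σ + 2 * α.re)) * ‖TN α ν k m‖ ^ 2 ≤
      D ^ 2 * ((k : ℝ) + 1) ^ (-(1 + σ)) := by
    intro k
    have hk1 : (0 : ℝ) < (k : ℝ) + 1 := by positivity
    have h2 : ((m : ℝ) + k + 1) ^ (-(σ + 2 * α.re)) ≤ ((k : ℝ) + 1) ^ (-(σ + 2 * α.re)) :=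
      Real.rpow_le_rpow_of_nonpos hk1
        (by linarith [(Nat.cast_nonneg m : (0 : ℝ) ≤ m)]) (by linarith)
    have h3 : ‖TN α ν k m‖ ^ 2 ≤ (D * ((k : ℝ) + 1) ^ (α.re - 1)) ^ 2 :=
      pow_le_pow_left₀ (norm_nonneg _) (hTN k) 2
    have h4 : ((k : ℝ) + 1) * ((k : ℝ) + 1) ^ (-(σ + 2 * α.re)) *
        (((k : ℝ) + 1) ^ (α.re - 1) * ((k : ℝ) + 1) ^ (α.re - 1)) =
        ((k : ℝ) + 1) ^ (-(1 + σ)) := by
      have e1 : ((k : ℝ) + 1) = ((k : ℝ) + 1) ^ (1 : ℝ) := (Real.rpow_one _).symm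
      calc ((k : ℝ) + 1) * ((k : ℝ) + 1) ^ (-(σ + 2 * α.re)) *
            (((k : ℝ) + 1) ^ (α.re - 1) * ((k : ℝ) + 1) ^ (α.re - 1)) =
            ((k : ℝ) + 1) ^ (1 : ℝ) * ((k : ℝ) + 1) ^ (-(σ + 2 * α.re)) *
            (((k : ℝ) + 1) ^ (α.re - 1) * ((k : ℝ) + 1) ^ (α.re - 1)) := by rw [Real.rpow_one]
        _ = _ := by
          rw [← Real.rpow_add hk1, ← Real.rpow_add hk1, ← Real.rpow_add hk1]
          congr 1
          ring
    calc (k : ℝ) * ((m : ℝ) + k + 1) ^ (-(σ + 2 * α.re)) * ‖TN α ν k m‖ ^ 2 ≤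
          (((k : ℝ) + 1) * ((k : ℝ) + 1) ^ (-(σ + 2 * α.re))) *
          (D * ((k : ℝ) + 1) ^ (α.re - 1)) ^ 2 := by
          refine mul_le_mul ?_ h3 (sq_nonneg _) (by positivity)
          exact mul_le_mul (by linarith) h2 (by positivity) hk1.le
      _ = D ^ 2 * (((k : ℝ) + 1) * ((k : ℝ) + 1) ^ (-(σ + 2 * α.re)) *
          (((k : ℝ) + 1) ^ (α.re - 1) * ((k : ℝ) + 1) ^ (α.re - 1))) := by ring
      _ = _ := by rw [h4]
  calc ∑' k : ℕ, ENNReal.ofReal ((k : ℝ) * ((m : ℝ) + k + 1) ^ (-(σ + 2 * α.re)) *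
        ‖TN α ν k m‖ ^ 2) ≤ ∑' k : ℕ, ENNReal.ofReal (D ^ 2 * ((k : ℝ) + 1) ^ (-(1 + σ))) :=
        ENNReal.tsum_le_tsum fun k => ENNReal.ofReal_le_ofReal (hterm k)
    _ = _ := (ENNReal.ofReal_tsum_of_nonneg (fun k => by positivity) hS).symm

end Pool.Agent.H64.CX
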