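import Pool.Agent.H64.CX.StmN
import Pool.Agent.H64.CX.U

set_option autoImplicit false

/-! # CX-RN (helper63), from RASY and RLOW -/

namespace Pool.Agent.H64.CX

open Finset Filter Topology

theorem rn_asy (α : ℂ) (hα : α ≠ 0) (h0 : -(1 / 2) ≤ α.re) :
    Tendsto (fun j : ℕ => rr α j / (j : ℂ) ^ (1 - α)) atTop (𝓝 (Complex.Gamma α)) := by
  have hs : ∀ j : ℕ, α ≠ -(j : ℂ) := by
    intro j h
    rcases Nat.eq_zero_or_pos j with hj | hj
    · subst hj
      simp at h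
      exact hα h
    · have := congrArg Complex.re h
      simp at this
      have hj' : (1 : ℝ) ≤ j := by exact_mod_cast hj
      linarith
  rw [← tendsto_add_atTop_iff_nat 1]
  have hg := Complex.GammaSeq_tendsto_Gamma α
  have hquot : Tendsto (fun n : ℕ => (((n : ℂ) / ((n : ℂ) + 1)) ^ (-α))) atTop (𝓝 1) := by
    have h1 : Tendsto (fun n : ℕ => (n : ℂ) / ((n : ℂ) + 1)) atTop (𝓝 1) :=
      tendsto_natCast_div_add_atTop (𝕜 := ℂ) 1
    have h2 : Tendsto (fun _ : ℕ => -α) atTop (𝓝 (-α)) := tendsto_const_nhds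
    have := h1.cpow h2 (by simp)
    rwa [Complex.one_cpow] at this
  have h2 := hquot.mul hg
  rw [one_mul] at h2
  refine h2.congr' ?_
  filter_upwards [eventually_ge_atTop 1] with n hn
  have hn0 : (n : ℂ) ≠ 0 := by
    have : n ≠ 0 := by omega
    exact_mod_cast this
  have hn1 : (n : ℂ) + 1 ≠ 0 := by exact_mod_cast Nat.succ_ne_zero n
  have key := bt_gammaSeq α hs n
  have hpow0 : (n : ℂ) ^ α ≠ 0 := by
    rw [Complex.cpow_ne_zero_iff]
    exact Or.inl hn0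
  have hb0 : bt α (n + 1) ≠ 0 := by
    intro h
    rw [h, zero_mul] at key
    exact hpow0 key.symm
  have hg0 : Complex.GammaSeq α n ≠ 0 := by
    intro h
    rw [h, mul_zero, mul_zero] at key
    exact hpow0 key.symm
  have hpow1 : ((n : ℂ) + 1) ^ α ≠ 0 := by
    rw [Complex.cpow_ne_zero_iff]
    exact Or.inl hn1
  have hdiv : ((n : ℂ) / ((n : ℂ) + 1)) ^ (-α) = ((n : ℂ) + 1) ^ α / (n : ℂ) ^ α := by
    have h3 : (n : ℂ) = (((n : ℂ) / ((n : ℂ) + 1))) * ((n : ℂ) + 1) := by field_simp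
    have h4 : (n : ℂ) ^ α = ((n : ℂ) / ((n : ℂ) + 1)) ^ α * ((n : ℂ) + 1) ^ α := by
      have h5 : ((n : ℂ) / ((n : ℂ) + 1)) = (((n : ℝ) / ((n : ℝ) + 1) : ℝ) : ℂ) := by push_cast; rfl
      have h6 : ((n : ℂ) + 1) = (((n : ℝ) + 1 : ℝ) : ℂ) := by push_cast; rfl
      conv_lhs => rw [h3]
      rw [h5, h6]
      exact Complex.mul_cpow_ofReal_nonneg (by positivity) (by positivity) α
    rw [Complex.cpow_neg, eq_div_iff hpow0, h4]
    have h7 : ((n : ℂ) / ((n : ℂ) + 1)) ^ α ≠ 0 := by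
      rw [Complex.cpow_ne_zero_iff]
      exact Or.inl (div_ne_zero hn0 hn1)
    field_simp
  rw [hdiv]
  unfold rr
  have hpow : (((n + 1 : ℕ) : ℂ)) ^ (1 - α) = ((n : ℂ) + 1) / ((n : ℂ) + 1) ^ α := by
    push_cast
    rw [Complex.cpow_sub _ _ hn1, Complex.cpow_one]
  rw [hpow, ← key]
  field_simp

theorem rn_low (α : ℂ) (hα : α ≠ 0) (h0 : -(1 / 2) ≤ α.re) (h1 : α.re ≤ 1 / 2)
    (h2 : |α.im| ≤ 1 / 2) : ∃ c : ℝ, 0 < c ∧ ∀ m k : ℕ, 1 ≤ m → 1 ≤ k →
        c * m * ((m : ℝ) + k) ^ (-α.re) ≤ ‖rr α (m + k) - rr α k‖ := by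
  have hs : ∀ j : ℕ, α ≠ -(j : ℂ) := by
    intro j h
    rcases Nat.eq_zero_or_pos j with hj | hj
    · subst hj
      simp at h
      exact hα h
    · have := congrArg Complex.re h
      simp at this
      have hj' : (1 : ℝ) ≤ j := by exact_mod_cast hj
      linarith
  have hsum : ∀ j : ℕ, α + (j : ℂ) ≠ 0 := fun j h => hs j (eq_neg_of_add_eq_zero_left h)
  have hG : Complex.Gamma α ≠ 0 := Complex.Gamma_ne_zero hs
  have hbt : ∀ j : ℕ, bt α j ≠ 0 := by
    intro j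
    unfold bt
    rw [Finset.prod_ne_zero_iff]
    intro i _
    exact div_ne_zero (hsum i) (by exact_mod_cast Nat.succ_ne_zero i)
  have hrr : ∀ j : ℕ, rr α j ≠ 0 := fun j => inv_ne_zero (hbt j)
  set θ := α.re with hθ
  -- lower bound of the coefficients
  obtain ⟨B, hB⟩ : ∃ B : ℝ, ∀ j : ℕ, ‖(j : ℂ) ^ (1 - α) / rr α j‖ ≤ B := by
    have ht : Tendsto (fun j : ℕ => ‖(j : ℂ) ^ (1 - α) / rr α j‖) atTop (𝓝 ‖(Complex.Gamma α)⁻¹‖) := by
      have := ((rn_asy α hα h0).inv₀ hG).norm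
      refine this.congr ?_
      intro j
      rw [inv_div]
    obtain ⟨B, hB⟩ := ht.bddAbove_range
    exact ⟨B, fun j => hB ⟨j, rfl⟩⟩
  have hBpos : 0 < B := by
    have := hB 1
    have h3 : 0 < ‖((1 : ℕ) : ℂ) ^ (1 - α) / rr α 1‖ := by
      rw [norm_pos_iff]
      apply div_ne_zero _ (hrr 1)
      simp
    linarith
  have hlow : ∀ j : ℕ, 1 ≤ j → (j : ℝ) ^ (1 - θ) / B ≤ ‖rr α j‖ := by
    intro j hj
    have h3 := hB j
    rw [norm_div, Complex.norm_natCast_cpow_of_pos (by omega), div_le_iff₀ (norm_pos_iff.mpr (hrr j))] at h3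
    have e : (1 - α).re = 1 - θ := by simp [hθ]
    rw [e] at h3
    rw [div_le_iff₀ hBpos]
    linarith
  refine ⟨3 / 8 / (2 * B) / 2, by positivity, ?_⟩
  intro m k hm hk
  have hk' : (1 : ℝ) ≤ k := by exact_mod_cast hk
  -- the increments
  have hinc : ∀ j : ℕ, 1 ≤ j → 3 / 8 / (2 * B) * (j : ℝ) ^ (-θ) ≤ ‖rr α (j + 1)‖ - ‖rr α j‖ := by
    intro j hj
    have hj' : (1 : ℝ) ≤ j := by exact_mod_cast hj
    have hj0 : (0 : ℝ) < j := by linarith
    have hstep : rr α (j + 1) = rr α j * (((j : ℂ) + 1) / (α + (j : ℂ))) := by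
      unfold rr
      rw [bt_succ, mul_inv, inv_div]
    have e1 : ‖(j : ℂ) + 1‖ = (j : ℝ) + 1 := by
      have : (j : ℂ) + 1 = (((j : ℝ) + 1 : ℝ) : ℂ) := by push_cast; ring
      rw [this, Complex.norm_real, Real.norm_of_nonneg (by positivity)]
    have hnpos : 0 < ‖α + (j : ℂ)‖ := norm_pos_iff.mpr (hsum j)
    have e2 : ‖α + (j : ℂ)‖ ≤ (j : ℝ) + 5 / 8 := by
      have h3 : ‖α + (j : ℂ)‖ ^ 2 = (θ + j) ^ 2 + α.im ^ 2 := by
        rw [Complex.sq_norm, Complex.normSq_apply]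
        simp [hθ]
        ring
      have h4 : α.im ^ 2 ≤ 1 / 4 := by
        have : |α.im| ^ 2 ≤ (1 / 2) ^ 2 := by gcongr
        rw [sq_abs] at this
        linarith
      refine (sq_le_sq₀ (norm_nonneg _) (by positivity)).mp ?_
      rw [h3]
      nlinarith
    rw [hstep, norm_mul, norm_div, e1]
    have hr := hlow j hj
    have h5 : ‖rr α j‖ * (((j : ℝ) + 1) / ‖α + (j : ℂ)‖) - ‖rr α j‖ =
        ‖rr α j‖ * (((j : ℝ) + 1 - ‖α + (j : ℂ)‖) / ‖α + (j : ℂ)‖) := by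
      field_simp
    rw [h5]
    have h6 : (3 / 8) / (2 * (j : ℝ)) ≤ ((j : ℝ) + 1 - ‖α + (j : ℂ)‖) / ‖α + (j : ℂ)‖ := by
      rw [div_le_div_iff₀ (by positivity) hnpos]
      nlinarith
    have h7 : (j : ℝ) ^ (1 - θ) / B * ((3 / 8) / (2 * (j : ℝ))) = 3 / 8 / (2 * B) * (j : ℝ) ^ (-θ) := by
      rw [show (1 - θ) = 1 + (-θ) by ring, Real.rpow_add hj0, Real.rpow_one]
      field_simp
    rw [← h7]
    exact mul_le_mul hr h6 (by positivity) (norm_nonneg _)
  -- summation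
  have hgau : ∀ m : ℕ, (m : ℝ) * ((m : ℝ) + k) / 2 ≤ ∑ i ∈ Finset.range m, ((i : ℝ) + k) := by
    intro m
    induction m with
    | zero => simp
    | succ m ih =>
      rw [Finset.sum_range_succ]
      push_cast
      nlinarith
  have hsumm : 3 / 8 / (2 * B) / 2 * (m : ℝ) * ((m : ℝ) + k) ^ (-θ) ≤
      ‖rr α (m + k)‖ - ‖rr α k‖ := by
    have htel : ‖rr α (m + k)‖ - ‖rr α k‖ = ∑ i ∈ Finset.range m, (‖rr α (i + k + 1)‖ - ‖rr α (i + k)‖) := by
      have := Finset.sum_range_sub (fun i => ‖rr α (i + k)‖) m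
      rw [zero_add] at this
      rw [← this]
      apply Finset.sum_congr rfl
      intro i _
      congr 3
      ring
    rw [htel]
    have hmk : (0 : ℝ) < (m : ℝ) + k := by positivity
    have h8 : ∀ i ∈ Finset.range m, 3 / 8 / (2 * B) * (((m : ℝ) + k) ^ (-θ) / ((m : ℝ) + k)) *
        ((i : ℝ) + k) ≤ ‖rr α (i + k + 1)‖ - ‖rr α (i + k)‖ := by
      intro i hi
      have hi' := Finset.mem_range.mp hi
      refine le_trans ?_ (hinc (i + k) (by omega))
      rw [mul_assoc]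
      apply mul_le_mul_of_nonneg_left _ (by positivity)
      have him : (i : ℝ) ≤ m := by exact_mod_cast hi'.le
      have hik : (0 : ℝ) < (i : ℝ) + k := by positivity
      have h9 : (((i : ℝ) + k) / ((m : ℝ) + k)) ^ (1 : ℝ) ≤
          (((i : ℝ) + k) / ((m : ℝ) + k)) ^ (-θ) := by
        apply Real.rpow_le_rpow_of_exponent_ge (by positivity) _ (by linarith)
        rw [div_le_one hmk]
        linarith
      rw [Real.rpow_one, Real.div_rpow hik.le hmk.le, le_div_iff₀ (by positivity)] at h9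
      push_cast
      refine le_trans (le_of_eq ?_) h9
      ring
    calc 3 / 8 / (2 * B) / 2 * (m : ℝ) * ((m : ℝ) + k) ^ (-θ)
        = 3 / 8 / (2 * B) * (((m : ℝ) + k) ^ (-θ) / ((m : ℝ) + k)) *
          ((m : ℝ) * ((m : ℝ) + k) / 2) := by
          field_simp
      _ ≤ 3 / 8 / (2 * B) * (((m : ℝ) + k) ^ (-θ) / ((m : ℝ) + k)) *
          ∑ i ∈ Finset.range m, ((i : ℝ) + k) := mul_le_mul_of_nonneg_left (hgau m) (by positivity)
      _ = ∑ i ∈ Finset.range m, 3 / 8 / (2 * B) * (((m : ℝ) + k) ^ (-θ) / ((m : ℝ) + k)) *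
          ((i : ℝ) + k) := by rw [Finset.mul_sum]
      _ ≤ _ := Finset.sum_le_sum h8
  refine hsumm.trans ?_
  exact (norm_sub_norm_le _ _)

/-- CX-RN -/
theorem rn : S_RN := fun α hα h0 h1 h2 => ⟨rn_asy α hα h0, rn_low α hα h0 h1 h2⟩

end Pool.Agent.H64.CX
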