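import Pool.Agent.H64.CX.Stm

set_option autoImplicit false

/-! # CX-SUMM: convergence for `ρ < 1` (helper85) -/

namespace Pool.Agent.H64.CX

open Metric Set Filter Topology MeasureTheory
open scoped ENNReal

theorem summ : S_SUMM := by
  intro hB α μ ν hμ h0 h1 hν ρ hρ
  obtain ⟨Cb, hCb0, hCb⟩ := hB α
  obtain ⟨q, hq⟩ : ∃ q : ℝ, q = √ρ := ⟨_, rfl⟩
  obtain ⟨s, hs⟩ : ∃ s : ℝ, s = √q := ⟨_, rfl⟩
  have hq0 : 0 < q := by rw [hq]; exact Real.sqrt_pos.2 hρ.1
  have hq1 : q < 1 := by rw [hq, Real.sqrt_lt' one_pos, one_pow]; exact hρ.2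
  have hs0 : 0 < s := by rw [hs]; exact Real.sqrt_pos.2 hq0
  have hs1 : s < 1 := by rw [hs, Real.sqrt_lt' one_pos, one_pow]; exact hq1
  have hqq : ρ = q * q := by rw [hq, Real.mul_self_sqrt hρ.1.le]
  have hss : q = s * s := by rw [hs, Real.mul_self_sqrt hq0.le]
  obtain ⟨C, hC⟩ := hν s ⟨hs0, hs1⟩
  have hC0 : 0 ≤ C := le_trans (by positivity) (hC 0 0)
  have hbt : ∀ j, ‖bt α j‖ ≤ Cb := by
    intro j
    refine (hCb j).trans ?_
    have h2 : ((j : ℝ) + 1) ^ (α.re - 1) ≤ 1 :=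
      Real.rpow_le_one_of_one_le_of_nonpos (by linarith [(Nat.cast_nonneg j : (0 : ℝ) ≤ j)])
        (by linarith)
    calc Cb * ((j : ℝ) + 1) ^ (α.re - 1) ≤ Cb * 1 := mul_le_mul_of_nonneg_left h2 hCb0
      _ = Cb := mul_one _
  have hTP : ∀ n m : ℕ, ‖TP α ν n m‖ ≤ ((m : ℝ) + 1) * (C * Cb) / s ^ m := by
    intro n m
    have hsm : 0 < s ^ m := pow_pos hs0 m
    have h2 : ∀ b ∈ Finset.Ico n (m + 1), ‖ν (m - b) b * bt α (b - n)‖ ≤ C * Cb / s ^ m := by
      intro b hb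
      rw [Finset.mem_Ico] at hb
      have h3 := hC (m - b) b
      have h4 : m - b + b = m := by omega
      rw [h4] at h3
      rw [norm_mul]
      have h5 : ‖ν (m - b) b‖ ≤ C / s ^ m := by rwa [le_div_iff₀ hsm]
      calc ‖ν (m - b) b‖ * ‖bt α (b - n)‖ ≤ C / s ^ m * Cb :=
            mul_le_mul h5 (hbt _) (norm_nonneg _) (by positivity)
        _ = C * Cb / s ^ m := by ring
    calc ‖TP α ν n m‖ ≤ ∑ b ∈ Finset.Ico n (m + 1), ‖ν (m - b) b * bt α (b - n)‖ := by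
          unfold TP
          exact norm_sum_le _ _
      _ ≤ ∑ _b ∈ Finset.Ico n (m + 1), C * Cb / s ^ m := Finset.sum_le_sum h2
      _ = ((m + 1 - n : ℕ) : ℝ) * (C * Cb / s ^ m) := by
          rw [Finset.sum_const, Nat.card_Ico, nsmul_eq_mul]
      _ ≤ ((m : ℝ) + 1) * (C * Cb / s ^ m) := by
          refine mul_le_mul_of_nonneg_right ?_ (by positivity)
          have : m + 1 - n ≤ m + 1 := Nat.sub_le _ _
          exact_mod_cast this
      _ = _ := by ring
  have hPP0 : ∀ m, 0 ≤ PP α ν μ m := by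
    intro m
    unfold PP
    refine Finset.sum_nonneg fun n hn => ?_
    rw [Finset.mem_Icc] at hn
    have h2 : (n : ℝ) ≤ m := by exact_mod_cast hn.2
    have h3 : (0 : ℝ) ≤ (m : ℝ) - n + 1 := by linarith
    have h4 := Real.rpow_nonneg h3 (-μ)
    positivity
  have hPP : ∀ m, PP α ν μ m ≤ ((m : ℝ) + 1) ^ 4 * (C * Cb) ^ 2 / q ^ m := by
    intro m
    have hqm : q ^ m = s ^ m * s ^ m := by rw [hss, mul_pow]
    have hsm : 0 < s ^ m := pow_pos hs0 m
    calc PP α ν μ m ≤ ∑ _n ∈ Finset.Icc 1 m,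
          ((m : ℝ) + 1) * (((m : ℝ) + 1) * (C * Cb) / s ^ m) ^ 2 := by
          unfold PP
          refine Finset.sum_le_sum fun n hn => ?_
          rw [Finset.mem_Icc] at hn
          have h2 : (n : ℝ) ≤ m := by exact_mod_cast hn.2
          have h3 : ((m : ℝ) - n + 1) ^ (-μ) ≤ 1 :=
            Real.rpow_le_one_of_one_le_of_nonpos (by linarith) (by linarith)
          have h4 : 0 ≤ ((m : ℝ) - n + 1) ^ (-μ) := Real.rpow_nonneg (by linarith) _
          have h5 : (n : ℝ) * ((m : ℝ) - n + 1) ^ (-μ) ≤ (m : ℝ) + 1 := by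
            calc (n : ℝ) * ((m : ℝ) - n + 1) ^ (-μ) ≤ (n : ℝ) * 1 :=
                  mul_le_mul_of_nonneg_left h3 (Nat.cast_nonneg n)
              _ ≤ _ := by linarith
          exact mul_le_mul h5 (pow_le_pow_left₀ (norm_nonneg _) (hTP n m) 2) (sq_nonneg _)
            (by positivity)
      _ = (m : ℝ) * (((m : ℝ) + 1) * (((m : ℝ) + 1) * (C * Cb) / s ^ m) ^ 2) := by
          rw [Finset.sum_const, Nat.card_Icc, nsmul_eq_mul]
          simp
      _ ≤ ((m : ℝ) + 1) * (((m : ℝ) + 1) * (((m : ℝ) + 1) * (C * Cb) / s ^ m) ^ 2) :=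
          mul_le_mul_of_nonneg_right (by linarith) (by positivity)
      _ = _ := by
          rw [hqm]
          field_simp
  have hsum : Summable fun m : ℕ => (C * Cb) ^ 2 / q * (((m : ℝ) + 1) ^ 4 * q ^ (m + 1)) := by
    apply Summable.mul_left
    have h2 := summable_pow_mul_geometric_of_norm_lt_one (R := ℝ) 4 (r := q)
      (by rw [Real.norm_eq_abs, abs_of_pos hq0]; exact hq1)
    have h3 := (summable_nat_add_iff 1).2 h2
    refine h3.congr fun m => ?_
    push_cast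
    rfl
  refine Summable.of_nonneg_of_le (fun m => mul_nonneg (pow_nonneg hρ.1.le m) (hPP0 m))
    (fun m => ?_) hsum
  have hqm : 0 < q ^ m := pow_pos hq0 m
  calc ρ ^ m * PP α ν μ m ≤ ρ ^ m * (((m : ℝ) + 1) ^ 4 * (C * Cb) ^ 2 / q ^ m) :=
        mul_le_mul_of_nonneg_left (hPP m) (pow_nonneg hρ.1.le m)
    _ = _ := by
        rw [hqq, mul_pow]
        field_simp
        ring

end Pool.Agent.H64.CX
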