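import Pool.Agent.H64.CX.Stm

set_option autoImplicit false

/-! # Statements: numerical inequalities in the half plane -/

namespace Pool.Agent.H64.CX

open Metric Set Filter Topology MeasureTheory

/-- upper bound of `‖sin (π α)‖ ^ 2 / (π ^ 2 ‖α‖ ^ 2)`, where `a = (Im α)²`, `b = (Re α)²` -/
noncomputable def QQ (a b : ℝ) : ℝ :=
  1 + 329 / 100 * a - 3289 / 1000 * b + (433 / 100 * a ^ 2 - 4329 / 1000 * a * b + 433 / 100 * b ^ 2) +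
    (3053 / 1000 * (a ^ 3 + a * b ^ 2) - 3052 / 1000 * (a ^ 2 * b + b ^ 3)) +
    (134 / 100 * (a ^ 4 + a ^ 2 * b ^ 2 + b ^ 4) - 1338 / 1000 * (a ^ 3 * b + a * b ^ 3)) + 1 / 10000

/-- upper bound of `π p (1 - p) / sin (π p)` -/
noncomputable def FF (p : ℝ) : ℝ := 1 - p * (1 - p) + 13 / 20 * (p * (1 - p)) ^ 2

/-- the Taylor polynomial factor -/
noncomputable def qq (p σ : ℝ) : ℝ :=
  1 - σ * ((2 - p) / 3) - σ * (1 - σ) / 2 * ((2 - p) * (3 - p) / 12) -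
    σ * (1 - σ) * (2 - σ) / 6 * ((2 - p) * (3 - p) * (4 - p) / 60)

/-- CX-BETA2: an upper bound of the Beta integral -/
def S_BETA2 : Prop :=
  ∀ p σ : ℝ, 0 ≤ p → p ≤ 3 / 4 → 0 < σ → σ ≤ 1 →
    (∫ x in (0 : ℝ)..1, x ^ (1 - p) * (1 - x) ^ (σ + p)) ≤ 1 / 2 * FF p * qq p σ

/-- CX-SINQ: the sine -/
def S_SINQ : Prop :=
  ∀ α : ℂ, 0 ≤ α.re → ‖α‖ ≤ 3 / 8 →
    ‖Complex.sin (Real.pi * α)‖ ^ 2 ≤ Real.pi ^ 2 * ‖α‖ ^ 2 * QQ (α.im ^ 2) (α.re ^ 2)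

/-- CX-NUMP: the polynomial inequality; the quotient of the sides is at most `0.99` in the box -/
def S_NUMP : Prop :=
  ∀ t N : ℝ, 0 ≤ t → t ≤ 3 / 8 → 0 ≤ N → N ≤ 9 / 64 → t ^ 2 ≤ N →
    QQ (N - t ^ 2) (t ^ 2) * FF (2 * t) * qq (2 * t) (20 / 9 * N) < 10 / 9 * (1 - 2 * t + N)

/-- CX-CRI: the criterion on the imaginary axis (from CX-NUMI) -/
def S_CRI : Prop :=
  S_NUMI → ∀ y : ℝ, y ≠ 0 → |y| ≤ 1 / 2 → Crit ((y : ℂ) * Complex.I) (2 * y ^ 2)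

/-- CX-CRH: the criterion in the half plane (from CX-BETA2, CX-SINQ, CX-NUMP) -/
def S_CRH : Prop :=
  S_BETA2 → S_SINQ → S_NUMP → ∀ α : ℂ, α ≠ 0 → 0 ≤ α.re → ‖α‖ ≤ 3 / 8 →
    Crit α (20 / 9 * ‖α‖ ^ 2)

end Pool.Agent.H64.CX
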