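import Pool.Agent.H64.CX.StmN

set_option autoImplicit false

/-! # Statements: the general steps for `-1/2 ≤ Re α ≤ 1/2` -/

namespace Pool.Agent.H64.CX

open Metric Set Filter Topology MeasureTheory
open scoped ENNReal

/-- CX-IDN: the identity for the coefficients of negative index -/
def S_IDN : Prop :=
  ∀ (α : ℂ) (ν : ℕ → ℕ → ℂ), (∀ a b, ν a b = ν b a) → α ≠ 0 → -1 < α.re →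
    ∀ m k : ℕ, 1 ≤ k → TN α ν k m * (rr α (m + k) - rr α k) =
      ∑ n ∈ Finset.Icc 1 m, (n : ℂ) * bt (1 - α) n * TP α ν n m *
        (1 / ((n : ℂ) + k) + 1 / ((m : ℂ) + k - n + α))

/-- CX-CSN: the Cauchy-Schwarz inequality -/
def S_CSN : Prop :=
  S_IDN → ∀ (α : ℂ) (ν : ℕ → ℕ → ℂ) (μ : ℝ), (∀ a b, ν a b = ν b a) → α ≠ 0 → -1 < α.re →
    ∀ m k : ℕ, 1 ≤ m → 1 ≤ k → rr α (m + k) ≠ rr α k →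
    (k : ℝ) * ((m : ℝ) + k + 1) ^ (-μ) * ‖TN α ν k m‖ ^ 2 ≤ SN α μ m k * PP α ν μ m

/-- CX-HBN: the diagonal coefficients are controlled -/
def S_HBN : Prop :=
  S_HID → S_BTU → ∀ (α : ℂ) (σ : ℝ), -(1 / 2) ≤ α.re → α.re ≤ 1 / 2 → 0 < σ →
    -1 < σ + 2 * α.re →
    ∃ C : ℝ, 0 ≤ C ∧ ∀ ν : ℕ → ℕ → ℂ, (∀ a b, ν a b = ν b a) → ∀ m : ℕ, 1 ≤ m →
      ‖GD ν m‖ ^ 2 ≤ C * ((m : ℝ) + 1) ^ σ * PP α ν (σ + 2 * α.re) m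

/-- CX-LOWN: the first terms -/
def S_LOWN : Prop :=
  S_BTU → ∀ (α : ℂ) (σ : ℝ) (M₀ : ℕ), -(1 / 2) ≤ α.re → α.re ≤ 1 / 2 → 0 < σ → ∃ B : ℝ, 0 ≤ B ∧
    ∀ ν : ℕ → ℕ → ℂ, (∀ a b, ‖ν a b‖ ≤ Real.exp 1 * 4 ^ (a + b)) → ∀ m < M₀,
      ∑' k : ℕ, ENNReal.ofReal ((k : ℝ) * ((m : ℝ) + k + 1) ^ (-(σ + 2 * α.re)) *
        ‖TN α ν k m‖ ^ 2) ≤ ENNReal.ofReal B

/-- CX-SUMMN: convergence for `ρ < 1` -/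
def S_SUMMN : Prop :=
  S_BTU → ∀ (α : ℂ) (μ : ℝ) (ν : ℕ → ℕ → ℂ), α.re ≤ 1 →
    (∀ s ∈ Ioo (0 : ℝ) 1, ∃ C : ℝ, ∀ a b, ‖ν a b‖ * s ^ (a + b) ≤ C) →
    ∀ ρ ∈ Ioo (0 : ℝ) 1, Summable fun m : ℕ => ρ ^ m * PP α ν μ m

end Pool.Agent.H64.CX
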