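import Pool.Agent.H64.CX.StmB

set_option autoImplicit false

/-! # Statements: exponents with negative real part (and the exact limit of the Hilbert-Schmidt sums) -/

namespace Pool.Agent.H64.CX

open Metric Set Filter Topology MeasureTheory
open scoped ENNReal

/-- the Hilbert-Schmidt weights with the exact kernel -/
noncomputable def SN (α : ℂ) (μ : ℝ) (m k : ℕ) : ℝ :=
  (k : ℝ) * ((m : ℝ) + k + 1) ^ (-μ) / ‖rr α (m + k) - rr α k‖ ^ 2 *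
    ∑ n ∈ Finset.Icc 1 m, (n : ℝ) * ‖bt (1 - α) n‖ ^ 2 * ((m : ℝ) - n + 1) ^ μ *
      ‖1 / ((n : ℂ) + k) + 1 / ((m : ℂ) + k - n + α)‖ ^ 2

/-- the limit density in two variables -/
noncomputable def DD (α : ℂ) (σ x s : ℝ) : ℝ :=
  x * (1 + x) ^ (-(σ + 2 * α.re)) /
    (‖Complex.Gamma α‖ ^ 2 * ‖((1 + x : ℝ) : ℂ) ^ (1 - α) - (x : ℂ) ^ (1 - α)‖ ^ 2) *
    (s ^ (1 - 2 * α.re) * (1 - s) ^ (σ + 2 * α.re) / ‖Complex.Gamma (1 - α)‖ ^ 2) *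
    (1 / (s + x) + 1 / (1 + x - s)) ^ 2

/-- CX-UN: two-sided information on the coefficients of `(1 - x) ^ (-(1 - α))`, `-1/2 ≤ Re α ≤ 1/2` -/
def S_UN : Prop :=
  ∀ α : ℂ, -(1 / 2) ≤ α.re → α.re ≤ 1 / 2 →
    (∃ C : ℝ, 0 ≤ C ∧ ∀ n : ℕ, 1 ≤ n → ‖bt (1 - α) n‖ ^ 2 ≤ C * (n : ℝ) ^ (-(2 * α.re))) ∧
      Tendsto (fun n : ℕ => ‖bt (1 - α) n‖ ^ 2 * (n : ℝ) ^ (2 * α.re)) atTop
        (𝓝 (1 / ‖Complex.Gamma (1 - α)‖ ^ 2))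

/-- CX-RN: asymptotics and lower bound of the differences of `k! / (α)_k`, `-1/2 ≤ Re α ≤ 1/2` -/
def S_RN : Prop :=
  ∀ α : ℂ, α ≠ 0 → -(1 / 2) ≤ α.re → α.re ≤ 1 / 2 → |α.im| ≤ 1 / 2 →
    Tendsto (fun j : ℕ => rr α j / (j : ℂ) ^ (1 - α)) atTop (𝓝 (Complex.Gamma α)) ∧
      ∃ c : ℝ, 0 < c ∧ ∀ m k : ℕ, 1 ≤ m → 1 ≤ k →
        c * m * ((m : ℝ) + k) ^ (-α.re) ≤ ‖rr α (m + k) - rr α k‖

/-- CX-LIM2: the exact limit of the Hilbert-Schmidt sums (dominated convergence in two variables;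
from CX-UN, CX-RN) -/
def S_LIM2 : Prop :=
  S_UN → S_RN → ∀ (α : ℂ) (σ : ℝ), α ≠ 0 → -(1 / 2) ≤ α.re → α.re ≤ 1 / 2 → |α.im| ≤ 1 / 2 →
    0 < σ → -1 < σ + 2 * α.re →
    Tendsto (fun m : ℕ => ∑' k : ℕ, ENNReal.ofReal (SN α (σ + 2 * α.re) m (k + 1))) atTop
      (𝓝 (∫⁻ x in Ioi (0 : ℝ), ∫⁻ s in Ioo (0 : ℝ) 1, ENNReal.ofReal (DD α σ x s)))

/-- CX-FCH: the chord bound of the factor -/
def S_FCH : Prop :=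
  ∀ (α : ℂ) (x : ℝ), α.re ≤ 0 → ‖α‖ ≤ 3 / 8 → 0 < x →
    (1 + x) ^ (-(2 * α.re)) ≤ (1 / ‖1 - α‖ ^ 2 + (101 / 100 - 1 / ‖1 - α‖ ^ 2) / (1 + x)) *
      ‖((1 + x : ℝ) : ℂ) ^ (1 - α) - (x : ℂ) ^ (1 - α)‖ ^ 2

/-- CX-LA: the integral over `x`, first part -/
def S_LA : Prop :=
  ∀ σ s : ℝ, 0 < σ → 0 < s → s < 1 →
    ∫⁻ x in Ioi (0 : ℝ), ENNReal.ofReal (x * (1 + x) ^ (-σ) * (1 / (s + x) + 1 / (1 + x - s)) ^ 2) ≤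
      ENNReal.ofReal (4 / σ + max 0 (Real.log (1 / s) - 2) + max 0 (Real.log (1 / (1 - s)) - 2))

/-- CX-LB: the integral over `x`, second part -/
def S_LB : Prop :=
  ∀ σ s : ℝ, 0 ≤ σ → 0 < s → s < 1 →
    ∫⁻ x in Ioi (0 : ℝ), ENNReal.ofReal (x * (1 + x) ^ (-(1 + σ)) *
        (1 / (s + x) + 1 / (1 + x - s)) ^ 2) ≤
      ENNReal.ofReal (Real.log (1 / s) + Real.log (1 / (1 - s)) + 3 / 2 + 4 / 3 * (s * (1 - s)))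

/-- bound of the Beta integral -/
noncomputable def Bh (P Q : ℝ) : ℝ := 1 / (Q * (Q + 1)) * (1 - P * Q / (Q + 2))

/-- bound of the first logarithmic integral -/
noncomputable def L0 (Q : ℝ) : ℝ := 1 / (Q ^ 2 * (1 + 2 * Q + 2 * Q ^ 2)) + 1 / 100

/-- bound of the second logarithmic integral -/
noncomputable def L1 (Q : ℝ) : ℝ :=
  1 / Q ^ 2 - 1 / (Q + 1) ^ 2 + 3 / 2 / (Q * (Q + 1)) + 1 / (Q + 1) + 4 / 3 / ((Q + 1) * (Q + 2))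

/-- CX-LC: the integral over `s`, first part -/
def S_LC : Prop :=
  ∀ P σ : ℝ, 0 ≤ P → P ≤ 3 / 4 → 0 < σ → σ ≤ 1 → 9 / 16 ≤ 1 + σ - P →
    ∫⁻ s in Ioo (0 : ℝ) 1, ENNReal.ofReal (s ^ (1 + P) * (1 - s) ^ (σ - P) *
        (4 / σ + max 0 (Real.log (1 / s) - 2) + max 0 (Real.log (1 / (1 - s)) - 2))) ≤
      ENNReal.ofReal (4 / σ * Bh P (1 + σ - P) + L0 (1 + σ - P))

/-- CX-LD: the integral over `s`, second part -/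
def S_LD : Prop :=
  ∀ P σ : ℝ, 0 ≤ P → P ≤ 3 / 4 → 0 < σ → σ ≤ 1 → 9 / 16 ≤ 1 + σ - P →
    ∫⁻ s in Ioo (0 : ℝ) 1, ENNReal.ofReal (s ^ (1 + P) * (1 - s) ^ (σ - P) *
        (Real.log (1 / s) + Real.log (1 / (1 - s)) + 3 / 2 + 4 / 3 * (s * (1 - s)))) ≤
      ENNReal.ofReal (L1 (1 + σ - P))

/-- CX-NUM2: the rational inequality; the quotient of the sides is at most `0.9213` in the box
`0 ≤ e ≤ 3/8`, `0 ≤ N ≤ 9/64` -/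
def S_NUM2 : Prop :=
  ∀ e N : ℝ, 0 ≤ e → e ≤ 3 / 8 → 0 ≤ N → N ≤ 9 / 64 → e ^ 2 ≤ N →
    QQ (N - e ^ 2) (e ^ 2) * (9 / 5 * Bh (2 * e) (1 + 20 / 9 * N - 2 * e) +
      N * L0 (1 + 20 / 9 * N - 2 * e) +
      (101 / 100 * (1 + 2 * e + N) - 1) * N * L1 (1 + 20 / 9 * N - 2 * e)) < 1 + 2 * e + N

/-- CX-UBN: the limit is less than `1` (from the preceding statements) -/
def S_UBN : Prop :=
  S_SINQ → S_FCH → S_LA → S_LB → S_LC → S_LD → S_NUM2 → ∀ α : ℂ, α ≠ 0 → α.re ≤ 0 → ‖α‖ ≤ 3 / 8 →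
    ∫⁻ x in Ioi (0 : ℝ), ∫⁻ s in Ioo (0 : ℝ) 1, ENNReal.ofReal (DD α (20 / 9 * ‖α‖ ^ 2) x s) < 1

end Pool.Agent.H64.CX
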