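import Pool.Agent.H64.CX.Asm4
import Pool.Agent.H64.CX.LIM2
import Pool.Agent.H64.CX.LA
import Pool.Agent.H64.CX.LB
import Pool.Agent.H64.CX.NUM2
import Pool.Agent.H64.CX.RN
import Pool.Agent.H64.CX.FCH
import Pool.Agent.H64.CX.UBN
import Pool.Agent.H7.CY.A3
import Pool.Agent.H76.CY.ToQ1

set_option autoImplicit false

/-! # The bound for all exponents `|α| ≤ 3 / 8`, and the bound of the question -/

namespace Pool.Agent.H64.CX

open Metric Set Filter Topology MeasureTheory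
open Pool.Agent.W677.Mar Pool.Agent.W5h41.MA Pool.Agent.R250.MC

/-- The weighted area inequality, for all exponents and all weights. -/
theorem aw_all (α : ℂ) (μ : ℝ) : S_AW α μ := by
  intro Y H f ν S L hν ρ _
  exact Pool.Agent.H7.CY.area_w S L hν μ ρ

/-- **The bound for all exponents.** For all `t = - 2 (conj α)` with `0 < |t| ≤ 3 / 4` the means of
`|exp (conj t h)|` have the exponent `5 / 9 |t|²`. -/
theorem bd_all {α : ℂ} (hα : α ≠ 0) (h1 : ‖α‖ ≤ 3 / 8) : Bd α (20 / 9 * ‖α‖ ^ 2) := by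
  rcases le_or_gt 0 α.re with h0 | h0
  · exact bd_right hα h0 h1
  · exact bd_left rn lim2 fch la lb num2 ubn hα h0.le h1 (aw_all α _)

/-- **The bound of the question for all `a < 7 / 16`.** -/
theorem whole {a : ℝ} (ha0 : 0 < a) (ha : a < 7 / 16) :
    ∃ C : ℝ, ∀ R : ℝ, 1 < R → ∀ ψ h : ℂ → ℂ, IsSig ψ h →
      Pool.Agent.W5h49.MB.sM a R h ≤ C :=
  Pool.Agent.H76.CY.toQ1 (fun _ hα h1 => bd_all hα h1) a ha0 ha

end Pool.Agent.H64.CX
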